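import Pool.Graph.R_seed8.H370R2.Defs
import Pool.Graph.R_seed8.TH800.MS.Kb
import Pool.Graph.R_seed8.H370R2.Defs2
import Pool.Graph.R_seed8.H370R2.Local
import Pool.Graph.R_seed8.H370R2.DirGood
import Pool.Graph.R_seed8.H382P.EF0
import Pool.Graph.R_seed8.H382P.EF
import Pool.Graph.R_seed8.H382P.EFW
import Pool.Graph.R_seed8.H370R2.PC1
import Pool.Graph.R_seed8.TH800.MS.Ze

set_option autoImplicit false

/-! The explicit formula for the local sums over all zeros (on or off the critical line), on both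
sides of `0`, unconditionally. -/

open Complex Filter Topology Set MeasureTheory
open ArithmeticFunction (vonMangoldt vonMangoldt_nonneg vonMangoldt_apply_prime vonMangoldt_le_log)
open scoped ComplexConjugate

namespace Pool.Agent.Helper92.FM

open SP
open H370 (Zf good_zeta mult zz)
open Pool.Agent.TH800.MS (gau0 gau0_even P1 P1_neg_bound prime_side)

/-- the local sum over all zeros with ordinate in `(U1, U2]` -/
noncomputable def Zc (U1 U2 t v : ℝ) : ℂ :=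
  ∑ s ∈ Zf riemannZeta U1 U2, (mult riemannZeta s : ℂ) * cexp (-(zz s - t) ^ 2 / 2) *
    cexp (I * v * (zz s - t))

/-- the data of the explicit formula at height `T` -/
structure EFP (C T U1 U2 : ℝ) : Prop where
  hT : 10 ≤ T
  a1 : T ≤ U1
  a2 : U1 ≤ T + 1
  a3 : 2 * T - 1 ≤ U2
  a4 : U2 ≤ 2 * T
  ef : ∀ u t : ℝ, 0 ≤ u → u ≤ Real.log T → T + Real.log T ≤ t → t ≤ 2 * T - Real.log T →
    ‖Zc U1 U2 t u - (1 / Real.sqrt (2 * Real.pi) : ℝ) * ((Real.log T * Real.exp (-u ^ 2 / 2) : ℝ) -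
        ∑' n : ℕ, efa t n * (Real.exp (-(u - Real.log n) ^ 2 / 2) : ℂ))‖ ≤ C * Real.exp (-u)

lemma Zc_AA {U1 U2 : ℝ} (hU : 1 ≤ U1) (t v : ℝ) :
    Zc U1 U2 t v = cexp (-(I * v * t)) * H370.AA riemannZeta U1 U2 v t := by
  rw [H370.AA_eq good_zeta hU, Finset.mul_sum]
  unfold Zc
  refine Finset.sum_congr rfl fun s _ => ?_
  rw [H370.hh_eq]
  have : cexp (I * v * (zz s - t)) = cexp (-(I * v * t)) * cexp (I * v * zz s) := by
    rw [← Complex.exp_add]
    congr 1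
    ring
  rw [this]
  ring

theorem ef_exists : ∃ C T0 : ℝ, 0 < C ∧ 10 ≤ T0 ∧ ∀ T : ℝ, T0 ≤ T → ∃ U1 U2 : ℝ,
    EFP C T U1 U2 := by
  obtain ⟨C1, T1, hC1, hT1, hef⟩ := H370.ef_of good_zeta (H370.good_height good_zeta)
    (fun n => (ArithmeticFunction.vonMangoldt n : ℂ))
    (fun n => by
      rw [Complex.norm_real, Real.norm_eq_abs, abs_of_nonneg ArithmeticFunction.vonMangoldt_nonneg])
    H370.zeta_ld
  refine ⟨C1, T1, hC1, hT1, fun T hT => ?_⟩
  obtain ⟨U1, U2, h1, h2, h3, h4, h5⟩ := hef T hT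
  refine ⟨U1, U2, hT1.trans hT, h1, h2, h3, h4, fun u t hu huL ht1 ht2 => ?_⟩
  have h6 := h5 u t hu huL ht1 ht2
  have hn : ‖cexp (-(I * u * t))‖ = 1 := by
    have : -(I * u * t) = ((-(u * t) : ℝ) : ℂ) * I := by push_cast; ring
    rw [this, Complex.norm_exp_ofReal_mul_I]
  have hU : 1 ≤ U1 := by linarith
  have hP : (∑' n : ℕ, efa t n * (Real.exp (-(u - Real.log n) ^ 2 / 2) : ℂ)) =
      cexp (-(I * u * t)) * H370.PP (fun n => (ArithmeticFunction.vonMangoldt n : ℂ)) u t := by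
    rw [SP.PP_eq]
    rfl
  have hE : cexp (-(I * u * t)) * cexp (I * u * t) = 1 := by
    rw [← Complex.exp_add]; simp
  rw [Zc_AA hU, hP]
  have e : cexp (-(I * u * t)) * H370.AA riemannZeta U1 U2 u t -
      (1 / Real.sqrt (2 * Real.pi) : ℝ) * ((Real.log T * Real.exp (-u ^ 2 / 2) : ℝ) -
        cexp (-(I * u * t)) * H370.PP (fun n => (ArithmeticFunction.vonMangoldt n : ℂ)) u t) =
      cexp (-(I * u * t)) * (H370.AA riemannZeta U1 U2 u t -
          (1 / Real.sqrt (2 * Real.pi) : ℝ) * (Real.log T * cexp (I * u * t) *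
              Real.exp (-u ^ 2 / 2) - H370.PP (fun n =>
                (ArithmeticFunction.vonMangoldt n : ℂ)) u t)) := by
    push_cast
    linear_combination (-(1 / (Real.sqrt (2 * Real.pi) : ℂ)) * Real.log T *
      cexp (-(u : ℂ) ^ 2 / 2)) * hE.symm
  rw [e, norm_mul, hn, one_mul]
  exact h6

lemma Zc_conj {U1 U2 : ℝ} (hU : 1 ≤ U1) (t v : ℝ) : Zc U1 U2 t (-v) = conj (Zc U1 U2 t v) := by
  unfold Zc
  rw [map_sum, ← H370.sum_refl good_zeta hU]
  refine Finset.sum_congr rfl fun s hs => ?_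
  rw [H370.mem_Zf good_zeta hU] at hs
  rw [H370.zz_refl, H370.mult_refl good_zeta hs.1 hs.2.1 (by linarith [hs.2.2.1])]
  rw [map_mul, map_mul, ← Complex.exp_conj, ← Complex.exp_conj, Complex.conj_natCast]
  congr 2
  · congr 1
    have h2 : (starRingEnd ℂ) 2 = 2 := map_ofNat (starRingEnd ℂ) 2
    simp [h2]
  · simp

/-- the explicit formula, unconditionally -/
theorem Zform (C0 : ℝ) (hC0 : 0 < C0) (μ1 μ2 : ℝ) (h0 : 0 < μ1) (h12 : μ1 < μ2) (h1 : μ1 ≤ 1) :
    ∃ C : ℝ, 0 < C ∧ ∀ T U1 U2 : ℝ, EFP C0 T U1 U2 → ∀ t : ℝ,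
      T + Real.log T ≤ t → t ≤ 2 * T - Real.log T → ∀ N : ℕ,
      μ2 * Real.log T ≤ Real.log (N + 1) → ∀ v : ℝ, |v| ≤ μ1 * Real.log T →
      ‖Zc U1 U2 t v - (((Real.log T * gau0 v : ℝ) : ℂ) - P1 N t v - conj (P1 N t (-v)))‖ ≤ C := by
  obtain ⟨C2, hC2, h2⟩ := prime_side μ1 μ2 h0 h12
  obtain ⟨C3, hC3, h3⟩ := P1_neg_bound
  refine ⟨C0 + C2 + C3, by positivity, fun T U1 U2 hE t ht1 ht2 N hN => ?_⟩
  have hT10 : 10 ≤ T := hE.hT
  have hU : 1 ≤ U1 := by linarith [hE.a1]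
  have hL1 : 0 < Real.log T := Real.log_pos (by linarith)
  set L := Real.log T with hL
  have key : ∀ v : ℝ, 0 ≤ v → v ≤ μ1 * L →
      ‖Zc U1 U2 t v - (((L * gau0 v : ℝ) : ℂ) - P1 N t v - conj (P1 N t (-v)))‖ ≤
        C0 + C2 + C3 := by
    intro v hv hvL
    have hvL' : v ≤ L := by nlinarith
    have h4 := hE.ef v t hv hvL' ht1 ht2
    have h5 := h2 L N t v hL1 hN hv hvL
    have h6 := h3 N t v hv
    set S := ∑' n : ℕ, efa t n * (Real.exp (-(v - Real.log n) ^ 2 / 2) : ℂ) with hS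
    have e : Zc U1 U2 t v - (((L * gau0 v : ℝ) : ℂ) - P1 N t v - conj (P1 N t (-v))) =
        (Zc U1 U2 t v - (1 / Real.sqrt (2 * Real.pi) : ℝ) *
          ((Real.log T * Real.exp (-v ^ 2 / 2) : ℝ) - S)) -
        ((1 / Real.sqrt (2 * Real.pi) : ℝ) * S - P1 N t v) + conj (P1 N t (-v)) := by
      unfold gau0
      rw [← hL]
      push_cast
      ring
    rw [e]
    have h7 : C0 * Real.exp (-v) ≤ C0 := by
      have : Real.exp (-v) ≤ 1 := by rw [Real.exp_le_one_iff]; linarith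
      nlinarith
    have h8 : ‖conj (P1 N t (-v))‖ ≤ C3 := by rw [RCLike.norm_conj]; exact h6
    calc _ ≤ ‖(Zc U1 U2 t v - (1 / Real.sqrt (2 * Real.pi) : ℝ) *
          ((Real.log T * Real.exp (-v ^ 2 / 2) : ℝ) - S)) -
        ((1 / Real.sqrt (2 * Real.pi) : ℝ) * S - P1 N t v)‖ + ‖conj (P1 N t (-v))‖ :=
          norm_add_le _ _
      _ ≤ (C0 * Real.exp (-v) + C2) + C3 := by
          gcongr
          exact (norm_sub_le _ _).trans (add_le_add h4 h5)
      _ ≤ _ := by linarith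
  intro v hv
  rcases le_total 0 v with h | h
  · exact key v h ((le_abs_self v).trans hv)
  · have h5 := key (-v) (by linarith) ((neg_le_abs v).trans hv)
    rw [← RCLike.norm_conj] at h5
    refine le_trans (le_of_eq ?_) h5
    congr 1
    rw [map_sub, map_sub, map_sub, Zc_conj hU, neg_neg, gau0_even]
    simp only [conj_conj, conj_ofReal]
    ring

end Pool.Agent.Helper92.FM
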