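import Pool.Agent.Helper92.FM.Ker
import Pool.Agent.Helper92.FM.Ze
import Pool.Graph.R_seed8.H370R2.Defs
import Pool.Graph.R_seed8.TH800.MS.Kb
import Pool.Graph.R_seed8.TH800.MS.Pn
import Pool.Graph.R_seed8.H370R2.Defs2
import Pool.Graph.R_seed8.H370R2.PC1
import Pool.Graph.R_seed8.TH800.MS.Ze
import Pool.Graph.R_seed8.TH800.MS.Sd

set_option autoImplicit false

/-! The explicit formula for the local sums with a band limited window. -/

open Complex Filter Topology Set MeasureTheory
open scoped ComplexConjugate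

namespace Pool.Agent.Helper92.FM

open SP
open H370 (Zf good_zeta mult zz)
open Pool.Agent.TH800.MS

/-- the window with kernel `k` -/
noncomputable def Gk (k : ℝ → ℝ) (z : ℂ) : ℂ :=
  ∫ y in (-1 : ℝ)..1, (k y : ℂ) * cexp (I * y * z)

/-- the local sum over the zeros -/
noncomputable def fS (k : ℝ → ℝ) (U1 U2 b t u : ℝ) : ℂ :=
  ∑ s ∈ Zf riemannZeta U1 U2, (mult riemannZeta s : ℂ) * cexp (-(zz s - t) ^ 2 / 2) *
    Gk k (b * (zz s - t)) * cexp (I * u * (zz s - t))

/-- the prime sum -/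
noncomputable def Dk (k : ℝ → ℝ) (N : ℕ) (b t u : ℝ) : ℂ :=
  ∑ p ∈ PX N, ef t p * ((kap k b (Real.log p - u) : ℝ) : ℂ)

variable {k : ℝ → ℝ} {A b : ℝ}

lemma kkc_cont (h : Ker k A) : Continuous (fun y => (kk k b y : ℂ)) :=
  Complex.continuous_ofReal.comp (kk_cont h)

lemma kk_exp (hb : 0 < b) (z : ℂ) :
    ∫ y in (-b)..b, (kk k b y : ℂ) * cexp (I * y * z) = Gk k (b * z) := by
  unfold Gk
  have h1 := intervalIntegral.integral_comp_div (a := -b) (b := b)
    (fun y : ℝ => (k y : ℂ) * cexp (I * y * (b * z))) hb.ne'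
  rw [neg_div, div_self hb.ne'] at h1
  have h2 : ∀ y : ℝ, (kk k b y : ℂ) * cexp (I * y * z) =
      (1 / b : ℂ) * ((k (y / b) : ℂ) * cexp (I * ((y / b : ℝ) : ℂ) * (b * z))) := by
    intro y
    unfold kk
    have hb' : (b : ℂ) ≠ 0 := by exact_mod_cast hb.ne'
    have : I * ((y / b : ℝ) : ℂ) * (b * z) = I * y * z := by
      push_cast
      field_simp
    rw [this]
    push_cast
    ring
  simp_rw [h2]
  rw [intervalIntegral.integral_const_mul, h1, Complex.real_smul]
  have hb' : (b : ℂ) ≠ 0 := by exact_mod_cast hb.ne'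
  rw [← mul_assoc, one_div, inv_mul_cancel₀ hb', one_mul]

lemma Zc_cont (U1 U2 t : ℝ) : Continuous (Zc U1 U2 t) := by
  unfold Zc
  fun_prop

lemma fS_eq (h : Ker k A) (hb : 0 < b) (U1 U2 t u : ℝ) :
    ∫ y in (-b)..b, (kk k b y : ℂ) * Zc U1 U2 t (u + y) = fS k U1 U2 b t u := by
  unfold Zc fS
  simp_rw [Finset.mul_sum]
  rw [intervalIntegral.integral_finsetSum]
  · refine Finset.sum_congr rfl fun s _ => ?_
    have h1 : ∀ y : ℝ, (kk k b y : ℂ) * ((mult riemannZeta s : ℂ) *
        cexp (-(zz s - t) ^ 2 / 2) * cexp (I * ((u + y : ℝ) : ℂ) * (zz s - t))) =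
        ((mult riemannZeta s : ℂ) * cexp (-(zz s - t) ^ 2 / 2) *
          cexp (I * u * (zz s - t))) * ((kk k b y : ℂ) * cexp (I * y * (zz s - t))) := by
      intro y
      have : cexp (I * ((u + y : ℝ) : ℂ) * (zz s - t)) =
          cexp (I * u * (zz s - t)) * cexp (I * y * (zz s - t)) := by
        rw [← Complex.exp_add]
        congr 1
        push_cast
        ring
      rw [this]
      ring
    simp_rw [h1]
    rw [intervalIntegral.integral_const_mul, kk_exp hb]
    ring
  · intro s _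
    exact ((kkc_cont h).mul (by fun_prop)).intervalIntegrable _ _

lemma Dk_eq (h : Ker k A) (N : ℕ) (t u : ℝ) :
    ∫ y in (-b)..b, (kk k b y : ℂ) * P1 N t (u + y) = Dk k N b t u := by
  unfold P1 Dk
  simp_rw [Finset.mul_sum]
  rw [intervalIntegral.integral_finsetSum]
  · refine Finset.sum_congr rfl fun p _ => ?_
    have h1 : ∀ y : ℝ, (kk k b y : ℂ) * (ef t p * ((gau0 (u + y - Real.log p) : ℝ) : ℂ)) =
        ef t p * ((kk k b y * gau0 (y - (Real.log p - u)) : ℝ) : ℂ) := by
      intro y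
      have : u + y - Real.log p = y - (Real.log p - u) := by ring
      rw [this]
      push_cast
      ring
    simp_rw [h1]
    rw [intervalIntegral.integral_const_mul, intervalIntegral.integral_ofReal]
    rfl
  · intro p _
    exact ((kkc_cont h).mul (continuous_const.mul
      (Complex.continuous_ofReal.comp (gau0_cont.comp (by fun_prop))))).intervalIntegrable _ _

lemma kk_reflect (h : Ker k A) (f : ℝ → ℂ) :
    ∫ y in (-b)..b, (kk k b y : ℂ) * f (-y) = ∫ y in (-b)..b, (kk k b y : ℂ) * f y := by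
  have h1 := intervalIntegral.integral_comp_neg (a := -b) (b := b)
    (f := fun y => (kk k b y : ℂ) * f y)
  rw [neg_neg] at h1
  rw [← h1]
  simp only [kk_even h]

lemma Dk_eq' (h : Ker k A) (hb : 0 < b) (N : ℕ) (t u : ℝ) :
    ∫ y in (-b)..b, (kk k b y : ℂ) * conj (P1 N t (-(u + y))) = conj (Dk k N b t (-u)) := by
  have hconj : conj (Dk k N b t (-u)) =
      ∫ y in (-b)..b, conj ((kk k b y : ℂ) * P1 N t (-u + y)) := by
    rw [← Dk_eq h, intervalIntegral.integral_of_le (by linarith),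
      intervalIntegral.integral_of_le (by linarith), integral_conj]
  rw [hconj]
  have h2 := kk_reflect (b := b) h (fun y => conj (P1 N t (-u + y)))
  have h1 : ∀ y : ℝ, -(u + y) = -u + -y := fun y => by ring
  simp_rw [h1]
  rw [h2]
  refine intervalIntegral.integral_congr fun y _ => ?_
  simp only [map_mul, conj_ofReal]

lemma kap_eq_c (h : Ker k A) (L u : ℝ) :
    ∫ y in (-b)..b, (kk k b y : ℂ) * ((L * gau0 (u + y) : ℝ) : ℂ) =
      ((L * kap k b u : ℝ) : ℂ) := by
  have h2 := kk_reflect (b := b) h (fun y => ((L * gau0 (u - y) : ℝ) : ℂ))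
  have h1 : ∀ y : ℝ, u - -y = u + y := fun y => by ring
  simp only [h1] at h2
  rw [h2]
  have h2 : ∀ y : ℝ, (kk k b y : ℂ) * ((L * gau0 (u - y) : ℝ) : ℂ) =
      ((L * (kk k b y * gau0 (y - u)) : ℝ) : ℂ) := by
    intro y
    rw [← gau0_even (y - u), neg_sub]
    push_cast
    ring
  simp_rw [h2]
  rw [intervalIntegral.integral_ofReal, intervalIntegral.integral_const_mul]
  rfl

/-- the explicit formula in short windows -/
theorem fSform (C0 : ℝ) (hC0 : 0 < C0) (μ1 μ2 : ℝ) (h0 : 0 < μ1) (h12 : μ1 < μ2) (h1 : μ1 ≤ 1) :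
    ∃ C : ℝ, 0 < C ∧ ∀ (k : ℝ → ℝ) (A : ℝ), Ker k A → ∀ T U1 U2 : ℝ, EFP C0 T U1 U2 → ∀ t : ℝ,
      T + Real.log T ≤ t → t ≤ 2 * T - Real.log T → ∀ N : ℕ,
      μ2 * Real.log T ≤ Real.log (N + 1) → ∀ b u : ℝ, 0 < b → |u| + b ≤ μ1 * Real.log T →
      ‖fS k U1 U2 b t u - (((Real.log T * kap k b u : ℝ) : ℂ) - Dk k N b t u -
        conj (Dk k N b t (-u)))‖ ≤ C * A := by
  obtain ⟨C, hC, h⟩ := Zform C0 hC0 μ1 μ2 h0 h12 h1
  refine ⟨C, hC, fun k A hk T U1 U2 hE t ht1 ht2 N hN b u hb hu => ?_⟩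
  set L := Real.log T with hL
  have hgc : Continuous fun y : ℝ => ((L * gau0 (u + y) : ℝ) : ℂ) :=
    Complex.continuous_ofReal.comp (continuous_const.mul (gau0_cont.comp (by fun_prop)))
  have hP1 : Continuous fun y : ℝ => P1 N t (u + y) := (P1_cont N t).comp (by fun_prop)
  have hP2 : Continuous fun y : ℝ => conj (P1 N t (-(u + y))) :=
    Complex.continuous_conj.comp ((P1_cont N t).comp (by fun_prop))
  have hZ : Continuous fun y : ℝ => Zc U1 U2 t (u + y) := (Zc_cont U1 U2 t).comp (by fun_prop)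
  have e : fS k U1 U2 b t u - (((L * kap k b u : ℝ) : ℂ) - Dk k N b t u -
      conj (Dk k N b t (-u))) =
      ∫ y in (-b)..b, (kk k b y : ℂ) * (Zc U1 U2 t (u + y) - (((L * gau0 (u + y) : ℝ) : ℂ) -
        P1 N t (u + y) - conj (P1 N t (-(u + y))))) := by
    rw [← fS_eq hk hb, ← kap_eq_c hk, ← Dk_eq hk, ← Dk_eq' hk hb]
    have i1 : IntervalIntegrable (fun y => (kk k b y : ℂ) * ((L * gau0 (u + y) : ℝ) : ℂ))
      volume (-b) b := ((kkc_cont hk).mul hgc).intervalIntegrable _ _
    have i2 : IntervalIntegrable (fun y => (kk k b y : ℂ) * P1 N t (u + y))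
      volume (-b) b := ((kkc_cont hk).mul hP1).intervalIntegrable _ _
    have i3 : IntervalIntegrable (fun y => (kk k b y : ℂ) * conj (P1 N t (-(u + y))))
      volume (-b) b := ((kkc_cont hk).mul hP2).intervalIntegrable _ _
    have i4 : IntervalIntegrable (fun y => (kk k b y : ℂ) * Zc U1 U2 t (u + y))
      volume (-b) b := ((kkc_cont hk).mul hZ).intervalIntegrable _ _
    have i5 : IntervalIntegrable (fun y => (kk k b y : ℂ) * ((L * gau0 (u + y) : ℝ) : ℂ) -
      (kk k b y : ℂ) * P1 N t (u + y)) volume (-b) b := i1.sub i2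
    have i6 : IntervalIntegrable (fun y => (kk k b y : ℂ) * ((L * gau0 (u + y) : ℝ) : ℂ) -
      (kk k b y : ℂ) * P1 N t (u + y) - (kk k b y : ℂ) * conj (P1 N t (-(u + y))))
      volume (-b) b := i5.sub i3
    rw [← intervalIntegral.integral_sub i1 i2, ← intervalIntegral.integral_sub i5 i3,
      ← intervalIntegral.integral_sub i4 i6]
    refine intervalIntegral.integral_congr fun y _ => ?_
    ring
  rw [e]
  calc ‖∫ y in (-b)..b, (kk k b y : ℂ) * (Zc U1 U2 t (u + y) -
        (((L * gau0 (u + y) : ℝ) : ℂ) -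
        P1 N t (u + y) - conj (P1 N t (-(u + y)))))‖ ≤ ∫ y in (-b)..b, (A * kb b y) * C := by
        apply intervalIntegral.norm_integral_le_of_norm_le (by linarith)
        · refine Eventually.of_forall fun y hy => ?_
          rw [norm_mul, Complex.norm_real, Real.norm_eq_abs]
          apply mul_le_mul (kk_abs hk hb y) _ (norm_nonneg _)
            (mul_nonneg hk.A0.le (kb_nonneg hb y))
          apply h T U1 U2 hE t ht1 ht2 N hN
          have h3 : |y| ≤ b := abs_le.2 ⟨hy.1.le, hy.2⟩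
          exact (abs_add_le u y).trans (by linarith)
        · exact ((continuous_const.mul kb_cont).mul continuous_const).intervalIntegrable _ _
    _ = C * A := by
        rw [intervalIntegral.integral_mul_const, intervalIntegral.integral_const_mul, kb_int hb]
        ring

end Pool.Agent.Helper92.FM
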