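import Pool.Graph.R_seed8.TH800.MS.Kb
import Pool.Graph.R_seed8.TH800.MS.Sd

set_option autoImplicit false

/-! The Fejér kernel as an entire function. -/

open Complex Filter Topology Set MeasureTheory
open scoped ComplexConjugate

namespace Pool.Agent.Helper92.FM

open Pool.Agent.TH800.MS

/-- the Fejér kernel -/
noncomputable def Ff (z : ℂ) : ℂ :=
  ∫ y in (-(1 / 2) : ℝ)..(1 / 2), (kb (1 / 2) y : ℂ) * cexp (I * y * z)

lemma Ff_real (x : ℝ) : Ff x = ((Real.sinc (x / 4) ^ 2 : ℝ) : ℂ) := by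
  have h := kb_exp (b := 1 / 2) (by norm_num) x
  unfold Ff
  have e : (1 / 2 : ℝ) * x / 2 = x / 4 := by ring
  rw [e] at h
  rw [← h]
  refine intervalIntegral.integral_congr fun y _ => ?_
  show (kb (1 / 2) y : ℂ) * cexp (I * y * x) = (kb (1 / 2) y : ℂ) * cexp (I * ((y * x : ℝ) : ℂ))
  push_cast
  rw [mul_assoc]

lemma norm_exp_Iyz (y : ℝ) (z : ℂ) : ‖cexp (I * y * z)‖ = Real.exp (-(y * z.im)) := by
  rw [Complex.norm_exp]
  congr 1
  simp [Complex.mul_re, Complex.mul_im]

lemma Ff_norm (z : ℂ) : ‖Ff z‖ ≤ Real.exp (|z.im| / 2) := by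
  unfold Ff
  have h1 : ∀ y ∈ Set.Icc (-(1 / 2) : ℝ) (1 / 2), ‖(kb (1 / 2) y : ℂ) * cexp (I * y * z)‖ ≤
      kb (1 / 2) y * Real.exp (|z.im| / 2) := by
    intro y hy
    rw [norm_mul, Complex.norm_real, Real.norm_of_nonneg (kb_nonneg (by norm_num) y), norm_exp_Iyz]
    apply mul_le_mul_of_nonneg_left _ (kb_nonneg (by norm_num) y)
    apply Real.exp_le_exp.2
    have hy2 : |y| ≤ 1 / 2 := abs_le.2 ⟨by linarith [hy.1], hy.2⟩
    calc -(y * z.im) ≤ |y * z.im| := neg_le_abs _
      _ = |y| * |z.im| := abs_mul _ _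
      _ ≤ 1 / 2 * |z.im| := by gcongr
      _ = |z.im| / 2 := by ring
  have h2 := intervalIntegral.norm_integral_le_of_norm_le (a := (-(1 / 2) : ℝ)) (b := 1 / 2)
    (μ := volume) (g := fun y => kb (1 / 2) y * Real.exp (|z.im| / 2)) (by norm_num)
    (Eventually.of_forall fun y hy => h1 y ⟨hy.1.le, hy.2⟩)
    ((kb_cont.mul continuous_const).intervalIntegrable _ _)
  refine h2.trans ?_
  rw [intervalIntegral.integral_mul_const]
  have h3 := kb_int (b := 1 / 2) (by norm_num)
  rw [h3, one_mul]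

/-- closed form -/
lemma Ff_closed {z : ℂ} (hz : z ≠ 0) : Ff z * z ^ 2 = 8 * (1 - Complex.cos (z / 2)) := by
  have h1 : Ff z = 2 * ∫ y in (0 : ℝ)..(1 / 2), (kb (1 / 2) y : ℂ) * Complex.cos (y * z) := by
    unfold Ff
    have hc : Continuous fun y : ℝ => (kb (1 / 2) y : ℂ) * cexp (I * y * z) :=
      (Complex.continuous_ofReal.comp kb_cont).mul (by fun_prop)
    rw [← intervalIntegral.integral_add_adjacent_intervals (b := 0)
      (hc.intervalIntegrable _ _) (hc.intervalIntegrable _ _)]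
    have h2 : ∫ y in (-(1 / 2) : ℝ)..0, (kb (1 / 2) y : ℂ) * cexp (I * y * z) =
        ∫ y in (0 : ℝ)..(1 / 2), (kb (1 / 2) y : ℂ) * cexp (-(I * y * z)) := by
      have h3 := intervalIntegral.integral_comp_neg (a := 0) (b := 1 / 2)
        (f := fun y : ℝ => (kb (1 / 2) y : ℂ) * cexp (I * y * z))
      rw [neg_zero] at h3
      rw [← h3]
      refine intervalIntegral.integral_congr fun y _ => ?_
      show (kb (1 / 2) (-y) : ℂ) * cexp (I * ((-y : ℝ) : ℂ) * z) =
        (kb (1 / 2) y : ℂ) * cexp (-(I * y * z))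
      rw [kb_even]
      congr 2
      push_cast
      ring
    rw [h2, ← intervalIntegral.integral_add, ← intervalIntegral.integral_const_mul]
    · refine intervalIntegral.integral_congr fun y _ => ?_
      show (kb (1 / 2) y : ℂ) * cexp (-(I * y * z)) + (kb (1 / 2) y : ℂ) * cexp (I * y * z) =
        2 * ((kb (1 / 2) y : ℂ) * Complex.cos (y * z))
      rw [Complex.cos]
      have e1 : (y : ℂ) * z * I = I * y * z := by ring
      have e2 : -((y : ℂ) * z) * I = -(I * y * z) := by ring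
      rw [e1, e2]
      ring
    · exact ((Complex.continuous_ofReal.comp kb_cont).mul (by fun_prop)).intervalIntegrable _ _
    · exact hc.intervalIntegrable _ _
  have h2 : ∫ y in (0 : ℝ)..(1 / 2), (kb (1 / 2) y : ℂ) * Complex.cos (y * z) =
      ∫ y in (0 : ℝ)..(1 / 2), 2 * ((1 - 2 * (y : ℂ)) * Complex.cos (y * z)) := by
    refine intervalIntegral.integral_congr fun y hy => ?_
    rw [Set.uIcc_of_le (by norm_num)] at hy
    show (kb (1 / 2) y : ℂ) * Complex.cos (y * z) = 2 * ((1 - 2 * (y : ℂ)) * Complex.cos (y * z))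
    rw [kb_pos_part (by norm_num) hy.1 hy.2]
    push_cast
    ring
  have h3 : ∫ y in (0 : ℝ)..(1 / 2), (1 - 2 * (y : ℂ)) * Complex.cos (y * z) =
      (2 - 2 * Complex.cos (z / 2)) / z ^ 2 := by
    have hd : ∀ y ∈ Set.uIcc (0 : ℝ) (1 / 2), HasDerivAt (fun y : ℝ =>
        (1 - 2 * (y : ℂ)) * Complex.sin (y * z) / z - 2 * Complex.cos (y * z) / z ^ 2)
        ((1 - 2 * (y : ℂ)) * Complex.cos (y * z)) y := by
      intro y _
      have hid : HasDerivAt (fun y : ℝ => (y : ℂ)) 1 y := Complex.ofRealCLM.hasDerivAt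
      have h4 : HasDerivAt (fun y : ℝ => (y : ℂ) * z) (1 * z) y := hid.mul_const z
      have h5 : HasDerivAt (fun y : ℝ => Complex.sin ((y : ℂ) * z))
          (Complex.cos ((y : ℂ) * z) * (1 * z)) y :=
        (Complex.hasDerivAt_sin _).comp y h4
      have h6 : HasDerivAt (fun y : ℝ => Complex.cos ((y : ℂ) * z))
          (-Complex.sin ((y : ℂ) * z) * (1 * z)) y :=
        (Complex.hasDerivAt_cos _).comp y h4
      have h7 : HasDerivAt (fun y : ℝ => 1 - 2 * (y : ℂ)) (-(2 * 1)) y := by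
        have := (hid.const_mul (2 : ℂ)).const_sub 1
        exact this
      have h8 := ((h7.mul h5).div_const z).sub ((h6.const_mul 2).div_const (z ^ 2))
      refine HasDerivAt.congr_deriv h8 ?_
      field_simp
      ring
    rw [intervalIntegral.integral_eq_sub_of_hasDerivAt hd
      (by apply Continuous.intervalIntegrable; fun_prop)]
    have e1 : (((1 / 2 : ℝ) : ℂ)) * z = z / 2 := by push_cast; ring
    rw [e1]
    push_cast
    simp only [zero_mul, Complex.sin_zero, Complex.cos_zero]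
    ring
  rw [h1, h2, intervalIntegral.integral_const_mul, h3]
  field_simp
  ring

lemma norm_cos_le (z : ℂ) : ‖Complex.cos z‖ ≤ Real.exp |z.im| := by
  rw [Complex.cos, norm_div]
  have h1 : ‖cexp (z * I)‖ ≤ Real.exp |z.im| := by
    rw [Complex.norm_exp]
    apply Real.exp_le_exp.2
    simp
    exact neg_le_abs _
  have h2 : ‖cexp (-z * I)‖ ≤ Real.exp |z.im| := by
    rw [Complex.norm_exp]
    apply Real.exp_le_exp.2
    simp
    exact le_abs_self _
  have h3 := norm_add_le (cexp (z * I)) (cexp (-z * I))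
  have h4 : ‖(2 : ℂ)‖ = 2 := by simp
  rw [h4, div_le_iff₀ (by norm_num)]
  linarith

lemma Ff_decay (z : ℂ) : ‖Ff z‖ * z.re ^ 2 ≤ 16 * Real.exp (|z.im| / 2) := by
  rcases eq_or_ne z 0 with rfl | hz
  · simp
  · have h1 := Ff_closed hz
    have h2 : ‖Ff z‖ * ‖z‖ ^ 2 = 8 * ‖1 - Complex.cos (z / 2)‖ := by
      rw [← norm_pow, ← norm_mul, h1, norm_mul]
      simp
    have h3 : z.re ^ 2 ≤ ‖z‖ ^ 2 := by
      rw [← sq_abs]
      exact pow_le_pow_left₀ (abs_nonneg _) (Complex.abs_re_le_norm z) 2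
    have h4 : ‖1 - Complex.cos (z / 2)‖ ≤ 2 * Real.exp (|z.im| / 2) := by
      have h5 := norm_sub_le (1 : ℂ) (Complex.cos (z / 2))
      have h6 := norm_cos_le (z / 2)
      have h7 : (z / 2).im = z.im / 2 := by simp
      rw [h7, abs_div, abs_two] at h6
      have h8 : (1 : ℝ) ≤ Real.exp (|z.im| / 2) := Real.one_le_exp (by positivity)
      rw [norm_one] at h5
      linarith
    calc ‖Ff z‖ * z.re ^ 2 ≤ ‖Ff z‖ * ‖z‖ ^ 2 := by gcongr
      _ = 8 * ‖1 - Complex.cos (z / 2)‖ := h2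
      _ ≤ 8 * (2 * Real.exp (|z.im| / 2)) := by gcongr
      _ = _ := by ring

lemma Ff_bound (z : ℂ) : ‖Ff z‖ ≤ 17 * Real.exp (|z.im| / 2) * (1 + z.re ^ 2)⁻¹ := by
  have h1 := Ff_decay z
  have h2 := Ff_norm z
  have h3 : 0 < 1 + z.re ^ 2 := by positivity
  rw [← div_eq_mul_inv, le_div_iff₀ h3]
  nlinarith

lemma Ff_conj (z : ℂ) : Ff (conj z) = conj (Ff z) := by
  have hconj : conj (Ff z) =
      ∫ y in (-(1 / 2) : ℝ)..(1 / 2), conj ((kb (1 / 2) y : ℂ) * cexp (I * y * z)) := by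
    unfold Ff
    rw [intervalIntegral.integral_of_le (by norm_num),
      intervalIntegral.integral_of_le (by norm_num), integral_conj]
  rw [hconj]
  have h3 := intervalIntegral.integral_comp_neg (a := -(1 / 2)) (b := 1 / 2)
    (f := fun y : ℝ => conj ((kb (1 / 2) y : ℂ) * cexp (I * y * z)))
  rw [neg_neg] at h3
  rw [← h3]
  unfold Ff
  refine intervalIntegral.integral_congr fun y _ => ?_
  show (kb (1 / 2) y : ℂ) * cexp (I * y * conj z) =
    conj ((kb (1 / 2) (-y) : ℂ) * cexp (I * ((-y : ℝ) : ℂ) * z))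
  rw [map_mul, conj_ofReal, kb_even, ← Complex.exp_conj]
  congr 2
  simp

/-- its integral over the line -/
noncomputable def I0 : ℝ := ∫ x : ℝ, Real.sinc (x / 4) ^ 2

/-- `sinc (x / 4) ^ 2` -/
noncomputable def sf (x : ℝ) : ℝ := Real.sinc (x / 4) ^ 2

lemma sf_nonneg (x : ℝ) : 0 ≤ sf x := by unfold sf; positivity

lemma sf_cont : Continuous sf := by
  unfold sf
  exact (Real.continuous_sinc.comp (by fun_prop)).pow 2

lemma sf_bound (x : ℝ) : sf x ≤ 17 * (1 + x ^ 2)⁻¹ := by
  have h1 := Ff_bound (x : ℂ)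
  rw [Ff_real, Complex.norm_real, Real.norm_of_nonneg (by positivity)] at h1
  simpa [sf] using h1

lemma sf_int : Integrable sf := by
  refine Integrable.mono' (integrable_inv_one_add_sq.const_mul 17) sf_cont.aestronglyMeasurable
    (Eventually.of_forall fun x => ?_)
  rw [Real.norm_of_nonneg (sf_nonneg x)]
  exact sf_bound x

lemma I0_pos : 0 < I0 := by
  have h1 : ∫ x in (0 : ℝ)..1, sf x ≤ I0 := by
    rw [intervalIntegral.integral_of_le (by norm_num)]
    exact setIntegral_le_integral sf_int (Eventually.of_forall sf_nonneg)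
  have h2 : 0 < ∫ x in (0 : ℝ)..1, sf x := by
    apply intervalIntegral.intervalIntegral_pos_of_pos_on (sf_cont.intervalIntegrable _ _) _
      (by norm_num)
    intro x hx
    unfold sf
    have : 0 < Real.sinc (x / 4) := by
      rw [Real.sinc_of_ne_zero (by linarith [hx.1])]
      apply div_pos _ (by linarith [hx.1])
      apply Real.sin_pos_of_pos_of_lt_pi (by linarith [hx.1])
      have := Real.pi_gt_three
      linarith [hx.2]
    positivity
  linarith

/-- a Gauss type majorant -/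
noncomputable def P2 (x : ℝ) : ℝ := (1 + x ^ 2)⁻¹

end Pool.Agent.Helper92.FM
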