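import Pool.Agent.Helper92.FM.Ker
import Pool.Agent.Helper92.FM.Sd
import Pool.Agent.Helper92.FM.Wn1
import Pool.Graph.R_seed8.TH800.MS.Kb

set_option autoImplicit false

/-! The flat-top window. -/

open Complex Filter Topology Set MeasureTheory
open scoped ComplexConjugate

namespace Pool.Agent.Helper92.FM

open Pool.Agent.TH800.MS

theorem swapC {a b c d : ℝ} (h1 : a ≤ b) (h2 : c ≤ d) {F : ℝ → ℝ → ℂ}
    (hF : Continuous (Function.uncurry F)) :
    ∫ x in a..b, ∫ y in c..d, F x y = ∫ y in c..d, ∫ x in a..b, F x y := by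
  simp only [intervalIntegral.integral_of_le h1, intervalIntegral.integral_of_le h2]
  apply integral_integral_swap
  rw [Measure.prod_restrict]
  have : IntegrableOn (Function.uncurry F) (Icc a b ×ˢ Icc c d) (volume.prod volume) :=
    hF.continuousOn.integrableOn_compact (isCompact_Icc.prod isCompact_Icc)
  exact this.mono_set (prod_mono Ioc_subset_Icc_self Ioc_subset_Icc_self)

/-- `∫ cos` -/
noncomputable def cn (n y : ℝ) : ℝ := ∫ s in (-n)..n, Real.cos (s * y)

/-- half of the flat-top kernel -/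
noncomputable def k0 (n y : ℝ) : ℝ := 1 / I0 * (kb (1 / 2) y * cn n y)

/-- the flat-top kernel -/
noncomputable def k1 (n a : ℝ) : ℝ := ∫ x in (-(1 / 2) : ℝ)..(1 / 2), k0 n x * k0 n (a - x)

/-- the flat-top window -/
noncomputable def g1 (n : ℝ) (z : ℂ) : ℂ :=
  ∫ y in (-(1 / 2) : ℝ)..(1 / 2), (k0 n y : ℂ) * cexp (I * y * z)

lemma cn_even (n y : ℝ) : cn n (-y) = cn n y := by
  unfold cn
  simp only [mul_neg, Real.cos_neg]

lemma cn_abs {n : ℝ} (hn : 0 ≤ n) (y : ℝ) : |cn n y| ≤ 2 * n := by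
  unfold cn
  have h := intervalIntegral.norm_integral_le_of_norm_le_const (a := -n) (b := n) (C := 1)
    (f := fun s => Real.cos (s * y)) (fun s _ => by
      rw [Real.norm_eq_abs]; exact Real.abs_cos_le_one _)
  rw [Real.norm_eq_abs] at h
  refine h.trans (le_of_eq ?_)
  rw [one_mul, sub_neg_eq_add, abs_of_nonneg (by linarith)]
  ring

lemma cos_lip (a b : ℝ) : |Real.cos a - Real.cos b| ≤ |a - b| := by
  have h := Real.cos_sub_cos a b
  rw [h, abs_mul, abs_mul, abs_neg, abs_two]
  have h1 := Real.abs_sin_le_one ((a + b) / 2)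
  have h2 : |Real.sin ((a - b) / 2)| ≤ |(a - b) / 2| := Real.abs_sin_le_abs
  rw [abs_div, abs_two] at h2
  calc 2 * |Real.sin ((a + b) / 2)| * |Real.sin ((a - b) / 2)| ≤
      2 * 1 * (|a - b| / 2) := by gcongr
    _ = |a - b| := by ring

lemma cn_lip {n : ℝ} (hn : 0 ≤ n) (x y : ℝ) : |cn n x - cn n y| ≤ 2 * n * n * |x - y| := by
  unfold cn
  rw [← intervalIntegral.integral_sub (by apply Continuous.intervalIntegrable; fun_prop)
    (by apply Continuous.intervalIntegrable; fun_prop)]
  have h := intervalIntegral.norm_integral_le_of_norm_le_const (a := -n) (b := n)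
    (C := n * |x - y|) (f := fun s => Real.cos (s * x) - Real.cos (s * y)) (fun s hs => by
      rw [Real.norm_eq_abs]
      refine (cos_lip _ _).trans ?_
      rw [← mul_sub, abs_mul]
      apply mul_le_mul_of_nonneg_right _ (abs_nonneg _)
      rw [Set.uIoc_of_le (by linarith)] at hs
      exact abs_le.2 ⟨hs.1.le, hs.2⟩)
  rw [Real.norm_eq_abs] at h
  refine h.trans (le_of_eq ?_)
  rw [sub_neg_eq_add, abs_of_nonneg (by linarith : 0 ≤ n + n)]
  ring

lemma k0_even (n y : ℝ) : k0 n (-y) = k0 n y := by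
  unfold k0
  rw [kb_even, cn_even]

lemma k0_zero {n y : ℝ} (hy : 1 / 2 ≤ |y|) : k0 n y = 0 := by
  unfold k0
  rw [kb_zero (by norm_num) hy]
  ring

/-- size of `k0` -/
noncomputable def K0 (n : ℝ) : ℝ := 1 / I0 * (4 * n)

/-- Lipschitz constant of `k0` -/
noncomputable def L0 (n : ℝ) : ℝ := 1 / I0 * (8 * n + 4 * n * n)

lemma K0_nonneg {n : ℝ} (hn : 0 ≤ n) : 0 ≤ K0 n := by
  unfold K0
  have := I0_pos
  positivity

lemma L0_nonneg {n : ℝ} (hn : 0 ≤ n) : 0 ≤ L0 n := by
  unfold L0
  have := I0_pos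
  positivity

lemma k0_abs {n : ℝ} (hn : 0 ≤ n) (y : ℝ) : |k0 n y| ≤ K0 n := by
  unfold k0 K0
  have hI := I0_pos
  rw [abs_mul, abs_of_pos (by positivity : 0 < 1 / I0), abs_mul,
    abs_of_nonneg (kb_nonneg (by norm_num) y)]
  apply mul_le_mul_of_nonneg_left _ (by positivity)
  have h1 := kb_le (b := 1 / 2) (by norm_num) y
  have h2 := cn_abs hn y
  have h3 : (1 : ℝ) / (1 / 2) = 2 := by norm_num
  rw [h3] at h1
  calc kb (1 / 2) y * |cn n y| ≤ 2 * (2 * n) := by
        gcongr
    _ = 4 * n := by ring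

lemma k0_lip {n : ℝ} (hn : 0 ≤ n) (x y : ℝ) : |k0 n x - k0 n y| ≤ L0 n * |x - y| := by
  unfold k0 L0
  have hI := I0_pos
  rw [← mul_sub, abs_mul, abs_of_pos (by positivity : 0 < 1 / I0), mul_assoc]
  apply mul_le_mul_of_nonneg_left _ (by positivity)
  have h1 := kb_le (b := 1 / 2) (by norm_num) y
  have h2 := cn_abs hn x
  have h3 : (1 : ℝ) / (1 / 2) = 2 := by norm_num
  rw [h3] at h1
  have h4 := kb_lip (b := 1 / 2) (by norm_num) x y
  have h5 : (1 : ℝ) / (1 / 2) ^ 2 = 4 := by norm_num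
  rw [h5] at h4
  have h6 := cn_lip hn x y
  have h7 := kb_nonneg (b := 1 / 2) (by norm_num) y
  calc |kb (1 / 2) x * cn n x - kb (1 / 2) y * cn n y| =
      |(kb (1 / 2) x - kb (1 / 2) y) * cn n x + kb (1 / 2) y * (cn n x - cn n y)| := by
        congr 1; ring
    _ ≤ |(kb (1 / 2) x - kb (1 / 2) y) * cn n x| + |kb (1 / 2) y * (cn n x - cn n y)| :=
        abs_add_le _ _
    _ = |kb (1 / 2) x - kb (1 / 2) y| * |cn n x| + kb (1 / 2) y * |cn n x - cn n y| := by
        rw [abs_mul, abs_mul, abs_of_nonneg h7]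
    _ ≤ 4 * |x - y| * (2 * n) + 2 * (2 * n * n * |x - y|) := by gcongr
    _ = (8 * n + 4 * n * n) * |x - y| := by ring

lemma k0_cont {n : ℝ} (hn : 0 ≤ n) : Continuous (k0 n) := by
  have hl : LipschitzWith (Real.toNNReal (L0 n)) (k0 n) := by
    apply LipschitzWith.of_dist_le_mul
    intro x y
    rw [Real.dist_eq, Real.dist_eq, Real.coe_toNNReal _ (L0_nonneg hn)]
    exact k0_lip hn x y
  exact hl.continuous

lemma k1_even (n a : ℝ) : k1 n (-a) = k1 n a := by
  unfold k1
  have h := intervalIntegral.integral_comp_neg (a := -(1 / 2 : ℝ)) (b := 1 / 2)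
    (f := fun x => k0 n x * k0 n (a - x))
  rw [neg_neg] at h
  rw [← h]
  refine intervalIntegral.integral_congr fun x _ => ?_
  show k0 n x * k0 n (-a - x) = k0 n (-x) * k0 n (a - -x)
  rw [k0_even n x]
  have : -a - x = -(a - -x) := by ring
  rw [this, k0_even]

/-- size of `k1` -/
noncomputable def A1 (n : ℝ) : ℝ := 1 + K0 n * L0 n

theorem ker1 {n : ℝ} (hn : 0 ≤ n) : Ker (k1 n) (A1 n) where
  A1 := by
    unfold A1
    have := mul_nonneg (K0_nonneg hn) (L0_nonneg hn)
    linarith
  even := k1_even n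
  lip := by
    intro x y
    have hK := K0_nonneg hn
    have hL := L0_nonneg hn
    have hc := k0_cont hn
    unfold k1
    rw [← intervalIntegral.integral_sub (by apply Continuous.intervalIntegrable; fun_prop)
      (by apply Continuous.intervalIntegrable; fun_prop)]
    have h := intervalIntegral.norm_integral_le_of_norm_le_const (a := -(1 / 2 : ℝ)) (b := 1 / 2)
      (C := K0 n * (L0 n * |x - y|))
      (f := fun s => k0 n s * k0 n (x - s) - k0 n s * k0 n (y - s)) (fun s hs => by
        rw [Real.norm_eq_abs, ← mul_sub, abs_mul]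
        have h1 := k0_abs hn s
        have h2 := k0_lip hn (x - s) (y - s)
        have h3 : x - s - (y - s) = x - y := by ring
        rw [h3] at h2
        gcongr)
    rw [Real.norm_eq_abs] at h
    refine h.trans ?_
    have h4 : |(1 / 2 : ℝ) - -(1 / 2)| = 1 := by norm_num
    rw [h4, mul_one]
    unfold A1
    have : 0 ≤ |x - y| := abs_nonneg _
    nlinarith
  supp := by
    intro a ha
    unfold k1
    rw [intervalIntegral.integral_congr (g := fun _ => (0 : ℝ))]
    · simp
    · intro x hx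
      rw [Set.uIcc_of_le (by norm_num)] at hx
      show k0 n x * k0 n (a - x) = 0
      rw [k0_zero (y := a - x), mul_zero]
      have h1 : |x| ≤ 1 / 2 := abs_le.2 ⟨by linarith [hx.1], hx.2⟩
      have h2 := abs_sub_abs_le_abs_sub a x
      linarith

lemma k0_support {n : ℝ} {f : ℝ → ℂ} {c d : ℝ} (hc : c ≤ -(1 / 2)) (hd : 1 / 2 ≤ d) :
    Function.support (fun y => (k0 n y : ℂ) * f y) ⊆ Set.Ioc c d := by
  intro y hy
  rw [Function.mem_support] at hy
  have hk : k0 n y ≠ 0 := by
    intro h0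
    apply hy
    rw [h0]
    simp
  have h1 : |y| < 1 / 2 := by
    by_contra hcon
    exact hk (k0_zero (not_lt.1 hcon))
  rw [abs_lt] at h1
  exact ⟨by linarith, by linarith⟩

theorem Gk_k1 {n : ℝ} (hn : 0 ≤ n) (z : ℂ) : Gk (k1 n) z = g1 n z ^ 2 := by
  have hc := k0_cont hn
  unfold Gk k1
  have h1 : ∀ a : ℝ, (((∫ x in (-(1 / 2) : ℝ)..(1 / 2), k0 n x * k0 n (a - x)) : ℝ) : ℂ) *
      cexp (I * a * z) = ∫ x in (-(1 / 2) : ℝ)..(1 / 2),
        ((k0 n x : ℂ) * (k0 n (a - x) : ℂ) * cexp (I * a * z)) := by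
    intro a
    rw [intervalIntegral.integral_mul_const]
    congr 1
    rw [← intervalIntegral.integral_ofReal]
    refine intervalIntegral.integral_congr fun x _ => ?_
    push_cast
    rfl
  simp_rw [h1]
  have hcF : Continuous (Function.uncurry fun a x : ℝ =>
      (k0 n x : ℂ) * (k0 n (a - x) : ℂ) * cexp (I * a * z)) := by
    have e1 : Continuous fun p : ℝ × ℝ => ((k0 n p.2 : ℝ) : ℂ) :=
      Complex.continuous_ofReal.comp (hc.comp continuous_snd)
    have e2 : Continuous fun p : ℝ × ℝ => ((k0 n (p.1 - p.2) : ℝ) : ℂ) :=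
      Complex.continuous_ofReal.comp (hc.comp (continuous_fst.sub continuous_snd))
    have e3 : Continuous fun p : ℝ × ℝ => cexp (I * (p.1 : ℂ) * z) := by fun_prop
    exact (e1.mul e2).mul e3
  rw [swapC (by norm_num) (by norm_num) hcF]
  have h2 : ∀ x ∈ Set.uIcc (-(1 / 2) : ℝ) (1 / 2), ∫ a in (-1 : ℝ)..1,
      (k0 n x : ℂ) * (k0 n (a - x) : ℂ) * cexp (I * a * z) =
      (k0 n x : ℂ) * cexp (I * x * z) * g1 n z := by
    intro x hx
    rw [Set.uIcc_of_le (by norm_num)] at hx
    have h3 : ∀ a : ℝ, (k0 n x : ℂ) * (k0 n (a - x) : ℂ) * cexp (I * a * z) =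
        (k0 n x : ℂ) * cexp (I * x * z) * ((k0 n (a - x) : ℂ) *
          cexp (I * ((a - x : ℝ) : ℂ) * z)) := by
      intro a
      have : cexp (I * a * z) = cexp (I * x * z) * cexp (I * ((a - x : ℝ) : ℂ) * z) := by
        rw [← Complex.exp_add]
        congr 1
        push_cast
        ring
      rw [this]
      ring
    simp_rw [h3]
    rw [intervalIntegral.integral_const_mul]
    congr 1
    have h4 := intervalIntegral.integral_comp_sub_right (a := (-1 : ℝ)) (b := 1)
      (fun v : ℝ => (k0 n v : ℂ) * cexp (I * v * z)) x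
    rw [h4]
    unfold g1
    rw [intervalIntegral.integral_eq_integral_of_support_subset
      (k0_support (by linarith [hx.1]) (by linarith [hx.2])),
      intervalIntegral.integral_eq_integral_of_support_subset (k0_support le_rfl le_rfl)]
  rw [intervalIntegral.integral_congr h2, intervalIntegral.integral_mul_const]
  unfold g1
  ring

end Pool.Agent.Helper92.FM
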