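import Pool.Agent.Helper92.FM.Ker
import Pool.Agent.Helper92.FM.Sd

set_option autoImplicit false

/-! Fourier inversion and Plancherel for the kernels. -/

open Complex Filter Topology Set MeasureTheory
open scoped ComplexConjugate FourierTransform

namespace Pool.Agent.Helper92.FM

open Pool.Agent.TH800.MS

variable {k : ℝ → ℝ} {A b : ℝ}

lemma Ker.supp' (h : Ker k A) {f : ℝ → ℂ} :
    Function.support (fun y => (k y : ℂ) * f y) ⊆ Set.Ioc (-1) 1 := by
  intro y hy
  rw [Function.mem_support] at hy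
  have hk : k y ≠ 0 := by
    intro h0
    apply hy
    rw [h0]
    simp
  have h1 : |y| < 1 := by
    by_contra hc
    exact hk (h.supp y (not_lt.1 hc))
  rw [abs_lt] at h1
  exact ⟨h1.1, h1.2.le⟩

lemma Ker.integrable (h : Ker k A) : Integrable (fun y : ℝ => (k y : ℂ)) := by
  apply Continuous.integrable_of_hasCompactSupport (Complex.continuous_ofReal.comp h.cont)
  apply HasCompactSupport.intro (isCompact_Icc (a := (-1 : ℝ)) (b := 1))
  intro y hy
  show ((k y : ℝ) : ℂ) = 0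
  rw [h.supp y]
  · simp
  · by_contra hc
    rw [not_le, abs_lt] at hc
    exact hy ⟨hc.1.le, hc.2.le⟩

lemma Gk_fourier (h : Ker k A) (ξ : ℝ) :
    𝓕 (fun y : ℝ => (k y : ℂ)) ξ = Gk k ((-(2 * Real.pi * ξ) : ℝ) : ℂ) := by
  rw [Real.fourier_real_eq_integral_exp_smul]
  unfold Gk
  rw [intervalIntegral.integral_eq_integral_of_support_subset h.supp']
  refine integral_congr_ae (Eventually.of_forall fun y => ?_)
  show cexp (((-2 * Real.pi * y * ξ : ℝ) : ℂ) * I) • (k y : ℂ) =
    (k y : ℂ) * cexp (I * y * ((-(2 * Real.pi * ξ) : ℝ) : ℂ))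
  rw [smul_eq_mul, mul_comm]
  congr 2
  push_cast
  ring

/-- inversion and Plancherel -/
theorem ker_inv (h : Ker k A) (g : ℝ → ℝ) (hg : ∀ x : ℝ, Gk k x = (g x : ℂ))
    (hgi : Integrable g) :
    k 0 = 1 / (2 * Real.pi) * ∫ x, g x ∧ nk k = 1 / (2 * Real.pi) * ∫ x, g x ^ 2 := by
  set f : ℝ → ℂ := fun y => (k y : ℂ) with hf
  have hpi := Real.pi_pos
  have h2pi : (-(2 * Real.pi)) ≠ 0 := by
    have : 0 < 2 * Real.pi := by positivity
    linarith
  have hfc : Continuous f := Complex.continuous_ofReal.comp h.cont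
  have hfi : Integrable f := h.integrable
  have hF : 𝓕 f = fun ξ => ((g (-(2 * Real.pi) * ξ) : ℝ) : ℂ) := by
    funext ξ
    rw [hf, Gk_fourier h, hg]
    congr 2
    ring
  have hFi : Integrable (𝓕 f) := by
    rw [hF]
    exact (hgi.comp_mul_left' h2pi).ofReal
  have hinv := hfc.fourierInv_fourier_eq hfi hFi
  have habs : |(-(2 * Real.pi))⁻¹| = 1 / (2 * Real.pi) := by
    rw [abs_inv, abs_neg, abs_of_pos (by positivity), one_div]
  constructor
  · have h0 : 𝓕⁻ (𝓕 f) 0 = f 0 := by rw [hinv]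
    rw [Real.fourierInv_eq'] at h0
    have h1 : ∫ v : ℝ, cexp ((2 * Real.pi * inner ℝ v (0 : ℝ) : ℝ) * I) • 𝓕 f v =
        ((∫ v : ℝ, g (-(2 * Real.pi) * v) : ℝ) : ℂ) := by
      rw [hF, ← integral_complex_ofReal]
      refine integral_congr_ae (Eventually.of_forall fun v => ?_)
      simp
    rw [h1] at h0
    have h2 := Complex.ofReal_injective h0
    rw [← h2, Measure.integral_comp_mul_left (fun x => g x), habs, smul_eq_mul]
  · have hL : Continuous fun p : ℝ × ℝ => (innerₗ ℝ : ℝ →ₗ[ℝ] ℝ →ₗ[ℝ] ℝ) p.1 p.2 := by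
      have : (fun p : ℝ × ℝ => (innerₗ ℝ : ℝ →ₗ[ℝ] ℝ →ₗ[ℝ] ℝ) p.1 p.2) =
          fun p => inner ℝ p.1 p.2 := rfl
      rw [this]
      exact continuous_inner
    have h1 := VectorFourier.integral_fourierIntegral_smul_eq_flip (μ := volume) (ν := volume)
      (L := (innerₗ ℝ : ℝ →ₗ[ℝ] ℝ →ₗ[ℝ] ℝ)) (f := f) (g := 𝓕 f) Real.continuous_fourierChar
      hL hfi hFi
    have hflip : (innerₗ ℝ : ℝ →ₗ[ℝ] ℝ →ₗ[ℝ] ℝ).flip = innerₗ ℝ := by
      ext; simp
    rw [hflip] at h1
    have h2 : ∫ ξ, (𝓕 f ξ) • (𝓕 f ξ) = ∫ x, f x • 𝓕 (𝓕 f) x := h1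
    have h3 : ∀ x, 𝓕 (𝓕 f) x = f x := by
      intro x
      have h4 := Real.fourierInv_eq_fourier_neg (𝓕 f) (-x)
      rw [neg_neg] at h4
      rw [← h4, hinv]
      simp only [hf, h.even]
    simp_rw [h3, hF] at h2
    have h5 : ∫ ξ : ℝ, ((g (-(2 * Real.pi) * ξ) : ℝ) : ℂ) • ((g (-(2 * Real.pi) * ξ) : ℝ) : ℂ) =
        ((∫ ξ : ℝ, g (-(2 * Real.pi) * ξ) ^ 2 : ℝ) : ℂ) := by
      rw [← integral_complex_ofReal]
      refine integral_congr_ae (Eventually.of_forall fun v => ?_)
      simp only [smul_eq_mul]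
      push_cast
      ring
    have h6 : ∫ x, f x • f x = ((nk k : ℝ) : ℂ) := by
      unfold nk
      have h7 : ∫ y in (-1 : ℝ)..1, k y ^ 2 = ∫ y, k y ^ 2 := by
        apply intervalIntegral.integral_eq_integral_of_support_subset
        intro y hy
        rw [Function.mem_support] at hy
        have h1 : |y| < 1 := by
          by_contra hc
          apply hy
          rw [h.supp y (not_lt.1 hc)]
          norm_num
        rw [abs_lt] at h1
        exact ⟨h1.1, h1.2.le⟩
      rw [h7, ← integral_complex_ofReal]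
      refine integral_congr_ae (Eventually.of_forall fun v => ?_)
      simp only [smul_eq_mul, hf]
      push_cast
      ring
    rw [h5, h6] at h2
    have h8 := Complex.ofReal_injective h2
    rw [← h8, Measure.integral_comp_mul_left (fun x => g x ^ 2), habs, smul_eq_mul]

end Pool.Agent.Helper92.FM
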