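import Pool.Agent.Helper92.FM.Ker
import Pool.Agent.Helper92.FM.Sd
import Pool.Agent.Helper92.FM.Wn1
import Pool.Agent.Helper92.FM.Wn2
import Pool.Agent.Helper92.FM.Wn3
import Pool.Graph.R_seed8.TH800.MS.Kb

set_option autoImplicit false

/-! Bounds for the flat-top window. -/

open Complex Filter Topology Set MeasureTheory
open scoped ComplexConjugate

namespace Pool.Agent.Helper92.FM

open Pool.Agent.TH800.MS

lemma cn_exp (n y : ℝ) : ((cn n y : ℝ) : ℂ) = ∫ s in (-n)..n, cexp (-(I * y * s)) := by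
  unfold cn
  have h1 : ∀ s : ℝ, cexp (-(I * y * s)) =
      ((Real.cos (s * y) : ℝ) : ℂ) - I * ((Real.sin (s * y) : ℝ) : ℂ) := by
    intro s
    have e : -(I * y * s) = (((-(s * y)) : ℝ) : ℂ) * I := by push_cast; ring
    rw [e, Complex.exp_mul_I]
    push_cast
    rw [Complex.cos_neg, Complex.sin_neg]
    ring
  simp_rw [h1]
  rw [intervalIntegral.integral_sub, intervalIntegral.integral_const_mul,
    intervalIntegral.integral_ofReal, intervalIntegral.integral_ofReal]
  · have h2 : ∫ s in (-n)..n, Real.sin (s * y) = 0 := by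
      have h3 := intervalIntegral.integral_comp_neg (a := -n) (b := n)
        (f := fun s => Real.sin (s * y))
      rw [neg_neg] at h3
      simp only [neg_mul, Real.sin_neg] at h3
      rw [intervalIntegral.integral_neg] at h3
      linarith
    rw [h2]
    simp
  · apply Continuous.intervalIntegrable; fun_prop
  · apply Continuous.intervalIntegrable; fun_prop

lemma g1_eq {n : ℝ} (hn : 0 ≤ n) (z : ℂ) :
    g1 n z = ((1 / I0 : ℝ) : ℂ) * ∫ s in (-n)..n, Ff (z - s) := by
  unfold g1 Ff
  have hc : Continuous (Function.uncurry fun s y : ℝ =>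
      (kb (1 / 2) y : ℂ) * cexp (I * y * (z - s))) := by
    have e1 : Continuous fun p : ℝ × ℝ => ((kb (1 / 2) p.2 : ℝ) : ℂ) :=
      Complex.continuous_ofReal.comp (kb_cont.comp continuous_snd)
    have e2 : Continuous fun p : ℝ × ℝ => cexp (I * (p.2 : ℂ) * (z - (p.1 : ℂ))) := by fun_prop
    exact e1.mul e2
  rw [swapC (by linarith) (by norm_num) hc, ← intervalIntegral.integral_const_mul]
  refine intervalIntegral.integral_congr fun y _ => ?_
  show (k0 n y : ℂ) * cexp (I * y * z) = ((1 / I0 : ℝ) : ℂ) *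
    ∫ s in (-n)..n, (kb (1 / 2) y : ℂ) * cexp (I * y * (z - s))
  have h1 : ∀ s : ℝ, (kb (1 / 2) y : ℂ) * cexp (I * y * (z - s)) =
      ((kb (1 / 2) y : ℂ) * cexp (I * y * z)) * cexp (-(I * y * s)) := by
    intro s
    have e : cexp (I * y * (z - s)) = cexp (I * y * z) * cexp (-(I * y * s)) := by
      rw [← Complex.exp_add]
      congr 1
      ring
    rw [e]
    ring
  simp_rw [h1]
  rw [intervalIntegral.integral_const_mul, ← cn_exp]
  unfold k0
  push_cast
  ring

/-- the real window -/
noncomputable def g1r (n x : ℝ) : ℝ := 1 / I0 * ∫ s in (-n)..n, sf (x - s)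

lemma g1_real {n : ℝ} (hn : 0 ≤ n) (x : ℝ) : g1 n x = ((g1r n x : ℝ) : ℂ) := by
  rw [g1_eq hn]
  unfold g1r
  rw [Complex.ofReal_mul, ← intervalIntegral.integral_ofReal]
  congr 1
  refine intervalIntegral.integral_congr fun s _ => ?_
  show Ff ((x : ℂ) - s) = ((sf (x - s) : ℝ) : ℂ)
  have : (x : ℂ) - s = ((x - s : ℝ) : ℂ) := by push_cast; ring
  rw [this, Ff_real]
  rfl

lemma g1_conj (n : ℝ) (z : ℂ) : g1 n (conj z) = conj (g1 n z) := by
  have hconj : conj (g1 n z) =
      ∫ y in (-(1 / 2) : ℝ)..(1 / 2), conj ((k0 n y : ℂ) * cexp (I * y * z)) := by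
    unfold g1
    rw [intervalIntegral.integral_of_le (by norm_num),
      intervalIntegral.integral_of_le (by norm_num), integral_conj]
  rw [hconj]
  have h3 := intervalIntegral.integral_comp_neg (a := -(1 / 2)) (b := 1 / 2)
    (f := fun y : ℝ => conj ((k0 n y : ℂ) * cexp (I * y * z)))
  rw [neg_neg] at h3
  rw [← h3]
  unfold g1
  refine intervalIntegral.integral_congr fun y _ => ?_
  show (k0 n y : ℂ) * cexp (I * y * conj z) =
    conj ((k0 n (-y) : ℂ) * cexp (I * ((-y : ℝ) : ℂ) * z))
  rw [map_mul, conj_ofReal, k0_even, ← Complex.exp_conj]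
  congr 2
  simp

lemma P2_pos (x : ℝ) : 0 < P2 x := by unfold P2; positivity

lemma P2_cont : Continuous P2 := by
  unfold P2
  apply Continuous.inv₀ (by fun_prop)
  intro x
  positivity

lemma P2_int : Integrable P2 := integrable_inv_one_add_sq

/-- majorant of the window -/
noncomputable def hn (n x : ℝ) : ℝ := ∫ s in (-n)..n, P2 (x - s)

lemma hn_atan (n x : ℝ) : hn n x = Real.arctan (x + n) - Real.arctan (x - n) := by
  unfold hn
  rw [intervalIntegral.integral_comp_sub_left (fun v => P2 v) x]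
  unfold P2
  rw [integral_inv_one_add_sq]
  congr 2
  ring

lemma hn_nonneg {n : ℝ} (h : 0 ≤ n) (x : ℝ) : 0 ≤ hn n x := by
  unfold hn
  exact intervalIntegral.integral_nonneg (by linarith) fun s _ => (P2_pos _).le

lemma hn_le_pi (n x : ℝ) : hn n x ≤ Real.pi := by
  rw [hn_atan]
  have h1 := Real.arctan_lt_pi_div_two (x + n)
  have h2 := Real.neg_pi_div_two_lt_arctan (x - n)
  linarith

lemma g1_norm {n : ℝ} (h : 0 ≤ n) (z : ℂ) :
    ‖g1 n z‖ ≤ 17 / I0 * Real.exp (|z.im| / 2) * hn n z.re := by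
  have hI := I0_pos
  rw [g1_eq h, norm_mul, Complex.norm_real, Real.norm_of_nonneg (by positivity)]
  have h1 := intervalIntegral.norm_integral_le_of_norm_le (a := -n) (b := n)
    (μ := volume) (f := fun s : ℝ => Ff (z - s))
    (g := fun s => 17 * Real.exp (|z.im| / 2) * P2 (z.re - s)) (by linarith)
    (Eventually.of_forall fun s _ => by
      have := Ff_bound (z - s)
      have e1 : (z - (s : ℂ)).im = z.im := by simp
      have e2 : (z - (s : ℂ)).re = z.re - s := by simp
      rw [e1, e2] at this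
      exact this)
    ((continuous_const.mul (P2_cont.comp (by fun_prop))).intervalIntegrable _ _)
  rw [intervalIntegral.integral_const_mul] at h1
  calc 1 / I0 * ‖∫ s in (-n)..n, Ff (z - s)‖ ≤
      1 / I0 * (17 * Real.exp (|z.im| / 2) * ∫ s in (-n)..n, P2 (z.re - s)) := by gcongr
    _ = _ := by unfold hn; ring

lemma g1r_nonneg {n : ℝ} (h : 0 ≤ n) (x : ℝ) : 0 ≤ g1r n x := by
  unfold g1r
  have hI := I0_pos
  have := intervalIntegral.integral_nonneg (f := fun s => sf (x - s)) (a := -n) (b := n)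
    (μ := volume) (by linarith) fun s _ => sf_nonneg _
  positivity

lemma sf_shift (x : ℝ) : ∫ s, sf (x - s) = I0 := by
  have := integral_sub_left_eq_self (fun v => sf v) volume x
  rw [this]
  rfl

lemma sf_shift_int (x : ℝ) : Integrable fun s => sf (x - s) := sf_int.comp_sub_left x

lemma g1r_le_one {n : ℝ} (h : 0 ≤ n) (x : ℝ) : g1r n x ≤ 1 := by
  unfold g1r
  have hI := I0_pos
  rw [one_div, inv_mul_le_iff₀ hI, mul_one]
  conv_rhs => rw [← sf_shift x]
  rw [intervalIntegral.integral_of_le (by linarith)]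
  exact setIntegral_le_integral (sf_shift_int x) (Eventually.of_forall fun s => sf_nonneg _)

lemma P2_shift (x : ℝ) : ∫ s, P2 (x - s) = Real.pi := by
  have := integral_sub_left_eq_self (fun v => P2 v) volume x
  rw [this]
  exact integral_univ_inv_one_add_sq

lemma atan_tail {v : ℝ} (hv : 0 < v) : Real.pi / 2 - Real.arctan v ≤ 1 / v := by
  have h1 := Real.arctan_inv_of_pos hv
  have h2 : Real.arctan v⁻¹ ≤ v⁻¹ := by
    have h3 : 0 ≤ v⁻¹ := by positivity
    have h4 := Real.le_tan (Real.arctan_nonneg.2 h3) (Real.arctan_lt_pi_div_two v⁻¹)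
    rwa [Real.tan_arctan] at h4
  rw [one_div]
  linarith

lemma g1r_core {n r : ℝ} (_h : 0 ≤ n) (hr : 0 < r) {x : ℝ} (hx : |x| ≤ n - r) :
    1 - g1r n x ≤ 34 / I0 / r := by
  have hI := I0_pos
  have hx' := abs_le.1 hx
  have h1 : I0 - ∫ s in (-n)..n, sf (x - s) ≤ 17 * (Real.pi - hn n x) := by
    have e1 : I0 = (∫ s in Set.Ioc (-n) n, sf (x - s)) + ∫ s in (Set.Ioc (-n) n)ᶜ, sf (x - s) := by
      rw [integral_add_compl measurableSet_Ioc (sf_shift_int x), sf_shift]
    have e2 : Real.pi = (∫ s in Set.Ioc (-n) n, P2 (x - s)) +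
        ∫ s in (Set.Ioc (-n) n)ᶜ, P2 (x - s) := by
      rw [integral_add_compl measurableSet_Ioc (P2_int.comp_sub_left x), P2_shift]
    have e3 : ∫ s in (Set.Ioc (-n) n)ᶜ, sf (x - s) ≤
        17 * ∫ s in (Set.Ioc (-n) n)ᶜ, P2 (x - s) := by
      rw [← integral_const_mul]
      exact integral_mono (sf_shift_int x).integrableOn
        ((P2_int.comp_sub_left x).const_mul 17).integrableOn (fun s => sf_bound _)
    have e4 : hn n x = ∫ s in Set.Ioc (-n) n, P2 (x - s) := by
      unfold hn
      rw [intervalIntegral.integral_of_le (by linarith)]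
    rw [intervalIntegral.integral_of_le (by linarith), e4]
    linarith
  have h2 : Real.pi - hn n x ≤ 2 / r := by
    rw [hn_atan]
    have h3 := atan_tail (v := x + n) (by linarith)
    have h4 := atan_tail (v := n - x) (by linarith)
    have h5 : Real.arctan (x - n) = -Real.arctan (n - x) := by
      rw [← Real.arctan_neg, neg_sub]
    have h6 : 1 / (x + n) ≤ 1 / r := one_div_le_one_div_of_le hr (by linarith)
    have h7 : 1 / (n - x) ≤ 1 / r := one_div_le_one_div_of_le hr (by linarith)
    rw [h5]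
    have h8 : 2 / r = 1 / r + 1 / r := by ring
    linarith
  have h3 : 1 - g1r n x = 1 / I0 * (I0 - ∫ s in (-n)..n, sf (x - s)) := by
    unfold g1r
    rw [mul_sub, one_div_mul_cancel hI.ne']
  rw [h3]
  calc 1 / I0 * (I0 - ∫ s in (-n)..n, sf (x - s)) ≤ 1 / I0 * (17 * (2 / r)) := by
        apply mul_le_mul_of_nonneg_left _ (by positivity)
        linarith
    _ = _ := by ring

/-- majorant near and beyond the ends of the window -/
noncomputable def Hm (n r x : ℝ) : ℝ := 2 * Real.pi * (P2 ((x - n) / r) + P2 ((x + n) / r))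

lemma Hm_nonneg (n r x : ℝ) : 0 ≤ Hm n r x := by
  unfold Hm
  have h1 := P2_pos ((x - n) / r)
  have h2 := P2_pos ((x + n) / r)
  have := Real.pi_pos
  positivity

lemma hn_even (n x : ℝ) : hn n (-x) = hn n x := by
  rw [hn_atan, hn_atan]
  have h1 : -x + n = -(x - n) := by ring
  have h2 : -x - n = -(x + n) := by ring
  rw [h1, h2, Real.arctan_neg, Real.arctan_neg]
  ring

lemma Hm_even (n r x : ℝ) : Hm n r (-x) = Hm n r x := by
  unfold Hm P2
  have h1 : (-x - n) / r = -((x + n) / r) := by ring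
  have h2 : (-x + n) / r = -((x - n) / r) := by ring
  rw [h1, h2, neg_sq, neg_sq]
  ring

lemma hn_tail_aux {n r x : ℝ} (h : 0 ≤ n) (hr : 0 < r) (hrn : r ^ 2 = n) (hx : n - r ≤ x) :
    hn n x ≤ Hm n r x := by
  have hpi := Real.pi_gt_three
  have h2 := (P2_pos ((x + n) / r)).le
  rcases le_or_gt x (n + r) with hx2 | hx2
  · have h1 : 1 / 2 ≤ P2 ((x - n) / r) := by
      unfold P2
      rw [one_div]
      apply inv_anti₀ (by positivity)
      have h3 : |(x - n) / r| ≤ 1 := by
        rw [abs_div, abs_of_pos hr, div_le_one hr, abs_le]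
        constructor <;> linarith
      have h4 : ((x - n) / r) ^ 2 ≤ 1 := by
        rw [← sq_abs]
        exact pow_le_one₀ (abs_nonneg _) h3
      linarith
    have h5 := hn_le_pi n x
    unfold Hm
    nlinarith
  · have hv : 0 < x - n := by linarith
    have h1 : hn n x ≤ 2 * n * (1 / (x - n) ^ 2) := by
      unfold hn
      have h3 := intervalIntegral.norm_integral_le_of_norm_le_const (a := -n) (b := n)
        (C := 1 / (x - n) ^ 2) (f := fun s => P2 (x - s)) (fun s hs => by
          rw [Set.uIoc_of_le (by linarith)] at hs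
          rw [Real.norm_of_nonneg (P2_pos _).le]
          unfold P2
          rw [one_div]
          apply inv_anti₀ (by positivity)
          have : x - n ≤ x - s := by linarith [hs.2]
          nlinarith)
      rw [sub_neg_eq_add, abs_of_nonneg (by linarith : 0 ≤ n + n)] at h3
      calc _ ≤ ‖∫ s in (-n)..n, P2 (x - s)‖ := Real.le_norm_self _
        _ ≤ _ := h3
        _ = _ := by ring
    have h3 : r ^ 2 / (2 * (x - n) ^ 2) ≤ P2 ((x - n) / r) := by
      unfold P2
      rw [div_le_iff₀ (by positivity), inv_mul_eq_div, le_div_iff₀ (by positivity)]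
      have h4 : r ^ 2 * (1 + ((x - n) / r) ^ 2) = r ^ 2 + (x - n) ^ 2 := by
        field_simp
      rw [h4]
      have : r ≤ x - n := by linarith
      nlinarith
    have h4 : 2 * n * (1 / (x - n) ^ 2) = 4 * (r ^ 2 / (2 * (x - n) ^ 2)) := by
      rw [hrn]
      field_simp
      ring
    have h5 := (P2_pos ((x - n) / r)).le
    unfold Hm
    nlinarith

lemma hn_tail {n r x : ℝ} (h : 0 ≤ n) (hr : 0 < r) (hrn : r ^ 2 = n) (hx : n - r ≤ |x|) :
    hn n x ≤ Hm n r x := by
  rcases le_total 0 x with h0 | h0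
  · rw [abs_of_nonneg h0] at hx
    exact hn_tail_aux h hr hrn hx
  · rw [abs_of_nonpos h0] at hx
    have := hn_tail_aux h hr hrn hx
    rwa [hn_even, Hm_even] at this

lemma Hm_int {n r : ℝ} (hr : 0 < r) : Integrable (Hm n r) ∧
    ∫ x, Hm n r x = 4 * Real.pi ^ 2 * r := by
  have e1 : ∀ c : ℝ, Integrable (fun x => P2 ((x - c) / r)) ∧
      ∫ x, P2 ((x - c) / r) = Real.pi * r := by
    intro c
    have h1 : Integrable (fun x => P2 (x / r)) := P2_int.comp_div hr.ne'
    refine ⟨h1.comp_sub_right c, ?_⟩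
    have h2 := integral_sub_right_eq_self (μ := volume) (fun v => P2 (v / r)) c
    rw [h2, Measure.integral_comp_div (fun v => P2 v) r, abs_of_pos hr, smul_eq_mul]
    have h3 : ∫ v, P2 v = Real.pi := integral_univ_inv_one_add_sq
    rw [h3]
    ring
  have e2 := e1 n
  have e3 := e1 (-n)
  simp only [sub_neg_eq_add] at e3
  unfold Hm
  refine ⟨(e2.1.add e3.1).const_mul _, ?_⟩
  rw [integral_const_mul, integral_add e2.1 e3.1, e2.2, e3.2]
  ring

lemma g1r_cont {n : ℝ} (h : 0 ≤ n) : Continuous (g1r n) := by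
  unfold g1r
  apply continuous_const.mul
  apply intervalIntegral.continuous_parametric_intervalIntegral_of_continuous'
  exact sf_cont.comp (by fun_prop)

lemma peetre (x s : ℝ) : P2 (x - s) ≤ 2 * (1 + s ^ 2) * P2 x := by
  unfold P2
  rw [← div_eq_mul_inv, le_div_iff₀ (by positivity), inv_mul_eq_div, div_le_iff₀ (by positivity)]
  nlinarith [sq_nonneg (x - 2 * s), sq_nonneg (s * (x - s)), sq_nonneg s, sq_nonneg (x - s)]

lemma hn_all {n : ℝ} (h : 0 ≤ n) (x : ℝ) : hn n x ≤ 4 * n * (1 + n ^ 2) * P2 x := by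
  unfold hn
  have hP := (P2_pos x).le
  have h3 := intervalIntegral.norm_integral_le_of_norm_le_const (a := -n) (b := n)
    (C := 2 * (1 + n ^ 2) * P2 x) (f := fun s => P2 (x - s)) (fun s hs => by
      rw [Set.uIoc_of_le (by linarith)] at hs
      rw [Real.norm_of_nonneg (P2_pos _).le]
      refine (peetre x s).trans ?_
      have : s ^ 2 ≤ n ^ 2 := sq_le_sq' hs.1.le hs.2
      gcongr)
  rw [sub_neg_eq_add, abs_of_nonneg (by linarith : 0 ≤ n + n)] at h3
  calc _ ≤ ‖∫ s in (-n)..n, P2 (x - s)‖ := Real.le_norm_self _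
    _ ≤ _ := h3
    _ = _ := by ring

lemma g1r_le_hn {n : ℝ} (h : 0 ≤ n) (x : ℝ) : g1r n x ≤ 17 / I0 * hn n x := by
  have h1 := g1_norm h (x : ℂ)
  rw [g1_real h, Complex.norm_real, Real.norm_of_nonneg (g1r_nonneg h x)] at h1
  simpa using h1

lemma g1r_int {n : ℝ} (h : 0 ≤ n) : Integrable (g1r n) := by
  refine Integrable.mono' (P2_int.const_mul (17 / I0 * (4 * n * (1 + n ^ 2))))
    (g1r_cont h).aestronglyMeasurable (Eventually.of_forall fun x => ?_)
  rw [Real.norm_of_nonneg (g1r_nonneg h x)]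
  refine (g1r_le_hn h x).trans ?_
  rw [mul_assoc]
  have := I0_pos
  apply mul_le_mul_of_nonneg_left (hn_all h x) (by positivity)

/-- the values `k1 n 0` and `nk (k1 n)` -/
theorem k1_facts {n r : ℝ} (hr : 0 < r) (hrn : r ^ 2 = n) (hr1 : r ≤ n) (hC : 34 / I0 / r ≤ 1) :
    nk (k1 n) ≤ k1 n 0 ∧ (n - r) / Real.pi * (1 - 34 / I0 / r) ^ 2 ≤ k1 n 0 := by
  have hn0 : 0 ≤ n := by rw [← hrn]; positivity
  have hpi := Real.pi_pos
  have hk := ker1 hn0
  have hg : ∀ x : ℝ, Gk (k1 n) x = ((g1r n x ^ 2 : ℝ) : ℂ) := by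
    intro x
    rw [Gk_k1 hn0, g1_real hn0]
    push_cast
    rfl
  have hle : ∀ x, g1r n x ^ 2 ≤ g1r n x := by
    intro x
    have h1 := g1r_nonneg hn0 x
    have h2 := g1r_le_one hn0 x
    nlinarith
  have hint : Integrable fun x => g1r n x ^ 2 := by
    refine Integrable.mono' (g1r_int hn0) ((g1r_cont hn0).pow 2).aestronglyMeasurable
      (Eventually.of_forall fun x => ?_)
    rw [Real.norm_of_nonneg (by positivity)]
    exact hle x
  obtain ⟨h1, h2⟩ := ker_inv hk _ hg hint
  constructor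
  · rw [h1, h2]
    apply mul_le_mul_of_nonneg_left _ (by positivity)
    refine integral_mono_of_nonneg (Eventually.of_forall fun x => by positivity) hint
      (Eventually.of_forall fun x => ?_)
    show (g1r n x ^ 2) ^ 2 ≤ g1r n x ^ 2
    have h3 := hle x
    have h4 := g1r_le_one hn0 x
    have h5 : 0 ≤ g1r n x ^ 2 := by positivity
    nlinarith
  · rw [h1]
    have h3 : ∫ x in (-(n - r))..(n - r), (1 - 34 / I0 / r) ^ 2 ≤ ∫ x, g1r n x ^ 2 := by
      calc ∫ x in (-(n - r))..(n - r), (1 - 34 / I0 / r) ^ 2 ≤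
          ∫ x in (-(n - r))..(n - r), g1r n x ^ 2 := by
            apply intervalIntegral.integral_mono_on (by linarith)
              (by simp) (hint.intervalIntegrable)
            intro x hx
            have h4 := g1r_core hn0 hr (x := x) (abs_le.2 ⟨hx.1, hx.2⟩)
            have h5 : 0 ≤ 1 - 34 / I0 / r := by linarith
            exact pow_le_pow_left₀ h5 (by linarith) 2
        _ ≤ ∫ x, g1r n x ^ 2 := by
            rw [intervalIntegral.integral_of_le (by linarith)]
            exact setIntegral_le_integral hint (Eventually.of_forall fun x => by positivity)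
    rw [intervalIntegral.integral_const, smul_eq_mul] at h3
    calc (n - r) / Real.pi * (1 - 34 / I0 / r) ^ 2 =
        1 / (2 * Real.pi) * ((n - r - -(n - r)) * (1 - 34 / I0 / r) ^ 2) := by
          field_simp
          ring
      _ ≤ _ := by gcongr

/-- close to the real line -/
lemma g1_near {n : ℝ} (h : 0 ≤ n) {z : ℂ} (hz : |z.im| ≤ 1) :
    ‖g1 n z - g1 n (z.re : ℂ)‖ ≤ K0 n * |z.im| := by
  have hK := K0_nonneg h
  have hc := k0_cont h
  have i1 : IntervalIntegrable (fun y : ℝ => (k0 n y : ℂ) * cexp (I * y * z)) volume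
      (-(1 / 2)) (1 / 2) :=
    ((Complex.continuous_ofReal.comp hc).mul (by fun_prop)).intervalIntegrable _ _
  have i2 : IntervalIntegrable (fun y : ℝ => (k0 n y : ℂ) * cexp (I * y * (z.re : ℂ))) volume
      (-(1 / 2)) (1 / 2) :=
    ((Complex.continuous_ofReal.comp hc).mul (by fun_prop)).intervalIntegrable _ _
  unfold g1
  rw [← intervalIntegral.integral_sub i1 i2]
  have h3 := intervalIntegral.norm_integral_le_of_norm_le_const (a := -(1 / 2)) (b := 1 / 2)
    (C := K0 n * |z.im|) (f := fun y : ℝ => (k0 n y : ℂ) * cexp (I * y * z) -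
      (k0 n y : ℂ) * cexp (I * y * (z.re : ℂ))) (fun y hy => by
      rw [Set.uIoc_of_le (by norm_num)] at hy
      have hy2 : |y| ≤ 1 / 2 := abs_le.2 ⟨by linarith [hy.1], hy.2⟩
      have e1 : cexp (I * y * z) = cexp (I * y * (z.re : ℂ)) *
          ((Real.exp (-(y * z.im)) : ℝ) : ℂ) := by
        rw [Complex.ofReal_exp, ← Complex.exp_add]
        congr 1
        conv_lhs => rw [← Complex.re_add_im z]
        push_cast
        ring_nf
        rw [Complex.I_sq]
        ring
      rw [e1]
      have e2 : (k0 n y : ℂ) * (cexp (I * y * (z.re : ℂ)) *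
          ((Real.exp (-(y * z.im)) : ℝ) : ℂ)) - (k0 n y : ℂ) * cexp (I * y * (z.re : ℂ)) =
          (k0 n y : ℂ) * cexp (I * y * (z.re : ℂ)) *
          (((Real.exp (-(y * z.im)) - 1 : ℝ)) : ℂ) := by
        push_cast
        ring
      rw [e2, norm_mul, norm_mul, Complex.norm_real, Complex.norm_real, Real.norm_eq_abs,
        Real.norm_eq_abs, norm_exp_Iyz, Complex.ofReal_im, mul_zero, neg_zero, Real.exp_zero,
        mul_one]
      have h4 := k0_abs h y
      have h5 : |y * z.im| ≤ 1 / 2 * |z.im| := by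
        rw [abs_mul]
        gcongr
      have h6 : |Real.exp (-(y * z.im)) - 1| ≤ |z.im| := by
        have h7 := Real.abs_exp_sub_one_le (x := -(y * z.im)) (by
          rw [abs_neg]
          linarith)
        rw [abs_neg] at h7
        linarith
      gcongr)
  have h4 : |(1 / 2 : ℝ) - -(1 / 2)| = 1 := by norm_num
  rw [h4, mul_one] at h3
  exact h3

end Pool.Agent.Helper92.FM
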