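import Pool.Agent.Helper92.FM.Sd
import Pool.Agent.Helper92.FM.Wn3
import Pool.Agent.Helper92.FM.Wn4
import Pool.Graph.R_seed8.H370R2.Defs
import Pool.Graph.R_seed8.TH800.MS.Kb
import Pool.Graph.R_seed8.H370R2.Defs2
import Pool.Graph.R_seed8.H370R2.DirGood
import Pool.Graph.R_seed8.H370R2.PC1
import Pool.Graph.R_seed8.H295R2.SI.Defs
import Pool.Graph.R_seed8.TH803.UC.Count
import Pool.Graph.R_seed8.TH803.UC.Dens

set_option autoImplicit false

/-! The local pair sums and the trace inequality. -/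

open Complex Filter Topology Set MeasureTheory
open scoped BigOperators ComplexConjugate

namespace Pool.Agent.Helper92.FM

open H370 (Zf good_zeta mult zz)
open H295SI (kapG Win KSq)
open Pool.Agent.TH800.MS

/-- a continuous even function -/
structure CR (R : ℝ → ℝ) : Prop where
  cont : Continuous R
  even : ∀ α, R (-α) = R α

/-- the Gram vectors -/
noncomputable def kv (w : ℝ → ℝ) (Λ : ℝ) (z : ℂ) (x : ℝ) : ℂ :=
  (Real.sqrt (w x) : ℂ) * cexp (I * z * (Λ * x))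

lemma kv_cont {w : ℝ → ℝ} (hw : Win w) (Λ : ℝ) (z : ℂ) : Continuous (kv w Λ z) := by
  unfold kv
  have := hw.cont
  fun_prop

lemma kv_memLp {w : ℝ → ℝ} (hw : Win w) (Λ : ℝ) (z : ℂ) :
    MemLp (kv w Λ z) 2 (volume.restrict (Set.Ioc (-1 / 2 : ℝ) (1 / 2))) := by
  rw [memLp_two_iff_integrable_sq_norm (kv_cont hw Λ z).aestronglyMeasurable]
  exact (((kv_cont hw Λ z).norm.pow 2)).integrableOn_Ioc

lemma kv_inner {w : ℝ → ℝ} (hw : Win w) (Λ : ℝ) (z z' : ℂ) :
    ∫ x in Set.Ioc (-1 / 2 : ℝ) (1 / 2), (starRingEnd ℂ) (kv w Λ z x) * kv w Λ z' x =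
      kapG w (Λ * (z' - (starRingEnd ℂ) z)) := by
  unfold kapG
  rw [intervalIntegral.integral_of_le (by norm_num)]
  apply setIntegral_congr_fun measurableSet_Ioc
  intro x hx
  simp only [kv, map_mul, Complex.conj_ofReal, ← Complex.exp_conj, Complex.conj_I]
  have e : cexp (-I * (starRingEnd ℂ) z * (Λ * x)) * cexp (I * z' * (Λ * x)) =
      cexp (I * (Λ * (z' - (starRingEnd ℂ) z)) * x) := by
    rw [← Complex.exp_add]
    congr 1
    ring
  have h1 := hw.nonneg x hx.1.le hx.2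
  have h2 : (Real.sqrt (w x) : ℂ) ^ 2 = (w x : ℂ) := by
    rw [← Complex.ofReal_pow, Real.sq_sqrt h1]
  rw [← e, ← h2]
  ring

theorem gramK_exists {w : ℝ → ℝ} (hw : Win w) (Λ : ℝ) :
    ∃ (E : Type) (_ : NormedAddCommGroup E) (_ : InnerProductSpace ℂ E)
    (k : ℂ → E), ∀ z z', inner ℂ (k z) (k z') =
      (fun v : ℂ => kapG w (Λ * v)) (z' - (starRingEnd ℂ) z) := by
  refine ⟨Lp ℂ 2 (volume.restrict (Set.Ioc (-1 / 2 : ℝ) (1 / 2))), inferInstance, inferInstance,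
    fun z => (kv_memLp hw Λ z).toLp _, fun z z' => ?_⟩
  show _ = kapG w (Λ * (z' - (starRingEnd ℂ) z))
  rw [L2.inner_def, ← kv_inner hw]
  apply integral_congr_ae
  filter_upwards [(kv_memLp hw Λ z).coeFn_toLp, (kv_memLp hw Λ z').coeFn_toLp] with p h1 h2
  rw [h1, h2, RCLike.inner_apply, mul_comm]

lemma kapG_norm {w : ℝ → ℝ} (hw : Win w) {Λ : ℝ} (hΛ : 0 ≤ Λ) (z : ℂ) :
    ‖kapG w (Λ * (z - conj z))‖ ≤ Real.exp (Λ * |z.im|) := by
  have e0 : z - conj z = ((2 * z.im : ℝ) : ℂ) * I := by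
    apply Complex.ext
    · simp
    · simp; ring
  have hgc := hw.cont
  unfold kapG
  refine (intervalIntegral.norm_integral_le_integral_norm (by norm_num)).trans ?_
  have h2 : ∫ y in (-1 / 2 : ℝ)..(1 / 2), ‖(w y : ℂ) * cexp (I * (Λ * (z - conj z)) * y)‖ ≤
      ∫ y in (-1 / 2 : ℝ)..(1 / 2), w y * Real.exp (Λ * |z.im|) := by
    refine intervalIntegral.integral_mono_on (by norm_num) ?_ ?_ fun y hy => ?_
    · exact (by fun_prop : Continuous fun y : ℝ =>
        ‖(w y : ℂ) * cexp (I * (Λ * (z - conj z)) * y)‖).intervalIntegrable _ _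
    · exact (hgc.mul continuous_const).intervalIntegrable _ _
    · have hg0 := hw.nonneg y (by linarith [hy.1]) hy.2
      rw [norm_mul, Complex.norm_real, Real.norm_of_nonneg hg0]
      apply mul_le_mul_of_nonneg_left _ hg0
      have e1 : I * (Λ * (z - conj z)) * y = ((-(2 * Λ * z.im * y) : ℝ) : ℂ) := by
        rw [e0]
        have hI : I ^ 2 = -1 := I_sq
        push_cast
        linear_combination (2 * (Λ : ℂ) * (z.im : ℂ) * y) * hI
      rw [e1, ← Complex.ofReal_exp, Complex.norm_real, Real.norm_of_nonneg (Real.exp_pos _).le]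
      apply Real.exp_le_exp.2
      have hy2 : |y| ≤ 1 / 2 := by rw [abs_le]; constructor <;> linarith [hy.1, hy.2]
      calc -(2 * Λ * z.im * y) ≤ |2 * Λ * z.im * y| := neg_le_abs _
        _ = 2 * Λ * |z.im| * |y| := by
          rw [abs_mul, abs_mul, abs_of_nonneg (by positivity : 0 ≤ 2 * Λ)]
        _ ≤ 2 * Λ * |z.im| * (1 / 2) := by gcongr
        _ = Λ * |z.im| := by ring
  refine h2.trans ?_
  rw [intervalIntegral.integral_mul_const, hw.mass, one_mul]

/-- the local weight (its square is the window of the local sums) -/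
noncomputable def Om (n b t : ℝ) (z : ℂ) : ℂ := cexp (-(z - t) ^ 2 / 4) * g1 n (b * (z - t))

lemma Om_conj (n b t : ℝ) (z : ℂ) : Om n b t (conj z) = conj (Om n b t z) := by
  unfold Om
  rw [map_mul, ← Complex.exp_conj, ← g1_conj]
  congr 2
  · have h2 : (starRingEnd ℂ) 4 = 4 := map_ofNat (starRingEnd ℂ) 4
    simp [h2]
  · simp

lemma Om_sq {n : ℝ} (hn : 0 ≤ n) (b t : ℝ) (z : ℂ) :
    Om n b t z ^ 2 = cexp (-(z - t) ^ 2 / 2) * Gk (k1 n) (b * (z - t)) := by
  unfold Om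
  rw [Gk_k1 hn, mul_pow, ← Complex.exp_nat_mul]
  congr 2
  push_cast
  ring

lemma fS_Om {n : ℝ} (hn : 0 ≤ n) (U1 U2 b t u : ℝ) : fS (k1 n) U1 U2 b t u =
    ∑ s ∈ Zf riemannZeta U1 U2, (mult riemannZeta s : ℂ) * (Om n b t (zz s) ^ 2 *
      cexp (I * u * (zz s - t))) := by
  unfold fS
  refine Finset.sum_congr rfl fun s _ => ?_
  rw [Om_sq hn]
  ring

lemma fS_conj {n : ℝ} (hn : 0 ≤ n) {U1 U2 : ℝ} (hU : 1 ≤ U1) (b t u : ℝ) :
    fS (k1 n) U1 U2 b t (-u) = conj (fS (k1 n) U1 U2 b t u) := by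
  rw [fS_Om hn, fS_Om hn, map_sum, ← H370.sum_refl good_zeta hU]
  refine Finset.sum_congr rfl fun s hs => ?_
  rw [H370.mem_Zf good_zeta hU] at hs
  rw [H370.zz_refl, H370.mult_refl good_zeta hs.1 hs.2.1 (by linarith [hs.2.2.1])]
  rw [map_mul, map_mul, map_pow, Om_conj, ← Complex.exp_conj, Complex.conj_natCast]
  congr 2
  simp

/-- the pair sum in one window -/
theorem pairX {w R : ℝ → ℝ} (hR : CR R) (hK : KSq w R) {n : ℝ} (hn : 0 ≤ n)
    {U1 U2 : ℝ} (hU : 1 ≤ U1) (Λ b t : ℝ) :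
    ∑ s ∈ Zf riemannZeta U1 U2, ∑ s' ∈ Zf riemannZeta U1 U2,
      (mult riemannZeta s : ℂ) * (mult riemannZeta s' : ℂ) *
        (Om n b t (zz s) * Om n b t (zz s') * kapG w (Λ * (zz s - zz s'))) ^ 2 =
      ((2 * ∫ α in (0 : ℝ)..1, R α * ‖fS (k1 n) U1 U2 b t (Λ * α)‖ ^ 2 : ℝ) : ℂ) := by
  have hRc : Continuous R := hR.cont
  have hfc : Continuous fun α : ℝ => fS (k1 n) U1 U2 b t (Λ * α) := by
    unfold fS
    fun_prop
  -- as an integral over `[-1, 1]`
  have h1 : ∑ s ∈ Zf riemannZeta U1 U2, ∑ s' ∈ Zf riemannZeta U1 U2,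
      (mult riemannZeta s : ℂ) * (mult riemannZeta s' : ℂ) *
        (Om n b t (zz s) * Om n b t (zz s') * kapG w (Λ * (zz s - zz s'))) ^ 2 =
      ∫ α in (-1 : ℝ)..1, (R α : ℂ) * (fS (k1 n) U1 U2 b t (Λ * α) *
        fS (k1 n) U1 U2 b t (-(Λ * α))) := by
    have e1 : ∀ α : ℝ, (R α : ℂ) * (fS (k1 n) U1 U2 b t (Λ * α) *
        fS (k1 n) U1 U2 b t (-(Λ * α))) =
        ∑ s ∈ Zf riemannZeta U1 U2, ∑ s' ∈ Zf riemannZeta U1 U2,
          ((mult riemannZeta s : ℂ) * (mult riemannZeta s' : ℂ) *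
            (Om n b t (zz s) * Om n b t (zz s')) ^ 2) *
            ((R α : ℂ) * cexp (I * (Λ * (zz s - zz s')) * α)) := by
      intro α
      rw [fS_Om hn, fS_Om hn, Finset.sum_mul_sum, Finset.mul_sum]
      refine Finset.sum_congr rfl fun s _ => ?_
      rw [Finset.mul_sum]
      refine Finset.sum_congr rfl fun s' _ => ?_
      have e2 : cexp (I * (Λ * (zz s - zz s')) * α) = cexp (I * ((Λ * α : ℝ) : ℂ) * (zz s - t)) *
          cexp (I * ((-(Λ * α) : ℝ) : ℂ) * (zz s' - t)) := by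
        rw [← Complex.exp_add]
        congr 1
        push_cast
        ring
      rw [e2]
      ring
    simp_rw [e1]
    rw [intervalIntegral.integral_finsetSum]
    swap
    · intro s _
      apply Continuous.intervalIntegrable
      apply continuous_finsetSum
      intro s' _
      fun_prop
    refine Finset.sum_congr rfl fun s _ => ?_
    rw [intervalIntegral.integral_finsetSum]
    swap
    · intro s' _
      apply Continuous.intervalIntegrable
      fun_prop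
    refine Finset.sum_congr rfl fun s' _ => ?_
    rw [intervalIntegral.integral_const_mul, ← hK (Λ * (zz s - zz s'))]
    ring
  have h2 : ∀ α : ℝ, (R α : ℂ) * (fS (k1 n) U1 U2 b t (Λ * α) *
        fS (k1 n) U1 U2 b t (-(Λ * α))) =
      ((R α * ‖fS (k1 n) U1 U2 b t (Λ * α)‖ ^ 2 : ℝ) : ℂ) := by
    intro α
    rw [fS_conj hn hU, Complex.mul_conj, Complex.normSq_eq_norm_sq]
    push_cast
    rfl
  rw [h1]
  simp_rw [h2]
  rw [intervalIntegral.integral_ofReal]
  congr 1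
  rw [even_int (f := fun α => R α * ‖fS (k1 n) U1 U2 b t (Λ * α)‖ ^ 2)]
  · exact hRc.mul (hfc.norm.pow 2)
  · intro α
    show R (-α) * ‖fS (k1 n) U1 U2 b t (Λ * -α)‖ ^ 2 = R α * ‖fS (k1 n) U1 U2 b t (Λ * α)‖ ^ 2
    rw [hR.even, mul_neg, fS_conj hn hU, RCLike.norm_conj]

end Pool.Agent.Helper92.FM
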