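import Pool.Agent.Helper92.FM.Sd
import Pool.Agent.Helper92.FM.Wn3
import Pool.Agent.Helper92.FM.Lt1
import Pool.Graph.R_seed8.H370R2.Defs
import Pool.Graph.R_seed8.H370R2.Defs2
import Pool.Graph.R_seed8.H370R2.Local
import Pool.Graph.R_seed8.H370R2.DirGood
import Pool.Graph.R_seed8.H370R2.PC1
import Pool.Graph.R_seed8.H295R2.SI.Defs
import Pool.Graph.R_seed8.H143R2.TraceG
import Pool.Graph.R_seed8.TH803.UC.Count

set_option autoImplicit false

/-! The local inequality. -/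

open Complex Filter Topology Set MeasureTheory
open scoped BigOperators ComplexConjugate

namespace Pool.Agent.Helper92.FM

open H370 (Zf good_zeta mult zz zz_re zz_im zz_spec zz_refl mem_Zf zset zset_refl zz_inj mult_refl)
open H295SI (kapG Win KSq)
open TH803UC (simp1 rest1 count_ineq count_le)
open Pool.Agent.TH800.MS

open Classical in
/-- the simple critical zeros in the core of the window -/
noncomputable def vS (U1 U2 b ρ t : ℝ) : ℝ :=
  (((Zf riemannZeta U1 U2).filter (fun s => s.re = 1 / 2 ∧ mult riemannZeta s = 1 ∧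
    |s.im - t| * b ≤ ρ)).card : ℝ)

open Classical in
/-- the local error of one zero -/
noncomputable def er (n b Λ ρ t : ℝ) (z : ℂ) : ℝ :=
  if |z.re - t| * b ≤ ρ then 4 * ‖Om n b t z ^ 2 - 1‖ else
    ‖Om n b t z‖ ^ 2 * (4 * Real.exp (Λ * |z.im|) + 6)

lemma er_nonneg (n b Λ ρ t : ℝ) (z : ℂ) : 0 ≤ er n b Λ ρ t z := by
  unfold er
  split_ifs <;> positivity

/-- the local error -/
noncomputable def Er (U1 U2 n b Λ ρ t : ℝ) : ℝ :=
  ∑ s ∈ Zf riemannZeta U1 U2, (mult riemannZeta s : ℝ) * er n b Λ ρ t (zz s)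

open Classical in
theorem local_ineq {w R : ℝ → ℝ} (hw : Win w) (hR : CR R) (hK : KSq w R) {n : ℝ} (hn : 0 ≤ n)
    {U1 U2 : ℝ} (hU : 1 ≤ U1) {Λ b ρ t : ℝ} (hΛ : 0 ≤ Λ) :
    2 * (fS (k1 n) U1 U2 b t 0).re - 2 * (∫ α in (0 : ℝ)..1, R α *
      ‖fS (k1 n) U1 U2 b t (Λ * α)‖ ^ 2) - Er U1 U2 n b Λ ρ t ≤ vS U1 U2 b ρ t := by
  obtain ⟨E, iE1, iE2, k, hk⟩ := gramK_exists hw Λ
  set W := Zf riemannZeta U1 U2 with hW
  set Z : Finset ℂ := W.image zz with hZ
  set m : ℂ → ℕ := fun z => mult riemannZeta (1 / 2 + I * z) with hm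
  have hback : ∀ s : ℂ, (1 / 2 + I * zz s) = s := by
    intro s
    have := zz_spec s
    linear_combination -this
  have hmz : ∀ s : ℂ, m (zz s) = mult riemannZeta s := by
    intro s; simp only [hm]; rw [hback]
  have hWm : ∀ s ∈ W, s ∈ zset riemannZeta U1 U2 := fun s hs => (mem_Zf good_zeta hU).mp hs
  have hWpos : ∀ s ∈ W, 1 ≤ mult riemannZeta s := by
    intro s hs
    have := hWm s hs
    exact H370.Loc.mult_pos' good_zeta (by linarith [this.2.2.1]) this.2.2.2.2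
  have hZc : ∀ z ∈ Z, (starRingEnd ℂ) z ∈ Z := by
    intro z hz
    rw [hZ, Finset.mem_image] at hz
    obtain ⟨s, hs, rfl⟩ := hz
    rw [← zz_refl]
    exact Finset.mem_image_of_mem _ ((mem_Zf good_zeta hU).mpr (zset_refl good_zeta hU (hWm s hs)))
  have hmp : ∀ z ∈ Z, 1 ≤ m z := by
    intro z hz
    rw [hZ, Finset.mem_image] at hz
    obtain ⟨s, hs, rfl⟩ := hz
    rw [hmz]
    exact hWpos s hs
  have hmc : ∀ z ∈ Z, m ((starRingEnd ℂ) z) = m z := by
    intro z hz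
    rw [hZ, Finset.mem_image] at hz
    obtain ⟨s, hs, rfl⟩ := hz
    have := hWm s hs
    rw [← zz_refl, hmz, hmz, mult_refl good_zeta this.1 this.2.1 (by linarith [this.2.2.1])]
  have hsumF : ∀ (P : ℂ → Prop) [DecidablePred P] (f : ℂ → ℝ), ∑ z ∈ Z.filter P, f z =
      ∑ s ∈ W.filter (fun s => P (zz s)), f (zz s) := by
    intro P _ f
    rw [hZ, Finset.filter_image, Finset.sum_image (fun s _ s' _ h => zz_inj h)]
  have hcardF : ∀ (P : ℂ → Prop) [DecidablePred P],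
      (Z.filter P).card = (W.filter (fun s => P (zz s))).card := by
    intro P _
    rw [hZ, Finset.filter_image, Finset.card_image_of_injective _ (fun s s' h => zz_inj h)]
  set a : ℂ → Prop := fun z => |z.re - t| * b ≤ ρ with ha
  have hac : ∀ z, a ((starRingEnd ℂ) z) ↔ a z := by
    intro z; simp only [ha, Complex.conj_re]
  obtain ⟨far, hfar⟩ : ∃ far : ℂ → Prop, ∀ z, ¬ far z := ⟨fun _ => False, fun _ h => h⟩
  have hcount := count_ineq Z hZc m hmp hmc (fun v : ℂ => kapG w (Λ * v)) k hk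
    (by
      intro z
      show kapG w (Λ * -z) = kapG w (Λ * z)
      rw [mul_neg, H143TG.kapG_even hw])
    (by
      show kapG w (Λ * 0) = 1
      rw [mul_zero, H143TG.kapG_zero hw])
    (Om n b t) (Om_conj n b t) a hac far (fun z h => (hfar z h).elim)
  obtain ⟨hc1, hc2⟩ := count_le Z hZc m hmp hmc a hac
  set x1 : ℝ := ((simp1 Z m a).card : ℝ) with hx1
  set y1 : ℝ := ((rest1 Z m a).card : ℝ) with hy1
  have hX1 : x1 = vS U1 U2 b ρ t := by
    rw [hx1]
    unfold simp1 vS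
    rw [hcardF]
    congr 2
    ext s
    simp only [Finset.mem_filter, ha, hmz, zz_re, zz_im]
    constructor
    · rintro ⟨h1, h2, h3, h4⟩; exact ⟨h1, by linarith, h4, h2⟩
    · rintro ⟨h1, h2, h3, h4⟩; exact ⟨h1, h4, by rw [h2]; ring, h3⟩
  have hm0 : ∀ s : ℂ, (0 : ℝ) ≤ mult riemannZeta s := fun s => Nat.cast_nonneg _
  -- the pair sum
  have hQ : (∑ z ∈ Z, ∑ w' ∈ Z, (m z : ℂ) * (m w' : ℂ) *
      (Om n b t z * Om n b t w' * kapG w (Λ * (z - w'))) ^ 2).re =
      2 * ∫ α in (0 : ℝ)..1, R α * ‖fS (k1 n) U1 U2 b t (Λ * α)‖ ^ 2 := by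
    have h1 := pairX (U2 := U2) hR hK hn hU Λ b t
    have h2 : ∑ z ∈ Z, ∑ w' ∈ Z, (m z : ℂ) * (m w' : ℂ) *
      (Om n b t z * Om n b t w' * kapG w (Λ * (z - w'))) ^ 2 =
      ((2 * ∫ α in (0 : ℝ)..1, R α * ‖fS (k1 n) U1 U2 b t (Λ * α)‖ ^ 2 : ℝ) : ℂ) := by
      rw [← h1, hZ, Finset.sum_image (fun s _ s' _ h => zz_inj h)]
      refine Finset.sum_congr rfl fun s _ => ?_
      rw [Finset.sum_image (fun s _ s' _ h => zz_inj h)]
      refine Finset.sum_congr rfl fun s' _ => ?_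
      rw [hmz, hmz]
    rw [h2, Complex.ofReal_re]
  -- names
  set S : ℝ := ∑ z ∈ Z.filter a, (m z : ℝ) * (Om n b t z ^ 2).re with hS
  set D : ℝ := ∑ z ∈ Z.filter a, (m z : ℝ) * ‖Om n b t z ^ 2 - 1‖ with hD
  set N : ℝ := ∑ z ∈ Z.filter a, (m z : ℝ) with hN
  have hre : ∀ z, |(Om n b t z ^ 2).re - 1| ≤ ‖Om n b t z ^ 2 - 1‖ := by
    intro z
    have := Complex.abs_re_le_norm (Om n b t z ^ 2 - 1)
    simpa using this
  have hNS : N ≤ S + D := by
    rw [hN, hS, hD, ← Finset.sum_add_distrib]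
    refine Finset.sum_le_sum fun z _ => ?_
    have h1 := (abs_le.1 (hre z)).1
    have h2 : (0 : ℝ) ≤ m z := Nat.cast_nonneg _
    nlinarith
  have hsimp : ∑ z ∈ simp1 Z m a, (Om n b t z ^ 2).re ≤ x1 + D := by
    have h1 : ∑ z ∈ simp1 Z m a, (Om n b t z ^ 2).re ≤
        ∑ z ∈ simp1 Z m a, (1 + (m z : ℝ) * ‖Om n b t z ^ 2 - 1‖) := by
      refine Finset.sum_le_sum fun z hz => ?_
      unfold simp1 at hz
      rw [Finset.mem_filter] at hz
      rw [hz.2.2.2]
      have := (abs_le.1 (hre z)).2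
      push_cast
      linarith
    refine h1.trans ?_
    rw [Finset.sum_add_distrib, Finset.sum_const, nsmul_eq_mul, mul_one, ← hx1]
    gcongr
    rw [hD]
    apply Finset.sum_le_sum_of_subset_of_nonneg
    · intro z hz
      unfold simp1 at hz
      rw [Finset.mem_filter] at hz ⊢
      exact ⟨hz.1, hz.2.1⟩
    · intro z _ _
      positivity
  -- outside
  set O : ℝ := ∑ z ∈ Z.filter (fun z => ¬ a z),
      (m z : ℝ) * (‖Om n b t z‖ ^ 2 * (4 * Real.exp (Λ * |z.im|) + 6)) with hO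
  set O2 : ℝ := ∑ z ∈ Z.filter (fun z => ¬ a z), (m z : ℝ) * ‖Om n b t z‖ ^ 2 with hO2
  have hout : ∑ z ∈ Z.filter (fun z => ¬ a z ∧ ¬ far z),
      4 * (m z : ℝ) * (‖Om n b t z‖ ^ 2 *
        (‖kapG w (Λ * (z - (starRingEnd ℂ) z))‖ + 1)) ≤ O - 2 * O2 := by
    have e1 : Z.filter (fun z => ¬ a z ∧ ¬ far z) = Z.filter (fun z => ¬ a z) := by
      ext z
      simp [hfar]
    rw [e1, hO, hO2, Finset.mul_sum, ← Finset.sum_sub_distrib]
    refine Finset.sum_le_sum fun z _ => ?_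
    have h1 := kapG_norm hw hΛ z
    have h2 : (0 : ℝ) ≤ m z := Nat.cast_nonneg _
    have h3 : 0 ≤ ‖Om n b t z‖ ^ 2 := by positivity
    calc 4 * (m z : ℝ) * (‖Om n b t z‖ ^ 2 *
        (‖kapG w (Λ * (z - (starRingEnd ℂ) z))‖ + 1)) ≤
        4 * (m z : ℝ) * (‖Om n b t z‖ ^ 2 * (Real.exp (Λ * |z.im|) + 1)) := by gcongr
      _ = _ := by ring
  have hfar0 : ∑ z ∈ Z.filter (fun z => ¬ a z ∧ far z), (m z : ℝ) * (8 * ‖Om n b t z‖ ^ 2 + 4) =
      0 := by
    have e1 : Z.filter (fun z => ¬ a z ∧ far z) = ∅ := by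
      ext z
      simp [hfar]
    rw [e1, Finset.sum_empty]
  -- the linear statistic
  have hlin : (fS (k1 n) U1 U2 b t 0).re ≤ S + O2 := by
    have h1 : (fS (k1 n) U1 U2 b t 0).re = ∑ z ∈ Z, (m z : ℝ) * (Om n b t z ^ 2).re := by
      rw [fS_Om hn, Complex.re_sum, hZ, Finset.sum_image (fun s _ s' _ h => zz_inj h)]
      refine Finset.sum_congr rfl fun s _ => ?_
      rw [hmz]
      simp only [Complex.ofReal_zero, mul_zero, zero_mul, Complex.exp_zero, mul_one]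
      rw [← Complex.ofReal_natCast, Complex.re_ofReal_mul]
    rw [h1, ← Finset.sum_filter_add_sum_filter_not Z a, hS, hO2]
    gcongr with z _
    have := Complex.re_le_norm (Om n b t z ^ 2)
    rwa [norm_pow] at this
  -- the error
  have hEr : Er U1 U2 n b Λ ρ t = 4 * D + O := by
    have h1 : Er U1 U2 n b Λ ρ t = ∑ z ∈ Z, (m z : ℝ) * er n b Λ ρ t z := by
      unfold Er
      rw [hZ, Finset.sum_image (fun s _ s' _ h => zz_inj h)]
      refine Finset.sum_congr rfl fun s _ => ?_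
      rw [hmz]
    rw [h1, ← Finset.sum_filter_add_sum_filter_not Z a, hD, hO, Finset.mul_sum]
    congr 1
    · refine Finset.sum_congr rfl fun z hz => ?_
      rw [Finset.mem_filter] at hz
      unfold er
      rw [if_pos hz.2]
      ring
    · refine Finset.sum_congr rfl fun z hz => ?_
      rw [Finset.mem_filter] at hz
      unfold er
      rw [if_neg hz.2]
  rw [hQ, hfar0] at hcount
  rw [hEr, ← hX1]
  have hx10 : 0 ≤ x1 := Nat.cast_nonneg _
  have hy10 : 0 ≤ y1 := Nat.cast_nonneg _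
  linarith

end Pool.Agent.Helper92.FM
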