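import Pool.Agent.Helper92.FM.Lt1
import Pool.Agent.Helper92.FM.Lt2
import Pool.Agent.Helper92.FM.Wn1
import Pool.Agent.Helper92.FM.Wn3
import Pool.Agent.Helper92.FM.Wn4

set_option autoImplicit false

/-! Pointwise bounds for the local error of one zero. -/

open Complex Filter Topology Set MeasureTheory
open scoped BigOperators ComplexConjugate

namespace Pool.Agent.Helper92.FM

/-- the constant `17 / I0` -/
noncomputable def qc : ℝ := 17 / I0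

lemma qc_pos : 0 < qc := by
  unfold qc
  have := I0_pos
  positivity

lemma gauss_norm {z : ℂ} (hz : |z.im| ≤ 1 / 2) (t : ℝ) : ‖cexp (-(z - t) ^ 2 / 2)‖ ≤ 2 := by
  rw [Complex.norm_exp]
  have h1 : (-(z - t) ^ 2 / 2).re = -((z.re - t) ^ 2 - z.im ^ 2) / 2 := by
    have : -(z - (t : ℂ)) ^ 2 / 2 = ((-((z.re - t) ^ 2 - z.im ^ 2) / 2 : ℝ) : ℂ) +
        ((-(z.re - t) * z.im : ℝ) : ℂ) * I := by
      conv_lhs => rw [← Complex.re_add_im z]
      push_cast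
      ring_nf
      rw [Complex.I_sq]
      ring
    rw [this, Complex.add_re, Complex.ofReal_re, Complex.mul_re, Complex.ofReal_im]
    simp only [Complex.I_re, mul_zero, zero_mul, sub_zero, add_zero]
  rw [h1]
  have h2 : z.im ^ 2 ≤ 1 / 4 := by
    rw [← sq_abs]
    nlinarith [abs_nonneg z.im]
  have h3 : -((z.re - t) ^ 2 - z.im ^ 2) / 2 ≤ 1 / 2 := by
    have := sq_nonneg (z.re - t)
    linarith
  calc Real.exp _ ≤ Real.exp (1 / 2) := Real.exp_le_exp.2 h3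
    _ ≤ 2 := by
      have h4 := Real.exp_one_lt_d9
      have h5 : Real.exp (1 / 2) ^ 2 = Real.exp 1 := by
        rw [← Real.exp_nat_mul]
        norm_num
      nlinarith [Real.exp_pos (1 / 2 : ℝ)]

lemma Om_split (n b t : ℝ) (z : ℂ) : Om n b t z ^ 2 =
    cexp (-(z - t) ^ 2 / 2) * g1 n (b * (z - t)) ^ 2 := by
  unfold Om
  rw [mul_pow, ← Complex.exp_nat_mul]
  congr 2
  push_cast
  ring

lemma arg_re (b t : ℝ) (z : ℂ) : ((b : ℂ) * (z - t)).re = b * (z.re - t) := by simp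

lemma arg_im (b t : ℝ) (z : ℂ) : ((b : ℂ) * (z - t)).im = b * z.im := by simp

lemma Om_norm {n : ℝ} (hn : 0 ≤ n) {b : ℝ} (hb : 0 ≤ b) (t : ℝ) {z : ℂ} (hz : |z.im| ≤ 1 / 2) :
    ‖Om n b t z‖ ^ 2 ≤ 2 * qc ^ 2 * Real.exp (b * |z.im|) *
      FM.hn n (b * (z.re - t)) ^ 2 := by
  rw [← norm_pow, Om_split, norm_mul, norm_pow]
  have h1 := gauss_norm hz t
  have h2 := g1_norm hn (b * (z - t))
  rw [arg_re, arg_im, abs_mul, abs_of_nonneg hb] at h2
  have h3 : ‖g1 n (b * (z - t))‖ ^ 2 ≤ (17 / I0 * Real.exp (b * |z.im| / 2) *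
      FM.hn n (b * (z.re - t))) ^ 2 := pow_le_pow_left₀ (norm_nonneg _) h2 2
  have h4 : Real.exp (b * |z.im| / 2) ^ 2 = Real.exp (b * |z.im|) := by
    rw [← Real.exp_nat_mul]
    congr 1
    push_cast
    ring
  calc ‖cexp (-(z - t) ^ 2 / 2)‖ * ‖g1 n (b * (z - t))‖ ^ 2 ≤
      2 * (17 / I0 * Real.exp (b * |z.im| / 2) * FM.hn n (b * (z.re - t))) ^ 2 := by gcongr
    _ = 2 * (17 / I0) ^ 2 * Real.exp (b * |z.im| / 2) ^ 2 * FM.hn n (b * (z.re - t)) ^ 2 := by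
        ring
    _ = _ := by rw [h4]; rfl

/-- constant for the core -/
noncomputable def Dc : ℝ := 8 * qc ^ 2 * Real.pi ^ 2 + 4

/-- constant for the complement -/
noncomputable def D2 : ℝ := 20 * Real.pi * qc ^ 2

lemma Dc_pos : 0 < Dc := by
  unfold Dc
  have := qc_pos
  have := Real.pi_pos
  positivity

lemma D2_pos : 0 < D2 := by
  unfold D2
  have := qc_pos
  have := Real.pi_pos
  positivity

lemma er_out {n r b Λ t : ℝ} (hn : 0 ≤ n) (hr : 0 < r) (hrn : r ^ 2 = n) (hb : 0 ≤ b)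
    (hΛ : 0 ≤ Λ) {z : ℂ} (hz : |z.im| ≤ 1 / 2) (hc : ¬ |z.re - t| * b ≤ n - r) :
    er n b Λ (n - r) t z ≤ D2 * Real.exp ((b + Λ) * |z.im|) * Hm n r (b * (z.re - t)) := by
  unfold er
  rw [if_neg hc]
  have h1 := Om_norm hn hb t hz
  have h2 : n - r ≤ |b * (z.re - t)| := by
    rw [abs_mul, abs_of_nonneg hb, mul_comm]
    exact (not_le.1 hc).le
  have h3 := hn_tail hn hr hrn h2
  have h4 := hn_le_pi n (b * (z.re - t))
  have h5 := hn_nonneg hn (b * (z.re - t))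
  have h6 := Hm_nonneg n r (b * (z.re - t))
  have h7 : FM.hn n (b * (z.re - t)) ^ 2 ≤ Real.pi * Hm n r (b * (z.re - t)) := by
    rw [sq]
    gcongr
  have hpi := Real.pi_pos
  have hq := qc_pos
  have h8 : 4 * Real.exp (Λ * |z.im|) + 6 ≤ 10 * Real.exp (Λ * |z.im|) := by
    have : 1 ≤ Real.exp (Λ * |z.im|) := Real.one_le_exp (by positivity)
    linarith
  have h9 : Real.exp ((b + Λ) * |z.im|) = Real.exp (b * |z.im|) * Real.exp (Λ * |z.im|) := by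
    rw [← Real.exp_add]
    congr 1
    ring
  calc ‖Om n b t z‖ ^ 2 * (4 * Real.exp (Λ * |z.im|) + 6) ≤
      (2 * qc ^ 2 * Real.exp (b * |z.im|) * (Real.pi * Hm n r (b * (z.re - t)))) *
        (10 * Real.exp (Λ * |z.im|)) := by
        gcongr
        refine h1.trans ?_
        gcongr
    _ = _ := by
        rw [h9]
        unfold D2
        ring

lemma er_core_far {n ρ b Λ t : ℝ} (hn : 0 ≤ n) (hb : 0 ≤ b)
    {z : ℂ} (hz : |z.im| ≤ 1 / 2) (hc : |z.re - t| * b ≤ ρ) :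
    er n b Λ ρ t z ≤ Dc * Real.exp (b * |z.im|) := by
  unfold er
  rw [if_pos hc]
  have h1 := Om_norm hn hb t hz
  have h4 := hn_le_pi n (b * (z.re - t))
  have h5 := hn_nonneg hn (b * (z.re - t))
  have h6 : FM.hn n (b * (z.re - t)) ^ 2 ≤ Real.pi ^ 2 := pow_le_pow_left₀ h5 h4 2
  have hq := qc_pos
  have h7 : ‖Om n b t z ^ 2 - 1‖ ≤ ‖Om n b t z‖ ^ 2 + 1 := by
    refine (norm_sub_le _ _).trans ?_
    rw [norm_pow, norm_one]
  have h8 : 1 ≤ Real.exp (b * |z.im|) := Real.one_le_exp (by positivity)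
  have h9 : ‖Om n b t z‖ ^ 2 ≤ 2 * qc ^ 2 * Real.exp (b * |z.im|) * Real.pi ^ 2 :=
    h1.trans (by gcongr)
  unfold Dc
  calc 4 * ‖Om n b t z ^ 2 - 1‖ ≤
      4 * (2 * qc ^ 2 * Real.exp (b * |z.im|) * Real.pi ^ 2 + Real.exp (b * |z.im|)) := by
        gcongr
        linarith
    _ = _ := by ring

lemma er_core_near {n r b Λ t δ1 δ2 : ℝ} (hn : 0 ≤ n) (hr : 0 < r)
    (hb : 0 ≤ b) {z : ℂ} (hz : |z.im| ≤ 1 / 2) (hc : |z.re - t| * b ≤ n - r)
    (hy : b * |z.im| ≤ 1) (h1 : 34 / I0 / r + K0 n * (b * |z.im|) ≤ δ1) (h1' : δ1 ≤ 1)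
    (h2 : (z.re - t) ^ 2 + z.im ^ 2 ≤ δ2) (h2' : δ2 ≤ 1) :
    er n b Λ (n - r) t z ≤ 24 * δ1 + 4 * δ2 := by
  unfold er
  rw [if_pos hc, Om_split]
  set g := g1 n (b * (z - t)) with hg
  set E := cexp (-(z - t) ^ 2 / 2) with hE
  have e1 : ‖E‖ ≤ 2 := gauss_norm hz t
  have e2 : ‖E - 1‖ ≤ δ2 := by
    have h3 : ‖-(z - (t : ℂ)) ^ 2 / 2‖ = ((z.re - t) ^ 2 + z.im ^ 2) / 2 := by
      rw [norm_div, norm_neg, norm_pow, ← Complex.normSq_eq_norm_sq, Complex.normSq_apply]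
      simp
      ring
    have h4 := Complex.norm_exp_sub_one_le (x := -(z - (t : ℂ)) ^ 2 / 2) (by rw [h3]; linarith)
    rw [h3] at h4
    rw [hE]
    linarith
  have e3 : ‖g - 1‖ ≤ δ1 := by
    have h3 := g1_near hn (z := b * (z - t)) (by rw [arg_im, abs_mul, abs_of_nonneg hb]; exact hy)
    rw [arg_re, arg_im, abs_mul, abs_of_nonneg hb, g1_real hn] at h3
    have h4 : |b * (z.re - t)| ≤ n - r := by
      rw [abs_mul, abs_of_nonneg hb, mul_comm]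
      exact hc
    have h5 := g1r_core hn hr h4
    have h6 := g1r_le_one hn (b * (z.re - t))
    have h7 : ‖((g1r n (b * (z.re - t)) : ℝ) : ℂ) - 1‖ ≤ 34 / I0 / r := by
      rw [← Complex.ofReal_one, ← Complex.ofReal_sub, Complex.norm_real, Real.norm_eq_abs,
        abs_sub_comm, abs_of_nonneg (by linarith)]
      exact h5
    calc ‖g - 1‖ = ‖(g - ((g1r n (b * (z.re - t)) : ℝ) : ℂ)) +
        (((g1r n (b * (z.re - t)) : ℝ) : ℂ) - 1)‖ := by congr 1; ring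
      _ ≤ _ := norm_add_le _ _
      _ ≤ K0 n * (b * |z.im|) + 34 / I0 / r := add_le_add h3 h7
      _ ≤ δ1 := by linarith
  have e4 : ‖g ^ 2 - 1‖ ≤ 3 * δ1 := by
    have h3 : g ^ 2 - 1 = (g - 1) * ((g - 1) + 2) := by ring
    rw [h3, norm_mul]
    have h4 : ‖(g - 1) + 2‖ ≤ 3 := by
      refine (norm_add_le _ _).trans ?_
      have : ‖(2 : ℂ)‖ = 2 := by simp
      rw [this]
      linarith
    have h5 : 0 ≤ δ1 := (norm_nonneg _).trans e3
    calc ‖g - 1‖ * ‖g - 1 + 2‖ ≤ δ1 * 3 := by gcongr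
      _ = 3 * δ1 := by ring
  have e5 : ‖E * g ^ 2 - 1‖ ≤ 6 * δ1 + δ2 := by
    have h3 : E * g ^ 2 - 1 = E * (g ^ 2 - 1) + (E - 1) := by ring
    rw [h3]
    refine (norm_add_le _ _).trans ?_
    rw [norm_mul]
    calc ‖E‖ * ‖g ^ 2 - 1‖ + ‖E - 1‖ ≤ 2 * (3 * δ1) + δ2 := by gcongr
      _ = _ := by ring
  linarith

end Pool.Agent.Helper92.FM
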