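import Pool.Agent.Helper92.FM.Dn
import Pool.Agent.Helper92.FM.Av1
import Pool.Agent.Helper92.FM.Wn1
import Pool.Agent.Helper92.FM.Wn3
import Pool.Agent.Helper92.FM.Wn4
import Pool.Agent.Helper92.FM.Lt2
import Pool.Graph.R_seed8.H370R2.Defs
import Pool.Graph.R_seed8.H370R2.Defs2
import Pool.Graph.R_seed8.H370R2.DirGood
import Pool.Graph.R_seed8.H370R2.PC1

set_option autoImplicit false

/-! The local error, in mean. -/

open Complex Filter Topology Set MeasureTheory
open scoped BigOperators ComplexConjugate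

namespace Pool.Agent.Helper92.FM

open H370 (Zf good_zeta mult zz zz_re zz_im mem_Zf zset)

/-- majorant of the error of one zero -/
noncomputable def Mj (n r b c1 c2 X t : ℝ) : ℝ :=
  (Set.Icc (X - n / b) (X + n / b)).indicator (fun _ => c1) t + c2 * Hm n r (b * (X - t))

lemma Mj_nonneg {n r b c1 c2 : ℝ} (h1 : 0 ≤ c1) (h2 : 0 ≤ c2) (X t : ℝ) :
    0 ≤ Mj n r b c1 c2 X t := by
  unfold Mj
  have e1 : 0 ≤ (Set.Icc (X - n / b) (X + n / b)).indicator (fun _ => c1) t :=
    Set.indicator_nonneg (fun _ _ => h1) _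
  have e2 := Hm_nonneg n r (b * (X - t))
  positivity

lemma Mj_int {n r b : ℝ} (hn : 0 ≤ n) (hr : 0 < r) (hb : 0 < b) (c1 c2 X : ℝ) :
    Integrable (Mj n r b c1 c2 X) ∧
    ∫ t, Mj n r b c1 c2 X t = c1 * (2 * n / b) + c2 * (4 * Real.pi ^ 2 * r / b) := by
  obtain ⟨h1, h2⟩ := Hm_int (n := n) hr
  have h3 : Integrable (fun t : ℝ => Hm n r (b * t)) := h1.comp_mul_left' hb.ne'
  have h4 : Integrable (fun t : ℝ => Hm n r (b * (X - t))) := h3.comp_sub_left X
  have h5 : ∫ t : ℝ, Hm n r (b * (X - t)) = 4 * Real.pi ^ 2 * r / b := by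
    have e1 := integral_sub_left_eq_self (fun t : ℝ => Hm n r (b * t)) volume X
    rw [e1, Measure.integral_comp_mul_left (fun t => Hm n r t), h2, smul_eq_mul,
      abs_of_pos (by positivity)]
    ring
  have i1 : Integrable ((Set.Icc (X - n / b) (X + n / b)).indicator (fun _ : ℝ => c1)) := by
    rw [integrable_indicator_iff measurableSet_Icc]
    exact integrableOn_const (by simp)
  have i2 : ∫ t, (Set.Icc (X - n / b) (X + n / b)).indicator (fun _ : ℝ => c1) t =
      c1 * (2 * n / b) := by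
    rw [integral_indicator measurableSet_Icc, setIntegral_const, smul_eq_mul, Real.volume_real_Icc]
    have : X + n / b - (X - n / b) = 2 * n / b := by ring
    rw [this, max_eq_left (by positivity)]
    ring
  refine ⟨i1.add (h4.const_mul c2), ?_⟩
  unfold Mj
  rw [integral_add i1 (h4.const_mul c2), i2, integral_const_mul, h5]

/-- the error of one zero -/
lemma er_all {n r β L h A0 e1 t : ℝ} (hn : 0 ≤ n) (hr : 0 < r) (hrn : r ^ 2 = n)
    (hβ : 0 < β) (hL : 1 ≤ L) (hh : 0 ≤ h) (hβh : β + h ≤ 1) (hA : 0 ≤ A0)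
    (hβA : β * A0 ≤ 1) (h1 : 34 / I0 / r + K0 n * (β * A0) ≤ 1)
    (h2 : (n / (β * L)) ^ 2 + (A0 / L) ^ 2 ≤ 1)
    (he1 : e1 = 24 * (34 / I0 / r + K0 n * (β * A0)) + 4 * ((n / (β * L)) ^ 2 + (A0 / L) ^ 2))
    {z : ℂ} (hz : |z.im| ≤ 1 / 2) :
    er n (β * L) (h * L) (n - r) t z ≤ Mj n r (β * L)
      (e1 + Dc * Real.exp (-A0 / 8) * Real.exp (9 / 8 * (|z.im| * L)))
      (D2 * (Real.exp A0 + Real.exp (-A0 / 8) * Real.exp (9 / 8 * (|z.im| * L)))) z.re t := by
  have hL0 : 0 < L := by linarith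
  have hb : 0 < β * L := by positivity
  have hΛ : 0 ≤ h * L := by positivity
  have hK := K0_nonneg hn
  have hI := I0_pos
  have hD := Dc_pos
  have hD2 := D2_pos
  have hy0 := abs_nonneg z.im
  have he10 : 0 ≤ e1 := by
    rw [he1]
    positivity
  set G := Real.exp (9 / 8 * (|z.im| * L)) with hG
  have hG0 : 0 < G := Real.exp_pos _
  have hc1 : 0 ≤ e1 + Dc * Real.exp (-A0 / 8) * G := by positivity
  have hc2 : 0 ≤ D2 * (Real.exp A0 + Real.exp (-A0 / 8) * G) := by positivity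
  -- the exponential factor
  have hexp : Real.exp (β * L * |z.im| + h * L * |z.im|) ≤
      Real.exp A0 + Real.exp (-A0 / 8) * G := by
    have h3 : β * L * |z.im| + h * L * |z.im| ≤ |z.im| * L := by
      have : (β + h) * (|z.im| * L) ≤ 1 * (|z.im| * L) := by gcongr
      linarith
    rcases le_or_gt (|z.im| * L) A0 with h4 | h4
    · have := Real.exp_le_exp.2 (h3.trans h4)
      have h5 : 0 ≤ Real.exp (-A0 / 8) * G := by positivity
      linarith
    · have h5 : Real.exp (|z.im| * L) ≤ Real.exp (-A0 / 8) * G := by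
        rw [hG, ← Real.exp_add]
        apply Real.exp_le_exp.2
        linarith
      have := Real.exp_le_exp.2 h3
      have h6 := (Real.exp_pos A0).le
      linarith
  by_cases hc : |z.re - t| * (β * L) ≤ n - r
  · -- in the core
    have hmem : t ∈ Set.Icc (z.re - n / (β * L)) (z.re + n / (β * L)) := by
      have h3 : |z.re - t| ≤ n / (β * L) := by
        rw [le_div_iff₀ hb]
        linarith
      rw [abs_le] at h3
      constructor <;> linarith
    have hM : e1 + Dc * Real.exp (-A0 / 8) * G ≤ Mj n r (β * L)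
        (e1 + Dc * Real.exp (-A0 / 8) * G)
        (D2 * (Real.exp A0 + Real.exp (-A0 / 8) * G)) z.re t := by
      unfold Mj
      rw [Set.indicator_of_mem hmem]
      have := Hm_nonneg n r (β * L * (z.re - t))
      have h3 : 0 ≤ D2 * (Real.exp A0 + Real.exp (-A0 / 8) * G) *
        Hm n r (β * L * (z.re - t)) := by positivity
      linarith
    refine le_trans ?_ hM
    rcases le_or_gt (|z.im| * L) A0 with h4 | h4
    · have h5 : β * L * |z.im| ≤ β * A0 := by
        calc β * L * |z.im| = β * (|z.im| * L) := by ring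
          _ ≤ _ := by gcongr
      have h6 : (z.re - t) ^ 2 + z.im ^ 2 ≤ (n / (β * L)) ^ 2 + (A0 / L) ^ 2 := by
        have h7 : |z.re - t| ≤ n / (β * L) := by
          rw [le_div_iff₀ hb]
          linarith
        have h8 : |z.im| ≤ A0 / L := by
          rw [le_div_iff₀ hL0]
          exact h4
        have h9 := pow_le_pow_left₀ (abs_nonneg _) h7 2
        have h10 := pow_le_pow_left₀ (abs_nonneg _) h8 2
        rw [sq_abs] at h9 h10
        exact add_le_add h9 h10
      have h7 := er_core_near (Λ := h * L) (t := t) hn hr hb.le hz hc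
        (h5.trans hβA) (δ1 := 34 / I0 / r + K0 n * (β * A0)) (by gcongr) h1 h6 h2
      rw [← he1] at h7
      have h8 : 0 ≤ Dc * Real.exp (-A0 / 8) * G := by positivity
      linarith
    · have h5 := er_core_far (n := n) (Λ := h * L) (t := t) hn hb.le hz hc
      have h6 : Real.exp (β * L * |z.im|) ≤ Real.exp (-A0 / 8) * G := by
        rw [hG, ← Real.exp_add]
        apply Real.exp_le_exp.2
        have h7 : β * L * |z.im| ≤ |z.im| * L := by
          calc β * L * |z.im| = β * (|z.im| * L) := by ring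
            _ ≤ 1 * (|z.im| * L) := by
              gcongr
              linarith
            _ = _ := one_mul _
        linarith
      calc _ ≤ Dc * Real.exp (β * L * |z.im|) := h5
        _ ≤ Dc * (Real.exp (-A0 / 8) * G) := by gcongr
        _ ≤ _ := by
          have : Dc * (Real.exp (-A0 / 8) * G) = Dc * Real.exp (-A0 / 8) * G := by ring
          linarith
  · have h3 := er_out hn hr hrn hb.le hΛ hz hc
    have h4 := Hm_nonneg n r (β * L * (z.re - t))
    have h5 : (β * L + h * L) * |z.im| = β * L * |z.im| + h * L * |z.im| := by ring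
    rw [h5] at h3
    have h6 : 0 ≤ (Set.Icc (z.re - n / (β * L)) (z.re + n / (β * L))).indicator
        (fun _ => e1 + Dc * Real.exp (-A0 / 8) * G) t := Set.indicator_nonneg (fun _ _ => hc1) _
    unfold Mj
    calc _ ≤ _ := h3
      _ ≤ D2 * (Real.exp A0 + Real.exp (-A0 / 8) * G) * Hm n r (β * L * (z.re - t)) := by gcongr
      _ ≤ _ := by linarith

/-- the summed majorant -/
noncomputable def Ms (U1 U2 n r β L A0 e1 t : ℝ) : ℝ :=
  ∑ s ∈ Zf riemannZeta U1 U2, (mult riemannZeta s : ℝ) * Mj n r (β * L)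
      (e1 + Dc * Real.exp (-A0 / 8) * Real.exp (9 / 8 * (|(zz s).im| * L)))
      (D2 * (Real.exp A0 + Real.exp (-A0 / 8) * Real.exp (9 / 8 * (|(zz s).im| * L)))) (zz s).re t

lemma Ms_int {U1 U2 n r β L A0 e1 : ℝ} (hn : 0 ≤ n) (hr : 0 < r) (hb : 0 < β * L) :
    Integrable (Ms U1 U2 n r β L A0 e1) ∧
    ∫ t, Ms U1 U2 n r β L A0 e1 t =
      (2 * n / (β * L) * e1 + 4 * Real.pi ^ 2 * r / (β * L) * (D2 * Real.exp A0)) *
        (∑ s ∈ Zf riemannZeta U1 U2, (mult riemannZeta s : ℝ)) +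
      (2 * n / (β * L) * (Dc * Real.exp (-A0 / 8)) +
        4 * Real.pi ^ 2 * r / (β * L) * (D2 * Real.exp (-A0 / 8))) *
        ∑ s ∈ Zf riemannZeta U1 U2, (mult riemannZeta s : ℝ) *
          Real.exp (9 / 8 * (|(zz s).im| * L)) := by
  have h1 : ∀ s : ℂ, Integrable (fun t : ℝ => (mult riemannZeta s : ℝ) * Mj n r (β * L)
      (e1 + Dc * Real.exp (-A0 / 8) * Real.exp (9 / 8 * (|(zz s).im| * L)))
      (D2 * (Real.exp A0 + Real.exp (-A0 / 8) * Real.exp (9 / 8 * (|(zz s).im| * L))))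
      (zz s).re t) := fun s => (Mj_int hn hr hb _ _ _).1.const_mul _
  refine ⟨integrable_finsetSum _ fun s _ => h1 s, ?_⟩
  unfold Ms
  rw [integral_finsetSum _ fun s _ => h1 s, Finset.mul_sum, Finset.mul_sum,
    ← Finset.sum_add_distrib]
  refine Finset.sum_congr rfl fun s _ => ?_
  rw [integral_const_mul, (Mj_int hn hr hb _ _ _).2]
  ring

lemma sq_small {X L ε : ℝ} (hε : 0 ≤ ε) (hL : 1 ≤ L) (h : 8 * X ≤ L * ε / 8) :
    X * 8 / L ^ 2 ≤ ε / 8 := by
  rw [div_le_iff₀ (by positivity)]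
  have h1 : L * ε ≤ L ^ 2 * ε := by
    have : L ≤ L ^ 2 := by nlinarith
    gcongr
  linarith

/-- **the local error in mean** -/
theorem Er_mean (h : ℝ) (hh0 : 0 ≤ h) (hh1 : h < 1) (ε : ℝ) (hε : 0 < ε) :
    ∃ r0 : ℝ, 1 ≤ r0 ∧ ∀ r : ℝ, r0 ≤ r → ∃ β0 : ℝ, 0 < β0 ∧ ∀ β : ℝ, 0 < β → β ≤ β0 →
      ∃ T0 : ℝ, 10 ≤ T0 ∧ ∀ T : ℝ, T0 ≤ T → ∀ U1 U2 : ℝ, T ≤ U1 → U2 ≤ 2 * T →
      ∃ M : ℝ → ℝ, Integrable M ∧ (∀ t, 0 ≤ M t) ∧
        (∀ t, Er U1 U2 (r ^ 2) (β * Real.log T) (h * Real.log T) (r ^ 2 - r) t ≤ M t) ∧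
        ∫ t, M t ≤ ε * (r ^ 2 * (T / β)) := by
  obtain ⟨C4, T4, hC4, hT4, hdens⟩ := dens98
  obtain ⟨C3, hC3, hcnt⟩ := count_TL
  have hI := I0_pos
  have hD := Dc_pos
  have hD2 := D2_pos
  have hpi := Real.pi_pos
  -- choice of `A0`
  obtain ⟨A0, hA0, hA1, hA2⟩ : ∃ A0 : ℝ, 0 ≤ A0 ∧ 2 * Dc * C4 * Real.exp (-A0 / 8) ≤ ε / 8 ∧
      4 * Real.pi ^ 2 * D2 * C4 * Real.exp (-A0 / 8) ≤ ε / 8 := by
    have ht : Tendsto (fun A : ℝ => Real.exp (-A / 8)) atTop (𝓝 0) := by
      apply Real.tendsto_exp_atBot.comp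
      apply Tendsto.atBot_div_const (by norm_num)
      exact tendsto_neg_atTop_atBot
    have e1 : Tendsto (fun A : ℝ => 2 * Dc * C4 * Real.exp (-A / 8)) atTop (𝓝 0) := by
      simpa using ht.const_mul (2 * Dc * C4)
    have e2 : Tendsto (fun A : ℝ => 4 * Real.pi ^ 2 * D2 * C4 * Real.exp (-A / 8)) atTop
        (𝓝 0) := by
      simpa using ht.const_mul (4 * Real.pi ^ 2 * D2 * C4)
    have e3 := e1.eventually_le_const (by positivity : (0 : ℝ) < ε / 8)
    have e4 := e2.eventually_le_const (by positivity : (0 : ℝ) < ε / 8)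
    obtain ⟨A, hA⟩ := ((eventually_ge_atTop (0 : ℝ)).and (e3.and e4)).exists
    exact ⟨A, hA.1, hA.2.1, hA.2.2⟩
  -- choice of `r`
  set a1 : ℝ := 2 * C3 * 24 * (34 / I0) with ha1
  set a2 : ℝ := 4 * Real.pi ^ 2 * D2 * Real.exp A0 * C3 with ha2
  have ha10 : 0 ≤ a1 := by positivity
  have ha20 : 0 ≤ a2 := by positivity
  refine ⟨max 1 (max (2 * (34 / I0)) (max (8 * a1 / ε) (8 * a2 / ε))), le_max_left _ _,
    fun r hr => ?_⟩
  have hr1 : 1 ≤ r := (le_max_left _ _).trans hr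
  have hr2 : 2 * (34 / I0) ≤ r := (le_max_left _ _).trans ((le_max_right _ _).trans hr)
  have hr3 : 8 * a1 / ε ≤ r := (le_max_left _ _).trans ((le_max_right _ _).trans
    ((le_max_right _ _).trans hr))
  have hr4 : 8 * a2 / ε ≤ r := (le_max_right _ _).trans ((le_max_right _ _).trans
    ((le_max_right _ _).trans hr))
  have hr0 : 0 < r := by linarith
  have hr3' : a1 / r ≤ ε / 8 := by
    rw [div_le_iff₀ hε] at hr3
    rw [div_le_iff₀ hr0]
    linarith
  have hr4' : a2 ≤ ε / 8 * r := by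
    rw [div_le_iff₀ hε] at hr4
    linarith
  have hr2' : 34 / I0 / r ≤ 1 / 2 := by
    rw [div_le_iff₀ hr0]
    linarith
  set n : ℝ := r ^ 2 with hn
  have hn0 : 0 ≤ n := by positivity
  have hn1 : 1 ≤ n := by nlinarith
  have hrn : r ≤ n := by nlinarith
  have hK := K0_nonneg hn0
  -- choice of `β`
  set a3 : ℝ := 2 * C3 * 24 * K0 n * A0 with ha3
  have ha30 : 0 ≤ a3 := by positivity
  have hpos3 : 0 < min (1 - h) (min (1 / (A0 + 1)) (min (1 / (2 * (K0 n * A0 + 1)))
      (ε / (8 * (a3 + 1))))) := by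
    have : 0 < 1 - h := by linarith
    refine lt_min this (lt_min (by positivity) (lt_min (by positivity) (by positivity)))
  refine ⟨_, hpos3, fun β hβ hβ0 => ?_⟩
  have hβ1 : β ≤ 1 - h := hβ0.trans (min_le_left _ _)
  have hβ2 : β ≤ 1 / (A0 + 1) := hβ0.trans ((min_le_right _ _).trans (min_le_left _ _))
  have hβ3 : β ≤ 1 / (2 * (K0 n * A0 + 1)) :=
    hβ0.trans ((min_le_right _ _).trans ((min_le_right _ _).trans (min_le_left _ _)))
  have hβ4 : β ≤ ε / (8 * (a3 + 1)) :=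
    hβ0.trans ((min_le_right _ _).trans ((min_le_right _ _).trans (min_le_right _ _)))
  have hβ2' : β * A0 ≤ 1 := by
    rw [le_div_iff₀ (by positivity)] at hβ2
    nlinarith
  have hβ3' : K0 n * (β * A0) ≤ 1 / 2 := by
    rw [le_div_iff₀ (by positivity)] at hβ3
    have : 0 ≤ K0 n * A0 := by positivity
    nlinarith
  have hβ4' : a3 * β ≤ ε / 8 := by
    rw [le_div_iff₀ (by positivity)] at hβ4
    nlinarith
  -- choice of `T`
  have hev : ∀ᶠ T : ℝ in atTop, max 1 (max (2 * n / β) (max (2 * A0) (max (64 * C3 * (n / β) ^ 2 / ε)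
      (64 * C3 * A0 ^ 2 / ε)))) ≤ Real.log T := Real.tendsto_log_atTop.eventually_ge_atTop _
  obtain ⟨T2, hT2⟩ := hev.exists_forall_of_atTop
  refine ⟨max T2 (max T4 10), (le_max_right _ _).trans (le_max_right _ _), fun T hT U1 U2 h1 h2 => ?_⟩
  have hT10 : 10 ≤ T := (le_max_right _ _).trans ((le_max_right _ _).trans hT)
  have hTT4 : T4 ≤ T := (le_max_left _ _).trans ((le_max_right _ _).trans hT)
  have hLL := hT2 T ((le_max_left _ _).trans hT)
  set L := Real.log T with hL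
  have hL1 : 1 ≤ L := (le_max_left _ _).trans hLL
  have hL2 : 2 * n / β ≤ L := (le_max_left _ _).trans ((le_max_right _ _).trans hLL)
  have hL3 : 2 * A0 ≤ L := (le_max_left _ _).trans ((le_max_right _ _).trans
    ((le_max_right _ _).trans hLL))
  have hL4 : 64 * C3 * (n / β) ^ 2 / ε ≤ L := (le_max_left _ _).trans ((le_max_right _ _).trans
    ((le_max_right _ _).trans ((le_max_right _ _).trans hLL)))
  have hL5 : 64 * C3 * A0 ^ 2 / ε ≤ L := (le_max_right _ _).trans ((le_max_right _ _).trans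
    ((le_max_right _ _).trans ((le_max_right _ _).trans hLL)))
  have hL0 : 0 < L := by linarith
  have hTpos : 0 < T := by linarith
  have hx1 : n / (β * L) ≤ 1 / 2 := by
    rw [div_le_iff₀ (by positivity)]
    rw [div_le_iff₀ hβ] at hL2
    linarith
  have hx2 : A0 / L ≤ 1 / 2 := by
    rw [div_le_iff₀ hL0]
    linarith
  have hx10 : 0 ≤ n / (β * L) := by positivity
  have hx20 : 0 ≤ A0 / L := by positivity
  have hsq1 : (n / (β * L)) ^ 2 + (A0 / L) ^ 2 ≤ 1 := by nlinarith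
  set e1 : ℝ := 24 * (34 / I0 / r + K0 n * (β * A0)) + 4 * ((n / (β * L)) ^ 2 + (A0 / L) ^ 2)
    with he1
  have he10 : 0 ≤ e1 := by positivity
  obtain ⟨m1, m2⟩ := Ms_int (U1 := U1) (U2 := U2) (A0 := A0) (e1 := e1) (β := β) (L := L) hn0 hr0
    (by positivity)
  refine ⟨Ms U1 U2 n r β L A0 e1, m1, fun t => ?_, fun t => ?_, ?_⟩
  · refine Finset.sum_nonneg fun s _ => mul_nonneg (Nat.cast_nonneg _) (Mj_nonneg ?_ ?_ _ _)
    · positivity
    · positivity
  · unfold Er Ms
    refine Finset.sum_le_sum fun s hs => mul_le_mul_of_nonneg_left ?_ (Nat.cast_nonneg _)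
    refine er_all hn0 hr0 rfl hβ hL1 hh0 (by linarith) hA0 hβ2' (by linarith) hsq1 he1 ?_
    rw [mem_Zf good_zeta (by linarith)] at hs
    rw [zz_im, abs_neg, abs_le]
    constructor <;> linarith [hs.1, hs.2.1]
  · rw [m2]
    have hc := hcnt T hT10 U1 U2 h1 h2
    have hd := hdens T hTT4 U1 U2 h1 h2
    set S1 := ∑ s ∈ Zf riemannZeta U1 U2, (mult riemannZeta s : ℝ) with hS1
    set S2 := ∑ s ∈ Zf riemannZeta U1 U2, (mult riemannZeta s : ℝ) *
          Real.exp (9 / 8 * (|(zz s).im| * L)) with hS2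
    set E1 := Real.exp A0 with hE1
    set E2 := Real.exp (-A0 / 8) with hE2
    have hE10 : 0 < E1 := Real.exp_pos _
    have hE20 : 0 < E2 := Real.exp_pos _
    have step : (2 * n / (β * L) * e1 + 4 * Real.pi ^ 2 * r / (β * L) * (D2 * E1)) * S1 +
        (2 * n / (β * L) * (Dc * E2) + 4 * Real.pi ^ 2 * r / (β * L) * (D2 * E2)) * S2 ≤
        (2 * n / (β * L) * e1 + 4 * Real.pi ^ 2 * r / (β * L) * (D2 * E1)) * (C3 * (T * L)) +
        (2 * n / (β * L) * (Dc * E2) + 4 * Real.pi ^ 2 * r / (β * L) * (D2 * E2)) *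
          (C4 * (T * L)) := by gcongr
    refine step.trans ?_
    have e : (2 * n / (β * L) * e1 + 4 * Real.pi ^ 2 * r / (β * L) * (D2 * E1)) * (C3 * (T * L)) +
        (2 * n / (β * L) * (Dc * E2) + 4 * Real.pi ^ 2 * r / (β * L) * (D2 * E2)) *
          (C4 * (T * L)) = (2 * C3 * e1 * n + a2 * r + 2 * Dc * C4 * E2 * n +
            4 * Real.pi ^ 2 * D2 * C4 * E2 * r) * (T / β) := by
      rw [ha2]
      field_simp
      ring
    rw [e]
    have b1 : 2 * C3 * e1 ≤ ε / 2 := by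
      have c1 : 2 * C3 * e1 = a1 / r + a3 * β + 8 * C3 * ((n / (β * L)) ^ 2 + (A0 / L) ^ 2) := by
        rw [he1, ha1, ha3]
        ring
      have c2 : 8 * C3 * (n / (β * L)) ^ 2 ≤ ε / 8 := by
        have c3 : 8 * C3 * (n / (β * L)) ^ 2 = C3 * (n / β) ^ 2 * 8 / L ^ 2 := by
          field_simp
        rw [c3]
        rw [div_le_iff₀ hε] at hL4
        exact sq_small hε.le hL1 (by linarith)
      have c4 : 8 * C3 * (A0 / L) ^ 2 ≤ ε / 8 := by
        have c3 : 8 * C3 * (A0 / L) ^ 2 = C3 * A0 ^ 2 * 8 / L ^ 2 := by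
          field_simp
        rw [c3]
        rw [div_le_iff₀ hε] at hL5
        exact sq_small hε.le hL1 (by linarith)
      rw [c1]
      linarith
    have b2 : a2 * r ≤ ε / 8 * n := by
      calc a2 * r ≤ (ε / 8 * r) * r := by gcongr
        _ = _ := by rw [hn]; ring
    have b3 : 2 * Dc * C4 * E2 * n ≤ ε / 8 * n := by gcongr
    have b4 : 4 * Real.pi ^ 2 * D2 * C4 * E2 * r ≤ ε / 8 * n := by
      calc _ ≤ ε / 8 * r := by gcongr
        _ ≤ _ := by gcongr
    have b5 : 2 * C3 * e1 * n ≤ ε / 2 * n := by gcongr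
    have b6 : 2 * C3 * e1 * n + a2 * r + 2 * Dc * C4 * E2 * n +
            4 * Real.pi ^ 2 * D2 * C4 * E2 * r ≤ ε * n := by
      have : 0 ≤ ε * n := by positivity
      linarith
    calc _ ≤ ε * n * (T / β) := by gcongr
      _ = _ := by ring

end Pool.Agent.Helper92.FM
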