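import Pool.Graph.R_seed8.TH800.MS.Pn
import Pool.Graph.R_seed8.TH800.MS.Dg

set_option autoImplicit false

/-! The weighted diagonal. -/

open Complex Filter Topology Set MeasureTheory
open scoped ComplexConjugate

namespace Pool.Agent.Helper92.FM

open Pool.Agent.TH800.MS

variable {k : ℝ → ℝ} {A b : ℝ}

lemma tail_sum {N : ℕ} {X z : ℝ} :
    ∑ p ∈ (PX N).filter (fun p : ℕ => Real.log p ≤ X), aa p ^ 2 *
      (if z ≤ Real.log p then (1 : ℝ) else 0) ≤ As N X - As N (z - 1) + 0 ∨ X < z - 1 := by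
  rcases lt_or_ge X (z - 1) with h | h
  · right; exact h
  left
  unfold As
  rw [add_zero, le_sub_iff_add_le]
  rw [Finset.sum_filter, Finset.sum_filter, Finset.sum_filter, ← Finset.sum_add_distrib]
  refine Finset.sum_le_sum fun p _ => ?_
  have := sq_nonneg (aa p)
  by_cases c1 : Real.log p ≤ X
  · by_cases c2 : z ≤ Real.log p
    · rw [if_pos c1, if_pos c2, if_neg (by linarith), if_pos c1]; linarith
    · rw [if_pos c1, if_neg c2]
      split_ifs <;> linarith
  · rw [if_neg c1, if_neg (by linarith), if_neg c1]; linarith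

lemma tail_sum' {N : ℕ} {X z : ℝ} :
    As N X - As N z ≤
    ∑ p ∈ (PX N).filter (fun p : ℕ => Real.log p ≤ X), aa p ^ 2 *
      (if z ≤ Real.log p then (1 : ℝ) else 0) := by
  unfold As
  rw [sub_le_iff_le_add]
  rw [Finset.sum_filter, Finset.sum_filter, Finset.sum_filter, ← Finset.sum_add_distrib]
  refine Finset.sum_le_sum fun p _ => ?_
  have := sq_nonneg (aa p)
  by_cases c1 : Real.log p ≤ X
  · by_cases c2 : z ≤ Real.log p
    · rw [if_pos c1, if_pos c1, if_pos c2]
      split_ifs <;> linarith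
    · rw [if_pos c1, if_pos c1, if_neg c2, if_pos (by linarith)]; linarith
  · rw [if_neg c1, if_neg c1]
    split_ifs <;> linarith

/-- Abel summation for `log² p / p` -/
theorem abel_aa : ∃ C : ℝ, 0 < C ∧ ∀ (N : ℕ) (L lam B : ℝ) (ψ ψ' : ℝ → ℝ), 1 ≤ N → 1 ≤ L →
    0 < lam → lam ≤ 1 → lam * L ≤ Real.log N → (∀ α, HasDerivAt ψ (ψ' α) α) → Continuous ψ' →
    (∀ α, 0 ≤ α → α ≤ lam → |ψ α| ≤ B ∧ |ψ' α| ≤ B) →
    |(∑ p ∈ (PX N).filter (fun p : ℕ => Real.log p ≤ lam * L), aa p ^ 2 * ψ (Real.log p / L)) -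
      L ^ 2 * ∫ α in (0 : ℝ)..lam, α * ψ α| ≤ C * B * L := by
  obtain ⟨C, hC, h⟩ := As_asym
  refine ⟨2 * C + (4 * C + 2), by positivity, fun N L lam B ψ ψ' hN hL hl0 hl1 hlN hψ hψ' hB => ?_⟩
  have hL0 : 0 < L := by linarith
  have hB0 : 0 ≤ B := (abs_nonneg _).trans (hB 0 le_rfl hl0.le).1
  set X := lam * L with hX
  have hX0 : 0 < X := by positivity
  have hXL : X ≤ L := by nlinarith
  set F := (PX N).filter (fun p : ℕ => Real.log p ≤ X) with hF
  have hψc : Continuous ψ := continuous_iff_continuousAt.2 fun x => (hψ x).continuousAt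
  -- pointwise formula
  have hpt : ∀ p ∈ F, ψ (Real.log p / L) = ψ 0 +
      ∫ y in (0 : ℝ)..lam, ψ' y * (if y * L ≤ Real.log p then (1 : ℝ) else 0) := by
    intro p hp
    have hp1 := (Finset.mem_filter.1 hp).2
    have hx0 : 0 ≤ Real.log p / L := div_nonneg (Real.log_natCast_nonneg p) hL0.le
    have hx1 : Real.log p / L ≤ lam := by
      rw [div_le_iff₀ hL0]; exact hp1
    have h1 := intervalIntegral.integral_indicator (μ := volume) (f := ψ')
      (a₁ := 0) (a₂ := Real.log p / L) (a₃ := lam) ⟨hx0, hx1⟩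
    have h2 : ∫ y in (0 : ℝ)..(Real.log p / L), ψ' y = ψ (Real.log p / L) - ψ 0 :=
      intervalIntegral.integral_eq_sub_of_hasDerivAt (fun x _ => hψ x)
        (hψ'.intervalIntegrable _ _)
    have h3 : ∫ y in (0 : ℝ)..lam, ψ' y * (if y * L ≤ Real.log p then (1 : ℝ) else 0) =
        ∫ y in (0 : ℝ)..lam, Set.indicator {x | x ≤ Real.log p / L} ψ' y := by
      refine intervalIntegral.integral_congr fun y _ => ?_
      have hiff : y ≤ Real.log p / L ↔ y * L ≤ Real.log p := le_div_iff₀ hL0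
      by_cases c : y * L ≤ Real.log p
      · rw [if_pos c, Set.indicator_of_mem (by exact hiff.2 c), mul_one]
      · rw [if_neg c, Set.indicator_of_notMem (by intro hc; exact c (hiff.1 hc)), mul_zero]
    rw [h3, h1, h2]
    ring
  set Q : ℝ → ℝ := fun y => ∑ p ∈ F, aa p ^ 2 * (if y * L ≤ Real.log p then (1 : ℝ) else 0)
    with hQ
  have hind : ∀ p : ℕ, IntervalIntegrable (fun y : ℝ =>
      (if y * L ≤ Real.log p then (1 : ℝ) else 0)) volume 0 lam := by
    intro p
    apply AntitoneOn.intervalIntegrable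
    intro x _ y _ hxy
    have : x * L ≤ y * L := by gcongr
    simp only
    split_ifs with c1 c2
    · exact le_rfl
    · exact absurd (this.trans c1) c2
    · exact zero_le_one
    · exact le_rfl
  have hindψ : ∀ p : ℕ, IntervalIntegrable (fun y : ℝ =>
      ψ' y * (if y * L ≤ Real.log p then (1 : ℝ) else 0)) volume 0 lam := fun p =>
    (hind p).continuousOn_mul hψ'.continuousOn
  have hQi : IntervalIntegrable (fun y => ψ' y * Q y) volume 0 lam := by
    have : (fun y => ψ' y * Q y) = fun y => ∑ p ∈ F, aa p ^ 2 *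
        (ψ' y * (if y * L ≤ Real.log p then (1 : ℝ) else 0)) := by
      funext y
      simp only [hQ]
      rw [Finset.mul_sum]
      refine Finset.sum_congr rfl fun p _ => ?_
      ring
    rw [this]
    have h9 := IntervalIntegrable.sum F (f := fun p y => aa p ^ 2 *
        (ψ' y * (if y * L ≤ Real.log p then (1 : ℝ) else 0)))
        (μ := volume) (a := 0) (b := lam) fun p _ => (hindψ p).const_mul _
    have h10 : (∑ p ∈ F, fun y : ℝ => aa p ^ 2 *
        (ψ' y * (if y * L ≤ Real.log p then (1 : ℝ) else 0))) = fun y => ∑ p ∈ F, aa p ^ 2 *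
        (ψ' y * (if y * L ≤ Real.log p then (1 : ℝ) else 0)) := by
      funext y
      rw [Finset.sum_apply]
    rw [h10] at h9
    exact h9
  have hsum : ∑ p ∈ F, aa p ^ 2 * ψ (Real.log p / L) = ψ 0 * As N X +
      ∫ y in (0 : ℝ)..lam, ψ' y * Q y := by
    have h1 : ∫ y in (0 : ℝ)..lam, ψ' y * Q y = ∑ p ∈ F, aa p ^ 2 *
        ∫ y in (0 : ℝ)..lam, ψ' y * (if y * L ≤ Real.log p then (1 : ℝ) else 0) := by
      have : (fun y => ψ' y * Q y) = fun y => ∑ p ∈ F, aa p ^ 2 *
          (ψ' y * (if y * L ≤ Real.log p then (1 : ℝ) else 0)) := by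
        funext y
        simp only [hQ]
        rw [Finset.mul_sum]
        refine Finset.sum_congr rfl fun p _ => ?_
        ring
      rw [this, intervalIntegral.integral_finsetSum fun p _ => (hindψ p).const_mul _]
      refine Finset.sum_congr rfl fun p _ => ?_
      rw [intervalIntegral.integral_const_mul]
    rw [h1]
    unfold As
    rw [← hF, Finset.mul_sum, ← Finset.sum_add_distrib]
    refine Finset.sum_congr rfl fun p hp => ?_
    rw [hpt p hp]
    ring
  have hAX : |As N X - X ^ 2 / 2| ≤ C * (2 * L) := by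
    refine (h N X hN hX0.le hlN).trans ?_
    gcongr
    linarith
  have hQb : ∀ y, 0 ≤ y → y ≤ lam → |Q y - L ^ 2 * ((lam ^ 2 - y ^ 2) / 2)| ≤
      (4 * C + 2) * L := by
    intro y hy0 hy1
    have hyX : y * L ≤ X := by rw [hX]; gcongr
    have hyL0 : 0 ≤ y * L := by positivity
    have hl := tail_sum' (N := N) (X := X) (z := y * L)
    have hu := tail_sum (N := N) (X := X) (z := y * L)
    rw [← hF] at hl hu
    have a1 := abs_le.1 hAX
    have a2 := abs_le.1 (h N (y * L) hN hyL0 (hyX.trans hlN))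
    have hCy : C * (y * L + 1) ≤ C * (2 * L) := by gcongr; linarith
    have e : L ^ 2 * ((lam ^ 2 - y ^ 2) / 2) = X ^ 2 / 2 - (y * L) ^ 2 / 2 := by rw [hX]; ring
    rw [e, abs_le]
    constructor
    · simp only [hQ]
      have : 0 ≤ L := hL0.le
      linarith [a1.1, a2.2]
    · rcases hu with hu | hu
      · rcases le_total 1 (y * L) with h1 | h1
        · have a3 := abs_le.1 (h N (y * L - 1) hN (by linarith) (by linarith))
          have hCy' : C * (y * L - 1 + 1) ≤ C * (2 * L) := by gcongr; linarith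
          simp only [hQ]
          have h5 : y * L ≤ L := by nlinarith
          nlinarith [a1.2, a3.1]
        · have a3 : 0 ≤ As N (y * L - 1) := Finset.sum_nonneg fun p _ => sq_nonneg _
          simp only [hQ]
          nlinarith [a1.2]
      · linarith
  have hmain : ψ 0 * (X ^ 2 / 2) + ∫ y in (0 : ℝ)..lam, ψ' y * (L ^ 2 * ((lam ^ 2 - y ^ 2) / 2)) =
      L ^ 2 * ∫ α in (0 : ℝ)..lam, α * ψ α := by
    have h1 : ∀ y : ℝ, HasDerivAt (fun y : ℝ => (lam ^ 2 - y ^ 2) / 2) (-y) y := by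
      intro y
      have h2 := ((hasDerivAt_pow 2 y).const_sub (lam ^ 2)).div_const 2
      refine h2.congr_deriv ?_
      push_cast
      ring
    have h2 := intervalIntegral.integral_mul_deriv_eq_deriv_mul (a := 0) (b := lam)
      (u := fun y : ℝ => (lam ^ 2 - y ^ 2) / 2) (v := ψ) (u' := fun y => -y) (v' := ψ')
      (fun x _ => h1 x) (fun x _ => hψ x) (by apply Continuous.intervalIntegrable; fun_prop)
      (hψ'.intervalIntegrable _ _)
    have h3 : ∫ y in (0 : ℝ)..lam, ψ' y * (L ^ 2 * ((lam ^ 2 - y ^ 2) / 2)) =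
        L ^ 2 * ∫ y in (0 : ℝ)..lam, (lam ^ 2 - y ^ 2) / 2 * ψ' y := by
      rw [← intervalIntegral.integral_const_mul]
      refine intervalIntegral.integral_congr fun y _ => ?_
      ring
    rw [h3, h2]
    have h4 : ∫ y in (0 : ℝ)..lam, -y * ψ y = -∫ y in (0 : ℝ)..lam, y * ψ y := by
      rw [← intervalIntegral.integral_neg]
      refine intervalIntegral.integral_congr fun y _ => ?_
      ring
    rw [h4, hX]
    ring
  have hci : IntervalIntegrable (fun y => ψ' y * (L ^ 2 * ((lam ^ 2 - y ^ 2) / 2))) volume 0 lam := by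
    apply Continuous.intervalIntegrable
    exact hψ'.mul (by fun_prop)
  rw [hsum, ← hmain]
  have e : ψ 0 * As N X + (∫ y in (0 : ℝ)..lam, ψ' y * Q y) -
      (ψ 0 * (X ^ 2 / 2) + ∫ y in (0 : ℝ)..lam, ψ' y * (L ^ 2 * ((lam ^ 2 - y ^ 2) / 2))) =
      ψ 0 * (As N X - X ^ 2 / 2) + ∫ y in (0 : ℝ)..lam, (ψ' y * Q y -
        ψ' y * (L ^ 2 * ((lam ^ 2 - y ^ 2) / 2))) := by
    rw [intervalIntegral.integral_sub hQi hci]
    ring
  rw [e]
  have b1 : |ψ 0 * (As N X - X ^ 2 / 2)| ≤ B * (C * (2 * L)) := by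
    rw [abs_mul]
    exact mul_le_mul (hB 0 le_rfl hl0.le).1 hAX (abs_nonneg _) hB0
  have b2 : |∫ y in (0 : ℝ)..lam, (ψ' y * Q y - ψ' y * (L ^ 2 * ((lam ^ 2 - y ^ 2) / 2)))| ≤
      B * ((4 * C + 2) * L) := by
    have h3 := intervalIntegral.norm_integral_le_of_norm_le_const (a := 0) (b := lam)
      (C := B * ((4 * C + 2) * L))
      (f := fun y => ψ' y * Q y - ψ' y * (L ^ 2 * ((lam ^ 2 - y ^ 2) / 2))) (fun y hy => by
        rw [Set.uIoc_of_le hl0.le] at hy
        rw [← mul_sub, Real.norm_eq_abs, abs_mul]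
        exact mul_le_mul (hB y hy.1.le hy.2).2 (hQb y hy.1.le hy.2) (abs_nonneg _) hB0)
    rw [sub_zero, abs_of_pos hl0, Real.norm_eq_abs] at h3
    refine h3.trans ?_
    have : 0 ≤ B * ((4 * C + 2) * L) := by positivity
    nlinarith
  calc _ ≤ B * (C * (2 * L)) + B * ((4 * C + 2) * L) := (abs_add_le _ _).trans (add_le_add b1 b2)
    _ = _ := by ring

end Pool.Agent.Helper92.FM
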