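import Pool.Agent.Helper92.FM.Ker
import Pool.Graph.R_seed8.TH800.MS.Kb
import Pool.Graph.R_seed8.TH800.MS.Va
import Pool.Graph.R_seed8.TH800.MS.Dg

set_option autoImplicit false

/-! The weighted diagonal: main theorem. -/

open Complex Filter Topology Set MeasureTheory
open scoped ComplexConjugate

namespace Pool.Agent.Helper92.FM

open Pool.Agent.TH800.MS

variable {k : ℝ → ℝ} {A b : ℝ}

lemma nk_le (h : Ker k A) : nk k ≤ 2 * A ^ 2 := by
  unfold nk
  have h1 : ∫ y in (-1 : ℝ)..1, k y ^ 2 ≤ ∫ y in (-1 : ℝ)..1, A ^ 2 := by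
    refine intervalIntegral.integral_mono_on (by norm_num) ((h.cont.pow 2).intervalIntegrable _ _)
      (continuous_const.intervalIntegrable _ _) fun y _ => ?_
    have := h.le y
    rw [← sq_abs (k y)]
    gcongr
  refine h1.trans (le_of_eq ?_)
  rw [intervalIntegral.integral_const, smul_eq_mul]
  ring

lemma kk_sq_le (h : Ker k A) (hb : 0 < b) (v c d : ℝ) (hcd : c ≤ d) :
    ∫ u in c..d, kk k b (v - u) ^ 2 ≤ nk k / b := by
  rw [intervalIntegral.integral_of_le hcd]
  calc ∫ u in Set.Ioc c d, kk k b (v - u) ^ 2 ≤ ∫ u, kk k b (v - u) ^ 2 :=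
        setIntegral_le_integral ((kk_sq_integrable h hb).comp_sub_left v)
          (Eventually.of_forall fun u => sq_nonneg _)
    _ = nk k / b := by
        rw [integral_sub_left_eq_self (fun z => kk k b z ^ 2) volume v, kk_sq_int h hb]

lemma kk_sq_full (h : Ker k A) (hb : 0 < b) (v c d : ℝ) (h1 : c ≤ v - b) (h2 : v + b ≤ d) :
    ∫ u in c..d, kk k b (v - u) ^ 2 = nk k / b := by
  rw [intervalIntegral.integral_of_le (by linarith)]
  have h3 : ∫ u, kk k b (v - u) ^ 2 = nk k / b := by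
    rw [integral_sub_left_eq_self (fun z => kk k b z ^ 2) volume v, kk_sq_int h hb]
  rw [← h3]
  apply setIntegral_eq_integral_of_forall_compl_eq_zero
  intro u hu
  have h4 : b ≤ |v - u| := by
    by_contra hcon
    rw [not_le, abs_lt] at hcon
    exact hu ⟨by linarith [hcon.2], by linarith [hcon.1]⟩
  rw [kk_zero h hb h4]
  simp

/-- the data of the weight -/
structure Wt (ψ ψ' : ℝ → ℝ) (lam B : ℝ) : Prop where
  l0 : 0 < lam
  l1 : lam ≤ 1
  der : ∀ α, HasDerivAt ψ (ψ' α) α
  cont' : Continuous ψ'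
  bd : ∀ α, 0 ≤ α → α ≤ lam → |ψ α| ≤ B ∧ |ψ' α| ≤ B

variable {ψ ψ' : ℝ → ℝ} {lam B L : ℝ}

lemma Wt.cont (w : Wt ψ ψ' lam B) : Continuous ψ :=
  continuous_iff_continuousAt.2 fun x => (w.der x).continuousAt

lemma Wt.B0 (w : Wt ψ ψ' lam B) : 0 ≤ B := (abs_nonneg _).trans (w.bd 0 le_rfl w.l0.le).1

lemma Wt.lip (w : Wt ψ ψ' lam B) {x y : ℝ} (hx0 : 0 ≤ x) (hx1 : x ≤ lam) (hy0 : 0 ≤ y)
    (hy1 : y ≤ lam) : |ψ x - ψ y| ≤ B * |x - y| := by
  have h2 : ∫ z in y..x, ψ' z = ψ x - ψ y :=
    intervalIntegral.integral_eq_sub_of_hasDerivAt (fun x _ => w.der x)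
      (w.cont'.intervalIntegrable _ _)
  rw [← h2, ← Real.norm_eq_abs]
  refine intervalIntegral.norm_integral_le_of_norm_le_const fun z hz => ?_
  rw [Real.norm_eq_abs]
  have hz' := Set.uIoc_subset_uIcc hz
  rw [Set.mem_uIcc] at hz'
  apply (w.bd z _ _).2
  · rcases hz' with h | h <;> linarith [h.1]
  · rcases hz' with h | h <;> linarith [h.2]

lemma Wt.lipL (w : Wt ψ ψ' lam B) (hL : 0 < L) {u v : ℝ} (hu0 : 0 ≤ u) (hu1 : u ≤ lam * L)
    (hv0 : 0 ≤ v) (hv1 : v ≤ lam * L) : |ψ (u / L) - ψ (v / L)| ≤ B / L * |u - v| := by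
  have h := w.lip (x := u / L) (y := v / L) (by positivity) (by rw [div_le_iff₀ hL]; exact hu1)
    (by positivity) (by rw [div_le_iff₀ hL]; exact hv1)
  rw [← sub_div, abs_div, abs_of_pos hL] at h
  refine h.trans (le_of_eq ?_)
  ring

lemma Wt.bdL (w : Wt ψ ψ' lam B) (hL : 0 < L) {u : ℝ} (hu0 : 0 ≤ u) (hu1 : u ≤ lam * L) :
    |ψ (u / L)| ≤ B :=
  (w.bd (u / L) (by positivity) (by rw [div_le_iff₀ hL]; exact hu1)).1

lemma Wt.contL (w : Wt ψ ψ' lam B) (L : ℝ) : Continuous fun u => ψ (u / L) :=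
  w.cont.comp (by fun_prop)

lemma int_w_sq_diff (h : Ker k A) (hb : 0 < b) (w : Wt ψ ψ' lam B) (hL : 0 < L) (v : ℝ) :
    |(∫ u in (0 : ℝ)..(lam * L), ψ (u / L) * kap k b (v - u) ^ 2) -
      ∫ u in (0 : ℝ)..(lam * L), ψ (u / L) * kk k b (v - u) ^ 2| ≤ 2 * B * A ^ 2 / b ^ 2 := by
  have hX : 0 ≤ lam * L := by have := w.l0; positivity
  have hB0 := w.B0
  have hA := h.A0
  have i1 : IntervalIntegrable (fun u => ψ (u / L) * kap k b (v - u) ^ 2) volume 0 (lam * L) :=
    ((w.contL L).mul ((kap_comp h v).pow 2)).intervalIntegrable _ _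
  have i2 : IntervalIntegrable (fun u => ψ (u / L) * kk k b (v - u) ^ 2) volume 0 (lam * L) :=
    ((w.contL L).mul ((kk_comp h v).pow 2)).intervalIntegrable _ _
  have i3 : IntervalIntegrable (fun u => be b (v - u)) volume 0 (lam * L) :=
    (be_comp b v).intervalIntegrable _ _
  have i4 : IntervalIntegrable (fun u => kb b (v - u)) volume 0 (lam * L) :=
    (kb_comp b v).intervalIntegrable _ _
  rw [← intervalIntegral.integral_sub i1 i2, ← Real.norm_eq_abs]
  calc ‖∫ u in (0 : ℝ)..(lam * L), (ψ (u / L) * kap k b (v - u) ^ 2 -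
        ψ (u / L) * kk k b (v - u) ^ 2)‖ ≤
      ∫ u in (0 : ℝ)..(lam * L), B * (A ^ 2 / b ^ 2) * (be b (v - u) + kb b (v - u)) := by
        apply intervalIntegral.norm_integral_le_of_norm_le hX
        · refine Eventually.of_forall fun u hu => ?_
          rw [← mul_sub, norm_mul, Real.norm_eq_abs, Real.norm_eq_abs, mul_assoc]
          exact mul_le_mul (w.bdL hL hu.1.le hu.2) (kap_sq_diff h hb _) (abs_nonneg _) hB0
        · exact (i3.add i4).const_mul _
    _ = B * (A ^ 2 / b ^ 2) * ((∫ u in (0 : ℝ)..(lam * L), be b (v - u)) +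
          ∫ u in (0 : ℝ)..(lam * L), kb b (v - u)) := by
        rw [intervalIntegral.integral_const_mul, intervalIntegral.integral_add i3 i4]
    _ ≤ B * (A ^ 2 / b ^ 2) * (1 + 1) := by
        have := be_int_le hb v 0 (lam * L) hX
        have := kb_int_le hb v 0 (lam * L) hX
        gcongr
    _ = _ := by ring

/-- the smoothed weight -/
noncomputable def Psi (k : ℝ → ℝ) (b : ℝ) (ψ : ℝ → ℝ) (lam L v : ℝ) : ℝ :=
  ∫ u in (0 : ℝ)..(lam * L), ψ (u / L) * kk k b (v - u) ^ 2

lemma Psi_abs (h : Ker k A) (hb : 0 < b) (w : Wt ψ ψ' lam B) (hL : 0 < L) (v : ℝ) :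
    |Psi k b ψ lam L v| ≤ B * (nk k / b) := by
  have hX : 0 ≤ lam * L := by have := w.l0; positivity
  have hB0 := w.B0
  unfold Psi
  rw [← Real.norm_eq_abs]
  calc ‖∫ u in (0 : ℝ)..(lam * L), ψ (u / L) * kk k b (v - u) ^ 2‖ ≤
      ∫ u in (0 : ℝ)..(lam * L), B * kk k b (v - u) ^ 2 := by
        apply intervalIntegral.norm_integral_le_of_norm_le hX
        · refine Eventually.of_forall fun u hu => ?_
          rw [norm_mul, Real.norm_eq_abs, Real.norm_of_nonneg (sq_nonneg _)]
          exact mul_le_mul_of_nonneg_right (w.bdL hL hu.1.le hu.2) (sq_nonneg _)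
        · exact (continuous_const.mul ((kk_comp h v).pow 2)).intervalIntegrable _ _
    _ = B * ∫ u in (0 : ℝ)..(lam * L), kk k b (v - u) ^ 2 := by
        rw [intervalIntegral.integral_const_mul]
    _ ≤ _ := by
        have := kk_sq_le h hb v 0 (lam * L) hX
        gcongr

lemma Psi_mid (h : Ker k A) (hb : 0 < b) (w : Wt ψ ψ' lam B) (hL : 0 < L) {v : ℝ}
    (h1 : b ≤ v) (h2 : v + b ≤ lam * L) :
    |Psi k b ψ lam L v - ψ (v / L) * (nk k / b)| ≤ B * nk k / L := by
  have hX : 0 ≤ lam * L := by have := w.l0; positivity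
  have hB0 := w.B0
  have h3 := kk_sq_full h hb v 0 (lam * L) (by linarith) h2
  have i1 : IntervalIntegrable (fun u => ψ (u / L) * kk k b (v - u) ^ 2) volume 0 (lam * L) :=
    ((w.contL L).mul ((kk_comp h v).pow 2)).intervalIntegrable _ _
  have i2 : IntervalIntegrable (fun u => ψ (v / L) * kk k b (v - u) ^ 2) volume 0 (lam * L) :=
    (continuous_const.mul ((kk_comp h v).pow 2)).intervalIntegrable _ _
  have i3 : IntervalIntegrable (fun u => kk k b (v - u) ^ 2) volume 0 (lam * L) :=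
    ((kk_comp h v).pow 2).intervalIntegrable _ _
  unfold Psi
  rw [← h3, ← intervalIntegral.integral_const_mul, ← intervalIntegral.integral_sub i1 i2,
    ← Real.norm_eq_abs]
  calc ‖∫ u in (0 : ℝ)..(lam * L), (ψ (u / L) * kk k b (v - u) ^ 2 -
        ψ (v / L) * kk k b (v - u) ^ 2)‖ ≤
      ∫ u in (0 : ℝ)..(lam * L), B / L * b * kk k b (v - u) ^ 2 := by
        apply intervalIntegral.norm_integral_le_of_norm_le hX
        · refine Eventually.of_forall fun u hu => ?_
          rw [← sub_mul, norm_mul, Real.norm_eq_abs, Real.norm_of_nonneg (sq_nonneg _)]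
          by_cases c : b ≤ |v - u|
          · rw [kk_zero h hb c]; simp
          · apply mul_le_mul_of_nonneg_right _ (sq_nonneg _)
            refine (w.lipL hL hu.1.le hu.2 (by linarith) (by linarith)).trans ?_
            rw [abs_sub_comm] at c
            have : |u - v| ≤ b := by linarith [not_le.1 c]
            gcongr
        · exact i3.const_mul _
    _ = B / L * b * ∫ u in (0 : ℝ)..(lam * L), kk k b (v - u) ^ 2 := by
        rw [intervalIntegral.integral_const_mul]
    _ = _ := by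
        rw [h3]
        field_simp

lemma Psi_far (h : Ker k A) (hb : 0 < b) (w : Wt ψ ψ' lam B) (hL : 0 < L) {v : ℝ}
    (h1 : lam * L + b ≤ v) : Psi k b ψ lam L v = 0 := by
  have hX : 0 ≤ lam * L := by have := w.l0; positivity
  unfold Psi
  have h2 : ∫ u in (0 : ℝ)..(lam * L), ψ (u / L) * kk k b (v - u) ^ 2 =
      ∫ u in (0 : ℝ)..(lam * L), (0 : ℝ) := by
    refine intervalIntegral.integral_congr fun u hu => ?_
    rw [Set.uIcc_of_le hX] at hu
    have h3 : b ≤ |v - u| := (by linarith [hu.2] : b ≤ v - u).trans (le_abs_self _)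
    show ψ (u / L) * kk k b (v - u) ^ 2 = 0
    rw [kk_zero h hb h3]
    simp
  rw [h2]
  simp

/-- pointwise comparison -/
lemma Psi_pt (h : Ker k A) (hb : 0 < b) (w : Wt ψ ψ' lam B) (hL : 0 < L) (hbX : b ≤ lam * L)
    {v : ℝ} (hv : 0 ≤ v) :
    |Psi k b ψ lam L v - (if v ≤ lam * L then ψ (v / L) * (nk k / b) else 0)| ≤
      B * nk k / L + 2 * B * (nk k / b) * ((if v ≤ b then 1 else 0) +
        ((if v ≤ lam * L + b then 1 else 0) - (if v ≤ lam * L - b then 1 else 0))) := by
  have hX : 0 ≤ lam * L := by have := w.l0; positivity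
  have hB0 := w.B0
  have hn := nk_nonneg k
  have e0 : 0 ≤ B * nk k / L := by positivity
  have e1 : 0 ≤ B * (nk k / b) := by positivity
  have hP := Psi_abs h hb w hL v
  have hW : |if v ≤ lam * L then ψ (v / L) * (nk k / b) else 0| ≤ B * (nk k / b) := by
    split_ifs with c
    · rw [abs_mul, abs_of_nonneg (by positivity : 0 ≤ nk k / b)]
      have := w.bdL hL hv c
      gcongr
    · simpa using e1
  have hcr : |Psi k b ψ lam L v - (if v ≤ lam * L then ψ (v / L) * (nk k / b) else 0)| ≤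
      2 * B * (nk k / b) := by
    refine (abs_sub _ _).trans ?_
    linarith
  by_cases c1 : v ≤ b
  · rw [if_pos c1]
    refine hcr.trans ?_
    have : (0 : ℝ) ≤ (if v ≤ lam * L + b then (1 : ℝ) else 0) -
        (if v ≤ lam * L - b then 1 else 0) := by
      split_ifs with c2 c3 c3
      · norm_num
      · norm_num
      · exfalso; linarith
      · norm_num
    nlinarith
  · rw [if_neg c1]
    by_cases c2 : v ≤ lam * L + b
    · rw [if_pos c2]
      by_cases c3 : v ≤ lam * L - b
      · rw [if_pos c3, if_pos (by linarith)]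
        have := Psi_mid h hb w hL (v := v) (by linarith) (by linarith)
        linarith
      · rw [if_neg c3]
        linarith
    · rw [if_neg c2, if_neg (by linarith), if_neg (by linarith),
        Psi_far h hb w hL (by linarith)]
      simp only [sub_self, abs_zero]
      positivity

end Pool.Agent.Helper92.FM
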