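import Pool.Agent.Helper92.FM.Ker
import Pool.Agent.Helper92.FM.Sd
import Pool.Graph.R_seed8.TH800.MS.Kb
import Pool.Graph.R_seed8.TH800.MS.Pn
import Pool.Graph.R_seed8.TH800.MS.Ze
import Pool.Graph.R_seed8.TH800.MS.Gm
import Pool.Graph.R_seed8.TH800.MS.Va
import Pool.Graph.R_seed8.TH800.MS.Core

set_option autoImplicit false

/-! Second moments of quadratic and linear forms in the prime sums. -/

open Complex Filter Topology Set MeasureTheory
open scoped ComplexConjugate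

namespace Pool.Agent.Helper92.FM

open Pool.Agent.TH800.MS

lemma off_sep {N : ℕ} {p q p' q' : ℕ} (hp : p ∈ PX N) (hq : q ∈ PX N) (hpq : p ≠ q)
    (hp' : p' ∈ PX N) (hq' : q' ∈ PX N) (hne : (p, q) ≠ (p', q')) :
    1 / (N : ℝ) ^ 2 ≤ |(Real.log q - Real.log p) - (Real.log q' - Real.log p')| := by
  obtain ⟨pp, pN⟩ := mem_PX.1 hp
  obtain ⟨qp, qN⟩ := mem_PX.1 hq
  obtain ⟨pp', pN'⟩ := mem_PX.1 hp'
  obtain ⟨qp', qN'⟩ := mem_PX.1 hq'
  have hne2 : q * p' ≠ q' * p := by
    intro h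
    have h1 : q ∣ q' * p := ⟨p', h.symm⟩
    rcases (Nat.Prime.dvd_mul qp).1 h1 with h2 | h2
    · have h3 := (Nat.prime_dvd_prime_iff_eq qp qp').1 h2
      subst h3
      have h4 : p' = p := Nat.eq_of_mul_eq_mul_left qp.pos h
      subst h4
      exact hne rfl
    · exact hpq ((Nat.prime_dvd_prime_iff_eq qp pp).1 h2).symm
  have h5 := log_sep (a := q * p') (b := q' * p)
    (Nat.mul_pos qp.pos pp'.pos) (Nat.mul_pos qp'.pos pp.pos) hne2 (N := (N : ℝ) ^ 2)
    (by rw [sq]; exact_mod_cast Nat.mul_le_mul qN pN')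
    (by rw [sq]; exact_mod_cast Nat.mul_le_mul qN' pN)
  refine h5.trans (le_of_eq ?_)
  have e : ∀ a b : ℕ, a.Prime → b.Prime → Real.log ((a * b : ℕ) : ℝ) =
      Real.log a + Real.log b := by
    intro a b ha hb
    rw [Nat.cast_mul, Real.log_mul (by exact_mod_cast ha.ne_zero)
      (by exact_mod_cast hb.ne_zero)]
  rw [e q p' qp pp', e q' p qp' pp]
  congr 1
  ring

/-- second moment of a quadratic form with dominated coefficients -/
theorem var_dom : ∃ C : ℝ, 0 < C ∧ ∀ (N : ℕ) (b c d T K : ℝ) (g : ℕ → ℕ → ℝ), 0 < b → c ≤ d →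
    1 ≤ N → 0 < T → 0 ≤ K → (∀ p q, |g p q| ≤ K * (aa p * aa q * Bc b c d p q)) →
    ∫ t in T..(2 * T), ‖∑ x ∈ (PX N).offDiag, ((g x.1 x.2 : ℝ) : ℂ) *
        cexp (((t * (Real.log x.2 - Real.log x.1) : ℝ) : ℂ) * I)‖ ^ 2 ≤
      K ^ 2 * (4 * T * (C * (Real.log N + 1) ^ 3 / b + (N : ℝ) ^ 4 / b ^ 2 *
        Real.exp (-(T ^ 2 * (1 / (N : ℝ) ^ 2) ^ 2) / 2))) := by
  obtain ⟨C, hC, hS⟩ := sum_Bc
  refine ⟨C, hC, fun N b c d T K g hb hcd hN hT hK hg => ?_⟩
  have hN0 : (0 : ℝ) < N := by exact_mod_cast hN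
  have hmain := gm_sep (PX N).offDiag
    (fun x : ℕ × ℕ => ((g x.1 x.2 : ℝ) : ℂ))
    (fun x => Real.log x.2 - Real.log x.1) T (1 / (N : ℝ) ^ 2) hT (by positivity) (by
      rintro ⟨p, q⟩ hx ⟨p', q'⟩ hy hne
      rw [Finset.mem_offDiag] at hx hy
      exact off_sep hx.1 hx.2.1 hx.2.2 hy.1 hy.2.1 hne)
  refine hmain.trans ?_
  have hoff : (PX N).offDiag ⊆ PX N ×ˢ PX N := by
    intro x hx
    rw [Finset.mem_offDiag] at hx
    exact Finset.mem_product.2 ⟨hx.1, hx.2.1⟩
  have hnn : ∀ x : ℕ × ℕ, ‖((g x.1 x.2 : ℝ) : ℂ)‖ ≤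
      K * (aa x.1 * aa x.2 * Bc b c d x.1 x.2) := by
    intro x
    rw [Complex.norm_real, Real.norm_eq_abs]
    exact hg _ _
  have h0 : ∀ x : ℕ × ℕ, 0 ≤ aa x.1 * aa x.2 * Bc b c d x.1 x.2 := fun x =>
    mul_nonneg (mul_nonneg (aa_nonneg _) (aa_nonneg _)) (Bc_nonneg hb hcd _ _)
  have s1 : ∑ x ∈ (PX N).offDiag, ‖((g x.1 x.2 : ℝ) : ℂ)‖ ^ 2 ≤
      K ^ 2 * (C * (Real.log N + 1) ^ 3 / b) := by
    calc ∑ x ∈ (PX N).offDiag, ‖((g x.1 x.2 : ℝ) : ℂ)‖ ^ 2 ≤
        ∑ x ∈ (PX N).offDiag, (K * (aa x.1 * aa x.2 * Bc b c d x.1 x.2)) ^ 2 := by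
          refine Finset.sum_le_sum fun x _ => ?_
          have := hnn x
          gcongr
      _ ≤ ∑ x ∈ PX N ×ˢ PX N, (K * (aa x.1 * aa x.2 * Bc b c d x.1 x.2)) ^ 2 :=
          Finset.sum_le_sum_of_subset_of_nonneg hoff fun x _ _ => sq_nonneg _
      _ = K ^ 2 * ∑ p ∈ PX N, ∑ q ∈ PX N, (aa p * aa q * Bc b c d p q) ^ 2 := by
          rw [Finset.sum_product, Finset.mul_sum]
          refine Finset.sum_congr rfl fun p _ => ?_
          rw [Finset.mul_sum]
          refine Finset.sum_congr rfl fun q _ => ?_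
          ring
      _ ≤ _ := by
          have := hS N b c d hb hcd hN
          gcongr
  have s2 : ∑ x ∈ (PX N).offDiag, ‖((g x.1 x.2 : ℝ) : ℂ)‖ ≤ K * ((N : ℝ) ^ 2 / b) := by
    calc ∑ x ∈ (PX N).offDiag, ‖((g x.1 x.2 : ℝ) : ℂ)‖ ≤
        ∑ x ∈ (PX N).offDiag, K * (aa x.1 * aa x.2 * Bc b c d x.1 x.2) :=
          Finset.sum_le_sum fun x _ => hnn x
      _ ≤ ∑ x ∈ PX N ×ˢ PX N, K * (aa x.1 * aa x.2 * Bc b c d x.1 x.2) :=
          Finset.sum_le_sum_of_subset_of_nonneg hoff fun x _ _ => mul_nonneg hK (h0 x)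
      _ ≤ ∑ x ∈ PX N ×ˢ PX N, K * (1 / b) := by
          refine Finset.sum_le_sum fun x _ => ?_
          have h7 := aa_le_one x.1
          have h8 := aa_le_one x.2
          have h9 := Bc_le hb hcd x.1 x.2
          have h10 := Bc_nonneg hb hcd x.1 x.2
          have h11 := aa_nonneg x.1
          have h12 := aa_nonneg x.2
          apply mul_le_mul_of_nonneg_left _ hK
          calc aa x.1 * aa x.2 * Bc b c d x.1 x.2 ≤ 1 * 1 * (1 / b) := by gcongr
            _ = 1 / b := by ring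
      _ = ((PX N).card : ℝ) * ((PX N).card : ℝ) * (K * (1 / b)) := by
          rw [Finset.sum_const, Finset.card_product, nsmul_eq_mul]
          push_cast
          ring
      _ ≤ (N : ℝ) * N * (K * (1 / b)) := by
          have := PX_card_le N
          gcongr
      _ = _ := by ring
  have s20 : 0 ≤ ∑ x ∈ (PX N).offDiag, ‖((g x.1 x.2 : ℝ) : ℂ)‖ :=
    Finset.sum_nonneg fun x _ => norm_nonneg _
  calc 4 * T * (∑ x ∈ (PX N).offDiag, ‖((g x.1 x.2 : ℝ) : ℂ)‖ ^ 2 +
      (∑ x ∈ (PX N).offDiag, ‖((g x.1 x.2 : ℝ) : ℂ)‖) ^ 2 *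
        Real.exp (-(T ^ 2 * (1 / (N : ℝ) ^ 2) ^ 2) / 2)) ≤
      4 * T * (K ^ 2 * (C * (Real.log N + 1) ^ 3 / b) + (K * ((N : ℝ) ^ 2 / b)) ^ 2 *
        Real.exp (-(T ^ 2 * (1 / (N : ℝ) ^ 2) ^ 2) / 2)) := by gcongr
    _ = _ := by ring

/-- second moment of a linear form with dominated coefficients -/
theorem lin_dom : ∃ C : ℝ, 0 < C ∧ ∀ (N : ℕ) (b c d T K : ℝ) (g : ℕ → ℝ), 0 < b → c ≤ d → 1 ≤ N →
    0 < T → 0 ≤ K → (∀ p : ℕ, |g p| ≤ K * (aa p * ∫ u in c..d, be b u * be b (Real.log p - u))) →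
    ∫ t in T..(2 * T), ‖∑ p ∈ PX N, ((g p : ℝ) : ℂ) *
        cexp (((t * (-Real.log p) : ℝ) : ℂ) * I)‖ ^ 2 ≤
      K ^ 2 * (4 * T * (C * Real.log N / b + (N : ℝ) ^ 4 / b ^ 2 *
        Real.exp (-(T ^ 2 * (1 / (N : ℝ) ^ 2) ^ 2) / 2))) := by
  obtain ⟨C, hC, hS⟩ := sum_aa_be
  refine ⟨C, hC, fun N b c d T K g' hb hcd hN hT hK hg' => ?_⟩
  have hN0 : (0 : ℝ) < N := by exact_mod_cast hN
  have hN1 : (1 : ℝ) ≤ N := by exact_mod_cast hN
  have hw : Continuous (be b) := be_cont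
  have hw0 := be_nonneg hb
  have hw1 := be_int_le' hb c d hcd
  set g : ℕ → ℝ := fun p => ∫ u in c..d, be b u * be b (Real.log p - u) with hg
  have hg0 : ∀ p, 0 ≤ g p := fun p =>
    intervalIntegral.integral_nonneg hcd fun u _ => mul_nonneg (hw0 u) (be_nonneg hb _)
  have hg1 : ∀ p, g p ≤ 1 / b := by
    intro p
    calc g p ≤ ∫ u in c..d, be b u * (1 / b) := by
          refine intervalIntegral.integral_mono_on hcd
            ((hw.mul (be_comp b _)).intervalIntegrable _ _)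
            ((hw.mul continuous_const).intervalIntegrable _ _) fun u _ => ?_
          exact mul_le_mul_of_nonneg_left (be_le hb _) (hw0 u)
      _ = (∫ u in c..d, be b u) * (1 / b) := by rw [intervalIntegral.integral_mul_const]
      _ ≤ 1 * (1 / b) := mul_le_mul_of_nonneg_right hw1 (by positivity)
      _ = 1 / b := one_mul _
  have hNN : (N : ℝ) ≤ (N : ℝ) ^ 2 := by nlinarith
  have hmain := gm_sep (PX N) (fun p : ℕ => ((g' p : ℝ) : ℂ))
    (fun p => -Real.log p) T (1 / (N : ℝ) ^ 2) hT (by positivity) (by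
      intro p hp q hq hne
      obtain ⟨pp, pN⟩ := mem_PX.1 hp
      obtain ⟨qp, qN⟩ := mem_PX.1 hq
      have h5 := log_sep (a := p) (b := q) pp.pos qp.pos hne (N := (N : ℝ))
        (by exact_mod_cast pN) (by exact_mod_cast qN)
      have h6 : 1 / (N : ℝ) ^ 2 ≤ 1 / N := one_div_le_one_div_of_le hN0 hNN
      refine h6.trans (h5.trans (le_of_eq ?_))
      rw [← abs_neg]
      congr 1
      ring)
  refine hmain.trans ?_
  have hnn : ∀ p : ℕ, ‖((g' p : ℝ) : ℂ)‖ ≤ K * (aa p * g p) := by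
    intro x
    rw [Complex.norm_real, Real.norm_eq_abs]
    exact hg' x
  have s1 : ∑ p ∈ PX N, ‖((g' p : ℝ) : ℂ)‖ ^ 2 ≤ K ^ 2 * (C * Real.log N / b) := by
    calc ∑ p ∈ PX N, ‖((g' p : ℝ) : ℂ)‖ ^ 2 ≤ ∑ p ∈ PX N, K ^ 2 * (aa p * g p) ^ 2 := by
          refine Finset.sum_le_sum fun p _ => ?_
          have := hnn p
          rw [← mul_pow]
          gcongr
      _ ≤ ∑ p ∈ PX N, K ^ 2 * (1 / b * (aa p ^ 2 * g p)) := by
          refine Finset.sum_le_sum fun p _ => ?_
          have h3 := hg1 p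
          have h4 := hg0 p
          apply mul_le_mul_of_nonneg_left _ (sq_nonneg K)
          calc (aa p * g p) ^ 2 = g p * (aa p ^ 2 * g p) := by ring
            _ ≤ _ := by gcongr
      _ = K ^ 2 * (1 / b * ∫ u in c..d, be b u * ∑ p ∈ PX N, aa p ^ 2 * be b (Real.log p - u)) := by
          rw [← Finset.mul_sum, ← Finset.mul_sum]
          congr 2
          have h5 : ∀ u : ℝ, be b u * ∑ p ∈ PX N, aa p ^ 2 * be b (Real.log p - u) =
              ∑ p ∈ PX N, aa p ^ 2 * (be b u * be b (Real.log p - u)) := by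
            intro u
            rw [Finset.mul_sum]
            refine Finset.sum_congr rfl fun q _ => ?_
            ring
          simp_rw [h5]
          have hi : ∀ q ∈ PX N, IntervalIntegrable (fun u => aa q ^ 2 *
              (be b u * be b (Real.log q - u))) volume c d := fun q _ =>
            (continuous_const.mul (hw.mul (be_comp b _))).intervalIntegrable _ _
          rw [intervalIntegral.integral_finsetSum hi]
          refine Finset.sum_congr rfl fun q _ => ?_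
          rw [intervalIntegral.integral_const_mul]
      _ ≤ K ^ 2 * (1 / b * ∫ u in c..d, be b u * (C * Real.log N)) := by
          gcongr
          have hcc : Continuous fun u : ℝ => ∑ q ∈ PX N, aa q ^ 2 * be b (Real.log q - u) :=
            continuous_finsetSum _ fun q _ => continuous_const.mul (be_comp b _)
          refine intervalIntegral.integral_mono_on hcd
            ((hw.mul hcc).intervalIntegrable _ _)
            ((hw.mul continuous_const).intervalIntegrable _ _) fun u _ => ?_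
          exact mul_le_mul_of_nonneg_left (hS N b u hb hN) (hw0 u)
      _ = K ^ 2 * (1 / b * ((∫ u in c..d, be b u) * (C * Real.log N))) := by
          rw [intervalIntegral.integral_mul_const]
      _ ≤ K ^ 2 * (1 / b * (1 * (C * Real.log N))) := by
          have := Real.log_natCast_nonneg N
          gcongr
      _ = _ := by ring
  have s2 : ∑ p ∈ PX N, ‖((g' p : ℝ) : ℂ)‖ ≤ K * ((N : ℝ) ^ 2 / b) := by
    calc ∑ p ∈ PX N, ‖((g' p : ℝ) : ℂ)‖ ≤ ∑ p ∈ PX N, K * (1 / b) := by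
          refine Finset.sum_le_sum fun p _ => (hnn p).trans ?_
          have h7 := aa_le_one p
          have h8 := hg1 p
          have h9 := hg0 p
          have h10 := aa_nonneg p
          apply mul_le_mul_of_nonneg_left _ hK
          calc aa p * g p ≤ 1 * (1 / b) := by gcongr
            _ = 1 / b := by ring
      _ = ((PX N).card : ℝ) * (K * (1 / b)) := by
          rw [Finset.sum_const, nsmul_eq_mul]
      _ ≤ (N : ℝ) ^ 2 * (K * (1 / b)) := by
          have := (PX_card_le N).trans hNN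
          gcongr
      _ = _ := by ring
  have s20 : 0 ≤ ∑ p ∈ PX N, ‖((g' p : ℝ) : ℂ)‖ := Finset.sum_nonneg fun x _ => norm_nonneg _
  calc 4 * T * (∑ p ∈ PX N, ‖((g' p : ℝ) : ℂ)‖ ^ 2 + (∑ p ∈ PX N, ‖((g' p : ℝ) : ℂ)‖) ^ 2 *
        Real.exp (-(T ^ 2 * (1 / (N : ℝ) ^ 2) ^ 2) / 2)) ≤
      4 * T * (K ^ 2 * (C * Real.log N / b) + (K * ((N : ℝ) ^ 2 / b)) ^ 2 *
        Real.exp (-(T ^ 2 * (1 / (N : ℝ) ^ 2) ^ 2) / 2)) := by gcongr
    _ = _ := by ring

variable {k : ℝ → ℝ} {A b : ℝ}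

/-- weighted overlap -/
noncomputable def Bw (k : ℝ → ℝ) (b : ℝ) (W : ℝ → ℝ) (c d : ℝ) (p q : ℕ) : ℝ :=
  ∫ u in c..d, W u * (kap k b (Real.log p - u) * kap k b (Real.log q - u))

lemma Bw_abs (h : Ker k A) (hb : 0 < b) {W : ℝ → ℝ} (hW : Continuous W) {B c d : ℝ} (hcd : c ≤ d)
    (hB : ∀ u, c ≤ u → u ≤ d → |W u| ≤ B) (p q : ℕ) :
    |Bw k b W c d p q| ≤ B * A ^ 2 * Bc b c d p q := by
  have hA := h.A0
  unfold Bw Bc
  rw [← intervalIntegral.integral_const_mul, ← Real.norm_eq_abs]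
  apply intervalIntegral.norm_integral_le_of_norm_le hcd
  · refine Eventually.of_forall fun u hu => ?_
    rw [norm_mul, norm_mul, Real.norm_eq_abs, Real.norm_eq_abs, Real.norm_eq_abs]
    have h1 := hB u hu.1.le hu.2
    have h2 := kap_abs h hb (Real.log p - u)
    have h3 := kap_abs h hb (Real.log q - u)
    have h4 := be_nonneg hb (Real.log p - u)
    have h5 := be_nonneg hb (Real.log q - u)
    have h6 : 0 ≤ B := (abs_nonneg _).trans h1
    calc |W u| * (|kap k b (Real.log p - u)| * |kap k b (Real.log q - u)|) ≤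
        B * ((A * be b (Real.log p - u)) * (A * be b (Real.log q - u))) := by gcongr
      _ = _ := by ring
  · exact (continuous_const.mul ((be_comp b _).mul (be_comp b _))).intervalIntegrable _ _

lemma Dk_cont (h : Ker k A) (N : ℕ) (t : ℝ) : Continuous (Dk k N b t) := by
  unfold Dk
  refine continuous_finsetSum _ fun p _ => ?_
  exact continuous_const.mul (Complex.continuous_ofReal.comp (kap_comp h _))

/-- the weighted diagonal -/
noncomputable def diagW (k : ℝ → ℝ) (N : ℕ) (b : ℝ) (W : ℝ → ℝ) (c d : ℝ) : ℝ :=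
  ∑ p ∈ PX N, aa p ^ 2 * Bw k b W c d p p

/-- the weighted quadratic form -/
lemma quadW (h : Ker k A) (N : ℕ) {W : ℝ → ℝ} (hW : Continuous W) (b c d t : ℝ) :
    (((∫ u in c..d, W u * ‖Dk k N b t u‖ ^ 2) - diagW k N b W c d : ℝ) : ℂ) =
      ∑ x ∈ (PX N).offDiag, ((aa x.1 * aa x.2 * Bw k b W c d x.1 x.2 : ℝ) : ℂ) *
        cexp (((t * (Real.log x.2 - Real.log x.1) : ℝ) : ℂ) * I) := by
  have h1 : ∀ u, ((W u * ‖Dk k N b t u‖ ^ 2 : ℝ) : ℂ) = ∑ p ∈ PX N, ∑ q ∈ PX N,
      ((aa p * aa q : ℝ) : ℂ) * cexp (((t * (Real.log q - Real.log p) : ℝ) : ℂ) * I) *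
        ((W u * (kap k b (Real.log p - u) * kap k b (Real.log q - u)) : ℝ) : ℂ) := by
    intro u
    rw [ofReal_mul, ofReal_pow, ← Complex.mul_conj']
    unfold Dk
    rw [map_sum, Finset.sum_mul_sum, Finset.mul_sum]
    refine Finset.sum_congr rfl fun p _ => ?_
    rw [Finset.mul_sum]
    refine Finset.sum_congr rfl fun q _ => ?_
    unfold ef
    rw [map_mul, map_mul, conj_ofReal, conj_ofReal, ← Complex.exp_conj, map_mul, conj_I,
      conj_ofReal]
    have : cexp (((t * (Real.log q - Real.log p) : ℝ) : ℂ) * I) =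
        cexp (((t * (-Real.log p) : ℝ) : ℂ) * I) * cexp (((t * (-Real.log q) : ℝ) : ℂ) * -I) := by
      rw [← Complex.exp_add]
      congr 1
      push_cast
      ring
    rw [this]
    push_cast
    ring
  have h2 : ((∫ u in c..d, W u * ‖Dk k N b t u‖ ^ 2 : ℝ) : ℂ) = ∑ p ∈ PX N, ∑ q ∈ PX N,
      ((aa p * aa q * Bw k b W c d p q : ℝ) : ℂ) *
        cexp (((t * (Real.log q - Real.log p) : ℝ) : ℂ) * I) := by
    rw [← intervalIntegral.integral_ofReal]
    simp_rw [h1]
    have hc : ∀ p q : ℕ, Continuous fun u : ℝ => ((aa p * aa q : ℝ) : ℂ) *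
        cexp (((t * (Real.log q - Real.log p) : ℝ) : ℂ) * I) *
        ((W u * (kap k b (Real.log p - u) * kap k b (Real.log q - u)) : ℝ) : ℂ) := fun p q =>
      continuous_const.mul (Complex.continuous_ofReal.comp
        (hW.mul ((kap_comp h _).mul (kap_comp h _))))
    rw [intervalIntegral.integral_finsetSum fun p _ =>
      (continuous_finsetSum _ fun q _ => hc p q).intervalIntegrable _ _]
    refine Finset.sum_congr rfl fun p _ => ?_
    rw [intervalIntegral.integral_finsetSum fun q _ => (hc p q).intervalIntegrable _ _]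
    refine Finset.sum_congr rfl fun q _ => ?_
    rw [intervalIntegral.integral_const_mul, intervalIntegral.integral_ofReal]
    unfold Bw
    push_cast
    ring
  rw [ofReal_sub, h2, ← Finset.sum_product', ← Finset.diag_union_offDiag,
    Finset.sum_union (Finset.disjoint_diag_offDiag _), Finset.sum_diag]
  have h3 : ∑ p ∈ PX N, ((aa p * aa p * Bw k b W c d p p : ℝ) : ℂ) *
        cexp (((t * (Real.log p - Real.log p) : ℝ) : ℂ) * I) = (diagW k N b W c d : ℂ) := by
    unfold diagW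
    rw [ofReal_sum]
    refine Finset.sum_congr rfl fun p _ => ?_
    rw [sub_self, mul_zero, ofReal_zero, zero_mul, Complex.exp_zero, mul_one, sq]
  rw [h3]
  ring

/-- variance of the weighted quadratic form -/
theorem var_quadW : ∃ C : ℝ, 0 < C ∧ ∀ (k : ℝ → ℝ) (A : ℝ), Ker k A →
    ∀ (N : ℕ) (b c d T B : ℝ) (W : ℝ → ℝ), 0 < b → c ≤ d → 1 ≤ N → 0 < T → Continuous W →
    0 ≤ B → (∀ u, c ≤ u → u ≤ d → |W u| ≤ B) →
    ∫ t in T..(2 * T), ((∫ u in c..d, W u * ‖Dk k N b t u‖ ^ 2) - diagW k N b W c d) ^ 2 ≤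
      (B * A ^ 2) ^ 2 * (4 * T * (C * (Real.log N + 1) ^ 3 / b + (N : ℝ) ^ 4 / b ^ 2 *
        Real.exp (-(T ^ 2 * (1 / (N : ℝ) ^ 2) ^ 2) / 2))) := by
  obtain ⟨C, hC, h⟩ := var_dom
  refine ⟨C, hC, fun k A hk N b c d T B W hb hcd hN hT hW hB0 hB => ?_⟩
  have hA := hk.A0
  have h1 := h N b c d T (B * A ^ 2) (fun p q => aa p * aa q * Bw k b W c d p q) hb hcd hN hT
    (by positivity) (fun p q => by
      rw [abs_mul, abs_of_nonneg (mul_nonneg (aa_nonneg _) (aa_nonneg _))]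
      have h2 := Bw_abs hk hb hW hcd hB p q
      have h3 := mul_nonneg (aa_nonneg p) (aa_nonneg q)
      calc aa p * aa q * |Bw k b W c d p q| ≤ aa p * aa q * (B * A ^ 2 * Bc b c d p q) := by
            gcongr
        _ = _ := by ring)
  refine le_trans (le_of_eq ?_) h1
  congr 1
  funext t
  rw [← quadW hk N hW, Complex.norm_real, Real.norm_eq_abs, sq_abs]

/-- the linear form -/
lemma linW (h : Ker k A) (N : ℕ) {W : ℝ → ℝ} (hW : Continuous W) (b c d t : ℝ) :
    ∫ u in c..d, ((W u * kap k b u : ℝ) : ℂ) * Dk k N b t u =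
      ∑ p ∈ PX N, ((aa p * ∫ u in c..d, W u * kap k b u * kap k b (Real.log p - u) : ℝ) : ℂ) *
        cexp (((t * (-Real.log p) : ℝ) : ℂ) * I) := by
  unfold Dk
  simp_rw [Finset.mul_sum]
  have hc : ∀ p : ℕ, Continuous fun u : ℝ => ((W u * kap k b u : ℝ) : ℂ) *
      (ef t p * ((kap k b (Real.log p - u) : ℝ) : ℂ)) := fun p =>
    (Complex.continuous_ofReal.comp (hW.mul (kap_cont h))).mul (continuous_const.mul
      (Complex.continuous_ofReal.comp (kap_comp h _)))
  rw [intervalIntegral.integral_finsetSum fun p _ => (hc p).intervalIntegrable _ _]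
  refine Finset.sum_congr rfl fun p _ => ?_
  have h1 : ∀ u : ℝ, ((W u * kap k b u : ℝ) : ℂ) * (ef t p * ((kap k b (Real.log p - u) : ℝ) : ℂ)) =
      ef t p * ((W u * kap k b u * kap k b (Real.log p - u) : ℝ) : ℂ) := by
    intro u
    push_cast
    ring
  simp_rw [h1]
  rw [intervalIntegral.integral_const_mul, intervalIntegral.integral_ofReal]
  unfold ef
  push_cast
  ring

/-- variance of the linear form -/
theorem var_linW : ∃ C : ℝ, 0 < C ∧ ∀ (k : ℝ → ℝ) (A : ℝ), Ker k A →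
    ∀ (N : ℕ) (b c d T B : ℝ) (W : ℝ → ℝ), 0 < b → c ≤ d → 1 ≤ N → 0 < T → Continuous W →
    0 ≤ B → (∀ u, c ≤ u → u ≤ d → |W u| ≤ B) →
    ∫ t in T..(2 * T), ‖∫ u in c..d, ((W u * kap k b u : ℝ) : ℂ) * Dk k N b t u‖ ^ 2 ≤
      (B * A ^ 2) ^ 2 * (4 * T * (C * Real.log N / b + (N : ℝ) ^ 4 / b ^ 2 *
        Real.exp (-(T ^ 2 * (1 / (N : ℝ) ^ 2) ^ 2) / 2))) := by
  obtain ⟨C, hC, h⟩ := lin_dom
  refine ⟨C, hC, fun k A hk N b c d T B W hb hcd hN hT hW hB0 hB => ?_⟩
  have hA := hk.A0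
  have h1 := h N b c d T (B * A ^ 2)
    (fun p => aa p * ∫ u in c..d, W u * kap k b u * kap k b (Real.log p - u)) hb hcd hN hT
    (by positivity) (fun p => by
      rw [abs_mul, abs_of_nonneg (aa_nonneg _)]
      have h2 : |∫ u in c..d, W u * kap k b u * kap k b (Real.log p - u)| ≤
          B * A ^ 2 * ∫ u in c..d, be b u * be b (Real.log p - u) := by
        rw [← intervalIntegral.integral_const_mul, ← Real.norm_eq_abs]
        apply intervalIntegral.norm_integral_le_of_norm_le hcd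
        · refine Eventually.of_forall fun u hu => ?_
          rw [norm_mul, norm_mul, Real.norm_eq_abs, Real.norm_eq_abs, Real.norm_eq_abs]
          have h1 := hB u hu.1.le hu.2
          have h2 := kap_abs hk hb u
          have h3 := kap_abs hk hb (Real.log p - u)
          have h4 := be_nonneg hb u
          have h5 := be_nonneg hb (Real.log p - u)
          calc |W u| * |kap k b u| * |kap k b (Real.log p - u)| ≤
              B * (A * be b u) * (A * be b (Real.log p - u)) := by gcongr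
            _ = _ := by ring
        · exact (continuous_const.mul (be_cont.mul (be_comp b _))).intervalIntegrable _ _
      have h3 := aa_nonneg p
      calc aa p * |∫ u in c..d, W u * kap k b u * kap k b (Real.log p - u)| ≤
          aa p * (B * A ^ 2 * ∫ u in c..d, be b u * be b (Real.log p - u)) := by gcongr
        _ = _ := by ring)
  refine le_trans (le_of_eq ?_) h1
  congr 1
  funext t
  rw [linW hk N hW]

end Pool.Agent.Helper92.FM
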