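import Pool.Agent.Helper92.FM.Ker
import Pool.Agent.Helper92.FM.Va
import Pool.Agent.Helper92.FM.Dg
import Pool.Agent.Helper92.FM.Dg2
import Pool.Graph.R_seed8.TH800.MS.Pn
import Pool.Graph.R_seed8.TH800.MS.Dg

set_option autoImplicit false

/-! The weighted diagonal: main theorem. -/

open Complex Filter Topology Set MeasureTheory
open scoped ComplexConjugate

namespace Pool.Agent.Helper92.FM

open Pool.Agent.TH800.MS

variable {k : ℝ → ℝ} {A b : ℝ} {ψ ψ' : ℝ → ℝ} {lam B L : ℝ}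

lemma As_filter (N : ℕ) (y : ℝ) : ∑ p ∈ PX N, aa p ^ 2 *
    (if Real.log p ≤ y then (1 : ℝ) else 0) = As N y := by
  unfold As
  rw [Finset.sum_filter]
  refine Finset.sum_congr rfl fun p _ => ?_
  split_ifs <;> simp

/-- the diagonal part -/
theorem diagW_asym : ∃ C : ℝ, 0 < C ∧ ∀ (k : ℝ → ℝ) (A : ℝ), Ker k A →
    ∀ (N : ℕ) (b L lam B : ℝ) (ψ ψ' : ℝ → ℝ), Wt ψ ψ' lam B → 1 ≤ b → 1 ≤ L → b ≤ lam * L →
    1 ≤ N → lam * L + b ≤ Real.log N → Real.log N + 1 ≤ L →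
    |diagW k N b (fun u => ψ (u / L)) 0 (lam * L) -
      nk k / b * (L ^ 2 * ∫ α in (0 : ℝ)..lam, α * ψ α)| ≤
      C * (B * A ^ 2) * (L + L ^ 2 / b ^ 2) := by
  obtain ⟨C1, hC1, h1⟩ := sum_aa
  obtain ⟨C2, hC2, h2⟩ := As_asym
  obtain ⟨C3, hC3, h3⟩ := abel_aa
  refine ⟨2 * (C1 + 1) + 2 * (C1 + 1) + 2 * (2 * (12 + 8 * C2)) + 2 * C3, by positivity,
    fun k A hk N b L lam B ψ ψ' w hb1 hL1 hbX hN hXN hNL => ?_⟩
  have hb : 0 < b := by linarith
  have hL : 0 < L := by linarith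
  have hX : 0 ≤ lam * L := by have := w.l0; positivity
  have hXL : lam * L ≤ L := by have := w.l1; nlinarith
  have hB0 := w.B0
  have hA := hk.A0
  have hn := nk_nonneg k
  have hn2 := nk_le hk
  set X := lam * L with hXdef
  have hl0 : 0 ≤ Real.log N := Real.log_natCast_nonneg N
  have hS : ∑ p ∈ PX N, aa p ^ 2 ≤ (C1 + 1) * L ^ 2 := by
    have h3 := (abs_le.1 (h1 N hN)).2
    have h4 : (Real.log N + 1) ^ 2 ≤ L ^ 2 := by gcongr
    nlinarith
  have hS0 : 0 ≤ ∑ p ∈ PX N, aa p ^ 2 := Finset.sum_nonneg fun p _ => sq_nonneg _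
  -- step 1
  have s1 : |diagW k N b (fun u => ψ (u / L)) 0 X -
      ∑ p ∈ PX N, aa p ^ 2 * Psi k b ψ lam L (Real.log p)| ≤
      2 * (C1 + 1) * (B * A ^ 2) * (L ^ 2 / b ^ 2) := by
    unfold diagW
    rw [← Finset.sum_sub_distrib]
    calc |∑ p ∈ PX N, (aa p ^ 2 * Bw k b (fun u => ψ (u / L)) 0 X p p -
        aa p ^ 2 * Psi k b ψ lam L (Real.log p))| ≤
        ∑ p ∈ PX N, aa p ^ 2 * (2 * B * A ^ 2 / b ^ 2) := by
          refine (Finset.abs_sum_le_sum_abs _ _).trans (Finset.sum_le_sum fun p _ => ?_)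
          rw [← mul_sub, abs_mul, abs_of_nonneg (sq_nonneg _)]
          apply mul_le_mul_of_nonneg_left _ (sq_nonneg _)
          have h5 := int_w_sq_diff hk hb w hL (Real.log p)
          unfold Bw Psi
          simp only [← sq]
          exact h5
      _ = (∑ p ∈ PX N, aa p ^ 2) * (2 * B * A ^ 2 / b ^ 2) := by rw [Finset.sum_mul]
      _ ≤ ((C1 + 1) * L ^ 2) * (2 * B * A ^ 2 / b ^ 2) := by gcongr
      _ = _ := by ring
  -- step 2
  set M : ℕ → ℝ := fun p => if Real.log p ≤ X then ψ (Real.log p / L) * (nk k / b) else 0 with hM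
  have s2 : |∑ p ∈ PX N, aa p ^ 2 * Psi k b ψ lam L (Real.log p) - ∑ p ∈ PX N, aa p ^ 2 * M p| ≤
      (2 * (C1 + 1) + 2 * (2 * (12 + 8 * C2))) * (B * A ^ 2) * L := by
    have a0 := abs_le.1 (h2 N b hN hb.le (by linarith))
    have a1 := abs_le.1 (h2 N (X + b) hN (by linarith) hXN)
    have a2 := abs_le.1 (h2 N (X - b) hN (by linarith) (by linarith))
    have hbL : b ≤ L := by linarith
    have hAs : As N b + (As N (X + b) - As N (X - b)) ≤ (12 + 8 * C2) * (b * L) := by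
      have e1 : b ^ 2 ≤ b * L := by nlinarith
      have e2 : X * b ≤ b * L := by nlinarith
      have e3 : L ≤ b * L := by nlinarith
      have e4 : b ≤ b * L := by nlinarith
      have e5 : As N b + (As N (X + b) - As N (X - b)) ≤ b ^ 2 / 2 + C2 * (b + 1) +
          (X + b) ^ 2 / 2 + C2 * (X + b + 1) - (X - b) ^ 2 / 2 + C2 * (X - b + 1) := by
        linarith [a0.2, a1.2, a2.1]
      have e6 : b ^ 2 / 2 + C2 * (b + 1) +
          (X + b) ^ 2 / 2 + C2 * (X + b + 1) - (X - b) ^ 2 / 2 + C2 * (X - b + 1) =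
          b ^ 2 / 2 + 2 * (X * b) + C2 * (2 * X + b + 3) := by ring
      have e7 : C2 * (2 * X + b + 3) ≤ C2 * (6 * (b * L)) := by
        apply mul_le_mul_of_nonneg_left _ hC2.le
        have : 1 ≤ b * L := by nlinarith
        linarith
      have e8 : 0 ≤ b * L := by positivity
      have e9 : 0 ≤ C2 * (b * L) := by positivity
      linarith
    rw [← Finset.sum_sub_distrib]
    have q1 : |∑ p ∈ PX N, (aa p ^ 2 * Psi k b ψ lam L (Real.log p) - aa p ^ 2 * M p)| ≤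
        ∑ p ∈ PX N, aa p ^ 2 * (B * nk k / L + 2 * B * (nk k / b) *
          ((if Real.log p ≤ b then (1 : ℝ) else 0) +
        ((if Real.log p ≤ X + b then (1 : ℝ) else 0) -
          (if Real.log p ≤ X - b then (1 : ℝ) else 0)))) := by
      refine (Finset.abs_sum_le_sum_abs _ _).trans (Finset.sum_le_sum fun p _ => ?_)
      rw [← mul_sub, abs_mul, abs_of_nonneg (sq_nonneg _)]
      apply mul_le_mul_of_nonneg_left _ (sq_nonneg _)
      exact Psi_pt hk hb w hL hbX (Real.log_natCast_nonneg p)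
    have q2 : ∑ p ∈ PX N, aa p ^ 2 * (B * nk k / L + 2 * B * (nk k / b) *
          ((if Real.log p ≤ b then (1 : ℝ) else 0) +
        ((if Real.log p ≤ X + b then (1 : ℝ) else 0) -
          (if Real.log p ≤ X - b then (1 : ℝ) else 0)))) =
        B * nk k / L * (∑ p ∈ PX N, aa p ^ 2) + 2 * B * (nk k / b) *
          (As N b + (As N (X + b) - As N (X - b))) := by
      rw [← As_filter N b, ← As_filter N (X + b), ← As_filter N (X - b),
        ← Finset.sum_sub_distrib, ← Finset.sum_add_distrib, Finset.mul_sum, Finset.mul_sum,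
        ← Finset.sum_add_distrib]
      refine Finset.sum_congr rfl fun p _ => ?_
      ring
    have q3 : B * nk k / L * (∑ p ∈ PX N, aa p ^ 2) + 2 * B * (nk k / b) *
          (As N b + (As N (X + b) - As N (X - b))) ≤
        B * nk k / L * ((C1 + 1) * L ^ 2) + 2 * B * (nk k / b) * ((12 + 8 * C2) * (b * L)) := by
      gcongr
    have q4 : B * nk k / L * ((C1 + 1) * L ^ 2) + 2 * B * (nk k / b) * ((12 + 8 * C2) * (b * L)) =
        nk k * (B * ((C1 + 1) + 2 * (12 + 8 * C2)) * L) := by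
      field_simp
    have q5 : nk k * (B * ((C1 + 1) + 2 * (12 + 8 * C2)) * L) ≤
        (2 * A ^ 2) * (B * ((C1 + 1) + 2 * (12 + 8 * C2)) * L) := by gcongr
    have q6 : (2 * A ^ 2) * (B * ((C1 + 1) + 2 * (12 + 8 * C2)) * L) =
        (2 * (C1 + 1) + 2 * (2 * (12 + 8 * C2))) * (B * A ^ 2) * L := by ring
    rw [← q6]
    exact q1.trans (by rw [q2]; exact q3.trans (by rw [q4]; exact q5))
  -- step 3
  have s3 : |∑ p ∈ PX N, aa p ^ 2 * M p - nk k / b * (L ^ 2 * ∫ α in (0 : ℝ)..lam, α * ψ α)| ≤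
      2 * C3 * (B * A ^ 2) * L := by
    have h4 := h3 N L lam B ψ ψ' hN hL1 w.l0 w.l1 (by linarith) w.der w.cont' w.bd
    have e1 : ∑ p ∈ PX N, aa p ^ 2 * M p = nk k / b *
        ∑ p ∈ (PX N).filter (fun p : ℕ => Real.log p ≤ X), aa p ^ 2 * ψ (Real.log p / L) := by
      rw [Finset.mul_sum, Finset.sum_filter]
      refine Finset.sum_congr rfl fun p _ => ?_
      simp only [hM]
      split_ifs
      · ring
      · simp
    rw [e1, ← mul_sub, abs_mul, abs_of_nonneg (by positivity : 0 ≤ nk k / b)]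
    have hnb : nk k / b ≤ 2 * A ^ 2 := by
      rw [div_le_iff₀ hb]
      nlinarith
    calc nk k / b * |_| ≤ (2 * A ^ 2) * (C3 * B * L) := by gcongr
      _ = _ := by ring
  have hLb : 0 ≤ L ^ 2 / b ^ 2 := by positivity
  have hBA : 0 ≤ B * A ^ 2 := by positivity
  calc |diagW k N b (fun u => ψ (u / L)) 0 X -
      nk k / b * (L ^ 2 * ∫ α in (0 : ℝ)..lam, α * ψ α)| =
      |(diagW k N b (fun u => ψ (u / L)) 0 X -
        ∑ p ∈ PX N, aa p ^ 2 * Psi k b ψ lam L (Real.log p)) +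
      ((∑ p ∈ PX N, aa p ^ 2 * Psi k b ψ lam L (Real.log p) - ∑ p ∈ PX N, aa p ^ 2 * M p) +
      (∑ p ∈ PX N, aa p ^ 2 * M p -
        nk k / b * (L ^ 2 * ∫ α in (0 : ℝ)..lam, α * ψ α)))| := by congr 1; ring
    _ ≤ 2 * (C1 + 1) * (B * A ^ 2) * (L ^ 2 / b ^ 2) +
        ((2 * (C1 + 1) + 2 * (2 * (12 + 8 * C2))) * (B * A ^ 2) * L + 2 * C3 * (B * A ^ 2) * L) := by
        refine (abs_add_le _ _).trans (add_le_add s1 ?_)
        exact (abs_add_le _ _).trans (add_le_add s2 s3)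
    _ ≤ _ := by
        have e7 : 0 ≤ 2 * (C1 + 1) * (B * A ^ 2) * L := by positivity
        have e8 : 0 ≤ (2 * (C1 + 1) + 2 * (2 * (12 + 8 * C2)) + 2 * C3) * (B * A ^ 2) *
          (L ^ 2 / b ^ 2) := by positivity
        linarith

/-- the peak -/
theorem peakW (h : Ker k A) (w : Wt ψ ψ' lam B) (hb : 0 < b) (hL : 0 < L) (hbX : b ≤ lam * L) :
    |L ^ 2 * (∫ u in (0 : ℝ)..(lam * L), ψ (u / L) * kap k b u ^ 2) -
      nk k / b * (L ^ 2 * (ψ 0 / 2))| ≤ 2 * (B * A ^ 2) * (L + L ^ 2 / b ^ 2) := by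
  have hX : 0 ≤ lam * L := by have := w.l0; positivity
  have hB0 := w.B0
  have hA := h.A0
  have hn := nk_nonneg k
  have hn2 := nk_le h
  have h1 := int_w_sq_diff h hb w hL 0
  simp only [zero_sub, kap_even h hb, kk_even h] at h1
  have i1 : ∀ c d : ℝ, IntervalIntegrable (fun u => ψ (u / L) * kk k b u ^ 2) volume c d :=
    fun c d => ((w.contL L).mul ((kk_cont h).pow 2)).intervalIntegrable _ _
  have i2 : ∀ c d : ℝ, IntervalIntegrable (fun u => ψ 0 * kk k b u ^ 2) volume c d :=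
    fun c d => (continuous_const.mul ((kk_cont h).pow 2)).intervalIntegrable _ _
  have i3 : ∀ c d : ℝ, IntervalIntegrable (fun u => kk k b u ^ 2) volume c d :=
    fun c d => ((kk_cont h).pow 2).intervalIntegrable _ _
  have h2 : ∫ u in (0 : ℝ)..(lam * L), ψ (u / L) * kk k b u ^ 2 =
      ∫ u in (0 : ℝ)..b, ψ (u / L) * kk k b u ^ 2 := by
    rw [← intervalIntegral.integral_add_adjacent_intervals (i1 0 b) (i1 b (lam * L))]
    have h3 : ∫ u in b..(lam * L), ψ (u / L) * kk k b u ^ 2 = ∫ u in b..(lam * L), (0 : ℝ) := by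
      refine intervalIntegral.integral_congr fun u hu => ?_
      rw [Set.uIcc_of_le hbX] at hu
      show ψ (u / L) * kk k b u ^ 2 = 0
      rw [kk_zero h hb (hu.1.trans (le_abs_self _))]
      simp
    rw [h3]
    simp
  have h4 : |(∫ u in (0 : ℝ)..b, ψ (u / L) * kk k b u ^ 2) - ψ 0 * (nk k / (2 * b))| ≤
      B * nk k / (2 * L) := by
    rw [← kk_sq_half h hb, ← intervalIntegral.integral_const_mul,
      ← intervalIntegral.integral_sub (i1 0 b) (i2 0 b), ← Real.norm_eq_abs]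
    calc ‖∫ u in (0 : ℝ)..b, (ψ (u / L) * kk k b u ^ 2 - ψ 0 * kk k b u ^ 2)‖ ≤
        ∫ u in (0 : ℝ)..b, B / L * b * kk k b u ^ 2 := by
          apply intervalIntegral.norm_integral_le_of_norm_le hb.le
          · refine Eventually.of_forall fun u hu => ?_
            rw [← sub_mul, norm_mul, Real.norm_eq_abs, Real.norm_of_nonneg (sq_nonneg _)]
            apply mul_le_mul_of_nonneg_right _ (sq_nonneg _)
            have h5 := w.lipL hL hu.1.le (hu.2.trans hbX) le_rfl hX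
            rw [zero_div, sub_zero, abs_of_pos hu.1] at h5
            refine h5.trans ?_
            have := hu.2
            gcongr
          · exact (i3 0 b).const_mul _
      _ = B / L * b * (nk k / (2 * b)) := by
          rw [intervalIntegral.integral_const_mul, kk_sq_half h hb]
      _ = _ := by field_simp
  rw [h2] at h1
  have e : L ^ 2 * (∫ u in (0 : ℝ)..(lam * L), ψ (u / L) * kap k b u ^ 2) -
      nk k / b * (L ^ 2 * (ψ 0 / 2)) =
      L ^ 2 * (((∫ u in (0 : ℝ)..(lam * L), ψ (u / L) * kap k b u ^ 2) -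
        ∫ u in (0 : ℝ)..b, ψ (u / L) * kk k b u ^ 2) +
      ((∫ u in (0 : ℝ)..b, ψ (u / L) * kk k b u ^ 2) - ψ 0 * (nk k / (2 * b)))) := by
    have : nk k / b * (L ^ 2 * (ψ 0 / 2)) = L ^ 2 * (ψ 0 * (nk k / (2 * b))) := by
      field_simp
    rw [this]
    ring
  rw [e, abs_mul, abs_of_nonneg (sq_nonneg L)]
  calc L ^ 2 * |_| ≤ L ^ 2 * (2 * B * A ^ 2 / b ^ 2 + B * nk k / (2 * L)) := by
        gcongr
        exact (abs_add_le _ _).trans (add_le_add h1 h4)
    _ = 2 * (B * A ^ 2) * (L ^ 2 / b ^ 2) + B * nk k * L / 2 := by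
        field_simp
    _ ≤ _ := by
        have e1 : B * nk k * L ≤ B * (2 * A ^ 2) * L := by gcongr
        have e2 : 0 ≤ B * A ^ 2 * L := by positivity
        nlinarith

/-- **the main term** -/
theorem mainW : ∃ C : ℝ, 0 < C ∧ ∀ (k : ℝ → ℝ) (A : ℝ), Ker k A →
    ∀ (N : ℕ) (b L lam B : ℝ) (ψ ψ' : ℝ → ℝ), Wt ψ ψ' lam B → 1 ≤ b → 1 ≤ L → b ≤ lam * L →
    1 ≤ N → lam * L + b ≤ Real.log N → Real.log N + 1 ≤ L →
    |L ^ 2 * (∫ u in (0 : ℝ)..(lam * L), ψ (u / L) * kap k b u ^ 2) +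
      diagW k N b (fun u => ψ (u / L)) 0 (lam * L) -
      nk k / b * (L ^ 2 * (ψ 0 / 2 + ∫ α in (0 : ℝ)..lam, α * ψ α))| ≤
      C * (B * A ^ 2) * (L + L ^ 2 / b ^ 2) := by
  obtain ⟨C, hC, h⟩ := diagW_asym
  refine ⟨C + 2, by positivity, fun k A hk N b L lam B ψ ψ' w hb1 hL1 hbX hN hXN hNL => ?_⟩
  have h1 := h k A hk N b L lam B ψ ψ' w hb1 hL1 hbX hN hXN hNL
  have h2 := peakW hk w (by linarith : 0 < b) (by linarith : 0 < L) hbX
  calc _ = |(L ^ 2 * (∫ u in (0 : ℝ)..(lam * L), ψ (u / L) * kap k b u ^ 2) -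
        nk k / b * (L ^ 2 * (ψ 0 / 2))) + (diagW k N b (fun u => ψ (u / L)) 0 (lam * L) -
      nk k / b * (L ^ 2 * ∫ α in (0 : ℝ)..lam, α * ψ α))| := by congr 1; ring
    _ ≤ 2 * (B * A ^ 2) * (L + L ^ 2 / b ^ 2) + C * (B * A ^ 2) * (L + L ^ 2 / b ^ 2) :=
        (abs_add_le _ _).trans (add_le_add h2 h1)
    _ = _ := by ring

end Pool.Agent.Helper92.FM
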