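import Pool.Graph.R_seed8.H370R2.Defs
import Pool.Graph.R_seed8.H370R2.Defs2
import Pool.Graph.R_seed8.H370R2.DirGood
import Pool.Graph.R_seed8.H370R2.PC1
import Pool.Graph.R_seed8.Y24.F1
import Pool.Graph.R_seed8.Y24.F2
import Pool.Graph.R_pool_sql_team_seeded_1acbe0a2.Y24.Near

set_option autoImplicit false

/-! The exponential moment of the distances of the zeros from the critical line. -/

open Complex Filter Topology Set MeasureTheory
open scoped BigOperators ComplexConjugate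

namespace Pool.Agent.Helper92.FM

open H370 (Zf good_zeta mult zz zz_re zz_im zz_spec zz_refl mem_Zf zset zset_refl zz_inj mult_refl)
open Pool.Agent.Y24.Near (Z Z_fin cnt cnt_eq cnt_nonneg cnt_mono cnt_union cnt_left near)

/-- all zeros -/
lemma cnt_upper : ∃ C : ℝ, 0 < C ∧ ∀ T : ℝ, 2 ≤ T → cnt (Z T) ≤ C * (T * Real.log T) := by
  obtain ⟨C, hC, h⟩ := Pool.Agent.Y24.density (c := 1) (by norm_num)
  refine ⟨2 * C, by positivity, fun T hT => ?_⟩
  obtain ⟨h1, h2⟩ := h (1 / 2) T le_rfl (by norm_num) hT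
  have hR : cnt {ρ | ρ ∈ Z T ∧ 1 / 2 + 0 ≤ ρ.re} ≤ C * (T * Real.log T) := by
    have h3 : cnt {ρ | ρ ∈ Z T ∧ 1 / 2 + 0 ≤ ρ.re} ≤ cnt (Pool.Agent.Y24.ZZ (1 / 2) T) := by
      apply cnt_mono _ h1
      intro ρ hρ
      obtain ⟨⟨a1, a2, a3, a4, a5⟩, a6⟩ := hρ
      exact ⟨a1, by linarith, a4, a5⟩
    refine h3.trans (h2.trans (le_of_eq ?_))
    simp only [sub_self, mul_zero, sub_zero, Real.rpow_one]
    ring
  have hL : cnt {ρ | ρ ∈ Z T ∧ ρ.re ≤ 1 / 2 - 0} ≤ C * (T * Real.log T) := by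
    rw [cnt_left]
    exact hR
  have hsub : Z T ⊆ {ρ | ρ ∈ Z T ∧ ρ.re ≤ 1 / 2 - 0} ∪ {ρ | ρ ∈ Z T ∧ 1 / 2 + 0 ≤ ρ.re} := by
    intro ρ hρ
    rcases le_total ρ.re (1 / 2) with h4 | h4
    · left; exact ⟨hρ, by linarith⟩
    · right; exact ⟨hρ, by linarith⟩
  have hf1 : {ρ | ρ ∈ Z T ∧ ρ.re ≤ 1 / 2 - 0}.Finite := (Z_fin T).subset fun ρ h => h.1
  have hf2 : {ρ | ρ ∈ Z T ∧ 1 / 2 + 0 ≤ ρ.re}.Finite := (Z_fin T).subset fun ρ h => h.1
  have h5 := cnt_mono hsub (hf1.union hf2)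
  have h6 := cnt_union hf1 hf2
  linarith

lemma zf_sub {T U1 U2 : ℝ} (hT : 1 ≤ T) (h1 : T ≤ U1) (h2 : U2 ≤ 2 * T) {s : ℂ}
    (hs : s ∈ Zf riemannZeta U1 U2) : s ∈ Z (2 * T) := by
  rw [mem_Zf good_zeta (by linarith)] at hs
  obtain ⟨a1, a2, a3, a4, a5⟩ := hs
  exact ⟨a5, a1, a2, by linarith, by linarith⟩

lemma layer (κ : ℝ) (hκ : 0 ≤ κ) (x : ℝ) (hx : 0 ≤ x) (J : ℕ) (hJ : x < J) :
    Real.exp (κ * x) ≤ ∑ j ∈ Finset.range J,
      (if (j : ℝ) ≤ x then Real.exp (κ * (j + 1)) else 0) := by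
  have h1 : ⌊x⌋₊ ∈ Finset.range J := by
    rw [Finset.mem_range]
    exact (Nat.floor_lt hx).2 hJ
  have h2 := Finset.single_le_sum (s := Finset.range J)
    (f := fun j : ℕ => if (j : ℝ) ≤ x then Real.exp (κ * ((j : ℝ) + 1)) else 0)
    (fun j _ => by
      show 0 ≤ if (j : ℝ) ≤ x then Real.exp (κ * ((j : ℝ) + 1)) else 0
      split_ifs <;> positivity) h1
  refine le_trans ?_ h2
  show Real.exp (κ * x) ≤ if ((⌊x⌋₊ : ℕ) : ℝ) ≤ x then Real.exp (κ * (((⌊x⌋₊ : ℕ) : ℝ) + 1)) else 0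
  rw [if_pos (Nat.floor_le hx)]
  apply Real.exp_le_exp.2
  have := (Nat.lt_floor_add_one x).le
  gcongr

/-- **bounded exponential moment** -/
theorem dens98 : ∃ C T0 : ℝ, 0 < C ∧ 10 ≤ T0 ∧ ∀ T : ℝ, T0 ≤ T → ∀ U1 U2 : ℝ, T ≤ U1 →
    U2 ≤ 2 * T →
    ∑ s ∈ Zf riemannZeta U1 U2, (mult riemannZeta s : ℝ) *
      Real.exp (9 / 8 * (|(zz s).im| * Real.log T)) ≤ C * (T * Real.log T) := by
  classical
  obtain ⟨C1, hC1, hnear⟩ := near (c := 5 / 4) (by norm_num)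
  obtain ⟨C2, hC2, hup⟩ := cnt_upper
  set q : ℝ := Real.exp (-(1 / 8)) with hq
  have hq0 : 0 < q := Real.exp_pos _
  have hq1 : q < 1 := by
    rw [hq, Real.exp_lt_one_iff]
    norm_num
  refine ⟨4 * (C1 * C2 * Real.exp (9 / 8) / (1 - q)), 10, ?_, le_rfl, fun T hT U1 U2 h1 h2 => ?_⟩
  · have : 0 < 1 - q := by linarith
    positivity
  set L := Real.log T with hL
  have hL0 : 0 < L := Real.log_pos (by linarith)
  have hL2 : L ≤ Real.log (2 * T) := Real.log_le_log (by linarith) (by linarith)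
  have hL2' : 0 < Real.log (2 * T) := Real.log_pos (by linarith)
  obtain ⟨J, hJ⟩ := exists_nat_gt L
  set W := Zf riemannZeta U1 U2 with hW
  have hsm : ∀ s ∈ W, |(zz s).im| ≤ 1 / 2 := by
    intro s hs
    rw [hW, mem_Zf good_zeta (by linarith)] at hs
    rw [zz_im, abs_neg, abs_le]
    constructor <;> linarith [hs.1, hs.2.1]
  have hm0 : ∀ s : ℂ, (0 : ℝ) ≤ mult riemannZeta s := fun s => Nat.cast_nonneg _
  -- layers
  have hlay : ∑ s ∈ W, (mult riemannZeta s : ℝ) * Real.exp (9 / 8 * (|(zz s).im| * L)) ≤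
      ∑ j ∈ Finset.range J, Real.exp (9 / 8 * ((j : ℝ) + 1)) *
        ∑ s ∈ W.filter (fun s => (j : ℝ) ≤ |(zz s).im| * L), (mult riemannZeta s : ℝ) := by
    have e1 : ∑ j ∈ Finset.range J, Real.exp (9 / 8 * ((j : ℝ) + 1)) *
        ∑ s ∈ W.filter (fun s => (j : ℝ) ≤ |(zz s).im| * L), (mult riemannZeta s : ℝ) =
        ∑ s ∈ W, (mult riemannZeta s : ℝ) * ∑ j ∈ Finset.range J,
          (if (j : ℝ) ≤ |(zz s).im| * L then Real.exp (9 / 8 * ((j : ℝ) + 1)) else 0) := by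
      simp_rw [Finset.mul_sum]
      rw [Finset.sum_comm' (t' := W) (s' := fun s => (Finset.range J).filter
        (fun j : ℕ => (j : ℝ) ≤ |(zz s).im| * L))]
      · refine Finset.sum_congr rfl fun s _ => ?_
        rw [Finset.sum_filter]
        refine Finset.sum_congr rfl fun j _ => ?_
        split_ifs
        · ring
        · ring
      · intro j s
        simp only [Finset.mem_filter]
        tauto
    rw [e1]
    refine Finset.sum_le_sum fun s hs => mul_le_mul_of_nonneg_left ?_ (hm0 s)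
    apply layer _ (by norm_num) _ (by positivity)
    have := hsm s hs
    nlinarith [abs_nonneg (zz s).im]
  refine hlay.trans ?_
  -- each layer
  have hcnt : cnt (Z (2 * T)) ≤ C2 * (2 * T * (2 * L)) := by
    refine (hup (2 * T) (by linarith)).trans ?_
    have h3 : Real.log (2 * T) ≤ 2 * L := by
      rw [Real.log_mul (by norm_num) (by linarith)]
      have : Real.log 2 ≤ L := Real.log_le_log (by norm_num) (by linarith)
      linarith
    gcongr
  have hcnt0 : 0 ≤ cnt (Z (2 * T)) := cnt_nonneg _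
  have hj : ∀ j : ℕ, ∑ s ∈ W.filter (fun s => (j : ℝ) ≤ |(zz s).im| * L),
      (mult riemannZeta s : ℝ) ≤ C1 * Real.exp (-(5 / 4 * (j : ℝ))) * cnt (Z (2 * T)) := by
    intro j
    refine le_trans ?_ (hnear (2 * T) j (by linarith) (Nat.cast_nonneg _))
    have hfin : {ρ | ρ ∈ Z (2 * T) ∧ (j : ℝ) / Real.log (2 * T) ≤ |ρ.re - 1 / 2|}.Finite :=
      (Z_fin (2 * T)).subset fun ρ h => h.1
    rw [cnt_eq hfin]
    apply Finset.sum_le_sum_of_subset_of_nonneg
    · intro s hs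
      rw [Finset.mem_filter] at hs
      rw [Set.Finite.mem_toFinset]
      refine ⟨zf_sub (by linarith) h1 h2 hs.1, ?_⟩
      rw [div_le_iff₀ hL2']
      have h4 := hs.2
      rw [zz_im, abs_neg] at h4
      calc (j : ℝ) ≤ |s.re - 1 / 2| * L := h4
        _ ≤ _ := by gcongr
    · intro s _ _
      exact Nat.cast_nonneg _
  have hsum : ∑ j ∈ Finset.range J, Real.exp (9 / 8 * ((j : ℝ) + 1)) *
        ∑ s ∈ W.filter (fun s => (j : ℝ) ≤ |(zz s).im| * L), (mult riemannZeta s : ℝ) ≤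
      ∑ j ∈ Finset.range J, C1 * Real.exp (9 / 8) * cnt (Z (2 * T)) * q ^ j := by
    refine Finset.sum_le_sum fun j _ => ?_
    calc _ ≤ Real.exp (9 / 8 * ((j : ℝ) + 1)) * (C1 * Real.exp (-(5 / 4 * (j : ℝ))) *
          cnt (Z (2 * T))) := by
          apply mul_le_mul_of_nonneg_left (hj j) (Real.exp_pos _).le
      _ = C1 * (Real.exp (9 / 8 * ((j : ℝ) + 1)) * Real.exp (-(5 / 4 * (j : ℝ)))) *
          cnt (Z (2 * T)) := by ring
      _ = C1 * Real.exp (9 / 8) * cnt (Z (2 * T)) * q ^ j := by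
          rw [hq, ← Real.exp_nat_mul, ← Real.exp_add]
          have e2 : Real.exp (9 / 8 * ((j : ℝ) + 1) + -(5 / 4 * (j : ℝ))) =
              Real.exp (9 / 8) * Real.exp ((j : ℝ) * -(1 / 8)) := by
            rw [← Real.exp_add]
            congr 1
            ring
          rw [e2]
          ring
  refine hsum.trans ?_
  rw [← Finset.mul_sum]
  have hgeo : ∑ j ∈ Finset.range J, q ^ j ≤ 1 / (1 - q) := by
    rw [one_div, ← tsum_geometric_of_lt_one hq0.le hq1]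
    exact (summable_geometric_of_lt_one hq0.le hq1).sum_le_tsum _ fun j _ => by positivity
  have h1q : 0 < 1 - q := by linarith
  calc C1 * Real.exp (9 / 8) * cnt (Z (2 * T)) * ∑ j ∈ Finset.range J, q ^ j ≤
      C1 * Real.exp (9 / 8) * (C2 * (2 * T * (2 * L))) * (1 / (1 - q)) := by gcongr
    _ = _ := by ring

/-- the number of the zeros -/
theorem count_TL : ∃ C : ℝ, 0 < C ∧ ∀ T : ℝ, 10 ≤ T → ∀ U1 U2 : ℝ, T ≤ U1 → U2 ≤ 2 * T →
    ∑ s ∈ Zf riemannZeta U1 U2, (mult riemannZeta s : ℝ) ≤ C * (T * Real.log T) := by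
  obtain ⟨C2, hC2, hup⟩ := cnt_upper
  refine ⟨4 * C2, by positivity, fun T hT U1 U2 h1 h2 => ?_⟩
  set L := Real.log T with hL
  have h3 : Real.log (2 * T) ≤ 2 * L := by
    rw [Real.log_mul (by norm_num) (by linarith)]
    have : Real.log 2 ≤ L := Real.log_le_log (by norm_num) (by linarith)
    linarith
  have h4 : ∑ s ∈ Zf riemannZeta U1 U2, (mult riemannZeta s : ℝ) ≤ cnt (Z (2 * T)) := by
    rw [cnt_eq (Z_fin (2 * T))]
    apply Finset.sum_le_sum_of_subset_of_nonneg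
    · intro s hs
      rw [Set.Finite.mem_toFinset]
      exact zf_sub (by linarith) h1 h2 hs
    · intro s _ _
      exact Nat.cast_nonneg _
  calc _ ≤ _ := h4
    _ ≤ C2 * (2 * T * Real.log (2 * T)) := hup (2 * T) (by linarith)
    _ ≤ C2 * (2 * T * (2 * L)) := by gcongr
    _ = _ := by ring

end Pool.Agent.Helper92.FM
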