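import Pool.Agent.Helper92.FM.Ker
import Pool.Agent.Helper92.FM.Sd
import Pool.Agent.Helper92.FM.Dg3
import Pool.Graph.R_seed8.H370R2.Defs
import Pool.Graph.R_seed8.H382P.PrimePart
import Pool.Graph.R_seed8.TH800.MS.Kb
import Pool.Graph.R_seed8.TH800.MS.Pn
import Pool.Graph.R_seed8.H370R2.Defs2
import Pool.Graph.R_seed8.H370R2.PC1
import Pool.Graph.R_seed8.TH800.MS.Ze
import Pool.Graph.R_seed8.TH800.MS.Gm
import Pool.Graph.R_seed8.TH800.MS.Va
import Pool.Graph.R_seed8.TH800.MS.Dg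
import Pool.Graph.R_seed8.TH800.MS.Core
import Pool.Graph.R_seed8.TH800.MS.Lln

set_option autoImplicit false

/-! Negative frequencies, continuity, elementary inequalities. -/

open Complex Filter Topology Set MeasureTheory
open scoped ComplexConjugate

namespace Pool.Agent.Helper92.FM

open Pool.Agent.TH800.MS
open SP (ppG ppG_summable ppG_nonneg)

variable {k : ℝ → ℝ} {A b : ℝ}

lemma Gk_cont (h : Ker k A) : Continuous (Gk k) := by
  unfold Gk
  apply intervalIntegral.continuous_parametric_intervalIntegral_of_continuous'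
  show Continuous (Function.uncurry fun (z : ℂ) (y : ℝ) => (k y : ℂ) * cexp (I * y * z))
  unfold Function.uncurry
  exact (Complex.continuous_ofReal.comp (h.cont.comp continuous_snd)).mul (by fun_prop)

lemma fS_cont2 (h : Ker k A) (U1 U2 b : ℝ) :
    Continuous fun x : ℝ × ℝ => fS k U1 U2 b x.1 x.2 := by
  unfold fS
  refine continuous_finsetSum _ fun s _ => ?_
  exact ((continuous_const.mul (by fun_prop)).mul ((Gk_cont h).comp (by fun_prop))).mul
    (by fun_prop)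

lemma Dk_cont2 (h : Ker k A) (N : ℕ) (b : ℝ) : Continuous fun x : ℝ × ℝ => Dk k N b x.1 x.2 := by
  unfold Dk
  refine continuous_finsetSum _ fun p _ => ?_
  exact ((ef_cont p).comp continuous_fst).mul (Complex.continuous_ofReal.comp
    ((kap_cont h).comp (by fun_prop)))

lemma sq_diff_le (a c : ℂ) {η : ℝ} (hη : 0 < η) :
    |‖a‖ ^ 2 - ‖c‖ ^ 2| ≤ η * ‖c‖ ^ 2 + (1 + 1 / η) * ‖a - c‖ ^ 2 := by
  set e := ‖a - c‖ with he
  have he0 : 0 ≤ e := norm_nonneg _
  have h1 : ‖a‖ ≤ ‖c‖ + e := by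
    have := norm_add_le c (a - c)
    rwa [add_sub_cancel] at this
  have h2 : ‖c‖ ≤ ‖a‖ + e := by
    have := norm_sub_le a (a - c)
    rwa [sub_sub_cancel] at this
  have ha := norm_nonneg a
  have hc := norm_nonneg c
  have h3 : 2 * ‖c‖ * e ≤ η * ‖c‖ ^ 2 + 1 / η * e ^ 2 := by
    have h4 : 0 ≤ (η * ‖c‖ - e) ^ 2 / η := by positivity
    have h5 : (η * ‖c‖ - e) ^ 2 / η = η * ‖c‖ ^ 2 - 2 * ‖c‖ * e + 1 / η * e ^ 2 := by
      field_simp
      ring
    linarith
  rw [abs_le]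
  constructor
  · have h6 : ‖c‖ ^ 2 ≤ (‖a‖ + e) ^ 2 := by gcongr
    rcases le_total e ‖c‖ with h7 | h7
    · have h8 : (‖c‖ - e) ^ 2 ≤ ‖a‖ ^ 2 := by
        apply sq_le_sq' <;> linarith
      nlinarith
    · have : ‖c‖ ^ 2 ≤ e ^ 2 := by gcongr
      have h9 : 0 ≤ η * ‖c‖ ^ 2 := by positivity
      have h10 : 0 ≤ 1 / η * e ^ 2 := by positivity
      nlinarith [sq_nonneg ‖a‖]
  · have h6 : ‖a‖ ^ 2 ≤ (‖c‖ + e) ^ 2 := by gcongr
    nlinarith

/-- the sum for the negative frequencies -/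
lemma neg_sum : ∃ C : ℝ, 0 < C ∧ ∀ (N : ℕ) (b u : ℝ), 1 ≤ b → 2 * b ≤ Real.log N → 1 ≤ N → 0 ≤ u →
    ∑ p ∈ PX N, (aa p * be b (Real.log p + u)) ^ 2 ≤ C := by
  obtain ⟨C2, hC2, h2⟩ := As_asym
  have hs := ppG_summable (1 / 4) (by norm_num)
  have hs0 : 0 ≤ ∑' n, ppG (1 / 4) n := tsum_nonneg (ppG_nonneg _)
  refine ⟨2 + 3 * C2 + ∑' n, ppG (1 / 4) n, by positivity, fun N b u hb1 hbN hN hu => ?_⟩
  have hb : 0 < b := by linarith
  have h1 : ∀ p ∈ PX N, (aa p * be b (Real.log p + u)) ^ 2 ≤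
      1 / b ^ 2 * (aa p ^ 2 * (if Real.log p ≤ 2 * b then 1 else 0)) + ppG (1 / 4) p := by
    intro p hp
    have hpp := (mem_PX.1 hp).1
    have hp0 : (0 : ℝ) < p := by exact_mod_cast hpp.pos
    have hl := Real.log_natCast_nonneg p
    have hG := ppG_nonneg (1 / 4) p
    split_ifs with c
    · have h3 := be_le hb (Real.log p + u)
      have h4 := be_nonneg hb (Real.log p + u)
      calc (aa p * be b (Real.log p + u)) ^ 2 = aa p ^ 2 * be b (Real.log p + u) ^ 2 := by ring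
        _ ≤ aa p ^ 2 * (1 / b) ^ 2 := by gcongr
        _ ≤ _ := by
            rw [div_pow, one_pow]
            linarith
    · rw [mul_zero, mul_zero, zero_add]
      have h3 := be_far hb (z := Real.log p + u) (by linarith)
      have h4 := be_nonneg hb (Real.log p + u)
      have h5 : be b (Real.log p + u) ≤ Real.exp (-(1 / 8) * Real.log p ^ 2) := by
        refine h3.trans ?_
        have h6 : 1 / b ≤ 1 := by rw [div_le_one hb]; exact hb1
        have h7 : Real.exp (-(Real.log p + u - b) ^ 2 / 2) ≤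
            Real.exp (-(1 / 8) * Real.log p ^ 2) := by
          apply Real.exp_le_exp.2
          have h8 : Real.log p / 2 ≤ Real.log p + u - b := by linarith
          have h9 : (Real.log p / 2) ^ 2 ≤ (Real.log p + u - b) ^ 2 := by gcongr
          linarith
        calc _ ≤ 1 * Real.exp (-(1 / 8) * Real.log p ^ 2) := by gcongr
          _ = _ := one_mul _
      have h10 := aa_le_one p
      have h11 := aa_nonneg p
      have h12 : aa p = Real.log p * (p : ℝ) ^ (-(1 / 2) : ℝ) := by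
        unfold aa
        rw [div_eq_mul_inv, Real.rpow_neg hp0.le, Real.sqrt_eq_rpow]
      have h13 : ppG (1 / 4) p = aa p * Real.exp (-(1 / 4) * Real.log p ^ 2) := by
        unfold ppG
        rw [h12]
      rw [h13]
      calc (aa p * be b (Real.log p + u)) ^ 2 = aa p * aa p * be b (Real.log p + u) ^ 2 := by ring
        _ ≤ aa p * 1 * Real.exp (-(1 / 8) * Real.log p ^ 2) ^ 2 := by gcongr
        _ = _ := by
            rw [← Real.exp_nat_mul]
            congr 1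
            · ring
            · congr 1
              push_cast
              ring
  have h3 := abs_le.1 (h2 N (2 * b) hN (by linarith) hbN)
  calc ∑ p ∈ PX N, (aa p * be b (Real.log p + u)) ^ 2 ≤
      ∑ p ∈ PX N, (1 / b ^ 2 * (aa p ^ 2 * (if Real.log p ≤ 2 * b then 1 else 0)) +
        ppG (1 / 4) p) := Finset.sum_le_sum h1
    _ = 1 / b ^ 2 * As N (2 * b) + ∑ p ∈ PX N, ppG (1 / 4) p := by
        rw [Finset.sum_add_distrib, ← Finset.mul_sum, As_filter]
    _ ≤ 1 / b ^ 2 * ((2 * b) ^ 2 / 2 + C2 * (2 * b + 1)) + ∑' n, ppG (1 / 4) n := by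
        gcongr
        · linarith [h3.2]
        · exact hs.sum_le_tsum _ fun n _ => ppG_nonneg _ n
    _ ≤ _ := by
        have e1 : 1 / b ^ 2 * ((2 * b) ^ 2 / 2 + C2 * (2 * b + 1)) =
            2 + C2 * ((2 * b + 1) / b ^ 2) := by
          field_simp
        have e2 : (2 * b + 1) / b ^ 2 ≤ 3 := by
          rw [div_le_iff₀ (by positivity)]
          nlinarith
        rw [e1]
        nlinarith

/-- mean square of the negative frequencies -/
theorem negD : ∃ C : ℝ, 0 < C ∧ ∀ (k : ℝ → ℝ) (A : ℝ), Ker k A → ∀ (N : ℕ) (b u T : ℝ), 1 ≤ b →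
    2 * b ≤ Real.log N → 1 ≤ N → 0 ≤ u → 0 < T →
    (N : ℝ) ^ 2 * Real.exp (-(T ^ 2 * (1 / (N : ℝ)) ^ 2) / 2) ≤ 1 →
    ∫ t in T..(2 * T), ‖Dk k N b t (-u)‖ ^ 2 ≤ C * A ^ 2 * T := by
  obtain ⟨C, hC, h⟩ := neg_sum
  refine ⟨4 * (C + 1), by positivity, fun k A hk N b u T hb1 hbN hN hu hT hsm => ?_⟩
  have hb : 0 < b := by linarith
  have hA := hk.A0
  have hN0 : (0 : ℝ) < N := by exact_mod_cast hN
  have hmain := gm_sep (PX N) (fun p : ℕ => ((aa p * kap k b (Real.log p - -u) : ℝ) : ℂ))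
    (fun p => -Real.log p) T (1 / (N : ℝ)) hT (by positivity) (by
      intro p hp q hq hne
      obtain ⟨pp, pN⟩ := mem_PX.1 hp
      obtain ⟨qp, qN⟩ := mem_PX.1 hq
      have h5 := log_sep (a := p) (b := q) pp.pos qp.pos hne (N := (N : ℝ))
        (by exact_mod_cast pN) (by exact_mod_cast qN)
      refine h5.trans (le_of_eq ?_)
      rw [← abs_neg]
      congr 1
      ring)
  have heq : ∀ t : ℝ, Dk k N b t (-u) = ∑ p ∈ PX N,
      ((aa p * kap k b (Real.log p - -u) : ℝ) : ℂ) * cexp (((t * (-Real.log p) : ℝ) : ℂ) * I) := by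
    intro t
    unfold Dk ef
    refine Finset.sum_congr rfl fun p _ => ?_
    push_cast
    ring
  simp_rw [heq]
  refine hmain.trans ?_
  have hnn : ∀ p : ℕ, ‖((aa p * kap k b (Real.log p - -u) : ℝ) : ℂ)‖ ≤
      A * (aa p * be b (Real.log p + u)) := by
    intro p
    rw [Complex.norm_real, norm_mul, Real.norm_eq_abs, Real.norm_eq_abs,
      abs_of_nonneg (aa_nonneg p), sub_neg_eq_add]
    have h1 := kap_abs hk hb (Real.log p + u)
    have h2 := aa_nonneg p
    calc aa p * |kap k b (Real.log p + u)| ≤ aa p * (A * be b (Real.log p + u)) := by gcongr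
      _ = _ := by ring
  have s1 : ∑ p ∈ PX N, ‖((aa p * kap k b (Real.log p - -u) : ℝ) : ℂ)‖ ^ 2 ≤ A ^ 2 * C := by
    calc _ ≤ ∑ p ∈ PX N, (A * (aa p * be b (Real.log p + u))) ^ 2 := by
          refine Finset.sum_le_sum fun p _ => ?_
          have := hnn p
          gcongr
      _ = A ^ 2 * ∑ p ∈ PX N, (aa p * be b (Real.log p + u)) ^ 2 := by
          rw [Finset.mul_sum]
          refine Finset.sum_congr rfl fun p _ => ?_
          ring
      _ ≤ _ := by
          have := h N b u hb1 hbN hN hu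
          gcongr
  have s2 : ∑ p ∈ PX N, ‖((aa p * kap k b (Real.log p - -u) : ℝ) : ℂ)‖ ≤ A * N := by
    calc _ ≤ ∑ p ∈ PX N, A * 1 := by
          refine Finset.sum_le_sum fun p _ => (hnn p).trans ?_
          have h7 := aa_le_one p
          have h8 := be_le hb (Real.log p + u)
          have h9 := be_nonneg hb (Real.log p + u)
          have h10 := aa_nonneg p
          have h11 : 1 / b ≤ 1 := by rw [div_le_one hb]; exact hb1
          apply mul_le_mul_of_nonneg_left _ hA.le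
          calc aa p * be b (Real.log p + u) ≤ 1 * 1 := by
                apply mul_le_mul h7 (h8.trans h11) h9 zero_le_one
            _ = 1 := one_mul 1
      _ = A * ((PX N).card : ℝ) := by
          rw [Finset.sum_const, nsmul_eq_mul]
          ring
      _ ≤ A * N := by
          have := PX_card_le N
          gcongr
  have s20 : 0 ≤ ∑ p ∈ PX N, ‖((aa p * kap k b (Real.log p - -u) : ℝ) : ℂ)‖ :=
    Finset.sum_nonneg fun x _ => norm_nonneg _
  calc 4 * T * (∑ p ∈ PX N, ‖((aa p * kap k b (Real.log p - -u) : ℝ) : ℂ)‖ ^ 2 +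
      (∑ p ∈ PX N, ‖((aa p * kap k b (Real.log p - -u) : ℝ) : ℂ)‖) ^ 2 *
        Real.exp (-(T ^ 2 * (1 / (N : ℝ)) ^ 2) / 2)) ≤
      4 * T * (A ^ 2 * C + (A * N) ^ 2 * Real.exp (-(T ^ 2 * (1 / (N : ℝ)) ^ 2) / 2)) := by gcongr
    _ = 4 * T * (A ^ 2 * C + A ^ 2 * ((N : ℝ) ^ 2 *
        Real.exp (-(T ^ 2 * (1 / (N : ℝ)) ^ 2) / 2))) := by ring
    _ ≤ 4 * T * (A ^ 2 * C + A ^ 2 * 1) := by gcongr
    _ = _ := by ring

lemma small_off1 (θ : ℝ) (hθ0 : 0 < θ) (hθ : θ < 1) : ∃ T0 : ℝ, 10 ≤ T0 ∧ ∀ T : ℝ, T0 ≤ T →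
    ∀ N : ℕ, 1 ≤ N → (N : ℝ) ≤ T ^ θ →
      (N : ℝ) ^ 2 * Real.exp (-(T ^ 2 * (1 / (N : ℝ)) ^ 2) / 2) ≤ 1 := by
  have h0 : 0 < 2 - 2 * θ := by linarith
  have hlog := (isLittleO_log_rpow_atTop h0).bound (show (0 : ℝ) < 1 / 4 by norm_num)
  obtain ⟨T1, hT1⟩ := hlog.exists_forall_of_atTop
  refine ⟨max T1 10, le_max_right _ _, fun T hT N hN hNT => ?_⟩
  have hT10 : 10 ≤ T := (le_max_right _ _).trans hT
  have hTpos : 0 < T := by linarith
  have hl0 : 0 ≤ Real.log T := Real.log_nonneg (by linarith)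
  have h1 := hT1 T ((le_max_left _ _).trans hT)
  rw [Real.norm_of_nonneg hl0, Real.norm_of_nonneg (by positivity)] at h1
  have hN0 : (0 : ℝ) < N := by exact_mod_cast hN
  have h2 : (N : ℝ) ^ 2 ≤ T ^ (2 * θ) := by
    calc (N : ℝ) ^ 2 ≤ (T ^ θ) ^ 2 := by gcongr
      _ = T ^ (2 * θ) := by
          rw [← Real.rpow_natCast, ← Real.rpow_mul hTpos.le]
          congr 1
          push_cast
          ring
  have h3 : T ^ (2 * θ) ≤ T ^ (2 : ℝ) :=
    Real.rpow_le_rpow_of_exponent_le (by linarith) (by linarith)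
  have h4 : T ^ (2 - 2 * θ) ≤ T ^ 2 * (1 / (N : ℝ)) ^ 2 := by
    have e1 : T ^ 2 * (1 / (N : ℝ)) ^ 2 = T ^ (2 : ℝ) / (N : ℝ) ^ 2 := by
      rw [← Real.rpow_natCast T 2]
      push_cast
      field_simp
    rw [e1, Real.rpow_sub hTpos]
    have : 0 < T ^ (2 * θ) := by positivity
    gcongr
  have h5 : Real.exp (-(T ^ 2 * (1 / (N : ℝ)) ^ 2) / 2) ≤ Real.exp (-(2 * Real.log T)) := by
    apply Real.exp_le_exp.2
    linarith
  calc (N : ℝ) ^ 2 * Real.exp (-(T ^ 2 * (1 / (N : ℝ)) ^ 2) / 2) ≤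
      T ^ (2 : ℝ) * Real.exp (-(2 * Real.log T)) := by
        apply mul_le_mul (h2.trans h3) h5 (Real.exp_pos _).le (by positivity)
    _ = 1 := by
        rw [Real.rpow_def_of_pos hTpos, ← Real.exp_add]
        simp [mul_comm]

end Pool.Agent.Helper92.FM
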