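import Pool.Agent.Helper92.FM.Ker
import Pool.Agent.Helper92.FM.Sd
import Pool.Agent.Helper92.FM.Va
import Pool.Agent.Helper92.FM.Dg2
import Pool.Agent.Helper92.FM.Ng
import Pool.Graph.R_seed8.TH800.MS.Pw
import Pool.Graph.R_seed8.TH800.MS.Core

set_option autoImplicit false

/-! The fluctuations. -/

open Complex Filter Topology Set MeasureTheory
open scoped ComplexConjugate

namespace Pool.Agent.Helper92.FM

open Pool.Agent.TH800.MS

variable {k : ℝ → ℝ} {A b : ℝ} {ψ ψ' : ℝ → ℝ} {lam B L : ℝ}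

/-- the prime model of the local sum -/
noncomputable def Yk (k : ℝ → ℝ) (N : ℕ) (L b t u : ℝ) : ℂ :=
  ((L * kap k b u : ℝ) : ℂ) - Dk k N b t u

/-- the fluctuation -/
noncomputable def Fl (k : ℝ → ℝ) (N : ℕ) (b : ℝ) (ψ : ℝ → ℝ) (L lam t : ℝ) : ℝ :=
  ((∫ u in (0 : ℝ)..(lam * L), ψ (u / L) * ‖Dk k N b t u‖ ^ 2) -
    diagW k N b (fun u => ψ (u / L)) 0 (lam * L)) -
  2 * L * (∫ u in (0 : ℝ)..(lam * L), ((ψ (u / L) * kap k b u : ℝ) : ℂ) * Dk k N b t u).re

/-- the main term -/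
noncomputable def Mn (k : ℝ → ℝ) (N : ℕ) (b : ℝ) (ψ : ℝ → ℝ) (L lam : ℝ) : ℝ :=
  L ^ 2 * (∫ u in (0 : ℝ)..(lam * L), ψ (u / L) * kap k b u ^ 2) +
    diagW k N b (fun u => ψ (u / L)) 0 (lam * L)

lemma Yk_int (h : Ker k A) (w : Wt ψ ψ' lam B) (N : ℕ) (t : ℝ) :
    ∫ u in (0 : ℝ)..(lam * L), ψ (u / L) * ‖Yk k N L b t u‖ ^ 2 =
      Mn k N b ψ L lam + Fl k N b ψ L lam t := by
  have hpt : ∀ u, ψ (u / L) * ‖Yk k N L b t u‖ ^ 2 = L ^ 2 * (ψ (u / L) * kap k b u ^ 2) +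
      ψ (u / L) * ‖Dk k N b t u‖ ^ 2 -
      2 * L * (((ψ (u / L) * kap k b u : ℝ) : ℂ) * Dk k N b t u).re := by
    intro u
    unfold Yk
    rw [← Complex.normSq_eq_norm_sq, ← Complex.normSq_eq_norm_sq, Complex.normSq_apply,
      Complex.normSq_apply]
    simp only [Complex.sub_re, Complex.ofReal_re, Complex.sub_im,
      Complex.ofReal_im, Complex.mul_re]
    ring
  have hψ := w.contL L
  have hκ := kap_cont (b := b) h
  have hD := Dk_cont (b := b) h N t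
  have hg : Continuous fun u => ((ψ (u / L) * kap k b u : ℝ) : ℂ) * Dk k N b t u :=
    (Complex.continuous_ofReal.comp (hψ.mul hκ)).mul hD
  have i1 : IntervalIntegrable (fun u => L ^ 2 * (ψ (u / L) * kap k b u ^ 2)) volume 0 (lam * L) :=
    (continuous_const.mul (hψ.mul (hκ.pow 2))).intervalIntegrable _ _
  have i2 : IntervalIntegrable (fun u => ψ (u / L) * ‖Dk k N b t u‖ ^ 2) volume 0 (lam * L) :=
    (hψ.mul (hD.norm.pow 2)).intervalIntegrable _ _
  have i3 : IntervalIntegrable (fun u =>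
      2 * L * (((ψ (u / L) * kap k b u : ℝ) : ℂ) * Dk k N b t u).re) volume 0 (lam * L) :=
    (continuous_const.mul (Complex.continuous_re.comp hg)).intervalIntegrable _ _
  simp_rw [hpt]
  rw [intervalIntegral.integral_sub (i1.add i2) i3, intervalIntegral.integral_add i1 i2,
    intervalIntegral.integral_const_mul, intervalIntegral.integral_const_mul, int_re hg]
  unfold Mn Fl
  ring

lemma Fl_cont (h : Ker k A) (w : Wt ψ ψ' lam B) (N : ℕ) : Continuous (Fl k N b ψ L lam) := by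
  have hψ := w.contL L
  have hD := Dk_cont2 h N b
  unfold Fl
  refine (Continuous.sub ?_ continuous_const).sub (continuous_const.mul
    (Complex.continuous_re.comp ?_))
  · apply intervalIntegral.continuous_parametric_intervalIntegral_of_continuous'
    exact (hψ.comp continuous_snd).mul (hD.norm.pow 2)
  · apply intervalIntegral.continuous_parametric_intervalIntegral_of_continuous'
    exact (Complex.continuous_ofReal.comp ((hψ.mul (kap_cont h)).comp continuous_snd)).mul hD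

theorem flucW (μ2 : ℝ) (h0 : 0 < μ2) (h2 : μ2 < 1 / 2) :
    ∃ K T0 : ℝ, 0 < K ∧ 10 ≤ T0 ∧ ∀ (k : ℝ → ℝ) (A : ℝ), Ker k A → ∀ (ψ ψ' : ℝ → ℝ) (lam B : ℝ),
      Wt ψ ψ' lam B → ∀ T : ℝ, T0 ≤ T → ∀ b : ℝ, 1 ≤ b → b ≤ Real.log T →
      ∫ t in T..(2 * T), Fl k ⌊T ^ μ2⌋₊ b ψ (Real.log T) lam t ^ 2 ≤
        K * (B * A ^ 2) ^ 2 * (T * (Real.log T ^ 3 / b)) := by
  obtain ⟨T1, hT1, hsm⟩ := small_off μ2 h0 h2
  obtain ⟨Cq, hCq, hvq⟩ := var_quadW
  obtain ⟨Cl, hCl, hvl⟩ := var_linW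
  have hev : ∀ᶠ T : ℝ in atTop, 2 ≤ Real.log T :=
    Real.tendsto_log_atTop.eventually_ge_atTop _
  obtain ⟨T2, hT2⟩ := hev.exists_forall_of_atTop
  refine ⟨2 * (4 * (Cq + 1)) + 8 * (4 * (Cl + 1)), max T1 T2, by positivity,
    hT1.trans (le_max_left _ _), fun k A hk ψ ψ' lam B w T hT b hb1 hbL => ?_⟩
  have hT10 : 10 ≤ T := hT1.trans ((le_max_left _ _).trans hT)
  have hTpos : 0 < T := by linarith
  have hL2 : 2 ≤ Real.log T := hT2 T ((le_max_right _ _).trans hT)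
  set L := Real.log T with hL
  set N := ⌊T ^ μ2⌋₊ with hN
  have hTμ : 1 ≤ T ^ μ2 := Real.one_le_rpow (by linarith) h0.le
  have hN1 : 1 ≤ N := Nat.le_floor (by exact_mod_cast hTμ)
  have hN0 : (0 : ℝ) < N := by exact_mod_cast hN1
  have hNle : (N : ℝ) ≤ T ^ μ2 := Nat.floor_le (by positivity)
  have hlogT : Real.log (T ^ μ2) = μ2 * L := Real.log_rpow hTpos _
  have hN3 : Real.log N ≤ μ2 * L := by
    rw [← hlogT]
    exact Real.log_le_log hN0 hNle
  have hlN0 : 0 ≤ Real.log N := Real.log_natCast_nonneg N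
  have hlL : Real.log N + 1 ≤ L := by nlinarith
  have hlNL : Real.log N ≤ L := by linarith
  have hb : 0 < b := by linarith
  have hL0 : 0 < L := by linarith
  have hX : 0 ≤ lam * L := by have := w.l0; positivity
  have hB0 := w.B0
  have hA := hk.A0
  have hT2' : T ≤ 2 * T := by linarith
  set V := L ^ 3 / b with hV
  have hV0 : 0 < V := by positivity
  have hVL2 : L ^ 2 ≤ V := by
    rw [hV, le_div_iff₀ hb]
    calc L ^ 2 * b ≤ L ^ 2 * L := by gcongr
      _ = L ^ 3 := by ring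
  have hV1 : 1 ≤ V := by nlinarith
  have hoff : (N : ℝ) ^ 4 / b ^ 2 * Real.exp (-(T ^ 2 * (1 / (N : ℝ) ^ 2) ^ 2) / 2) ≤ 1 := by
    have h3 := hsm T ((le_max_left _ _).trans hT) N hN1 hNle
    have h4 : (1 : ℝ) ≤ b ^ 2 := by nlinarith
    calc (N : ℝ) ^ 4 / b ^ 2 * Real.exp (-(T ^ 2 * (1 / (N : ℝ) ^ 2) ^ 2) / 2) =
        (N : ℝ) ^ 4 * Real.exp (-(T ^ 2 * (1 / (N : ℝ) ^ 2) ^ 2) / 2) / b ^ 2 := by ring
      _ ≤ 1 / b ^ 2 := by gcongr
      _ ≤ 1 := by rw [div_le_one (by positivity)]; exact h4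
  have hq : ∫ t in T..(2 * T), ((∫ u in (0 : ℝ)..(lam * L), ψ (u / L) * ‖Dk k N b t u‖ ^ 2) -
      diagW k N b (fun u => ψ (u / L)) 0 (lam * L)) ^ 2 ≤
        (B * A ^ 2) ^ 2 * (4 * (Cq + 1) * (T * V)) := by
    refine (hvq k A hk N b 0 (lam * L) T B (fun u => ψ (u / L)) hb hX hN1 hTpos (w.contL L) hB0
      (fun u hu0 hu1 => w.bdL hL0 hu0 hu1)).trans ?_
    apply mul_le_mul_of_nonneg_left _ (sq_nonneg _)
    have h3 : Cq * (Real.log N + 1) ^ 3 / b ≤ Cq * V := by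
      rw [hV, mul_div_assoc]
      gcongr
    calc 4 * T * (Cq * (Real.log N + 1) ^ 3 / b + (N : ℝ) ^ 4 / b ^ 2 *
        Real.exp (-(T ^ 2 * (1 / (N : ℝ) ^ 2) ^ 2) / 2)) ≤ 4 * T * (Cq * V + V) := by
          gcongr
          exact hoff.trans hV1
      _ = _ := by ring
  have hl : L ^ 2 * ∫ t in T..(2 * T),
      ‖∫ u in (0 : ℝ)..(lam * L), ((ψ (u / L) * kap k b u : ℝ) : ℂ) * Dk k N b t u‖ ^ 2 ≤
        (B * A ^ 2) ^ 2 * (4 * (Cl + 1) * (T * V)) := by
    have h3 := hvl k A hk N b 0 (lam * L) T B (fun u => ψ (u / L)) hb hX hN1 hTpos (w.contL L) hB0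
      (fun u hu0 hu1 => w.bdL hL0 hu0 hu1)
    have h4 : L ^ 2 * (Cl * Real.log N / b) ≤ Cl * V := by
      rw [hV]
      calc L ^ 2 * (Cl * Real.log N / b) ≤ L ^ 2 * (Cl * L / b) := by
            apply mul_le_mul_of_nonneg_left _ (by positivity)
            apply div_le_div_of_nonneg_right _ hb.le
            exact mul_le_mul_of_nonneg_left hlNL hCl.le
        _ = Cl * (L ^ 3 / b) := by ring
    calc L ^ 2 * _ ≤ L ^ 2 * ((B * A ^ 2) ^ 2 * (4 * T * (Cl * Real.log N / b +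
          (N : ℝ) ^ 4 / b ^ 2 * Real.exp (-(T ^ 2 * (1 / (N : ℝ) ^ 2) ^ 2) / 2)))) := by
            apply mul_le_mul_of_nonneg_left h3 (by positivity)
      _ ≤ L ^ 2 * ((B * A ^ 2) ^ 2 * (4 * T * (Cl * Real.log N / b + 1))) := by gcongr
      _ = (B * A ^ 2) ^ 2 * (4 * T * (L ^ 2 * (Cl * Real.log N / b) + L ^ 2)) := by ring
      _ ≤ (B * A ^ 2) ^ 2 * (4 * T * (Cl * V + V)) := by gcongr
      _ = _ := by ring
  set X1 : ℝ → ℝ := fun t => (∫ u in (0 : ℝ)..(lam * L), ψ (u / L) * ‖Dk k N b t u‖ ^ 2) -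
      diagW k N b (fun u => ψ (u / L)) 0 (lam * L) with hX1
  set X2 : ℝ → ℂ := fun t => ∫ u in (0 : ℝ)..(lam * L),
      ((ψ (u / L) * kap k b u : ℝ) : ℂ) * Dk k N b t u with hX2
  have c1 : Continuous X1 := by
    refine Continuous.sub ?_ continuous_const
    apply intervalIntegral.continuous_parametric_intervalIntegral_of_continuous'
    exact ((w.contL L).comp continuous_snd).mul ((Dk_cont2 hk N b).norm.pow 2)
  have c2 : Continuous X2 := by
    apply intervalIntegral.continuous_parametric_intervalIntegral_of_continuous'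
    exact (Complex.continuous_ofReal.comp (((w.contL L).mul (kap_cont hk)).comp
      continuous_snd)).mul (Dk_cont2 hk N b)
  have hpt : ∀ t, Fl k N b ψ L lam t ^ 2 ≤ 2 * X1 t ^ 2 + 8 * (L ^ 2 * ‖X2 t‖ ^ 2) := by
    intro t
    have e : Fl k N b ψ L lam t = X1 t - 2 * L * (X2 t).re := rfl
    have h5 : (X2 t).re ^ 2 ≤ ‖X2 t‖ ^ 2 := by
      rw [← sq_abs]
      have := Complex.abs_re_le_norm (X2 t)
      gcongr
    rw [e]
    have h6 : (L * (X2 t).re) ^ 2 ≤ L ^ 2 * ‖X2 t‖ ^ 2 := by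
      rw [mul_pow]
      gcongr
    nlinarith [sq_nonneg (X1 t + 2 * L * (X2 t).re)]
  have i1 : IntervalIntegrable (fun t => 2 * X1 t ^ 2) volume T (2 * T) :=
    (continuous_const.mul (c1.pow 2)).intervalIntegrable _ _
  have i2 : IntervalIntegrable (fun t => 8 * (L ^ 2 * ‖X2 t‖ ^ 2)) volume T (2 * T) :=
    (continuous_const.mul (continuous_const.mul (c2.norm.pow 2))).intervalIntegrable _ _
  calc ∫ t in T..(2 * T), Fl k N b ψ L lam t ^ 2 ≤
      ∫ t in T..(2 * T), (2 * X1 t ^ 2 + 8 * (L ^ 2 * ‖X2 t‖ ^ 2)) := by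
        refine intervalIntegral.integral_mono_on hT2'
          (((Fl_cont hk w N).pow 2).intervalIntegrable _ _) (i1.add i2) fun t _ => hpt t
    _ = 2 * (∫ t in T..(2 * T), X1 t ^ 2) + 8 * (L ^ 2 * ∫ t in T..(2 * T), ‖X2 t‖ ^ 2) := by
        rw [intervalIntegral.integral_add i1 i2, intervalIntegral.integral_const_mul,
          intervalIntegral.integral_const_mul, intervalIntegral.integral_const_mul]
    _ ≤ 2 * ((B * A ^ 2) ^ 2 * (4 * (Cq + 1) * (T * V))) +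
        8 * ((B * A ^ 2) ^ 2 * (4 * (Cl + 1) * (T * V))) := by
        gcongr
    _ = _ := by ring

/-- the fluctuations in mean -/
theorem fluc1 (μ2 : ℝ) (h0 : 0 < μ2) (h2 : μ2 < 1 / 2) :
    ∃ K T0 : ℝ, 0 < K ∧ 10 ≤ T0 ∧ ∀ (k : ℝ → ℝ) (A : ℝ), Ker k A → ∀ (ψ ψ' : ℝ → ℝ) (lam B : ℝ),
      Wt ψ ψ' lam B → ∀ T : ℝ, T0 ≤ T → ∀ b σ : ℝ, 1 ≤ b → b ≤ Real.log T → 0 < σ →
      ∫ t in T..(2 * T), |Fl k ⌊T ^ μ2⌋₊ b ψ (Real.log T) lam t| ≤
        T * (Real.log T ^ 2 / b) * (σ + K * (B * A ^ 2) ^ 2 * (b / Real.log T) / σ) := by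
  obtain ⟨K, T0, hK, hT0, h⟩ := flucW μ2 h0 h2
  refine ⟨K, T0, hK, hT0, fun k A hk ψ ψ' lam B w T hT b σ hb1 hbL hσ => ?_⟩
  have h3 := h k A hk ψ ψ' lam B w T hT b hb1 hbL
  have hT10 : 10 ≤ T := hT0.trans hT
  have hb : 0 < b := by linarith
  have hL0 : 0 < Real.log T := by linarith
  set L := Real.log T with hL
  set N := ⌊T ^ μ2⌋₊ with hN
  set s := σ * (L ^ 2 / b) with hs
  have hs0 : 0 < s := by positivity
  have hc := Fl_cont (b := b) (L := L) hk w N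
  have hpt : ∀ t, |Fl k N b ψ L lam t| ≤ s + 1 / s * Fl k N b ψ L lam t ^ 2 := by
    intro t
    have h4 : 0 ≤ (|Fl k N b ψ L lam t| - s) ^ 2 / s := by positivity
    have h5 : (|Fl k N b ψ L lam t| - s) ^ 2 / s =
        1 / s * Fl k N b ψ L lam t ^ 2 - 2 * |Fl k N b ψ L lam t| + s := by
      rw [← sq_abs (Fl k N b ψ L lam t)]
      field_simp
      ring
    have := abs_nonneg (Fl k N b ψ L lam t)
    linarith
  have i1 : IntervalIntegrable (fun _ : ℝ => s) volume T (2 * T) :=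
    continuous_const.intervalIntegrable _ _
  have i2 : IntervalIntegrable (fun t => 1 / s * Fl k N b ψ L lam t ^ 2) volume T (2 * T) :=
    (continuous_const.mul (hc.pow 2)).intervalIntegrable _ _
  calc ∫ t in T..(2 * T), |Fl k N b ψ L lam t| ≤
      ∫ t in T..(2 * T), (s + 1 / s * Fl k N b ψ L lam t ^ 2) := by
        refine intervalIntegral.integral_mono_on (by linarith) (hc.abs.intervalIntegrable _ _)
          (i1.add i2) fun t _ => hpt t
    _ = (2 * T - T) * s + 1 / s * ∫ t in T..(2 * T), Fl k N b ψ L lam t ^ 2 := by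
        have e1 : ∫ _ in T..(2 * T), s = (2 * T - T) * s := by
          rw [intervalIntegral.integral_const, smul_eq_mul]
        have e2 : ∫ t in T..(2 * T), 1 / s * Fl k N b ψ L lam t ^ 2 =
            1 / s * ∫ t in T..(2 * T), Fl k N b ψ L lam t ^ 2 :=
          intervalIntegral.integral_const_mul _ _
        rw [intervalIntegral.integral_add i1 i2, e1, e2]
    _ ≤ (2 * T - T) * s + 1 / s * (K * (B * A ^ 2) ^ 2 * (T * (L ^ 3 / b))) := by gcongr
    _ = _ := by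
        rw [hs]
        field_simp
        ring

end Pool.Agent.Helper92.FM
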