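import Pool.Graph.R_seed8.TH800.MS.Kb
import Pool.Graph.R_seed8.TH800.MS.Dg

set_option autoImplicit false

/-! Kernels of compact support and their Gaussian smoothing. -/

open Complex Filter Topology Set MeasureTheory

namespace Pool.Agent.Helper92.FM

open Pool.Agent.TH800.MS

/-- an even Lipschitz function supported in `[-1, 1]` -/
structure Ker (k : ℝ → ℝ) (A : ℝ) : Prop where
  A1 : 1 ≤ A
  even : ∀ y, k (-y) = k y
  lip : ∀ x y, |k x - k y| ≤ A * |x - y|
  supp : ∀ y, 1 ≤ |y| → k y = 0

variable {k : ℝ → ℝ} {A b : ℝ}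

lemma Ker.A0 (h : Ker k A) : 0 < A := by linarith [h.A1]

lemma Ker.cont (h : Ker k A) : Continuous k := by
  have hl : LipschitzWith (Real.toNNReal A) k := by
    apply LipschitzWith.of_dist_le_mul
    intro x y
    rw [Real.dist_eq, Real.dist_eq, Real.coe_toNNReal _ h.A0.le]
    exact h.lip x y
  exact hl.continuous

lemma Ker.bd (h : Ker k A) (y : ℝ) : |k y| ≤ A * max 0 (1 - |y|) := by
  rcases le_or_gt 1 |y| with h1 | h1
  · rw [h.supp y h1, abs_zero]
    have := le_max_left 0 (1 - |y|)
    have := h.A0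
    positivity
  · rw [max_eq_right (by linarith)]
    rcases le_total 0 y with h2 | h2
    · have h3 := h.lip y 1
      rw [h.supp 1 (by simp), sub_zero, abs_sub_comm] at h3
      rw [abs_of_nonneg h2]
      rwa [abs_of_nonneg (by rw [abs_of_nonneg h2] at h1; linarith : 0 ≤ 1 - y)] at h3
    · have h3 := h.lip y (-1)
      rw [h.supp (-1) (by simp), sub_zero] at h3
      rw [abs_of_nonpos h2] at h1 ⊢
      rw [abs_of_nonneg (by linarith : 0 ≤ y - -1)] at h3
      linarith

lemma Ker.le (h : Ker k A) (y : ℝ) : |k y| ≤ A := by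
  have h1 := h.bd y
  have h2 : max 0 (1 - |y|) ≤ 1 := max_le zero_le_one (by linarith [abs_nonneg y])
  have h3 := h.A0
  nlinarith

/-- rescaled kernel -/
noncomputable def kk (k : ℝ → ℝ) (b y : ℝ) : ℝ := 1 / b * k (y / b)

/-- its Gaussian smoothing -/
noncomputable def kap (k : ℝ → ℝ) (b z : ℝ) : ℝ := ∫ y in (-b)..b, kk k b y * gau0 (y - z)

/-- the square of the norm of the kernel -/
noncomputable def nk (k : ℝ → ℝ) : ℝ := ∫ y in (-1 : ℝ)..1, k y ^ 2

lemma kk_abs (h : Ker k A) (hb : 0 < b) (y : ℝ) : |kk k b y| ≤ A * kb b y := by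
  unfold kk kb
  rw [abs_mul, abs_of_pos (by positivity : 0 < 1 / b)]
  have h1 := h.bd (y / b)
  rw [abs_div, abs_of_pos hb] at h1
  calc 1 / b * |k (y / b)| ≤ 1 / b * (A * max 0 (1 - |y| / b)) := by gcongr
    _ = _ := by ring

lemma kk_even (h : Ker k A) (y : ℝ) : kk k b (-y) = kk k b y := by
  unfold kk
  rw [neg_div, h.even]

lemma kk_cont (h : Ker k A) : Continuous (kk k b) := by
  unfold kk
  exact continuous_const.mul (h.cont.comp (by fun_prop))

lemma kk_zero (h : Ker k A) (hb : 0 < b) {y : ℝ} (hy : b ≤ |y|) : kk k b y = 0 := by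
  unfold kk
  rw [h.supp, mul_zero]
  rw [abs_div, abs_of_pos hb, le_div_iff₀ hb]
  linarith

lemma kk_lip (h : Ker k A) (hb : 0 < b) (x y : ℝ) :
    |kk k b x - kk k b y| ≤ A / b ^ 2 * |x - y| := by
  unfold kk
  rw [← mul_sub, abs_mul, abs_of_pos (by positivity : 0 < 1 / b)]
  have h1 := h.lip (x / b) (y / b)
  rw [← sub_div, abs_div, abs_of_pos hb] at h1
  calc 1 / b * |k (x / b) - k (y / b)| ≤ 1 / b * (A * (|x - y| / b)) := by gcongr
    _ = _ := by field_simp

lemma kk_int_full (h : Ker k A) (hb : 0 < b) (g : ℝ → ℝ) :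
    ∫ y, kk k b y * g y = ∫ y in (-b)..b, kk k b y * g y := by
  rw [intervalIntegral.integral_of_le (by linarith)]
  symm
  apply setIntegral_eq_integral_of_forall_compl_eq_zero
  intro y hy
  rw [kk_zero h hb, zero_mul]
  by_contra hcon
  rw [not_le, abs_lt] at hcon
  exact hy ⟨hcon.1, hcon.2.le⟩

lemma kap_eq (h : Ker k A) (hb : 0 < b) (z : ℝ) :
    kap k b z = ∫ y, kk k b y * gau0 (y - z) := by
  unfold kap
  rw [kk_int_full h hb]

lemma kk_integrand (h : Ker k A) (hb : 0 < b) (z : ℝ) :
    Integrable (fun y => kk k b y * gau0 (y - z)) := by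
  refine ((kb_integrable hb).const_mul A).mono' ?_ (Eventually.of_forall fun y => ?_)
  · exact ((kk_cont h).mul (gau0_cont.comp (by fun_prop))).aestronglyMeasurable
  · rw [norm_mul, Real.norm_eq_abs, Real.norm_of_nonneg (gau0_pos _).le]
    calc |kk k b y| * gau0 (y - z) ≤ (A * kb b y) * 1 := by
          apply mul_le_mul (kk_abs h hb y) (gau0_le_one _) (gau0_pos _).le
          exact mul_nonneg h.A0.le (kb_nonneg hb y)
      _ = _ := mul_one _

lemma kap_abs (h : Ker k A) (hb : 0 < b) (z : ℝ) : |kap k b z| ≤ A * be b z := by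
  rw [kap_eq h hb, be_eq hb, ← integral_const_mul, ← Real.norm_eq_abs]
  refine norm_integral_le_of_norm_le ((be_integrand hb z).const_mul A)
    (Eventually.of_forall fun y => ?_)
  rw [norm_mul, Real.norm_eq_abs, Real.norm_of_nonneg (gau0_pos _).le, ← mul_assoc]
  exact mul_le_mul_of_nonneg_right (kk_abs h hb y) (gau0_pos _).le

lemma kap_even (h : Ker k A) (hb : 0 < b) (z : ℝ) : kap k b (-z) = kap k b z := by
  rw [kap_eq h hb, kap_eq h hb, ← integral_neg_eq_self]
  congr 1
  funext y
  rw [kk_even h, ← gau0_even (y - z)]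
  congr 2
  ring

lemma kap_eq' (h : Ker k A) (hb : 0 < b) (z : ℝ) :
    kap k b z = ∫ w, kk k b (z - w) * gau0 w := by
  rw [kap_eq h hb]
  have h1 := integral_sub_left_eq_self (fun w => kk k b (z - w) * gau0 w) volume z
  rw [← h1]
  congr 1
  funext w
  rw [sub_sub_cancel, ← gau0_even (z - w), neg_sub]

lemma kap_cont (h : Ker k A) : Continuous (kap k b) := by
  have : kap k b = fun z => ∫ y in (-b)..b, kk k b y * gau0 (y - z) := rfl
  rw [this]
  apply intervalIntegral.continuous_parametric_intervalIntegral_of_continuous'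
  show Continuous (Function.uncurry fun z y : ℝ => kk k b y * gau0 (y - z))
  unfold Function.uncurry
  exact ((kk_cont h).comp continuous_snd).mul (gau0_cont.comp (by fun_prop))

lemma kap_close (h : Ker k A) (hb : 0 < b) (z : ℝ) : |kap k b z - kk k b z| ≤ A / b ^ 2 := by
  have hA := h.A0
  have h1 : kap k b z - kk k b z = ∫ w, (kk k b (z - w) - kk k b z) * gau0 w := by
    have hi : Integrable (fun w => kk k b (z - w) * gau0 w) := by
      refine (gau0_integrable.const_mul (A * (1 / b))).mono' ?_ (Eventually.of_forall fun w => ?_)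
      · exact (((kk_cont h).comp (by fun_prop)).mul gau0_cont).aestronglyMeasurable
      · rw [norm_mul, Real.norm_eq_abs, Real.norm_of_nonneg (gau0_pos _).le]
        apply mul_le_mul_of_nonneg_right _ (gau0_pos _).le
        refine (kk_abs h hb _).trans ?_
        have := kb_le hb (z - w)
        gcongr
    have h2 : ∀ w, (kk k b (z - w) - kk k b z) * gau0 w =
        kk k b (z - w) * gau0 w - kk k b z * gau0 w := fun w => by ring
    simp_rw [h2]
    rw [integral_sub hi (gau0_integrable.const_mul _), integral_const_mul, gau0_int, mul_one,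
      ← kap_eq' h hb]
  rw [h1, ← Real.norm_eq_abs]
  calc ‖∫ w, (kk k b (z - w) - kk k b z) * gau0 w‖ ≤ ∫ w, A / b ^ 2 * (|w| * gau0 w) := by
        refine norm_integral_le_of_norm_le (gau0_abs_integrable.const_mul _)
          (Eventually.of_forall fun w => ?_)
        rw [norm_mul, Real.norm_eq_abs, Real.norm_of_nonneg (gau0_pos w).le, ← mul_assoc]
        apply mul_le_mul_of_nonneg_right _ (gau0_pos w).le
        refine (kk_lip h hb _ _).trans (le_of_eq ?_)
        congr 1
        rw [sub_sub_cancel_left, abs_neg]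
    _ ≤ A / b ^ 2 * 1 := by
        rw [integral_const_mul]
        have := gau0_abs_int
        gcongr
    _ = _ := mul_one _

lemma kap_sq_diff (h : Ker k A) (hb : 0 < b) (z : ℝ) :
    |kap k b z ^ 2 - kk k b z ^ 2| ≤ A ^ 2 / b ^ 2 * (be b z + kb b z) := by
  have hA := h.A0
  have h1 : kap k b z ^ 2 - kk k b z ^ 2 = (kap k b z - kk k b z) * (kap k b z + kk k b z) := by
    ring
  have h2 := kap_close h hb z
  have h3 : |kap k b z + kk k b z| ≤ A * be b z + A * kb b z :=
    (abs_add_le _ _).trans (add_le_add (kap_abs h hb z) (kk_abs h hb z))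
  rw [h1, abs_mul]
  calc |kap k b z - kk k b z| * |kap k b z + kk k b z| ≤
      A / b ^ 2 * (A * be b z + A * kb b z) := by
        apply mul_le_mul h2 h3 (abs_nonneg _) (by positivity)
    _ = _ := by ring

lemma kap_comp (h : Ker k A) (v : ℝ) : Continuous fun u : ℝ => kap k b (v - u) :=
  (kap_cont h).comp (by fun_prop)

lemma kk_comp (h : Ker k A) (v : ℝ) : Continuous fun u : ℝ => kk k b (v - u) :=
  (kk_cont h).comp (by fun_prop)

lemma nk_nonneg (k : ℝ → ℝ) : 0 ≤ nk k :=
  intervalIntegral.integral_nonneg (by norm_num) fun u _ => sq_nonneg _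

lemma kk_sq_int_b (hb : 0 < b) : ∫ y in (-b)..b, kk k b y ^ 2 = nk k / b := by
  unfold kk nk
  have h1 := intervalIntegral.integral_comp_div (a := -b) (b := b) (fun y => k y ^ 2) hb.ne'
  rw [neg_div, div_self hb.ne', smul_eq_mul] at h1
  simp_rw [mul_pow]
  rw [intervalIntegral.integral_const_mul, h1]
  field_simp

lemma kk_sq_int (h : Ker k A) (hb : 0 < b) : ∫ y, kk k b y ^ 2 = nk k / b := by
  have h1 := kk_int_full h hb (kk k b)
  simp only [← sq] at h1
  rw [h1, kk_sq_int_b hb]

lemma kk_sq_integrable (h : Ker k A) (hb : 0 < b) : Integrable (fun z => kk k b z ^ 2) := by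
  refine ((kb_sq_integrable hb).const_mul (A ^ 2)).mono' ?_ (Eventually.of_forall fun z => ?_)
  · exact ((kk_cont h).pow 2).aestronglyMeasurable
  · rw [norm_pow, Real.norm_eq_abs, ← mul_pow]
    have := kk_abs h hb z
    gcongr

lemma kk_sq_half (h : Ker k A) (hb : 0 < b) : ∫ y in (0 : ℝ)..b, kk k b y ^ 2 = nk k / (2 * b) := by
  have h1 := kk_sq_int_b (k := k) hb
  rw [even_int (f := fun y => kk k b y ^ 2) ((kk_cont h).pow 2)
    (fun y => by simp only [kk_even h])] at h1
  have h2 : nk k / (2 * b) = nk k / b / 2 := by field_simp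
  rw [h2, ← h1]
  ring

end Pool.Agent.Helper92.FM
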