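import Pool.Agent.Helper92.FM.Ker
import Pool.Agent.Helper92.FM.Ze
import Pool.Agent.Helper92.FM.Sd
import Pool.Agent.Helper92.FM.Va
import Pool.Agent.Helper92.FM.Dg2
import Pool.Agent.Helper92.FM.Ng
import Pool.Agent.Helper92.FM.Fl
import Pool.Graph.R_seed8.TH800.MS.Lln

set_option autoImplicit false

/-! The law of large numbers for the local pair sums, unconditionally. -/

open Complex Filter Topology Set MeasureTheory
open scoped ComplexConjugate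

namespace Pool.Agent.Helper92.FM

open Pool.Agent.TH800.MS

variable {k : ℝ → ℝ} {A b : ℝ} {ψ ψ' : ℝ → ℝ} {lam B L : ℝ}

/-- facts on the length of the prime sums -/
lemma Nfacts (μ1 μ2 : ℝ) (h0 : 0 < μ1) (h12 : μ1 < μ2) (h2 : μ2 < 1) : ∃ T0 : ℝ, 10 ≤ T0 ∧
    ∀ T : ℝ, T0 ≤ T → 2 ≤ Real.log T ∧ 1 ≤ ⌊T ^ μ2⌋₊ ∧ ((⌊T ^ μ2⌋₊ : ℕ) : ℝ) ≤ T ^ μ2 ∧
      μ2 * Real.log T ≤ Real.log (((⌊T ^ μ2⌋₊ : ℕ) : ℝ) + 1) ∧
      μ1 * Real.log T ≤ Real.log ((⌊T ^ μ2⌋₊ : ℕ) : ℝ) ∧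
      Real.log ((⌊T ^ μ2⌋₊ : ℕ) : ℝ) + 1 ≤ Real.log T := by
  have hev : ∀ᶠ T : ℝ in atTop, max 2 (max (1 / (μ2 - μ1)) (1 / (1 - μ2))) ≤ Real.log T :=
    Real.tendsto_log_atTop.eventually_ge_atTop _
  obtain ⟨T2, hT2⟩ := hev.exists_forall_of_atTop
  refine ⟨max T2 10, le_max_right _ _, fun T hT => ?_⟩
  have hT10 : 10 ≤ T := (le_max_right _ _).trans hT
  have hTpos : 0 < T := by linarith
  have hL := hT2 T ((le_max_left _ _).trans hT)
  have hL2 : 2 ≤ Real.log T := (le_max_left _ _).trans hL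
  have hL3 : 1 / (μ2 - μ1) ≤ Real.log T := (le_max_left _ _).trans ((le_max_right _ _).trans hL)
  have hL4 : 1 / (1 - μ2) ≤ Real.log T := (le_max_right _ _).trans ((le_max_right _ _).trans hL)
  set N := ⌊T ^ μ2⌋₊ with hN
  have hμ2 : 0 < μ2 := h0.trans h12
  have hTμ : 1 ≤ T ^ μ2 := Real.one_le_rpow (by linarith) hμ2.le
  have hN1 : 1 ≤ N := Nat.le_floor (by exact_mod_cast hTμ)
  have hN0 : (0 : ℝ) < N := by exact_mod_cast hN1
  have hNle : (N : ℝ) ≤ T ^ μ2 := Nat.floor_le (by positivity)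
  have hNlt : T ^ μ2 < N + 1 := Nat.lt_floor_add_one _
  have hlogT : Real.log (T ^ μ2) = μ2 * Real.log T := Real.log_rpow hTpos _
  have hN2 : μ2 * Real.log T ≤ Real.log (N + 1) := by
    rw [← hlogT]
    exact Real.log_le_log (by positivity) hNlt.le
  have hN3 : Real.log N ≤ μ2 * Real.log T := by
    rw [← hlogT]
    exact Real.log_le_log hN0 hNle
  have hN4 : Real.log (N + 1) ≤ Real.log N + 1 := by
    have h3 : (N : ℝ) + 1 ≤ 2 * N := by
      have : (1 : ℝ) ≤ N := by exact_mod_cast hN1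
      linarith
    have h4 := Real.log_le_log (by positivity) h3
    rw [Real.log_mul (by norm_num) hN0.ne'] at h4
    have := Real.log_two_lt_d9
    linarith
  refine ⟨hL2, hN1, hNle, hN2, ?_, ?_⟩
  · have h5 : 0 < μ2 - μ1 := by linarith
    rw [div_le_iff₀ h5] at hL3
    nlinarith
  · have h5 : 0 < 1 - μ2 := by linarith
    rw [div_le_iff₀ h5] at hL4
    nlinarith

lemma wt_one (h0 : 0 < lam) (h1 : lam ≤ 1) : Wt (fun _ => (1 : ℝ)) (fun _ => 0) lam 1 :=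
  ⟨h0, h1, fun α => hasDerivAt_const α 1, continuous_const, fun α _ _ => by simp⟩

lemma Yk_cont2 (h : Ker k A) (N : ℕ) (L b : ℝ) :
    Continuous fun x : ℝ × ℝ => Yk k N L b x.1 x.2 := by
  unfold Yk
  exact (Complex.continuous_ofReal.comp (continuous_const.mul
    ((kap_cont h).comp continuous_snd))).sub (Dk_cont2 h N b)

/-- the pointwise error -/
lemma err_pt (C0 : ℝ) (hC0 : 0 < C0) (μ1 μ2 : ℝ) (h0 : 0 < μ1) (h12 : μ1 < μ2) (h1 : μ1 ≤ 1) :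
    ∃ C : ℝ, 0 < C ∧ ∀ (k : ℝ → ℝ) (A : ℝ), Ker k A → ∀ T U1 U2 : ℝ, EFP C0 T U1 U2 → ∀ t : ℝ,
      T + Real.log T ≤ t → t ≤ 2 * T - Real.log T → ∀ N : ℕ,
      μ2 * Real.log T ≤ Real.log (N + 1) → ∀ b u : ℝ, 0 < b → |u| + b ≤ μ1 * Real.log T →
      ‖fS k U1 U2 b t u - Yk k N (Real.log T) b t u‖ ^ 2 ≤
        C * A ^ 2 + 2 * ‖Dk k N b t (-u)‖ ^ 2 := by
  obtain ⟨C, hC, h⟩ := fSform C0 hC0 μ1 μ2 h0 h12 h1
  refine ⟨2 * C ^ 2, by positivity, fun k A hk T U1 U2 hE t ht1 ht2 N hN b u hb hu => ?_⟩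
  have h3 := h k A hk T U1 U2 hE t ht1 ht2 N hN b u hb hu
  have hA := hk.A0
  have e : fS k U1 U2 b t u - Yk k N (Real.log T) b t u =
      (fS k U1 U2 b t u - (((Real.log T * kap k b u : ℝ) : ℂ) - Dk k N b t u -
        conj (Dk k N b t (-u)))) - conj (Dk k N b t (-u)) := by
    unfold Yk
    ring
  have h4 : ‖fS k U1 U2 b t u - Yk k N (Real.log T) b t u‖ ≤ C * A + ‖Dk k N b t (-u)‖ := by
    rw [e]
    refine (norm_sub_le _ _).trans ?_
    rw [RCLike.norm_conj]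
    linarith
  have h5 := norm_nonneg (Dk k N b t (-u))
  calc ‖fS k U1 U2 b t u - Yk k N (Real.log T) b t u‖ ^ 2 ≤
      (C * A + ‖Dk k N b t (-u)‖) ^ 2 := by gcongr
    _ ≤ _ := by nlinarith [sq_nonneg (C * A - ‖Dk k N b t (-u)‖)]

attribute [local irreducible] fS Yk Dk kap kk

/-- the error, integrated over the frequency -/
lemma err_u (h : Ker k A) (w : Wt ψ ψ' lam B) {U1 U2 t η C : ℝ} {N : ℕ} (hη : 0 < η)
    (hX : 0 ≤ lam * L) (hL : 0 < L)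
    (he : ∀ u, 0 ≤ u → u ≤ lam * L →
      ‖fS k U1 U2 b t u - Yk k N L b t u‖ ^ 2 ≤ C * A ^ 2 + 2 * ‖Dk k N b t (-u)‖ ^ 2) :
    |(∫ u in (0 : ℝ)..(lam * L), ψ (u / L) * ‖fS k U1 U2 b t u‖ ^ 2) -
      ∫ u in (0 : ℝ)..(lam * L), ψ (u / L) * ‖Yk k N L b t u‖ ^ 2| ≤
      B * (η * (∫ u in (0 : ℝ)..(lam * L), ‖Yk k N L b t u‖ ^ 2) +
        (1 + 1 / η) * (lam * L * (C * A ^ 2) +
          2 * ∫ u in (0 : ℝ)..(lam * L), ‖Dk k N b t (-u)‖ ^ 2)) := by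
  have hψ := w.contL L
  have hB0 := w.B0
  have cf : Continuous fun u => fS k U1 U2 b t u :=
    (fS_cont2 h U1 U2 b).comp (by fun_prop : Continuous fun u : ℝ => ((t, u) : ℝ × ℝ))
  have cY : Continuous fun u => Yk k N L b t u :=
    (Yk_cont2 h N L b).comp (by fun_prop : Continuous fun u : ℝ => ((t, u) : ℝ × ℝ))
  have cD : Continuous fun u => Dk k N b t (-u) := (Dk_cont h N t).comp continuous_neg
  have i1 : IntervalIntegrable (fun u => ψ (u / L) * ‖fS k U1 U2 b t u‖ ^ 2) volume 0 (lam * L) :=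
    (hψ.mul (cf.norm.pow 2)).intervalIntegrable _ _
  have i2 : IntervalIntegrable (fun u => ψ (u / L) * ‖Yk k N L b t u‖ ^ 2) volume 0 (lam * L) :=
    (hψ.mul (cY.norm.pow 2)).intervalIntegrable _ _
  have i3 : IntervalIntegrable (fun u => ‖Yk k N L b t u‖ ^ 2) volume 0 (lam * L) :=
    (cY.norm.pow 2).intervalIntegrable _ _
  have i4 : IntervalIntegrable (fun u => ‖Dk k N b t (-u)‖ ^ 2) volume 0 (lam * L) :=
    (cD.norm.pow 2).intervalIntegrable _ _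
  have i5 : IntervalIntegrable (fun _ : ℝ => C * A ^ 2) volume 0 (lam * L) :=
    continuous_const.intervalIntegrable _ _
  rw [← intervalIntegral.integral_sub i1 i2, ← Real.norm_eq_abs]
  calc ‖∫ u in (0 : ℝ)..(lam * L), (ψ (u / L) * ‖fS k U1 U2 b t u‖ ^ 2 -
        ψ (u / L) * ‖Yk k N L b t u‖ ^ 2)‖ ≤
      ∫ u in (0 : ℝ)..(lam * L), B * (η * ‖Yk k N L b t u‖ ^ 2 +
        (1 + 1 / η) * (C * A ^ 2 + 2 * ‖Dk k N b t (-u)‖ ^ 2)) := by
        apply intervalIntegral.norm_integral_le_of_norm_le hX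
        · refine Eventually.of_forall fun u hu => ?_
          rw [← mul_sub, norm_mul, Real.norm_eq_abs, Real.norm_eq_abs]
          apply mul_le_mul (w.bdL hL hu.1.le hu.2) _ (abs_nonneg _) hB0
          refine (sq_diff_le _ _ hη).trans ?_
          have := he u hu.1.le hu.2
          gcongr
        · exact ((i3.const_mul η).add ((i5.add (i4.const_mul 2)).const_mul _)).const_mul _
    _ = _ := by
        have e5 : ∫ _ in (0 : ℝ)..(lam * L), C * A ^ 2 = lam * L * (C * A ^ 2) := by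
          rw [intervalIntegral.integral_const, smul_eq_mul, sub_zero]
        have e6 : ∫ u in (0 : ℝ)..(lam * L), η * ‖Yk k N L b t u‖ ^ 2 =
            η * ∫ u in (0 : ℝ)..(lam * L), ‖Yk k N L b t u‖ ^ 2 :=
          intervalIntegral.integral_const_mul _ _
        have e7 : ∫ u in (0 : ℝ)..(lam * L), 2 * ‖Dk k N b t (-u)‖ ^ 2 =
            2 * ∫ u in (0 : ℝ)..(lam * L), ‖Dk k N b t (-u)‖ ^ 2 :=
          intervalIntegral.integral_const_mul _ _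
        have e8 : ∫ u in (0 : ℝ)..(lam * L), (1 + 1 / η) * (C * A ^ 2 +
            2 * ‖Dk k N b t (-u)‖ ^ 2) =
            (1 + 1 / η) * ∫ u in (0 : ℝ)..(lam * L), (C * A ^ 2 + 2 * ‖Dk k N b t (-u)‖ ^ 2) :=
          intervalIntegral.integral_const_mul _ _
        rw [intervalIntegral.integral_const_mul, intervalIntegral.integral_add (i3.const_mul η)
          ((i5.add (i4.const_mul 2)).const_mul _), e6, e8,
          intervalIntegral.integral_add i5 (i4.const_mul 2), e5, e7]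

/-- the negative frequencies, in mean -/
lemma neg_mean (μ2 : ℝ) (h0 : 0 < μ2) (h2 : μ2 < 1) :
    ∃ C T0 : ℝ, 0 < C ∧ 10 ≤ T0 ∧ ∀ (k : ℝ → ℝ) (A : ℝ), Ker k A → ∀ T : ℝ, T0 ≤ T →
      ∀ b X : ℝ, 1 ≤ b → 2 * b ≤ Real.log ((⌊T ^ μ2⌋₊ : ℕ) : ℝ) → 0 ≤ X →
      ∫ t in T..(2 * T), ∫ u in (0 : ℝ)..X, ‖Dk k ⌊T ^ μ2⌋₊ b t (-u)‖ ^ 2 ≤
        C * A ^ 2 * T * X := by
  obtain ⟨C, hC, h⟩ := negD
  obtain ⟨T1, hT1, hs⟩ := small_off1 μ2 h0 h2
  refine ⟨C, T1, hC, hT1, fun k A hk T hT b X hb1 hbN hX => ?_⟩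
  have hT10 : 10 ≤ T := hT1.trans hT
  have hTpos : 0 < T := by linarith
  have hTμ : 1 ≤ T ^ μ2 := Real.one_le_rpow (by linarith) h0.le
  have hN1 : 1 ≤ ⌊T ^ μ2⌋₊ := Nat.le_floor (by exact_mod_cast hTμ)
  have hNle : ((⌊T ^ μ2⌋₊ : ℕ) : ℝ) ≤ T ^ μ2 := Nat.floor_le (by positivity)
  have hc : Continuous (Function.uncurry fun t u : ℝ => ‖Dk k ⌊T ^ μ2⌋₊ b t (-u)‖ ^ 2) :=
    ((Dk_cont2 hk _ b).comp (by fun_prop : Continuous fun x : ℝ × ℝ => (x.1, -x.2))).norm.pow 2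
  have hc' : Continuous (Function.uncurry fun u t : ℝ => ‖Dk k ⌊T ^ μ2⌋₊ b t (-u)‖ ^ 2) :=
    hc.comp continuous_swap
  rw [swapI (by linarith) hX hc]
  calc ∫ u in (0 : ℝ)..X, ∫ t in T..(2 * T), ‖Dk k ⌊T ^ μ2⌋₊ b t (-u)‖ ^ 2 ≤
      ∫ u in (0 : ℝ)..X, C * A ^ 2 * T := by
        refine intervalIntegral.integral_mono_on hX
          ((intervalIntegral.continuous_parametric_intervalIntegral_of_continuous'
            hc' T (2 * T)).intervalIntegrable _ _)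
          (continuous_const.intervalIntegrable _ _) fun u hu => ?_
        exact h k A hk _ b u T hb1 hbN hN1 hu.1 hTpos (hs T hT _ hN1 hNle)
    _ = _ := by
        rw [intervalIntegral.integral_const, smul_eq_mul]
        ring

end Pool.Agent.Helper92.FM
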