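import Pool.Agent.Helper92.FM.Ker
import Pool.Agent.Helper92.FM.Sd
import Pool.Agent.Helper92.FM.Va
import Pool.Agent.Helper92.FM.Dg2
import Pool.Agent.Helper92.FM.Dg3
import Pool.Agent.Helper92.FM.Ng
import Pool.Agent.Helper92.FM.Fl
import Pool.Agent.Helper92.FM.Lo

set_option autoImplicit false

/-! The law of large numbers for the local pair sums, unconditionally: main theorem. -/

open Complex Filter Topology Set MeasureTheory
open scoped ComplexConjugate

namespace Pool.Agent.Helper92.FM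

open Pool.Agent.TH800.MS

variable {k : ℝ → ℝ} {A b : ℝ} {ψ ψ' : ℝ → ℝ} {lam B L : ℝ}

/-- the local pair sum of bandwidth `lam` -/
noncomputable def Qs (k : ℝ → ℝ) (ψ : ℝ → ℝ) (U1 U2 b L lam t : ℝ) : ℝ :=
  ∫ u in (0 : ℝ)..(lam * L), ψ (u / L) * ‖fS k U1 U2 b t u‖ ^ 2

/-- the energy of the prime model -/
noncomputable def Ey (k : ℝ → ℝ) (N : ℕ) (b L lam t : ℝ) : ℝ :=
  ∫ u in (0 : ℝ)..(lam * L), ‖Yk k N L b t u‖ ^ 2

/-- the energy of the negative frequencies -/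
noncomputable def En (k : ℝ → ℝ) (N : ℕ) (b L lam t : ℝ) : ℝ :=
  ∫ u in (0 : ℝ)..(lam * L), ‖Dk k N b t (-u)‖ ^ 2

lemma Qs_cont (h : Ker k A) (w : Wt ψ ψ' lam B) (U1 U2 b L : ℝ) :
    Continuous (Qs k ψ U1 U2 b L lam) := by
  unfold Qs
  apply intervalIntegral.continuous_parametric_intervalIntegral_of_continuous'
  exact ((w.contL L).comp continuous_snd).mul ((fS_cont2 h U1 U2 b).norm.pow 2)

lemma Ey_cont (h : Ker k A) (N : ℕ) (b L lam : ℝ) : Continuous (Ey k N b L lam) := by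
  unfold Ey
  apply intervalIntegral.continuous_parametric_intervalIntegral_of_continuous'
  exact (Yk_cont2 h N L b).norm.pow 2

lemma En_cont (h : Ker k A) (N : ℕ) (b L lam : ℝ) : Continuous (En k N b L lam) := by
  unfold En
  apply intervalIntegral.continuous_parametric_intervalIntegral_of_continuous'
  exact ((Dk_cont2 h N b).comp (by fun_prop : Continuous fun x : ℝ × ℝ => (x.1, -x.2))).norm.pow 2

lemma Ey_nonneg (hX : 0 ≤ lam * L) (N : ℕ) (t : ℝ) : 0 ≤ Ey k N b L lam t :=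
  intervalIntegral.integral_nonneg hX fun u _ => sq_nonneg _

lemma En_nonneg (hX : 0 ≤ lam * L) (N : ℕ) (t : ℝ) : 0 ≤ En k N b L lam t :=
  intervalIntegral.integral_nonneg hX fun u _ => sq_nonneg _

lemma Ey_eq (h : Ker k A) (h0 : 0 < lam) (h1 : lam ≤ 1) (N : ℕ) (t : ℝ) :
    Ey k N b L lam t = Mn k N b (fun _ => 1) L lam + Fl k N b (fun _ => 1) L lam t := by
  have h2 := Yk_int (b := b) (L := L) h (wt_one h0 h1) N t
  rw [← h2]
  unfold Ey
  refine intervalIntegral.integral_congr fun u _ => ?_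
  ring

attribute [local irreducible] fS Yk Dk kap kk Fl Mn Qs Ey En

lemma restrict_le {f : ℝ → ℝ} (hf : Continuous f) (h0 : ∀ t, 0 ≤ f t) {T l : ℝ} (hl : 0 ≤ l)
    (hT : 2 * l ≤ T) :
    ∫ t in (T + l)..(2 * T - l), f t ≤ ∫ t in T..(2 * T), f t :=
  intervalIntegral.integral_mono_interval (by linarith) (by linarith) (by linarith)
    (Eventually.of_forall fun t => h0 t) (hf.intervalIntegrable _ _)

/-- the mean of the energy of the prime model (short prime sums) -/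
lemma Ey_mean (μ1 μ2 : ℝ) (h0 : 0 < μ1) (h12 : μ1 < μ2) (h2 : μ2 < 1 / 2) :
    ∃ K T0 : ℝ, 0 < K ∧ 10 ≤ T0 ∧ ∀ (k : ℝ → ℝ) (A : ℝ), Ker k A → ∀ lam : ℝ, 0 < lam →
      ∀ T : ℝ, T0 ≤ T → ∀ b : ℝ, 1 ≤ b → b ≤ lam * Real.log T →
      lam * Real.log T + b ≤ μ1 * Real.log T →
      ∫ t in T..(2 * T), Ey k ⌊T ^ μ2⌋₊ b (Real.log T) lam t ≤
        K * A ^ 4 * (T * (Real.log T ^ 2 / b)) := by
  obtain ⟨K1, T1, hK1, hT1, hf⟩ := fluc1 μ2 (h0.trans h12) h2
  obtain ⟨T2, hT2, hN⟩ := Nfacts μ1 μ2 h0 h12 (by linarith)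
  obtain ⟨C, hC, hm⟩ := mainW
  refine ⟨2 + 2 * C + 1 + K1, max T1 T2, by positivity, hT1.trans (le_max_left _ _),
    fun k A hk lam hl0 T hT b hb1 hbX hXb => ?_⟩
  have hT10 : 10 ≤ T := hT1.trans ((le_max_left _ _).trans hT)
  have hTpos : 0 < T := by linarith
  obtain ⟨hL2, hN1, hNle, hN2, hN3, hN4⟩ := hN T ((le_max_right _ _).trans hT)
  set L := Real.log T with hL
  set N := ⌊T ^ μ2⌋₊ with hNdef
  have hL0 : 0 < L := by linarith
  have hb : 0 < b := by linarith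
  have hA := hk.A0
  have hA1 := hk.A1
  have hlam1 : lam ≤ 1 := by
    have : lam * L ≤ μ1 * L := by linarith
    have h3 : lam ≤ μ1 := le_of_mul_le_mul_right this hL0
    linarith
  have hbL : b ≤ L := hbX.trans (by nlinarith)
  have w := wt_one hl0 hlam1
  have h3 := hf k A hk _ _ lam 1 w T ((le_max_left _ _).trans hT) b 1 hb1 hbL one_pos
  have h4 := hm k A hk N b L lam 1 _ _ w hb1 (by linarith) hbX hN1 (by linarith) hN4
  have hx1 : b / L ≤ 1 := by rw [div_le_one hL0]; exact hbL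
  have hx0 : 0 ≤ b / L := by positivity
  have hP : 0 < L ^ 2 / b := by positivity
  have hLP : L ≤ L ^ 2 / b := by
    rw [le_div_iff₀ hb, sq]
    gcongr
  have hLP2 : L ^ 2 / b ^ 2 ≤ L ^ 2 / b := by
    apply div_le_div_of_nonneg_left (by positivity) hb
    nlinarith
  have hA24 : A ^ 2 ≤ A ^ 4 := pow_le_pow_right₀ hA1 (by norm_num)
  have hA14 : 1 ≤ A ^ 4 := one_le_pow₀ hA1
  have hint : ∫ α in (0 : ℝ)..lam, α * (1 : ℝ) = lam ^ 2 / 2 := by
    simp only [mul_one]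
    rw [integral_id]
    ring
  have hM : Mn k N b (fun _ => 1) L lam ≤ (2 + 2 * C) * A ^ 4 * (L ^ 2 / b) := by
    have h5 := (abs_le.1 h4).2
    have h6 : nk k / b * (L ^ 2 * ((1 : ℝ) / 2 + ∫ α in (0 : ℝ)..lam, α * (1 : ℝ))) ≤
        2 * A ^ 4 * (L ^ 2 / b) := by
      rw [hint]
      have h7 := nk_le hk
      have h8 := nk_nonneg k
      have h9 : (1 : ℝ) / 2 + lam ^ 2 / 2 ≤ 1 := by nlinarith
      calc nk k / b * (L ^ 2 * ((1 : ℝ) / 2 + lam ^ 2 / 2)) ≤
          (2 * A ^ 2) / b * (L ^ 2 * 1) := by gcongr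
        _ = 2 * A ^ 2 * (L ^ 2 / b) := by ring
        _ ≤ _ := by gcongr
    have h7 : C * (1 * A ^ 2) * (L + L ^ 2 / b ^ 2) ≤ C * (1 * A ^ 4) * (L ^ 2 / b + L ^ 2 / b) := by
      gcongr
    unfold Mn
    have h8 : L ^ 2 * (∫ u in (0 : ℝ)..(lam * L), (1 : ℝ) * kap k b u ^ 2) +
      diagW k N b (fun _ => 1) 0 (lam * L) ≤ 2 * A ^ 4 * (L ^ 2 / b) +
        C * (1 * A ^ 4) * (L ^ 2 / b + L ^ 2 / b) := by linarith
    refine h8.trans (le_of_eq ?_)
    ring
  have hF : ∫ t in T..(2 * T), |Fl k N b (fun _ => 1) L lam t| ≤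
      (1 + K1) * A ^ 4 * (T * (L ^ 2 / b)) := by
    refine h3.trans ?_
    have e1 : K1 * (1 * A ^ 2) ^ 2 * (b / L) / 1 ≤ K1 * A ^ 4 * 1 := by
      rw [div_one]
      have : K1 * (1 * A ^ 2) ^ 2 = K1 * A ^ 4 := by ring
      rw [this]
      gcongr
    calc T * (L ^ 2 / b) * (1 + K1 * (1 * A ^ 2) ^ 2 * (b / L) / 1) ≤
        T * (L ^ 2 / b) * (A ^ 4 + K1 * A ^ 4 * 1) := by gcongr
      _ = _ := by ring
  have hc := Fl_cont (b := b) (L := L) hk w N
  have i1 : IntervalIntegrable (fun _ : ℝ => Mn k N b (fun _ => 1) L lam) volume T (2 * T) :=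
    continuous_const.intervalIntegrable _ _
  have i2 : IntervalIntegrable (fun t => |Fl k N b (fun _ => 1) L lam t|) volume T (2 * T) :=
    hc.abs.intervalIntegrable _ _
  calc ∫ t in T..(2 * T), Ey k N b L lam t ≤
      ∫ t in T..(2 * T), (Mn k N b (fun _ => 1) L lam + |Fl k N b (fun _ => 1) L lam t|) := by
        refine intervalIntegral.integral_mono_on (by linarith)
          ((Ey_cont hk N b L lam).intervalIntegrable _ _) (i1.add i2) fun t _ => ?_
        rw [Ey_eq hk hl0 hlam1]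
        have := le_abs_self (Fl k N b (fun _ => 1) L lam t)
        linarith
    _ = (2 * T - T) * Mn k N b (fun _ => 1) L lam +
        ∫ t in T..(2 * T), |Fl k N b (fun _ => 1) L lam t| := by
        rw [intervalIntegral.integral_add i1 i2, intervalIntegral.integral_const, smul_eq_mul]
    _ ≤ (2 * T - T) * ((2 + 2 * C) * A ^ 4 * (L ^ 2 / b)) +
        (1 + K1) * A ^ 4 * (T * (L ^ 2 / b)) := by
        have : 0 ≤ 2 * T - T := by linarith
        gcongr
    _ = _ := by ring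

end Pool.Agent.Helper92.FM
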