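import Pool.Agent.Helper92.FM.Ker
import Pool.Agent.Helper92.FM.Ze
import Pool.Agent.Helper92.FM.Sd
import Pool.Agent.Helper92.FM.Ng
import Pool.Agent.Helper92.FM.Lo
import Pool.Agent.Helper92.FM.Lo2

set_option autoImplicit false

/-! The linear statistic, in mean. -/

open Complex Filter Topology Set MeasureTheory
open scoped BigOperators ComplexConjugate

namespace Pool.Agent.Helper92.FM

open H370 (Zf good_zeta mult zz zz_re zz_im mem_Zf zset)
open Pool.Agent.TH800.MS

attribute [local irreducible] fS Dk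

theorem lin_mean (C0 : ℝ) (hC0 : 0 < C0) : ∃ K : ℝ, 0 < K ∧ ∀ (k : ℝ → ℝ) (A : ℝ), Ker k A →
    ∀ β : ℝ, 0 < β → β ≤ 1 / 8 → ∃ T0 : ℝ, 10 ≤ T0 ∧ ∀ T : ℝ, T0 ≤ T → ∀ U1 U2 : ℝ,
      EFP C0 T U1 U2 →
      ∫ t in (T + Real.log T)..(2 * T - Real.log T),
        |(fS k U1 U2 (β * Real.log T) t 0).re - k 0 / β| ≤ K * A ^ 2 * T := by
  obtain ⟨C1, hC1, hform⟩ := fSform C0 hC0 (1 / 4) (1 / 2) (by norm_num) (by norm_num) (by norm_num)
  obtain ⟨C2, hC2, hneg⟩ := negD
  obtain ⟨T1, hT1, hfacts⟩ := Nfacts (1 / 4) (1 / 2) (by norm_num) (by norm_num) (by norm_num)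
  obtain ⟨T2, hT2, hsm⟩ := small_off1 (1 / 2) (by norm_num) (by norm_num)
  refine ⟨C1 + 2 + C2, by positivity, fun k A hk β hβ hβ1 => ?_⟩
  have hA := hk.A0
  have hA1 := hk.A1
  have hev : ∀ᶠ T : ℝ in atTop, max (1 / β) (1 / β ^ 2) ≤ Real.log T :=
    Real.tendsto_log_atTop.eventually_ge_atTop _
  obtain ⟨T3, hT3⟩ := hev.exists_forall_of_atTop
  have hev2 : ∀ᶠ T : ℝ in atTop, 2 * Real.log T ≤ T := by
    have := Real.isLittleO_log_id_atTop.bound (c := 1 / 2) (by norm_num)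
    filter_upwards [this, eventually_ge_atTop (1 : ℝ)] with T h1 h2
    simp only [id, Real.norm_eq_abs] at h1
    rw [abs_of_nonneg (Real.log_nonneg h2), abs_of_nonneg (by linarith)] at h1
    linarith
  obtain ⟨T4, hT4⟩ := hev2.exists_forall_of_atTop
  refine ⟨max (max T1 T2) (max T3 T4), hT1.trans ((le_max_left _ _).trans (le_max_left _ _)),
    fun T hT U1 U2 hE => ?_⟩
  have hTT1 : T1 ≤ T := ((le_max_left _ _).trans (le_max_left _ _)).trans hT
  have hTT2 : T2 ≤ T := ((le_max_right _ _).trans (le_max_left _ _)).trans hT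
  have hTT3 := hT3 T (((le_max_left _ _).trans (le_max_right _ _)).trans hT)
  have hTT4 := hT4 T (((le_max_right _ _).trans (le_max_right _ _)).trans hT)
  have hT10 : 10 ≤ T := hT1.trans hTT1
  have hTpos : 0 < T := by linarith
  obtain ⟨f1, f2, f3, f4, f5, f6⟩ := hfacts T hTT1
  set L := Real.log T with hL
  set N := ⌊T ^ (1 / 2 : ℝ)⌋₊ with hN
  have hL0 : 0 < L := by linarith
  have hb1 : 1 ≤ β * L := by
    have := (le_max_left _ _).trans hTT3
    rw [div_le_iff₀ hβ] at this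
    linarith
  have hb0 : 0 < β * L := by linarith
  have hβL : 1 / β ^ 2 ≤ L := (le_max_right _ _).trans hTT3
  have hkap : |L * kap k (β * L) 0 - k 0 / β| ≤ A := by
    have h1 := kap_close hk hb0 0
    have h2 : kk k (β * L) 0 = k 0 / (β * L) := by
      unfold kk
      rw [zero_div]
      ring
    rw [h2] at h1
    have h3 : L * kap k (β * L) 0 - k 0 / β = L * (kap k (β * L) 0 - k 0 / (β * L)) := by
      field_simp
    rw [h3, abs_mul, abs_of_pos hL0]
    calc L * |kap k (β * L) 0 - k 0 / (β * L)| ≤ L * (A / (β * L) ^ 2) := by gcongr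
      _ = A * (1 / β ^ 2) / L := by field_simp
      _ ≤ A * L / L := by gcongr
      _ = A := by field_simp
  have hpt : ∀ t ∈ Set.Icc (T + L) (2 * T - L),
      |(fS k U1 U2 (β * L) t 0).re - k 0 / β| ≤ (C1 + 1) * A + 1 + ‖Dk k N (β * L) t (-0)‖ ^ 2 := by
    intro t ht
    have h1 := hform k A hk T U1 U2 hE t ht.1 ht.2 N f4 (β * L) 0 hb0 (by
      rw [abs_zero, zero_add]
      gcongr
      linarith)
    set D := Dk k N (β * L) t (-0) with hD
    have hD' : Dk k N (β * L) t 0 = D := by rw [hD, neg_zero]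
    rw [hD'] at h1
    have h2 : (fS k U1 U2 (β * L) t 0).re - k 0 / β =
        (fS k U1 U2 (β * L) t 0 - (((L * kap k (β * L) 0 : ℝ) : ℂ) - D - conj D)).re +
          (L * kap k (β * L) 0 - k 0 / β) - 2 * D.re := by
      simp only [Complex.sub_re, Complex.ofReal_re, Complex.conj_re]
      ring
    have h3 := (Complex.abs_re_le_norm
      (fS k U1 U2 (β * L) t 0 - (((L * kap k (β * L) 0 : ℝ) : ℂ) - D - conj D))).trans h1
    have h4 := Complex.abs_re_le_norm D
    have h5 : 2 * ‖D‖ ≤ 1 + ‖D‖ ^ 2 := by nlinarith [sq_nonneg (‖D‖ - 1)]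
    rw [h2]
    have h6 := abs_le.1 h3
    have h7 := abs_le.1 hkap
    have h8 := abs_le.1 h4
    rw [abs_le]
    constructor <;> linarith [h6.1, h6.2, h7.1, h7.2, h8.1, h8.2]
  have hDc : Continuous fun t : ℝ => ‖Dk k N (β * L) t (-0)‖ ^ 2 :=
    ((Dk_cont2 hk N (β * L)).comp (by fun_prop : Continuous fun t : ℝ =>
      ((t, -0) : ℝ × ℝ))).norm.pow 2
  have hfc : Continuous fun t : ℝ => |(fS k U1 U2 (β * L) t 0).re - k 0 / β| := by
    have h1 : Continuous fun t : ℝ => fS k U1 U2 (β * L) t 0 :=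
      (fS_cont2 hk U1 U2 (β * L)).comp (by fun_prop : Continuous fun t : ℝ => ((t, 0) : ℝ × ℝ))
    exact ((Complex.continuous_re.comp h1).sub continuous_const).abs
  have hle : T + L ≤ 2 * T - L := by linarith
  calc ∫ t in (T + L)..(2 * T - L), |(fS k U1 U2 (β * L) t 0).re - k 0 / β| ≤
      ∫ t in (T + L)..(2 * T - L), ((C1 + 1) * A + 1 + ‖Dk k N (β * L) t (-0)‖ ^ 2) :=
        intervalIntegral.integral_mono_on hle (hfc.intervalIntegrable _ _)
          ((continuous_const.add hDc).intervalIntegrable _ _) hpt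
    _ ≤ ∫ t in T..(2 * T), ((C1 + 1) * A + 1 + ‖Dk k N (β * L) t (-0)‖ ^ 2) :=
        restrict_le (continuous_const.add hDc) (fun t => by
          show 0 ≤ (C1 + 1) * A + 1 + ‖Dk k N (β * L) t (-0)‖ ^ 2
          positivity) hL0.le (by linarith)
    _ = ((C1 + 1) * A + 1) * T + ∫ t in T..(2 * T), ‖Dk k N (β * L) t (-0)‖ ^ 2 := by
        rw [intervalIntegral.integral_add (continuous_const.intervalIntegrable _ _)
          (hDc.intervalIntegrable _ _), intervalIntegral.integral_const, smul_eq_mul]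
        ring
    _ ≤ ((C1 + 1) * A + 1) * T + C2 * A ^ 2 * T := by
        have := hneg k A hk N (β * L) 0 T hb1 (by nlinarith) f2 le_rfl hTpos (hsm T hTT2 N f2 f3)
        linarith
    _ ≤ (C1 + 2 + C2) * A ^ 2 * T := by
        have h1 : A ≤ A ^ 2 := by nlinarith
        have h2 : (C1 + 1) * A ≤ (C1 + 1) * A ^ 2 := by gcongr
        have h3 : 1 ≤ A ^ 2 := by nlinarith
        have h4 : ((C1 + 1) * A + 1 + C2 * A ^ 2) * T ≤ ((C1 + 2 + C2) * A ^ 2) * T := by
          apply mul_le_mul_of_nonneg_right _ hTpos.le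
          linarith
        linarith

end Pool.Agent.Helper92.FM
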