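import Pool.Agent.Helper92.FM.Lo3
import Pool.Agent.Helper92.FM.Dn

set_option autoImplicit false

/-! The local law for all zeros in `(T, 2T]`. -/

open Complex Filter Topology Set MeasureTheory
open scoped BigOperators ComplexConjugate

namespace Pool.Agent.Helper92.FM

open H370 (Zf good_zeta mult zz zz_re zz_im zz_spec zz_refl mem_Zf zset zset_refl zz_inj mult_refl)

variable {k : ℝ → ℝ} {A b : ℝ}

lemma Gk_exp (h : Ker k A) (w : ℂ) : ‖Gk k w‖ ≤ 2 * A * Real.exp |w.im| := by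
  unfold Gk
  have h1 : ∀ y ∈ Set.uIoc (-1 : ℝ) 1, ‖(k y : ℂ) * cexp (I * y * w)‖ ≤ A * Real.exp |w.im| := by
    intro y hy
    rw [Set.uIoc_of_le (by norm_num)] at hy
    rw [norm_mul, Complex.norm_real, Real.norm_eq_abs, Complex.norm_exp]
    have e : (I * y * w).re = -(y * w.im) := by simp
    rw [e]
    apply mul_le_mul (h.le y) _ (Real.exp_pos _).le h.A0.le
    apply Real.exp_le_exp.2
    have h2 : |y| ≤ 1 := abs_le.2 ⟨by linarith [hy.1], hy.2⟩
    calc -(y * w.im) ≤ |y * w.im| := neg_le_abs _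
      _ = |y| * |w.im| := abs_mul _ _
      _ ≤ 1 * |w.im| := by gcongr
      _ = |w.im| := one_mul _
  refine (intervalIntegral.norm_integral_le_of_norm_le_const h1).trans (le_of_eq ?_)
  norm_num
  ring

/-- the terms of the local sum -/
lemma term_bd (h : Ker k A) {L : ℝ} (hb0 : 0 ≤ b) (hb : b ≤ L) {s : ℂ} (h1 : 0 < s.re)
    (h2 : s.re < 1) {t u : ℝ} (hu0 : 0 ≤ u) (hu : u ≤ L) :
    ‖cexp (-(zz s - t) ^ 2 / 2) * Gk k (b * (zz s - t)) * cexp (I * u * (zz s - t))‖ ≤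
      4 * A * Real.exp (L - (s.im - t) ^ 2 / 2) := by
  have hA := h.A0
  have hL0 : 0 ≤ L := hb0.trans hb
  have hy : |(zz s).im| ≤ 1 / 2 := by
    rw [zz_im, abs_le]
    constructor <;> linarith
  set y := (zz s).im with hyd
  have hre : (zz s - t).re = s.im - t := by rw [Complex.sub_re, zz_re]; simp
  have him : (zz s - t).im = y := by rw [Complex.sub_im]; simp [hyd]
  have e1 : ‖cexp (-(zz s - t) ^ 2 / 2)‖ = Real.exp (-((s.im - t) ^ 2 - y ^ 2) / 2) := by
    rw [Complex.norm_exp]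
    congr 1
    have : (-(zz s - t) ^ 2 / 2).re = -((zz s - t).re ^ 2 - (zz s - t).im ^ 2) / 2 := by
      have h3 : -(zz s - t) ^ 2 / 2 = (((-1 / 2 : ℝ)) : ℂ) * (zz s - t) ^ 2 := by
        push_cast; ring
      rw [h3, Complex.re_ofReal_mul, sq, Complex.mul_re]
      ring
    rw [this, hre, him]
  have e2 : ‖Gk k (b * (zz s - t))‖ ≤ 2 * A * Real.exp (L / 2) := by
    refine (Gk_exp h _).trans ?_
    have h3 : ((b : ℂ) * (zz s - t)).im = b * y := by
      rw [Complex.im_ofReal_mul, him]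
    rw [h3, abs_mul, abs_of_nonneg hb0]
    have h4 : b * |y| ≤ L / 2 := by
      calc b * |y| ≤ L * (1 / 2) := by gcongr
        _ = L / 2 := by ring
    have h5 := Real.exp_le_exp.2 h4
    gcongr
  have e3 : ‖cexp (I * u * (zz s - t))‖ ≤ Real.exp (L / 2) := by
    rw [Complex.norm_exp]
    apply Real.exp_le_exp.2
    have h3 : (I * u * (zz s - t)).re = -(u * y) := by
      have : I * u * (zz s - t) = (u : ℂ) * (I * (zz s - t)) := by ring
      rw [this, Complex.re_ofReal_mul, Complex.I_mul_re, him]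
      ring
    rw [h3]
    have h4 := abs_le.1 hy
    nlinarith
  have e4 : Real.exp (-((s.im - t) ^ 2 - y ^ 2) / 2) ≤ 2 * Real.exp (-(s.im - t) ^ 2 / 2) := by
    have h3 : -((s.im - t) ^ 2 - y ^ 2) / 2 = y ^ 2 / 2 + -(s.im - t) ^ 2 / 2 := by ring
    rw [h3, Real.exp_add]
    apply mul_le_mul_of_nonneg_right _ (Real.exp_pos _).le
    have h4 : y ^ 2 / 2 ≤ 1 / 8 := by
      have := sq_le_sq' (by linarith [abs_le.1 hy] : -(1 / 2) ≤ y) (abs_le.1 hy).2
      linarith
    have h5 : Real.exp (y ^ 2 / 2) ≤ Real.exp (1 / 8) := Real.exp_le_exp.2 h4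
    have h6 : Real.exp (1 / 8) ≤ 2 := by
      have h7 : Real.exp (1 / 8) ≤ Real.exp (Real.log 2) := by
        apply Real.exp_le_exp.2
        have := Real.log_two_gt_d9
        linarith
      rwa [Real.exp_log (by norm_num)] at h7
    linarith
  rw [norm_mul, norm_mul, e1]
  calc Real.exp (-((s.im - t) ^ 2 - y ^ 2) / 2) * ‖Gk k (b * (zz s - t))‖ *
        ‖cexp (I * u * (zz s - t))‖ ≤
      (2 * Real.exp (-(s.im - t) ^ 2 / 2)) * (2 * A * Real.exp (L / 2)) * Real.exp (L / 2) := by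
        gcongr
    _ = 4 * A * (Real.exp (-(s.im - t) ^ 2 / 2) * (Real.exp (L / 2) * Real.exp (L / 2))) := by ring
    _ = 4 * A * Real.exp (L - (s.im - t) ^ 2 / 2) := by
        rw [← Real.exp_add, ← Real.exp_add]
        congr 2
        ring

/-- the sums over `(T, 2T]` and over `(U1, U2]` -/
lemma fS_diff (h : Ker k A) {C0 T U1 U2 : ℝ} (hE : EFP C0 T U1 U2) {t u : ℝ}
    (ht1 : T + Real.log T ≤ t) (ht2 : t ≤ 2 * T - Real.log T) (hb0 : 0 ≤ b)
    (hb : b ≤ Real.log T) (hu0 : 0 ≤ u) (hu : u ≤ Real.log T) (hL : 1 ≤ Real.log T) :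
    ‖fS k T (2 * T) b t u‖ ≤
      (∑ s ∈ Zf riemannZeta T (2 * T), (mult riemannZeta s : ℝ)) * (4 * A * Real.exp (Real.log T)) ∧
    ‖fS k U1 U2 b t u‖ ≤
      (∑ s ∈ Zf riemannZeta T (2 * T), (mult riemannZeta s : ℝ)) * (4 * A * Real.exp (Real.log T)) ∧
    ‖fS k T (2 * T) b t u - fS k U1 U2 b t u‖ ≤
      (∑ s ∈ Zf riemannZeta T (2 * T), (mult riemannZeta s : ℝ)) *
        (4 * A * Real.exp (Real.log T - (Real.log T - 1) ^ 2 / 2)) := by
  classical
  have hA := h.A0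
  have hT := hE.hT
  have hU1 : 1 ≤ U1 := by linarith [hE.a1]
  have hT1 : 1 ≤ T := by linarith
  set L := Real.log T with hLd
  have hsub : Zf riemannZeta U1 U2 ⊆ Zf riemannZeta T (2 * T) := by
    intro s hs
    rw [mem_Zf good_zeta hU1] at hs
    rw [mem_Zf good_zeta hT1]
    obtain ⟨a1, a2, a3, a4, a5⟩ := hs
    exact ⟨a1, a2, by linarith [hE.a1], by linarith [hE.a4], a5⟩
  have hterm : ∀ s ∈ Zf riemannZeta T (2 * T), ∀ X : ℝ, 4 * A * Real.exp (L - (s.im - t) ^ 2 / 2) ≤ X →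
      ‖(mult riemannZeta s : ℂ) * cexp (-(zz s - t) ^ 2 / 2) *
        Gk k (b * (zz s - t)) * cexp (I * u * (zz s - t))‖ ≤ (mult riemannZeta s : ℝ) * X := by
    intro s hs X hX
    rw [mem_Zf good_zeta hT1] at hs
    have h1 := (term_bd h hb0 hb hs.1 hs.2.1 (t := t) hu0 hu).trans hX
    have e : (mult riemannZeta s : ℂ) * cexp (-(zz s - t) ^ 2 / 2) *
        Gk k (b * (zz s - t)) * cexp (I * u * (zz s - t)) = (mult riemannZeta s : ℂ) *
        (cexp (-(zz s - t) ^ 2 / 2) * Gk k (b * (zz s - t)) * cexp (I * u * (zz s - t))) := by ring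
    rw [e, norm_mul, Complex.norm_natCast]
    gcongr
  have hX : ∀ s : ℂ, 4 * A * Real.exp (L - (s.im - t) ^ 2 / 2) ≤ 4 * A * Real.exp L := by
    intro s
    have : Real.exp (L - (s.im - t) ^ 2 / 2) ≤ Real.exp L := by
      apply Real.exp_le_exp.2
      have := sq_nonneg (s.im - t)
      linarith
    gcongr
  refine ⟨?_, ?_, ?_⟩
  · unfold fS
    refine (norm_sum_le _ _).trans ?_
    rw [Finset.sum_mul]
    exact Finset.sum_le_sum fun s hs => hterm s hs _ (hX s)
  · unfold fS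
    refine (norm_sum_le _ _).trans ?_
    rw [Finset.sum_mul]
    refine (Finset.sum_le_sum fun s hs => hterm s (hsub hs) _ (hX s)).trans ?_
    apply Finset.sum_le_sum_of_subset_of_nonneg hsub
    intro s _ _
    positivity
  · have e1 : fS k T (2 * T) b t u - fS k U1 U2 b t u =
        ∑ s ∈ Zf riemannZeta T (2 * T) \ Zf riemannZeta U1 U2,
          (mult riemannZeta s : ℂ) * cexp (-(zz s - t) ^ 2 / 2) *
            Gk k (b * (zz s - t)) * cexp (I * u * (zz s - t)) := by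
      unfold fS
      rw [← Finset.sum_sdiff hsub]
      ring
    rw [e1]
    refine (norm_sum_le _ _).trans ?_
    rw [Finset.sum_mul]
    have h2 : ∀ s ∈ Zf riemannZeta T (2 * T) \ Zf riemannZeta U1 U2,
        ‖(mult riemannZeta s : ℂ) * cexp (-(zz s - t) ^ 2 / 2) *
            Gk k (b * (zz s - t)) * cexp (I * u * (zz s - t))‖ ≤ (mult riemannZeta s : ℝ) *
          (4 * A * Real.exp (L - (L - 1) ^ 2 / 2)) := by
      intro s hs
      rw [Finset.mem_sdiff] at hs
      apply hterm s hs.1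
      have h3 := hs.1
      have h4 := hs.2
      rw [mem_Zf good_zeta hT1] at h3
      rw [mem_Zf good_zeta hU1] at h4
      obtain ⟨a1, a2, a3, a4, a5⟩ := h3
      have h5 : (L - 1) ^ 2 ≤ (s.im - t) ^ 2 := by
        rcases le_or_gt s.im U1 with h6 | h6
        · have h7 : L - 1 ≤ t - s.im := by linarith [hE.a2]
          have h8 : (L - 1) ^ 2 ≤ (t - s.im) ^ 2 := pow_le_pow_left₀ (by linarith) h7 2
          calc (L - 1) ^ 2 ≤ (t - s.im) ^ 2 := h8
            _ = (s.im - t) ^ 2 := by ring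
        · rcases le_or_gt s.im U2 with h9 | h9
          · exact absurd ⟨a1, a2, h6, h9, a5⟩ h4
          · have h7 : L - 1 ≤ s.im - t := by linarith [hE.a3]
            exact pow_le_pow_left₀ (by linarith) h7 2
      have h6 : Real.exp (L - (s.im - t) ^ 2 / 2) ≤ Real.exp (L - (L - 1) ^ 2 / 2) := by
        apply Real.exp_le_exp.2
        linarith
      gcongr
    refine (Finset.sum_le_sum h2).trans ?_
    apply Finset.sum_le_sum_of_subset_of_nonneg Finset.sdiff_subset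
    intro s _ _
    positivity

/-- the comparison of the squares -/
theorem sq_diff : ∃ T0 : ℝ, 10 ≤ T0 ∧ ∀ (C0 T : ℝ), T0 ≤ T → ∀ U1 U2 : ℝ, EFP C0 T U1 U2 →
    ∀ (k : ℝ → ℝ) (A : ℝ), Ker k A → ∀ b t u : ℝ, T + Real.log T ≤ t → t ≤ 2 * T - Real.log T →
      0 ≤ b → b ≤ Real.log T → 0 ≤ u → u ≤ Real.log T →
      |‖fS k T (2 * T) b t u‖ ^ 2 - ‖fS k U1 U2 b t u‖ ^ 2| ≤ A ^ 2 * Real.exp (-Real.log T) := by
  obtain ⟨C, hC, hcnt⟩ := count_TL
  have hev1 : ∀ᶠ L : ℝ in atTop, 4 * C * L ≤ Real.exp L := by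
    have h1 : Tendsto (fun L : ℝ => Real.exp L / L ^ 1) atTop atTop :=
      Real.tendsto_exp_div_pow_atTop 1
    filter_upwards [h1.eventually_ge_atTop (4 * C), eventually_gt_atTop (0 : ℝ)] with L h2 h3
    rw [pow_one, le_div_iff₀ h3] at h2
    exact h2
  have hev2 : ∀ᶠ L : ℝ in atTop, 20 ≤ L := eventually_ge_atTop _
  obtain ⟨T1, hT1⟩ := (Real.tendsto_log_atTop.eventually (hev1.and hev2)).exists_forall_of_atTop
  refine ⟨max 10 T1, le_max_left _ _, fun C0 T hT U1 U2 hE k A hk b t u ht1 ht2 hb0 hb hu0 hu => ?_⟩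
  have hT10 : 10 ≤ T := (le_max_left _ _).trans hT
  have hTpos : 0 < T := by linarith
  obtain ⟨h4, h5⟩ := hT1 T ((le_max_right _ _).trans hT)
  have hA := hk.A0
  obtain ⟨f1, f2, f3⟩ := fS_diff hk hE ht1 ht2 hb0 hb hu0 hu (by linarith)
  have hN := hcnt T hT10 T (2 * T) le_rfl le_rfl
  set Nn := ∑ s ∈ Zf riemannZeta T (2 * T), (mult riemannZeta s : ℝ) with hNn
  have hN0 : 0 ≤ Nn := Finset.sum_nonneg fun s _ => Nat.cast_nonneg _
  set L := Real.log T with hL
  have hTe : T = Real.exp L := (Real.exp_log hTpos).symm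
  have hN4 : 4 * Nn ≤ Real.exp (2 * L) := by
    calc 4 * Nn ≤ 4 * (C * (T * L)) := by linarith
      _ = T * (4 * C * L) := by ring
      _ ≤ T * Real.exp L := by gcongr
      _ = Real.exp L * Real.exp L := by rw [← hTe]
      _ = Real.exp (2 * L) := by rw [← Real.exp_add]; ring_nf
  have g1 : ∀ x : ℝ, Nn * (4 * A * Real.exp x) ≤ A * Real.exp (2 * L + x) := by
    intro x
    calc Nn * (4 * A * Real.exp x) = (4 * Nn) * (A * Real.exp x) := by ring
      _ ≤ Real.exp (2 * L) * (A * Real.exp x) := by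
          apply mul_le_mul_of_nonneg_right hN4
          positivity
      _ = A * Real.exp (2 * L + x) := by rw [Real.exp_add]; ring
  have f1' := f1.trans (g1 L)
  have f2' := f2.trans (g1 L)
  have f3' := f3.trans (g1 _)
  set x := ‖fS k T (2 * T) b t u‖ with hx
  set y := ‖fS k U1 U2 b t u‖ with hy
  have hx0 : 0 ≤ x := norm_nonneg _
  have hy0 : 0 ≤ y := norm_nonneg _
  have hxy : |x - y| ≤ A * Real.exp (2 * L + (L - (L - 1) ^ 2 / 2)) :=
    (abs_norm_sub_norm_le _ _).trans f3'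
  have e1 : x ^ 2 - y ^ 2 = (x - y) * (x + y) := by ring
  rw [e1, abs_mul, abs_of_nonneg (by linarith : 0 ≤ x + y)]
  have h6 : x + y ≤ 2 * (A * Real.exp (2 * L + L)) := by linarith
  calc |x - y| * (x + y) ≤ (A * Real.exp (2 * L + (L - (L - 1) ^ 2 / 2))) *
        (2 * (A * Real.exp (2 * L + L))) := by gcongr
    _ = A ^ 2 * (2 * Real.exp (6 * L - (L - 1) ^ 2 / 2)) := by
        have : Real.exp (6 * L - (L - 1) ^ 2 / 2) =
            Real.exp (2 * L + (L - (L - 1) ^ 2 / 2)) * Real.exp (2 * L + L) := by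
          rw [← Real.exp_add]
          ring_nf
        rw [this]
        ring
    _ ≤ A ^ 2 * Real.exp (-L) := by
        apply mul_le_mul_of_nonneg_left _ (by positivity)
        have h7 : (2 : ℝ) ≤ Real.exp 1 := by
          have := Real.add_one_le_exp (1 : ℝ)
          linarith
        calc 2 * Real.exp (6 * L - (L - 1) ^ 2 / 2) ≤
            Real.exp 1 * Real.exp (6 * L - (L - 1) ^ 2 / 2) := by gcongr
          _ = Real.exp (1 + (6 * L - (L - 1) ^ 2 / 2)) := by rw [Real.exp_add]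
          _ ≤ Real.exp (-L) := by
              apply Real.exp_le_exp.2
              nlinarith

lemma fS_cont (U1 U2 b t : ℝ) : Continuous (fS k U1 U2 b t) := by
  unfold fS
  fun_prop

/-- the comparison of the pair sums -/
theorem Qs_diff : ∃ T0 : ℝ, 10 ≤ T0 ∧ ∀ (C0 T : ℝ), T0 ≤ T → ∀ U1 U2 : ℝ, EFP C0 T U1 U2 →
    ∀ (k : ℝ → ℝ) (A : ℝ), Ker k A → ∀ (ψ ψ' : ℝ → ℝ) (lam B : ℝ), Wt ψ ψ' lam B →
    ∀ b t : ℝ, T + Real.log T ≤ t → t ≤ 2 * T - Real.log T →
      0 ≤ b → b ≤ Real.log T →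
      |Qs k ψ T (2 * T) b (Real.log T) lam t - Qs k ψ U1 U2 b (Real.log T) lam t| ≤
        B * A ^ 2 := by
  obtain ⟨T1, hT1, h1⟩ := sq_diff
  refine ⟨T1, hT1, fun C0 T hT U1 U2 hE k A hk ψ ψ' lam B w b t ht1 ht2 hb0 hb => ?_⟩
  have hT10 : 10 ≤ T := hT1.trans hT
  have hL0 : 0 < Real.log T := Real.log_pos (by linarith)
  set L := Real.log T with hL
  have hl0 := w.l0
  have hB0 := w.B0
  have hψc : Continuous fun u : ℝ => ψ (u / L) := w.cont.comp (continuous_id.div_const _)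
  have hc : ∀ U1 U2 : ℝ, Continuous fun u : ℝ => ψ (u / L) * ‖fS k U1 U2 b t u‖ ^ 2 := fun U1 U2 =>
    hψc.mul ((fS_cont U1 U2 b t).norm.pow 2)
  unfold Qs
  rw [← intervalIntegral.integral_sub ((hc _ _).intervalIntegrable _ _)
    ((hc _ _).intervalIntegrable _ _)]
  have hbd : ∀ u ∈ Set.uIoc (0 : ℝ) (lam * L), ‖ψ (u / L) * ‖fS k T (2 * T) b t u‖ ^ 2 -
      ψ (u / L) * ‖fS k U1 U2 b t u‖ ^ 2‖ ≤ B * (A ^ 2 * Real.exp (-L)) := by
    intro u hu
    rw [Set.uIoc_of_le (by positivity)] at hu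
    have hu1 : u / L ≤ lam := by
      rw [div_le_iff₀ hL0]
      exact hu.2
    have hu2 : u ≤ L := hu.2.trans (by have := w.l1; nlinarith)
    rw [← mul_sub, Real.norm_eq_abs, abs_mul]
    apply mul_le_mul (w.bd _ (div_nonneg hu.1.le hL0.le) hu1).1
      (h1 C0 T hT U1 U2 hE k A hk b t u ht1 ht2 hb0 hb hu.1.le hu2) (abs_nonneg _) hB0
  have h2 := intervalIntegral.norm_integral_le_of_norm_le_const hbd
  rw [Real.norm_eq_abs] at h2
  refine h2.trans ?_
  rw [sub_zero, abs_of_nonneg (by positivity)]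
  have h3 : lam * L ≤ Real.exp L := by
    have := Real.add_one_le_exp L
    have := w.l1
    nlinarith
  calc B * (A ^ 2 * Real.exp (-L)) * (lam * L) ≤ B * (A ^ 2 * Real.exp (-L)) * Real.exp L := by
        gcongr
    _ = B * A ^ 2 * (Real.exp (-L) * Real.exp L) := by ring
    _ = B * A ^ 2 := by rw [← Real.exp_add]; simp

end Pool.Agent.Helper92.FM
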