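import Pool.Agent.Helper92.FM.Ll

set_option autoImplicit false

/-! The local pair sum as a double sum over the zeros. -/

open Complex Filter Topology Set MeasureTheory
open scoped BigOperators ComplexConjugate

namespace Pool.Agent.Helper92.FM

open H370 (Zf good_zeta mult zz zz_re zz_im zz_spec zz_refl mem_Zf zset zset_refl zz_inj mult_refl)

variable {k : ℝ → ℝ} {A b : ℝ}

lemma Gk_conj (h : Ker k A) (w : ℂ) : conj (Gk k w) = Gk k (conj w) := by
  unfold Gk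
  rw [← intervalIntegral.intervalIntegral_conj]
  have h1 := intervalIntegral.integral_comp_neg (a := (-1 : ℝ)) (b := 1)
    (fun y : ℝ => (k y : ℂ) * cexp (I * y * conj w))
  rw [neg_neg] at h1
  rw [← h1]
  refine intervalIntegral.integral_congr fun y _ => ?_
  show conj ((k y : ℂ) * cexp (I * y * w)) = ((k (-y) : ℝ) : ℂ) * cexp (I * ((-y : ℝ) : ℂ) * conj w)
  rw [map_mul, Complex.conj_ofReal, ← Complex.exp_conj, h.even]
  congr 2
  rw [map_mul, map_mul, Complex.conj_I, Complex.conj_ofReal]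
  push_cast
  ring

/-- the weight of a zero -/
noncomputable def Wz (k : ℝ → ℝ) (b t : ℝ) (s : ℂ) : ℂ :=
  (mult riemannZeta s : ℂ) * (cexp (-(zz s - t) ^ 2 / 2) * Gk k (b * (zz s - t)))

lemma fS_Wz (U1 U2 t u : ℝ) : fS k U1 U2 b t u =
    ∑ s ∈ Zf riemannZeta U1 U2, Wz k b t s * cexp (I * u * (zz s - t)) := by
  unfold fS Wz
  refine Finset.sum_congr rfl fun s _ => ?_
  ring

lemma fS_conj' (h : Ker k A) {U1 U2 : ℝ} (hU : 1 ≤ U1) (t u : ℝ) :
    conj (fS k U1 U2 b t u) =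
      ∑ s ∈ Zf riemannZeta U1 U2, Wz k b t s * cexp (-(I * u * (zz s - t))) := by
  rw [fS_Wz, map_sum, ← H370.sum_refl good_zeta hU]
  refine Finset.sum_congr rfl fun s hs => ?_
  rw [H370.mem_Zf good_zeta hU] at hs
  unfold Wz
  rw [H370.mult_refl good_zeta hs.1 hs.2.1 (by linarith [hs.2.2.1]), H370.zz_refl]
  rw [map_mul, map_mul, map_mul, ← Complex.exp_conj, ← Complex.exp_conj, Complex.conj_natCast,
    Gk_conj h]
  have e1 : (starRingEnd ℂ) (-((starRingEnd ℂ) (zz s) - t) ^ 2 / 2) = -(zz s - t) ^ 2 / 2 := by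
    rw [map_div₀, map_neg, map_pow, map_sub, Complex.conj_conj, Complex.conj_ofReal,
      Complex.conj_ofNat]
  have e2 : (starRingEnd ℂ) ((b : ℂ) * ((starRingEnd ℂ) (zz s) - t)) = b * (zz s - t) := by
    rw [map_mul, map_sub, Complex.conj_conj, Complex.conj_ofReal, Complex.conj_ofReal]
  have e3 : (starRingEnd ℂ) (I * u * ((starRingEnd ℂ) (zz s) - t)) = -(I * u * (zz s - t)) := by
    rw [map_mul, map_mul, map_sub, Complex.conj_conj, Complex.conj_ofReal, Complex.conj_ofReal,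
      Complex.conj_I]
    ring
  rw [e1, e2, e3]

lemma fS_sq (h : Ker k A) {U1 U2 : ℝ} (hU : 1 ≤ U1) (t u : ℝ) :
    ((‖fS k U1 U2 b t u‖ ^ 2 : ℝ) : ℂ) =
      ∑ s ∈ Zf riemannZeta U1 U2, ∑ s' ∈ Zf riemannZeta U1 U2, Wz k b t s * Wz k b t s' *
        Complex.cos (u * (zz s - zz s')) := by
  have h1 : ((‖fS k U1 U2 b t u‖ ^ 2 : ℝ) : ℂ) =
      ∑ s ∈ Zf riemannZeta U1 U2, ∑ s' ∈ Zf riemannZeta U1 U2, Wz k b t s * Wz k b t s' *
        cexp (I * u * (zz s - zz s')) := by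
    rw [← Complex.normSq_eq_norm_sq, ← Complex.mul_conj, fS_conj' h hU, fS_Wz, Finset.sum_mul_sum]
    refine Finset.sum_congr rfl fun s _ => Finset.sum_congr rfl fun s' _ => ?_
    have : cexp (I * u * (zz s - zz s')) =
        cexp (I * u * (zz s - t)) * cexp (-(I * u * (zz s' - t))) := by
      rw [← Complex.exp_add]
      congr 1
      ring
    rw [this]
    ring
  have h2 : ((‖fS k U1 U2 b t u‖ ^ 2 : ℝ) : ℂ) =
      ∑ s ∈ Zf riemannZeta U1 U2, ∑ s' ∈ Zf riemannZeta U1 U2, Wz k b t s * Wz k b t s' *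
        cexp (-(I * u * (zz s - zz s'))) := by
    rw [h1, Finset.sum_comm]
    refine Finset.sum_congr rfl fun s _ => Finset.sum_congr rfl fun s' _ => ?_
    have : I * u * (zz s' - zz s) = -(I * u * (zz s - zz s')) := by ring
    rw [this]
    ring
  have h3 : ((‖fS k U1 U2 b t u‖ ^ 2 : ℝ) : ℂ) =
      (((‖fS k U1 U2 b t u‖ ^ 2 : ℝ) : ℂ) + ((‖fS k U1 U2 b t u‖ ^ 2 : ℝ) : ℂ)) / 2 := by ring
  rw [h3]
  nth_rw 1 [h1]
  rw [h2, ← Finset.sum_add_distrib, Finset.sum_div]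
  refine Finset.sum_congr rfl fun s _ => ?_
  rw [← Finset.sum_add_distrib, Finset.sum_div]
  refine Finset.sum_congr rfl fun s' _ => ?_
  unfold Complex.cos
  have e1 : (u : ℂ) * (zz s - zz s') * I = I * u * (zz s - zz s') := by ring
  have e2 : -((u : ℂ) * (zz s - zz s')) * I = -(I * u * (zz s - zz s')) := by ring
  rw [e1, e2]
  ring

/-- the kernel -/
noncomputable def rk (ψ : ℝ → ℝ) (lam : ℝ) (x : ℂ) : ℂ :=
  2 * ∫ α in (0 : ℝ)..lam, (ψ α : ℂ) * Complex.cos (2 * Real.pi * α * x)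

theorem pair_eq (h : Ker k A) {U1 U2 : ℝ} (hU : 1 ≤ U1) {ψ : ℝ → ℝ} (hψ : Continuous ψ)
    {L : ℝ} (hL : 0 < L) (lam t : ℝ) :
    ∑ s ∈ Zf riemannZeta U1 U2, ∑ s' ∈ Zf riemannZeta U1 U2, Wz k b t s * Wz k b t s' *
      rk ψ lam ((zz s - zz s') * L / (2 * Real.pi)) =
      ((2 / L * Qs k ψ U1 U2 b L lam t : ℝ) : ℂ) := by
  have hpi : (Real.pi : ℂ) ≠ 0 := by exact_mod_cast Real.pi_ne_zero
  have hLc : (L : ℂ) ≠ 0 := by exact_mod_cast hL.ne'
  have h1 : Qs k ψ U1 U2 b L lam t =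
      L * ∫ α in (0 : ℝ)..lam, ψ α * ‖fS k U1 U2 b t (α * L)‖ ^ 2 := by
    unfold Qs
    have h2 := intervalIntegral.integral_comp_mul_right (a := (0 : ℝ)) (b := lam)
      (fun u : ℝ => ψ (u / L) * ‖fS k U1 U2 b t u‖ ^ 2) hL.ne'
    rw [zero_mul, smul_eq_mul] at h2
    have h3 : ∀ x : ℝ, ψ (x * L / L) = ψ x := fun x => by rw [mul_div_cancel_right₀ _ hL.ne']
    simp_rw [h3] at h2
    rw [h2, ← mul_assoc, mul_inv_cancel₀ hL.ne', one_mul]
  rw [h1]
  have h2 : ((2 / L * (L * ∫ α in (0 : ℝ)..lam, ψ α * ‖fS k U1 U2 b t (α * L)‖ ^ 2) : ℝ) : ℂ) =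
      2 * ∫ α in (0 : ℝ)..lam, (ψ α : ℂ) * ((‖fS k U1 U2 b t (α * L)‖ ^ 2 : ℝ) : ℂ) := by
    rw [← mul_assoc, div_mul_cancel₀ _ hL.ne', Complex.ofReal_mul, ← intervalIntegral.integral_ofReal]
    norm_cast
  rw [h2]
  simp_rw [fS_sq h hU, Finset.mul_sum]
  have hc : ∀ s s' : ℂ, Continuous fun α : ℝ => (ψ α : ℂ) * (Wz k b t s * Wz k b t s' *
      Complex.cos (((α * L : ℝ) : ℂ) * (zz s - zz s'))) := by
    intro s s'
    have : Continuous fun α : ℝ => (ψ α : ℂ) := Complex.continuous_ofReal.comp hψ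
    fun_prop
  rw [intervalIntegral.integral_finsetSum fun s _ =>
    (continuous_finsetSum _ fun s' _ => hc s s').intervalIntegrable _ _, Finset.mul_sum]
  refine Finset.sum_congr rfl fun s _ => ?_
  rw [intervalIntegral.integral_finsetSum fun s' _ => (hc s s').intervalIntegrable _ _,
    Finset.mul_sum]
  refine Finset.sum_congr rfl fun s' _ => ?_
  unfold rk
  rw [← mul_assoc, mul_comm (Wz k b t s * Wz k b t s') 2, mul_assoc,
    ← intervalIntegral.integral_const_mul]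
  congr 1
  refine intervalIntegral.integral_congr fun α _ => ?_
  show Wz k b t s * Wz k b t s' * ((ψ α : ℂ) * Complex.cos (2 * Real.pi * α *
    ((zz s - zz s') * L / (2 * Real.pi)))) = _
  have e : 2 * Real.pi * α * ((zz s - zz s') * L / (2 * Real.pi)) =
      ((α * L : ℝ) : ℂ) * (zz s - zz s') := by
    push_cast
    field_simp
  rw [e]
  ring

end Pool.Agent.Helper92.FM
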