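import Pool.Agent.Helper92.FM.Ll2

set_option autoImplicit false

/-! The local law, with an error term. -/

open Complex Filter Topology Set MeasureTheory
open scoped BigOperators ComplexConjugate

namespace Pool.Agent.Helper92.FM

open H370 (Zf good_zeta mult zz zz_re zz_im zz_spec zz_refl mem_Zf zset zset_refl zz_inj mult_refl)

/-- the local pair sum -/
noncomputable def PS (k ψ : ℝ → ℝ) (lam T M t : ℝ) : ℂ :=
  ∑ s ∈ Zf riemannZeta T (2 * T), ∑ s' ∈ Zf riemannZeta T (2 * T),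
    Wz k (Real.log T / M) t s * Wz k (Real.log T / M) t s' *
      rk ψ lam ((zz s - zz s') * Real.log T / (2 * Real.pi))

lemma alg_end {A B K M L T : ℝ} (hA1 : 1 ≤ A) (hB0 : 0 ≤ B) (hK : 0 < K) (hM1 : 1 ≤ M)
    (hML : M ≤ L) (hT : 0 < T) :
    2 / L * (T * (B * A ^ 2) + T * (M * L) * (K * (1 + B) ^ 2 * A ^ 4 *
        (1 / Real.sqrt M + (1 + 1 / (1 / Real.sqrt M)) * (1 / M) + M / L +
          1 / M / ((1 + B) * A ^ 2 / Real.sqrt M)) + (1 + B) * A ^ 2 / Real.sqrt M)) ≤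
    (2 * (4 * K + 1) + 2) * (1 + B) ^ 2 * A ^ 4 * (Real.sqrt M + M ^ 2 / L) * T := by
  have hL1 : 1 ≤ L := hM1.trans hML
  have hL0 : 0 < L := by linarith
  have hMpos : 0 < M := by linarith
  have hs : 0 < Real.sqrt M := Real.sqrt_pos.2 hMpos
  have hs2 : Real.sqrt M * Real.sqrt M = M := Real.mul_self_sqrt hMpos.le
  have hs1 : 1 ≤ Real.sqrt M := by
    rw [← Real.sqrt_one]
    exact Real.sqrt_le_sqrt hM1
  set s := Real.sqrt M with hsd
  clear_value s
  subst hs2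
  have hA2 : 1 ≤ A ^ 2 := one_le_pow₀ hA1
  have hX1 : 1 ≤ (1 + B) * A ^ 2 := by
    calc (1 : ℝ) = 1 * 1 := by norm_num
      _ ≤ (1 + B) * A ^ 2 := mul_le_mul (by linarith) hA2 zero_le_one (by linarith)
  set X := (1 + B) * A ^ 2 with hX
  have hBX : B * A ^ 2 ≤ X := mul_le_mul_of_nonneg_right (by linarith) (by positivity)
  have hD : (1 + B) ^ 2 * A ^ 4 = X * X := by rw [hX]; ring
  have hX0 : 0 < X := by linarith
  have hXX : X ≤ X * X := le_mul_of_one_le_left hX0.le hX1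
  have e1 : K * (1 + B) ^ 2 * A ^ 4 = K * (X * X) := by rw [← hD]; ring
  have e2 : (2 * (4 * K + 1) + 2) * (1 + B) ^ 2 * A ^ 4 = (2 * (4 * K + 1) + 2) * (X * X) := by
    rw [← hD]; ring
  rw [e1, e2]
  clear_value X
  have e3 : 2 / L * (T * (B * A ^ 2) + T * (s * s * L) * (K * (X * X) *
        (1 / s + (1 + 1 / (1 / s)) * (1 / (s * s)) + s * s / L +
          1 / (s * s) / (X / s)) + X / s)) =
      2 * T * ((B * A ^ 2) / L + (K * (X * X) * (s + (1 + s) + (s * s) ^ 2 / L) + K * X * s +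
        X * s)) := by
    field_simp
  rw [e3]
  have h1 : (B * A ^ 2) / L ≤ X * X * s := by
    rw [div_le_iff₀ hL0]
    calc B * A ^ 2 ≤ X * X := hBX.trans hXX
      _ = (X * X * 1) * 1 := by ring
      _ ≤ (X * X * s) * L := by gcongr
  have h2 : K * (X * X) * (s + (1 + s) + (s * s) ^ 2 / L) ≤
      K * (X * X) * (3 * s + (s * s) ^ 2 / L) := by
    apply mul_le_mul_of_nonneg_left _ (by positivity)
    linarith
  have h3 : K * X * s ≤ K * (X * X) * s := by gcongr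
  have h4 : X * s ≤ X * X * s := by gcongr
  have h5 : (B * A ^ 2) / L + (K * (X * X) * (s + (1 + s) + (s * s) ^ 2 / L) + K * X * s +
        X * s) ≤ X * X * s + (K * (X * X) * (3 * s + (s * s) ^ 2 / L) + K * (X * X) * s +
          X * X * s) := by linarith
  have h6 : X * X * s + (K * (X * X) * (3 * s + (s * s) ^ 2 / L) + K * (X * X) * s +
          X * X * s) ≤ (4 * K + 2) * (X * X) * (s + (s * s) ^ 2 / L) := by
    have : 0 ≤ (X * X) * ((s * s) ^ 2 / L) := by positivity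
    have h7 : 0 ≤ K * ((X * X) * ((s * s) ^ 2 / L)) := by positivity
    linarith
  calc 2 * T * ((B * A ^ 2) / L + (K * (X * X) * (s + (1 + s) + (s * s) ^ 2 / L) + K * X * s +
        X * s)) ≤ 2 * T * ((4 * K + 2) * (X * X) * (s + (s * s) ^ 2 / L)) := by
        apply mul_le_mul_of_nonneg_left (h5.trans h6) (by positivity)
    _ = (2 * (4 * K + 1) + 2) * (X * X) * (s + (s * s) ^ 2 / L) * T := by ring

theorem local_law (lam : ℝ) (h0 : 0 < lam) (h1 : lam < 1 / 2) :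
    ∃ C M0 T0 : ℝ, 0 < C ∧ 1 ≤ M0 ∧ 10 ≤ T0 ∧ ∀ T : ℝ, T0 ≤ T → ∀ M : ℝ, M0 ≤ M →
      M ≤ Real.log T → ∀ (k : ℝ → ℝ) (A : ℝ), Ker k A → ∀ (ψ ψ' : ℝ → ℝ) (B : ℝ),
      Wt ψ ψ' lam B →
      Continuous (fun t => ‖PS k ψ lam T M t -
        (M * nk k * (ψ 0 + 2 * ∫ α in (0 : ℝ)..lam, α * ψ α) : ℝ)‖) ∧
      ∫ t in (T + Real.log T)..(2 * T - Real.log T), ‖PS k ψ lam T M t -
        (M * nk k * (ψ 0 + 2 * ∫ α in (0 : ℝ)..lam, α * ψ α) : ℝ)‖ ≤
        C * (1 + B) ^ 2 * A ^ 4 * (Real.sqrt M + M ^ 2 / Real.log T) * T := by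
  set μ1 := (lam + (lam + 1 / 2) / 2) / 2 with hμ1
  set μ2 := (lam + 1 / 2) / 2 with hμ2
  have m1 : lam < μ1 := by rw [hμ1]; linarith
  have m2 : μ1 < μ2 := by rw [hμ1, hμ2]; linarith
  have m3 : μ2 < 1 / 2 := by rw [hμ2]; linarith
  obtain ⟨C0, T1, hC0, hT1, hef⟩ := ef_exists
  obtain ⟨K, T2, hK, hT2, hcore⟩ := low_core C0 hC0 μ1 μ2 (by linarith) m2 m3
  obtain ⟨T3, hT3, hdiff⟩ := Qs_diff
  set M0 : ℝ := max 1 (max (1 / lam) (1 / (μ1 - lam))) with hM0
  refine ⟨2 * (4 * K + 1) + 2, M0, max T1 (max T2 (max T3 10)), by positivity, le_max_left _ _,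
    hT1.trans (le_max_left _ _), fun T hT M hM hML k A hk ψ ψ' B w => ?_⟩
  have hTT1 : T1 ≤ T := (le_max_left _ _).trans hT
  have hTT2 : T2 ≤ T := ((le_max_left _ _).trans (le_max_right _ _)).trans hT
  have hTT3 : T3 ≤ T := ((le_max_left _ _).trans ((le_max_right _ _).trans
    (le_max_right _ _))).trans hT
  have hT10 : 10 ≤ T := hT1.trans hTT1
  have hTpos : 0 < T := by linarith
  have hM1 : 1 ≤ M := (le_max_left _ _).trans hM
  have hM2 : 1 / lam ≤ M := ((le_max_left _ _).trans (le_max_right _ _)).trans hM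
  have hM3 : 1 / (μ1 - lam) ≤ M := ((le_max_right _ _).trans (le_max_right _ _)).trans hM
  have hMpos : 0 < M := by linarith
  obtain ⟨U1, U2, hE⟩ := hef T hTT1
  set L := Real.log T with hL
  have hL1 : 1 ≤ L := hM1.trans hML
  have hL0 : 0 < L := by linarith
  have hA := hk.A0
  have hA1 := hk.A1
  have hB0 := w.B0
  set b := L / M with hb
  have hb0 : 0 < b := by positivity
  have hb1 : 1 ≤ b := by rw [hb, le_div_iff₀ hMpos]; linarith
  have hbL : b ≤ L := by rw [hb, div_le_iff₀ hMpos]; nlinarith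
  have hblam : b ≤ lam * L := by
    rw [hb, div_le_iff₀ hMpos]
    rw [div_le_iff₀ h0] at hM2
    nlinarith
  have hbμ : lam * L + b ≤ μ1 * L := by
    have h3 : b ≤ (μ1 - lam) * L := by
      rw [hb, div_le_iff₀ hMpos]
      rw [div_le_iff₀ (by linarith)] at hM3
      nlinarith
    linarith
  have hsq : 0 < Real.sqrt M := Real.sqrt_pos.2 hMpos
  have hsq2 : Real.sqrt M * Real.sqrt M = M := Real.mul_self_sqrt hMpos.le
  have hsq1 : 1 ≤ Real.sqrt M := by
    rw [← Real.sqrt_one]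
    exact Real.sqrt_le_sqrt hM1
  set D : ℝ := (1 + B) ^ 2 * A ^ 4 with hD
  have hD0 : 0 < D := by positivity
  have hA2 : 1 ≤ A ^ 2 := one_le_pow₀ hA1
  have hDB : (1 + B) * A ^ 2 ≤ D := by
    have e : D = ((1 + B) * A ^ 2) * ((1 + B) * A ^ 2) := by rw [hD]; ring
    have h3 : 1 ≤ (1 + B) * A ^ 2 := by nlinarith
    rw [e]
    nlinarith
  set η : ℝ := 1 / Real.sqrt M with hη
  have hη0 : 0 < η := by positivity
  set σ : ℝ := (1 + B) * A ^ 2 / Real.sqrt M with hσ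
  have hσ0 : 0 < σ := by positivity
  have h3 := hcore k A hk ψ ψ' lam B w T hTT2 U1 U2 hE b η σ hb1 hblam hbμ hη0 hσ0
  rw [← hL] at h3
  set m0 : ℝ := ψ 0 / 2 + ∫ α in (0 : ℝ)..lam, α * ψ α with hm0
  have hmE : M * nk k * (ψ 0 + 2 * ∫ α in (0 : ℝ)..lam, α * ψ α) = 2 / L * (nk k / b * (L ^ 2 * m0)) := by
    rw [hm0, hb]
    field_simp
  have hU : 1 ≤ T := by linarith
  have hPS : ∀ t, PS k ψ lam T M t = ((2 / L * Qs k ψ T (2 * T) b L lam t : ℝ) : ℂ) := by
    intro t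
    unfold PS
    rw [← hL, ← hb]
    exact pair_eq hk hU w.cont hL0 lam t
  have hnorm : ∀ t, ‖PS k ψ lam T M t -
        (M * nk k * (ψ 0 + 2 * ∫ α in (0 : ℝ)..lam, α * ψ α) : ℝ)‖ =
      2 / L * |Qs k ψ T (2 * T) b L lam t - nk k / b * (L ^ 2 * m0)| := by
    intro t
    rw [hPS, hmE, ← Complex.ofReal_sub, Complex.norm_real, Real.norm_eq_abs, ← mul_sub, abs_mul,
      abs_of_pos (by positivity : 0 < 2 / L)]
  simp_rw [hnorm]
  have cQ := Qs_cont (b := b) (L := L) hk w T (2 * T)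
  have cQ' := Qs_cont (b := b) (L := L) hk w U1 U2
  refine ⟨continuous_const.mul (cQ.sub continuous_const).abs, ?_⟩
  have hlogle : 2 * L ≤ T := by
    have := Real.add_one_le_exp (L / 2)
    have e : Real.exp (L / 2) * Real.exp (L / 2) = T := by
      rw [← Real.exp_add, add_halves, hL, Real.exp_log hTpos]
    nlinarith
  have hle : T + L ≤ 2 * T - L := by linarith
  rw [intervalIntegral.integral_const_mul]
  have h4 : ∫ t in (T + L)..(2 * T - L), |Qs k ψ T (2 * T) b L lam t - nk k / b * (L ^ 2 * m0)| ≤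
      ∫ t in (T + L)..(2 * T - L), (B * A ^ 2 + |Qs k ψ U1 U2 b L lam t - nk k / b * (L ^ 2 * m0)|) := by
    apply intervalIntegral.integral_mono_on hle
    · exact (cQ.sub continuous_const).abs.intervalIntegrable _ _
    · exact (continuous_const.add (cQ'.sub continuous_const).abs).intervalIntegrable _ _
    · intro t ht
      have h5 := hdiff C0 T hTT3 U1 U2 hE k A hk ψ ψ' lam B w b t ht.1 ht.2 hb0.le hbL
      rw [← hL] at h5
      have e : Qs k ψ T (2 * T) b L lam t - nk k / b * (L ^ 2 * m0) =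
          (Qs k ψ T (2 * T) b L lam t - Qs k ψ U1 U2 b L lam t) +
          (Qs k ψ U1 U2 b L lam t - nk k / b * (L ^ 2 * m0)) := by ring
      rw [e]
      exact (abs_add_le _ _).trans (by linarith)
  have h5 : ∫ t in (T + L)..(2 * T - L), (B * A ^ 2 + |Qs k ψ U1 U2 b L lam t -
      nk k / b * (L ^ 2 * m0)|) = (T - 2 * L) * (B * A ^ 2) +
      ∫ t in (T + L)..(2 * T - L), |Qs k ψ U1 U2 b L lam t - nk k / b * (L ^ 2 * m0)| := by
    have i1 : IntervalIntegrable (fun _ : ℝ => B * A ^ 2) volume (T + L) (2 * T - L) :=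
      intervalIntegrable_const
    have i2 : IntervalIntegrable (fun t => |Qs k ψ U1 U2 b L lam t - nk k / b * (L ^ 2 * m0)|)
        volume (T + L) (2 * T - L) := (cQ'.sub continuous_const).abs.intervalIntegrable _ _
    rw [intervalIntegral.integral_add i1 i2, intervalIntegral.integral_const, smul_eq_mul]
    ring
  have h6 : ∫ t in (T + L)..(2 * T - L), |Qs k ψ T (2 * T) b L lam t - nk k / b * (L ^ 2 * m0)| ≤
      T * (B * A ^ 2) + T * (L ^ 2 / b) * (K * (1 + B) ^ 2 * A ^ 4 * (η + (1 + 1 / η) * (b / L) +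
          1 / b + (b / L) / σ) + σ) := by
    have h7 : (T - 2 * L) * (B * A ^ 2) ≤ T * (B * A ^ 2) := by
      apply mul_le_mul_of_nonneg_right _ (by positivity)
      linarith
    linarith
  have h7 : 2 / L * ∫ t in (T + L)..(2 * T - L),
      |Qs k ψ T (2 * T) b L lam t - nk k / b * (L ^ 2 * m0)| ≤
      2 / L * (T * (B * A ^ 2) + T * (L ^ 2 / b) * (K * (1 + B) ^ 2 * A ^ 4 *
        (η + (1 + 1 / η) * (b / L) + 1 / b + (b / L) / σ) + σ)) :=
    mul_le_mul_of_nonneg_left h6 (by positivity)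
  refine h7.trans ?_
  have e1 : L ^ 2 / b = M * L := by rw [hb]; field_simp
  have e2 : b / L = 1 / M := by rw [hb]; field_simp
  have e3 : 1 / b = M / L := by rw [hb]; field_simp
  rw [e1, e2, e3]
  exact alg_end hA1 hB0 hK hM1 hML hTpos

end Pool.Agent.Helper92.FM
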