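import Pool.Agent.Helper92.FM.Ker
import Pool.Agent.Helper92.FM.Ze
import Pool.Agent.Helper92.FM.Sd
import Pool.Agent.Helper92.FM.Va
import Pool.Agent.Helper92.FM.Dg2
import Pool.Agent.Helper92.FM.Dg3
import Pool.Agent.Helper92.FM.Fl
import Pool.Agent.Helper92.FM.Lo
import Pool.Agent.Helper92.FM.Lo2

set_option autoImplicit false

/-! The law of large numbers for the local pair sums, unconditionally: main theorem. -/

open Complex Filter Topology Set MeasureTheory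
open scoped ComplexConjugate

namespace Pool.Agent.Helper92.FM

open Pool.Agent.TH800.MS

variable {k : ℝ → ℝ} {A b : ℝ} {ψ ψ' : ℝ → ℝ} {lam B L : ℝ}

attribute [local irreducible] fS Yk Dk kap kk Fl Mn Ey En

theorem low_core (C0 : ℝ) (hC0 : 0 < C0) (μ1 μ2 : ℝ) (h0 : 0 < μ1) (h12 : μ1 < μ2)
    (h2 : μ2 < 1 / 2) :
    ∃ K T0 : ℝ, 0 < K ∧ 10 ≤ T0 ∧ ∀ (k : ℝ → ℝ) (A : ℝ), Ker k A →
      ∀ (ψ ψ' : ℝ → ℝ) (lam B : ℝ), Wt ψ ψ' lam B → ∀ T : ℝ, T0 ≤ T → ∀ U1 U2 : ℝ,
      EFP C0 T U1 U2 → ∀ b η σ : ℝ, 1 ≤ b → b ≤ lam * Real.log T →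
      lam * Real.log T + b ≤ μ1 * Real.log T → 0 < η → 0 < σ →
      ∫ t in (T + Real.log T)..(2 * T - Real.log T),
        |Qs k ψ U1 U2 b (Real.log T) lam t -
          nk k / b * (Real.log T ^ 2 * (ψ 0 / 2 + ∫ α in (0 : ℝ)..lam, α * ψ α))| ≤
        T * (Real.log T ^ 2 / b) * (K * (1 + B) ^ 2 * A ^ 4 * (η + (1 + 1 / η) * (b / Real.log T) +
          1 / b + (b / Real.log T) / σ) + σ) := by
  obtain ⟨K1, T1, hK1, hT1, hf⟩ := fluc1 μ2 (h0.trans h12) h2
  obtain ⟨T2, hT2, hN⟩ := Nfacts μ1 μ2 h0 h12 (by linarith)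
  obtain ⟨C, hC, hm⟩ := mainW
  obtain ⟨K2, T3, hK2, hT3, hE⟩ := Ey_mean μ1 μ2 h0 h12 h2
  obtain ⟨K3, T4, hK3, hT4, hn⟩ := neg_mean μ2 (h0.trans h12) (by linarith)
  obtain ⟨C4, hC4, herr⟩ := err_pt C0 hC0 μ1 μ2 h0 h12 (by linarith)
  refine ⟨K2 + C4 + 2 * K3 + C + K1, max (max T1 T2) (max T3 T4), by positivity,
    hT1.trans ((le_max_left _ _).trans (le_max_left _ _)),
    fun k A hk ψ ψ' lam B w T hT U1 U2 hEF b η σ hb1 hbX hXb hη hσ => ?_⟩
  have hTT1 : T1 ≤ T := ((le_max_left _ _).trans (le_max_left _ _)).trans hT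
  have hTT2 : T2 ≤ T := ((le_max_right _ _).trans (le_max_left _ _)).trans hT
  have hTT3 : T3 ≤ T := ((le_max_left _ _).trans (le_max_right _ _)).trans hT
  have hTT4 : T4 ≤ T := ((le_max_right _ _).trans (le_max_right _ _)).trans hT
  have hT10 : 10 ≤ T := hT1.trans hTT1
  have hTpos : 0 < T := by linarith
  obtain ⟨hL2, hN1, hNle, hN2, hN3, hN4⟩ := hN T hTT2
  have hl0 := w.l0
  have hB0 := w.B0
  have hA := hk.A0
  have hA1 := hk.A1
  have hb : 0 < b := by linarith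
  have hL0 : 0 < Real.log T := by linarith
  have f1 := hf k A hk ψ ψ' lam B w T hTT1 b σ hb1 (hbX.trans (by have := w.l1; nlinarith)) hσ
  have f2 := hE k A hk lam hl0 T hTT3 b hb1 hbX hXb
  have f3 := hn k A hk T hTT4 b (lam * Real.log T) hb1 (by linarith) (by positivity)
  have f4 := hm k A hk ⌊T ^ μ2⌋₊ b (Real.log T) lam B ψ ψ' w hb1 (by linarith) hbX hN1
    (by linarith) hN4
  have f5 := herr k A hk T U1 U2 hEF
  have hlogle : 2 * Real.log T ≤ T := by
    have := Real.add_one_le_exp (Real.log T / 2)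
    have h3 := Real.log_le_sub_one_of_pos (x := T / 4) (by positivity)
    rw [Real.log_div (by positivity) (by norm_num)] at h3
    have h4 : Real.log 4 ≤ 1.4 := by
      have : (4 : ℝ) = 2 ^ 2 := by norm_num
      rw [this, Real.log_pow]
      have := Real.log_two_lt_d9
      push_cast
      linarith
    linarith
  set L := Real.log T with hL
  set N := ⌊T ^ μ2⌋₊ with hNdef
  clear_value N
  have hX : 0 ≤ lam * L := by positivity
  have hXL : lam * L ≤ L := by have := w.l1; nlinarith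
  have hbL : b ≤ L := hbX.trans hXL
  set P := L ^ 2 / b with hP
  have hP0 : 0 < P := by positivity
  set x := b / L with hx
  have hx0 : 0 < x := by positivity
  have hx1 : x ≤ 1 := by rw [hx, div_le_one hL0]; exact hbL
  have hPx : P * x = L := by rw [hP, hx]; field_simp
  have hPb : P * (1 / b) = L ^ 2 / b ^ 2 := by rw [hP]; field_simp
  set mt := nk k / b * (L ^ 2 * (ψ 0 / 2 + ∫ α in (0 : ℝ)..lam, α * ψ α)) with hmt
  clear_value mt
  have cQ := Qs_cont (b := b) (L := L) hk w U1 U2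
  have cE := Ey_cont hk N b L lam
  have cN := En_cont hk N b L lam
  have cF := Fl_cont (b := b) (L := L) hk w N
  have f3' : ∫ t in T..(2 * T), En k N b L lam t ≤ K3 * A ^ 2 * T * (lam * L) := by
    have e : ∀ t, En k N b L lam t = ∫ u in (0 : ℝ)..(lam * L), ‖Dk k N b t (-u)‖ ^ 2 := by
      intro t
      unfold En
      rfl
    simp_rw [e]
    exact f3
  -- pointwise
  set R : ℝ → ℝ := fun t => B * η * Ey k N b L lam t +
    (B * (1 + 1 / η) * 2) * En k N b L lam t + |Fl k N b ψ L lam t| +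
    (B * (1 + 1 / η) * (lam * L * (C4 * A ^ 2)) + C * (B * A ^ 2) * (L + L ^ 2 / b ^ 2)) with hR
  have hpt : ∀ t, T + L ≤ t → t ≤ 2 * T - L → |Qs k ψ U1 U2 b L lam t - mt| ≤ R t := by
    intro t ht1 ht2
    have e1 := err_u (b := b) (U1 := U1) (U2 := U2) (t := t) (N := N) hk w hη hX hL0
      (C := C4) (fun u hu0 hu1 => f5 t ht1 ht2 N hN2 b u hb (by
        rw [abs_of_nonneg hu0]; linarith))
    rw [Yk_int hk w N t] at e1
    have e2 : Qs k ψ U1 U2 b L lam t = ∫ u in (0 : ℝ)..(lam * L), ψ (u / L) *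
      ‖fS k U1 U2 b t u‖ ^ 2 := rfl
    rw [← e2] at e1
    have e3 : (∫ u in (0 : ℝ)..(lam * L), ‖Yk k N L b t u‖ ^ 2) = Ey k N b L lam t := by
      unfold Ey; rfl
    have e4 : (∫ u in (0 : ℝ)..(lam * L), ‖Dk k N b t (-u)‖ ^ 2) = En k N b L lam t := by
      unfold En; rfl
    rw [e3, e4] at e1
    have e5 : |Mn k N b ψ L lam - mt| ≤ C * (B * A ^ 2) * (L + L ^ 2 / b ^ 2) := by
      have : Mn k N b ψ L lam = L ^ 2 * (∫ u in (0 : ℝ)..(lam * L), ψ (u / L) * kap k b u ^ 2) +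
        diagW k N b (fun u => ψ (u / L)) 0 (lam * L) := by unfold Mn; rfl
      rw [this]
      exact f4
    have e6 : Qs k ψ U1 U2 b L lam t - mt =
        (Qs k ψ U1 U2 b L lam t - (Mn k N b ψ L lam + Fl k N b ψ L lam t)) +
        (Fl k N b ψ L lam t + (Mn k N b ψ L lam - mt)) := by ring
    rw [e6]
    refine (abs_add_le _ _).trans ((add_le_add e1 ((abs_add_le _ _).trans
      (add_le_add le_rfl e5))).trans (le_of_eq ?_))
    simp only [hR]
    ring
  have hR0 : ∀ t, 0 ≤ R t := by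
    intro t
    have e1 := Ey_nonneg (k := k) (b := b) hX N t
    have e2 := En_nonneg (k := k) (b := b) hX N t
    simp only [hR]
    positivity
  have cR : Continuous R := by
    simp only [hR]
    exact (((continuous_const.mul cE).add (continuous_const.mul cN)).add cF.abs).add
      continuous_const
  have s1 : ∫ t in (T + L)..(2 * T - L), |Qs k ψ U1 U2 b L lam t - mt| ≤
      ∫ t in T..(2 * T), R t := by
    refine le_trans ?_ (restrict_le cR hR0 hL0.le hlogle)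
    refine intervalIntegral.integral_mono_on (by linarith)
      ((cQ.sub continuous_const).abs.intervalIntegrable _ _) (cR.intervalIntegrable _ _)
      fun t ht => hpt t ht.1 ht.2
  have i1 : IntervalIntegrable (fun t => B * η * Ey k N b L lam t) volume T (2 * T) :=
    (continuous_const.mul cE).intervalIntegrable _ _
  have i2 : IntervalIntegrable (fun t => (B * (1 + 1 / η) * 2) * En k N b L lam t) volume
    T (2 * T) := (continuous_const.mul cN).intervalIntegrable _ _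
  have i3 : IntervalIntegrable (fun t => |Fl k N b ψ L lam t|) volume T (2 * T) :=
    cF.abs.intervalIntegrable _ _
  have i4 : IntervalIntegrable (fun _ : ℝ => B * (1 + 1 / η) * (lam * L * (C4 * A ^ 2)) +
    C * (B * A ^ 2) * (L + L ^ 2 / b ^ 2)) volume T (2 * T) :=
    continuous_const.intervalIntegrable _ _
  have s2 : ∫ t in T..(2 * T), R t = B * η * (∫ t in T..(2 * T), Ey k N b L lam t) +
      (B * (1 + 1 / η) * 2) * (∫ t in T..(2 * T), En k N b L lam t) +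
      (∫ t in T..(2 * T), |Fl k N b ψ L lam t|) +
      T * (B * (1 + 1 / η) * (lam * L * (C4 * A ^ 2)) +
        C * (B * A ^ 2) * (L + L ^ 2 / b ^ 2)) := by
    have j1 : ∫ t in T..(2 * T), B * η * Ey k N b L lam t =
        B * η * ∫ t in T..(2 * T), Ey k N b L lam t := intervalIntegral.integral_const_mul _ _
    have j2 : ∫ t in T..(2 * T), (B * (1 + 1 / η) * 2) * En k N b L lam t =
        (B * (1 + 1 / η) * 2) * ∫ t in T..(2 * T), En k N b L lam t :=
      intervalIntegral.integral_const_mul _ _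
    have j4 : ∫ _ in T..(2 * T), (B * (1 + 1 / η) * (lam * L * (C4 * A ^ 2)) +
      C * (B * A ^ 2) * (L + L ^ 2 / b ^ 2)) = T * (B * (1 + 1 / η) * (lam * L * (C4 * A ^ 2)) +
      C * (B * A ^ 2) * (L + L ^ 2 / b ^ 2)) := by
      rw [intervalIntegral.integral_const, smul_eq_mul]
      ring
    simp only [hR]
    rw [intervalIntegral.integral_add ((i1.add i2).add i3) i4,
      intervalIntegral.integral_add (i1.add i2) i3, intervalIntegral.integral_add i1 i2, j1, j2, j4]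
  refine s1.trans ?_
  rw [s2]
  -- numerics
  have hB1 : 1 ≤ 1 + B := by linarith
  have hBe : (1 + B) ^ 2 = 1 + 2 * B + B ^ 2 := by ring
  have hBs : 0 ≤ B ^ 2 := sq_nonneg B
  have hBB : B ≤ (1 + B) ^ 2 := by rw [hBe]; linarith
  have hBB2 : B ^ 2 ≤ (1 + B) ^ 2 := by rw [hBe]; linarith
  have hA24 : A ^ 2 ≤ A ^ 4 := pow_le_pow_right₀ hA1 (by norm_num)
  have hTP : 0 < T * P := by positivity
  have g1 : B * η * (∫ t in T..(2 * T), Ey k N b L lam t) ≤
      T * P * (K2 * (1 + B) ^ 2 * A ^ 4 * η) := by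
    calc B * η * (∫ t in T..(2 * T), Ey k N b L lam t) ≤ B * η * (K2 * A ^ 4 * (T * P)) := by
          gcongr
      _ = T * P * (K2 * B * A ^ 4 * η) := by ring
      _ ≤ _ := by gcongr
  have g2 : (B * (1 + 1 / η) * 2) * (∫ t in T..(2 * T), En k N b L lam t) ≤
      T * P * (2 * K3 * (1 + B) ^ 2 * A ^ 4 * ((1 + 1 / η) * x)) := by
    calc (B * (1 + 1 / η) * 2) * (∫ t in T..(2 * T), En k N b L lam t) ≤
        (B * (1 + 1 / η) * 2) * (K3 * A ^ 2 * T * (lam * L)) := by gcongr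
      _ ≤ (B * (1 + 1 / η) * 2) * (K3 * A ^ 2 * T * L) := by gcongr
      _ = T * P * (2 * K3 * B * A ^ 2 * ((1 + 1 / η) * x)) := by
          rw [← hPx]; ring
      _ ≤ _ := by gcongr
  have g3 : (∫ t in T..(2 * T), |Fl k N b ψ L lam t|) ≤
      T * P * (K1 * (1 + B) ^ 2 * A ^ 4 * (x / σ) + σ) := by
    refine f1.trans ?_
    have e : T * P * (σ + K1 * (B * A ^ 2) ^ 2 * x / σ) =
      T * P * (K1 * B ^ 2 * A ^ 4 * (x / σ) + σ) := by ring
    rw [e]
    gcongr
  have g4 : T * (B * (1 + 1 / η) * (lam * L * (C4 * A ^ 2))) ≤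
      T * P * (C4 * (1 + B) ^ 2 * A ^ 4 * ((1 + 1 / η) * x)) := by
    calc T * (B * (1 + 1 / η) * (lam * L * (C4 * A ^ 2))) ≤
        T * (B * (1 + 1 / η) * (L * (C4 * A ^ 2))) := by gcongr
      _ = T * P * (C4 * B * A ^ 2 * ((1 + 1 / η) * x)) := by rw [← hPx]; ring
      _ ≤ _ := by gcongr
  have g5 : T * (C * (B * A ^ 2) * (L + L ^ 2 / b ^ 2)) ≤
      T * P * (C * (1 + B) ^ 2 * A ^ 4 * ((1 + 1 / η) * x + 1 / b)) := by
    have h1η : x ≤ (1 + 1 / η) * x :=
      le_mul_of_one_le_left hx0.le (le_add_of_nonneg_right (by positivity))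
    have hsum : L + L ^ 2 / b ^ 2 = P * (x + 1 / b) := by rw [mul_add, hPx, hPb]
    calc T * (C * (B * A ^ 2) * (L + L ^ 2 / b ^ 2)) = T * P * (C * B * A ^ 2 * (x + 1 / b)) := by
          rw [hsum]; ring
      _ ≤ _ := by gcongr
  have z1 : 0 ≤ T * P * ((C4 + 2 * K3 + C + K1) * (1 + B) ^ 2 * A ^ 4 * η) := by positivity
  have z2 : 0 ≤ T * P * ((K2 + K1) * (1 + B) ^ 2 * A ^ 4 * ((1 + 1 / η) * x)) := by
    positivity
  have z3 : 0 ≤ T * P * ((K2 + C4 + 2 * K3 + K1) * (1 + B) ^ 2 * A ^ 4 * (1 / b)) := by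
    positivity
  have z4 : 0 ≤ T * P * ((K2 + C4 + 2 * K3 + C) * (1 + B) ^ 2 * A ^ 4 * (x / σ)) := by
    positivity
  have zz : T * P * ((K2 + C4 + 2 * K3 + C + K1) * (1 + B) ^ 2 * A ^ 4 *
      (η + (1 + 1 / η) * x + 1 / b + x / σ) + σ) =
      T * P * (K2 * (1 + B) ^ 2 * A ^ 4 * η) +
      T * P * (2 * K3 * (1 + B) ^ 2 * A ^ 4 * ((1 + 1 / η) * x)) +
      T * P * (K1 * (1 + B) ^ 2 * A ^ 4 * (x / σ) + σ) +
      (T * P * (C4 * (1 + B) ^ 2 * A ^ 4 * ((1 + 1 / η) * x)) +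
      T * P * (C * (1 + B) ^ 2 * A ^ 4 * ((1 + 1 / η) * x + 1 / b))) +
      T * P * ((C4 + 2 * K3 + C + K1) * (1 + B) ^ 2 * A ^ 4 * η) +
      T * P * ((K2 + K1) * (1 + B) ^ 2 * A ^ 4 * ((1 + 1 / η) * x)) +
      T * P * ((K2 + C4 + 2 * K3 + K1) * (1 + B) ^ 2 * A ^ 4 * (1 / b)) +
      T * P * ((K2 + C4 + 2 * K3 + C) * (1 + B) ^ 2 * A ^ 4 * (x / σ)) := by ring
  rw [zz, mul_add T]
  linarith

/-- **the law of large numbers**: the local pair sums of bandwidth less than `1/2` are close in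
mean to their expected value -/
theorem low (C0 : ℝ) (hC0 : 0 < C0) (k : ℝ → ℝ) (A : ℝ) (hk : Ker k A) (ψ ψ' : ℝ → ℝ)
    (lam B : ℝ) (w : Wt ψ ψ' lam B) (hlam : lam < 1 / 2) (ε : ℝ) (hε : 0 < ε) :
    ∃ β0 : ℝ, 0 < β0 ∧ ∀ β : ℝ, 0 < β → β ≤ β0 → ∃ T0 : ℝ, 10 ≤ T0 ∧ ∀ T : ℝ, T0 ≤ T →
      ∀ U1 U2 : ℝ, EFP C0 T U1 U2 →
      ∫ t in (T + Real.log T)..(2 * T - Real.log T),
        |Qs k ψ U1 U2 (β * Real.log T) (Real.log T) lam t -
          nk k / β * (Real.log T * (ψ 0 / 2 + ∫ α in (0 : ℝ)..lam, α * ψ α))| ≤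
        ε * (T * (Real.log T / β)) := by
  have hl0 := w.l0
  have hB0 := w.B0
  have hA := hk.A0
  set μ1 := (lam + (lam + 1 / 2) / 2) / 2 with hμ1
  set μ2 := (lam + 1 / 2) / 2 with hμ2
  have m1 : lam < μ1 := by rw [hμ1]; linarith
  have m2 : μ1 < μ2 := by rw [hμ1, hμ2]; linarith
  have m3 : μ2 < 1 / 2 := by rw [hμ2]; linarith
  obtain ⟨K, T1, hK, hT1, h⟩ := low_core C0 hC0 μ1 μ2 (by linarith) m2 m3
  set D := K * (1 + B) ^ 2 * A ^ 4 with hD
  have hD0 : 0 < D := by positivity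
  set η := ε / (8 * D) with hη
  have hη0 : 0 < η := by positivity
  set σ := ε / 8 with hσ
  have hσ0 : 0 < σ := by positivity
  set β0 := min (min lam (μ1 - lam)) (min (ε / (8 * D * (1 + 1 / η))) (ε * σ / (8 * D))) with hβ0
  have hβ00 : 0 < β0 := by
    rw [hβ0]
    have : 0 < μ1 - lam := by linarith
    positivity
  refine ⟨β0, hβ00, fun β hβ hββ => ?_⟩
  have b1 : β ≤ lam := hββ.trans ((min_le_left _ _).trans (min_le_left _ _))
  have b2 : β ≤ μ1 - lam := hββ.trans ((min_le_left _ _).trans (min_le_right _ _))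
  have b3 : β ≤ ε / (8 * D * (1 + 1 / η)) := hββ.trans ((min_le_right _ _).trans (min_le_left _ _))
  have b4 : β ≤ ε * σ / (8 * D) := hββ.trans ((min_le_right _ _).trans (min_le_right _ _))
  have hev : ∀ᶠ T : ℝ in atTop, max (1 / β) (8 * D / (β * ε)) ≤ Real.log T :=
    Real.tendsto_log_atTop.eventually_ge_atTop _
  obtain ⟨T2, hT2⟩ := hev.exists_forall_of_atTop
  refine ⟨max T1 T2, hT1.trans (le_max_left _ _), fun T hT U1 U2 hE => ?_⟩
  have hT10 : 10 ≤ T := hT1.trans ((le_max_left _ _).trans hT)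
  have hLb := hT2 T ((le_max_right _ _).trans hT)
  have hL1 : 1 / β ≤ Real.log T := (le_max_left _ _).trans hLb
  have hL2 : 8 * D / (β * ε) ≤ Real.log T := (le_max_right _ _).trans hLb
  have hLpos : 0 < Real.log T := Real.log_pos (by linarith)
  set L := Real.log T with hL
  have hbb : 1 ≤ β * L := by
    rw [div_le_iff₀ hβ] at hL1
    linarith
  have h3 := h k A hk ψ ψ' lam B w T ((le_max_left _ _).trans hT) U1 U2 hE (β * L) η σ hbb
    (by gcongr) (by nlinarith) hη0 hσ0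
  rw [← hL] at h3
  have e1 : nk k / (β * L) * (L ^ 2 * (ψ 0 / 2 + ∫ α in (0 : ℝ)..lam, α * ψ α)) =
      nk k / β * (L * (ψ 0 / 2 + ∫ α in (0 : ℝ)..lam, α * ψ α)) := by
    field_simp
  have e2 : L ^ 2 / (β * L) = L / β := by field_simp
  have e3 : β * L / L = β := by field_simp
  rw [e1, e2, e3, ← hD] at h3
  refine h3.trans ?_
  have e4 : D * (η + (1 + 1 / η) * β + 1 / (β * L) + β / σ) + σ ≤ ε := by
    have g1 : D * η = ε / 8 := by rw [hη]; field_simp
    have g2 : D * ((1 + 1 / η) * β) ≤ ε / 8 := by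
      have h1η : 0 < 1 + 1 / η := by positivity
      rw [le_div_iff₀ (by positivity)] at b3
      linarith
    have g3 : D * (1 / (β * L)) ≤ ε / 8 := by
      rw [div_le_iff₀ (by positivity)] at hL2
      rw [mul_one_div, div_le_div_iff₀ (by positivity) (by norm_num)]
      linarith
    have g4 : D * (β / σ) ≤ ε / 8 := by
      rw [le_div_iff₀ (by positivity)] at b4
      rw [← mul_div_assoc, div_le_iff₀ hσ0]
      linarith
    have g5 : σ = ε / 8 := hσ
    have : D * (η + (1 + 1 / η) * β + 1 / (β * L) + β / σ) = D * η + D * ((1 + 1 / η) * β) +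
      D * (1 / (β * L)) + D * (β / σ) := by ring
    linarith
  calc T * (L / β) * (D * (η + (1 + 1 / η) * β + 1 / (β * L) + β / σ) + σ) ≤
      T * (L / β) * ε := by gcongr
    _ = _ := by ring

end Pool.Agent.Helper92.FM
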