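import Pool.Agent.Helper92.FM.Ker
import Pool.Agent.Helper92.FM.Ze
import Pool.Agent.Helper92.FM.Sd
import Pool.Agent.Helper92.FM.Va
import Pool.Agent.Helper92.FM.Dg2
import Pool.Agent.Helper92.FM.Dg3
import Pool.Agent.Helper92.FM.Ng
import Pool.Agent.Helper92.FM.Fl
import Pool.Agent.Helper92.FM.Lo
import Pool.Agent.Helper92.FM.Lo2
import Pool.Graph.R_seed8.TH800.MS.Pn
import Pool.Graph.R_seed8.H370R2.MV
import Pool.Graph.R_seed8.TH800.MS.Ze
import Pool.Graph.R_seed8.TH800.MS.Lln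

set_option autoImplicit false

/-! The mean of the local pair sums of bandwidth less than `1`. -/

open Complex Filter Topology Set MeasureTheory
open scoped ComplexConjugate

namespace Pool.Agent.Helper92.FM

open Pool.Agent.TH800.MS

variable {k : ℝ → ℝ} {A b : ℝ} {ψ ψ' : ℝ → ℝ} {lam B L : ℝ}

/-- the coefficients of the prime model -/
noncomputable def yc (k : ℝ → ℝ) (L b u : ℝ) (n : ℕ) : ℂ :=
  (if n = 1 then ((L * kap k b u : ℝ) : ℂ) else 0) -
    (if n.Prime then ((aa n * kap k b (Real.log n - u) : ℝ) : ℂ) else 0)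

lemma Yk_poly (N : ℕ) (hN : 1 ≤ N) (L b t u : ℝ) :
    Yk k N L b t u = ∑ n ∈ Finset.Icc 1 N, yc k L b u n * (n : ℂ) ^ (-(t : ℂ) * I) := by
  have h1 : (1 : ℕ) ∈ Finset.Icc 1 N := Finset.mem_Icc.2 ⟨le_rfl, hN⟩
  unfold yc
  simp_rw [sub_mul]
  rw [Finset.sum_sub_distrib]
  have e1 : ∑ n ∈ Finset.Icc 1 N, (if n = 1 then ((L * kap k b u : ℝ) : ℂ) else 0) *
      (n : ℂ) ^ (-(t : ℂ) * I) = ((L * kap k b u : ℝ) : ℂ) := by
    rw [Finset.sum_eq_single_of_mem 1 h1]
    · simp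
    · intro n _ hn
      rw [if_neg hn, zero_mul]
  have e2 : ∑ n ∈ Finset.Icc 1 N, (if n.Prime then ((aa n * kap k b (Real.log n - u) : ℝ) : ℂ)
      else 0) * (n : ℂ) ^ (-(t : ℂ) * I) = Dk k N b t u := by
    unfold Dk PX
    rw [Finset.sum_filter]
    refine Finset.sum_congr rfl fun n _ => ?_
    split_ifs with hp
    · have hp0 : (n : ℂ) ≠ 0 := by exact_mod_cast hp.ne_zero
      unfold ef
      rw [Complex.cpow_def_of_ne_zero hp0, ← Complex.natCast_log]
      have : (((t * -Real.log n : ℝ) : ℂ) * I) = ((Real.log n : ℝ) : ℂ) * (-(t : ℂ) * I) := by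
        push_cast; ring
      rw [this]
      push_cast
      ring
    · rw [zero_mul]
  rw [e1, e2]
  rfl

lemma yc_sq (N : ℕ) (hN : 1 ≤ N) (L b u : ℝ) :
    ∑ n ∈ Finset.Icc 1 N, ‖yc k L b u n‖ ^ 2 = L ^ 2 * kap k b u ^ 2 +
      ∑ p ∈ PX N, aa p ^ 2 * kap k b (Real.log p - u) ^ 2 := by
  have h1 : (1 : ℕ) ∈ Finset.Icc 1 N := Finset.mem_Icc.2 ⟨le_rfl, hN⟩
  have e : ∀ n : ℕ, ‖yc k L b u n‖ ^ 2 = (if n = 1 then L ^ 2 * kap k b u ^ 2 else 0) +
      (if n.Prime then aa n ^ 2 * kap k b (Real.log n - u) ^ 2 else 0) := by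
    intro n
    unfold yc
    by_cases h1 : n = 1
    · subst h1
      rw [if_pos rfl, if_neg Nat.not_prime_one, if_pos rfl, if_neg Nat.not_prime_one, sub_zero,
        Complex.norm_real, Real.norm_eq_abs, sq_abs]
      ring
    · rw [if_neg h1, if_neg h1, zero_sub, norm_neg, zero_add]
      split_ifs with hp
      · rw [Complex.norm_real, Real.norm_eq_abs, sq_abs]
        ring
      · simp
  simp_rw [e]
  rw [Finset.sum_add_distrib, Finset.sum_eq_single_of_mem 1 h1 (fun n _ hn => by rw [if_neg hn]),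
    if_pos rfl]
  unfold PX
  rw [Finset.sum_filter]

lemma Yk_ms (N : ℕ) (hN : 1 ≤ N) (L b u T : ℝ) (hT : 0 ≤ T) :
    ∫ t in T..(2 * T), ‖Yk k N L b t u‖ ^ 2 ≤ (T + 8 * N * (1 + Real.log N)) *
      (L ^ 2 * kap k b u ^ 2 + ∑ p ∈ PX N, aa p ^ 2 * kap k b (Real.log p - u) ^ 2) := by
  have h := H370.mean_value (yc k L b u) N T (2 * T) (by linarith)
  simp_rw [← Yk_poly N hN L b _ u] at h
  rw [yc_sq N hN] at h
  refine h.trans (le_of_eq ?_)
  ring

attribute [local irreducible] fS Yk Dk kap kk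

lemma Yk_mean (hk : Ker k A) (w : Wt ψ ψ' lam B) (hψ0 : ∀ α, 0 ≤ α → α ≤ lam → 0 ≤ ψ α)
    (N : ℕ) (hN : 1 ≤ N) (hL : 0 < L) (b T : ℝ) (hT : 0 ≤ T) :
    ∫ t in T..(2 * T), ∫ u in (0 : ℝ)..(lam * L), ψ (u / L) * ‖Yk k N L b t u‖ ^ 2 ≤
      (T + 8 * N * (1 + Real.log N)) * Mn k N b ψ L lam := by
  have hX : 0 ≤ lam * L := by have := w.l0; positivity
  have hc : Continuous (Function.uncurry fun t u : ℝ => ψ (u / L) * ‖Yk k N L b t u‖ ^ 2) :=
    ((w.contL L).comp continuous_snd).mul ((Yk_cont2 hk N L b).norm.pow 2)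
  have hc' : Continuous (Function.uncurry fun u t : ℝ => ψ (u / L) * ‖Yk k N L b t u‖ ^ 2) :=
    hc.comp continuous_swap
  rw [swapI (by linarith) hX hc]
  have hl := Real.log_natCast_nonneg N
  have hκ := kap_cont (b := b) hk
  have hi1 : Continuous fun u => ψ (u / L) * kap k b u ^ 2 := (w.contL L).mul (hκ.pow 2)
  have hi2 : ∀ p : ℕ, Continuous fun u => ψ (u / L) * kap k b (Real.log p - u) ^ 2 := fun p =>
    (w.contL L).mul ((kap_comp hk _).pow 2)
  have key : Mn k N b ψ L lam = ∫ u in (0 : ℝ)..(lam * L), ψ (u / L) *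
      (L ^ 2 * kap k b u ^ 2 + ∑ p ∈ PX N, aa p ^ 2 * kap k b (Real.log p - u) ^ 2) := by
    have e : ∀ u, ψ (u / L) *
      (L ^ 2 * kap k b u ^ 2 + ∑ p ∈ PX N, aa p ^ 2 * kap k b (Real.log p - u) ^ 2) =
      L ^ 2 * (ψ (u / L) * kap k b u ^ 2) +
        ∑ p ∈ PX N, aa p ^ 2 * (ψ (u / L) * kap k b (Real.log p - u) ^ 2) := by
      intro u
      rw [mul_add, Finset.mul_sum]
      congr 1
      · ring
      · refine Finset.sum_congr rfl fun p _ => ?_
        ring
    simp_rw [e]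
    have i2 : ∀ p ∈ PX N, IntervalIntegrable (fun u => aa p ^ 2 *
        (ψ (u / L) * kap k b (Real.log p - u) ^ 2)) volume 0 (lam * L) := fun p _ =>
      (continuous_const.mul (hi2 p)).intervalIntegrable _ _
    have i3 : IntervalIntegrable (fun u => ∑ p ∈ PX N, aa p ^ 2 *
        (ψ (u / L) * kap k b (Real.log p - u) ^ 2)) volume 0 (lam * L) :=
      (continuous_finsetSum _ fun p _ => continuous_const.mul (hi2 p)).intervalIntegrable _ _
    have i1 : IntervalIntegrable (fun u => L ^ 2 * (ψ (u / L) * kap k b u ^ 2)) volume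
        0 (lam * L) := (continuous_const.mul hi1).intervalIntegrable _ _
    rw [intervalIntegral.integral_add i1 i3,
      intervalIntegral.integral_const_mul, intervalIntegral.integral_finsetSum i2]
    unfold Mn diagW Bw
    congr 1
    refine Finset.sum_congr rfl fun p _ => ?_
    rw [intervalIntegral.integral_const_mul]
    congr 1
    refine intervalIntegral.integral_congr fun u _ => ?_
    ring
  rw [key, ← intervalIntegral.integral_const_mul]
  have hS : Continuous fun u => ∑ p ∈ PX N, aa p ^ 2 * kap k b (Real.log p - u) ^ 2 :=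
    continuous_finsetSum _ fun p _ => continuous_const.mul ((kap_comp hk _).pow 2)
  refine intervalIntegral.integral_mono_on hX
    ((intervalIntegral.continuous_parametric_intervalIntegral_of_continuous'
      hc' T (2 * T)).intervalIntegrable _ _)
    ((continuous_const.mul ((w.contL L).mul ((continuous_const.mul (hκ.pow 2)).add
      hS))).intervalIntegrable _ _) fun u hu => ?_
  rw [intervalIntegral.integral_const_mul]
  have h0 : 0 ≤ ψ (u / L) := hψ0 _ (div_nonneg hu.1 hL.le) (by rw [div_le_iff₀ hL]; exact hu.2)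
  have := Yk_ms (k := k) N hN L b u T hT
  calc ψ (u / L) * ∫ t in T..(2 * T), ‖Yk k N L b t u‖ ^ 2 ≤ ψ (u / L) *
      ((T + 8 * N * (1 + Real.log N)) *
      (L ^ 2 * kap k b u ^ 2 + ∑ p ∈ PX N, aa p ^ 2 * kap k b (Real.log p - u) ^ 2)) := by gcongr
    _ = _ := by ring

attribute [local irreducible] Mn Ey En

lemma Qs_up (h : Ker k A) (w : Wt ψ ψ' lam B) (hψ0 : ∀ α, 0 ≤ α → α ≤ lam → 0 ≤ ψ α)
    {U1 U2 t η C : ℝ} {N : ℕ} (hη : 0 < η)
    (hX : 0 ≤ lam * L) (hL : 0 < L)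
    (he : ∀ u, 0 ≤ u → u ≤ lam * L →
      ‖fS k U1 U2 b t u - Yk k N L b t u‖ ^ 2 ≤ C * A ^ 2 + 2 * ‖Dk k N b t (-u)‖ ^ 2) :
    Qs k ψ U1 U2 b L lam t ≤
      (1 + η) * (∫ u in (0 : ℝ)..(lam * L), ψ (u / L) * ‖Yk k N L b t u‖ ^ 2) +
        B * (1 + 1 / η) * (lam * L * (C * A ^ 2) + 2 * En k N b L lam t) := by
  have hψ := w.contL L
  have hB0 := w.B0
  have cf : Continuous fun u => fS k U1 U2 b t u :=
    (fS_cont2 h U1 U2 b).comp (by fun_prop : Continuous fun u : ℝ => ((t, u) : ℝ × ℝ))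
  have cY : Continuous fun u => Yk k N L b t u :=
    (Yk_cont2 h N L b).comp (by fun_prop : Continuous fun u : ℝ => ((t, u) : ℝ × ℝ))
  have cD : Continuous fun u => Dk k N b t (-u) := (Dk_cont h N t).comp continuous_neg
  have i1 : IntervalIntegrable (fun u => ψ (u / L) * ‖fS k U1 U2 b t u‖ ^ 2) volume 0 (lam * L) :=
    (hψ.mul (cf.norm.pow 2)).intervalIntegrable _ _
  have i2 : IntervalIntegrable (fun u => ψ (u / L) * ‖Yk k N L b t u‖ ^ 2) volume 0 (lam * L) :=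
    (hψ.mul (cY.norm.pow 2)).intervalIntegrable _ _
  have i4 : IntervalIntegrable (fun u => ‖Dk k N b t (-u)‖ ^ 2) volume 0 (lam * L) :=
    (cD.norm.pow 2).intervalIntegrable _ _
  have i5 : IntervalIntegrable (fun _ : ℝ => C * A ^ 2) volume 0 (lam * L) :=
    continuous_const.intervalIntegrable _ _
  have i6 : IntervalIntegrable (fun u => B * (1 + 1 / η) * (C * A ^ 2 +
    2 * ‖Dk k N b t (-u)‖ ^ 2)) volume 0 (lam * L) := (i5.add (i4.const_mul 2)).const_mul _
  unfold Qs En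
  calc ∫ u in (0 : ℝ)..(lam * L), ψ (u / L) * ‖fS k U1 U2 b t u‖ ^ 2 ≤
      ∫ u in (0 : ℝ)..(lam * L), ((1 + η) * (ψ (u / L) * ‖Yk k N L b t u‖ ^ 2) +
        B * (1 + 1 / η) * (C * A ^ 2 + 2 * ‖Dk k N b t (-u)‖ ^ 2)) := by
        refine intervalIntegral.integral_mono_on hX i1 ((i2.const_mul _).add i6) fun u hu => ?_
        have h0 : 0 ≤ ψ (u / L) := hψ0 _ (div_nonneg hu.1 hL.le)
          (by rw [div_le_iff₀ hL]; exact hu.2)
        have h1 := (le_abs_self _).trans (w.bdL hL hu.1 hu.2)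
        have h2 := (abs_le.1 (sq_diff_le (fS k U1 U2 b t u) (Yk k N L b t u) hη)).2
        have h3 := he u hu.1 hu.2
        have h4 : 0 ≤ (1 + 1 / η) * ‖fS k U1 U2 b t u - Yk k N L b t u‖ ^ 2 := by positivity
        calc ψ (u / L) * ‖fS k U1 U2 b t u‖ ^ 2 ≤ ψ (u / L) * ((1 + η) * ‖Yk k N L b t u‖ ^ 2 +
              (1 + 1 / η) * ‖fS k U1 U2 b t u - Yk k N L b t u‖ ^ 2) := by
              apply mul_le_mul_of_nonneg_left _ h0
              linarith
          _ = (1 + η) * (ψ (u / L) * ‖Yk k N L b t u‖ ^ 2) + ψ (u / L) *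
              ((1 + 1 / η) * ‖fS k U1 U2 b t u - Yk k N L b t u‖ ^ 2) := by ring
          _ ≤ (1 + η) * (ψ (u / L) * ‖Yk k N L b t u‖ ^ 2) + B *
              ((1 + 1 / η) * (C * A ^ 2 + 2 * ‖Dk k N b t (-u)‖ ^ 2)) := by gcongr
          _ = _ := by ring
    _ = _ := by
        have e5 : ∫ _ in (0 : ℝ)..(lam * L), C * A ^ 2 = lam * L * (C * A ^ 2) := by
          rw [intervalIntegral.integral_const, smul_eq_mul, sub_zero]
        have e6 : ∫ u in (0 : ℝ)..(lam * L), (1 + η) * (ψ (u / L) * ‖Yk k N L b t u‖ ^ 2) =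
            (1 + η) * ∫ u in (0 : ℝ)..(lam * L), ψ (u / L) * ‖Yk k N L b t u‖ ^ 2 :=
          intervalIntegral.integral_const_mul _ _
        have e7 : ∫ u in (0 : ℝ)..(lam * L), 2 * ‖Dk k N b t (-u)‖ ^ 2 =
            2 * ∫ u in (0 : ℝ)..(lam * L), ‖Dk k N b t (-u)‖ ^ 2 :=
          intervalIntegral.integral_const_mul _ _
        have e8 : ∫ u in (0 : ℝ)..(lam * L), B * (1 + 1 / η) * (C * A ^ 2 +
            2 * ‖Dk k N b t (-u)‖ ^ 2) =
            B * (1 + 1 / η) * ∫ u in (0 : ℝ)..(lam * L), (C * A ^ 2 + 2 * ‖Dk k N b t (-u)‖ ^ 2) :=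
          intervalIntegral.integral_const_mul _ _
        rw [intervalIntegral.integral_add (i2.const_mul _) i6, e6, e8,
          intervalIntegral.integral_add i5 (i4.const_mul 2), e5, e7]

theorem up_core (C0 : ℝ) (hC0 : 0 < C0) (μ1 μ2 : ℝ) (h0 : 0 < μ1) (h12 : μ1 < μ2)
    (h2 : μ2 < 1) :
    ∃ K T0 : ℝ, 0 < K ∧ 10 ≤ T0 ∧ ∀ (k : ℝ → ℝ) (A : ℝ), Ker k A →
      ∀ (ψ ψ' : ℝ → ℝ) (lam B : ℝ), Wt ψ ψ' lam B → (∀ α, 0 ≤ α → α ≤ lam → 0 ≤ ψ α) →
      ∀ T : ℝ, T0 ≤ T → ∀ U1 U2 : ℝ,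
      EFP C0 T U1 U2 → ∀ b η : ℝ, 1 ≤ b → b ≤ lam * Real.log T →
      lam * Real.log T + b ≤ μ1 * Real.log T → 0 < η →
      ∫ t in (T + Real.log T)..(2 * T - Real.log T), Qs k ψ U1 U2 b (Real.log T) lam t ≤
        (1 + η) * ((T + 8 * ((⌊T ^ μ2⌋₊ : ℕ) : ℝ) * (1 + Real.log ((⌊T ^ μ2⌋₊ : ℕ) : ℝ))) *
          (nk k / b * (Real.log T ^ 2 * (ψ 0 / 2 + ∫ α in (0 : ℝ)..lam, α * ψ α)) +
            K * (B * A ^ 2) * (Real.log T + Real.log T ^ 2 / b ^ 2))) +
        K * (1 + 1 / η) * B * A ^ 2 * (T * Real.log T) := by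
  obtain ⟨T2, hT2, hN⟩ := Nfacts μ1 μ2 h0 h12 h2
  obtain ⟨C, hC, hm⟩ := mainW
  obtain ⟨K3, T4, hK3, hT4, hn⟩ := neg_mean μ2 (h0.trans h12) (by linarith)
  obtain ⟨C4, hC4, herr⟩ := err_pt C0 hC0 μ1 μ2 h0 h12 (by linarith)
  refine ⟨C + C4 + 2 * K3, max T2 T4, by positivity, hT2.trans (le_max_left _ _),
    fun k A hk ψ ψ' lam B w hψ0 T hT U1 U2 hEF b η hb1 hbX hXb hη => ?_⟩
  have hTT2 : T2 ≤ T := (le_max_left _ _).trans hT
  have hTT4 : T4 ≤ T := (le_max_right _ _).trans hT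
  have hT10 : 10 ≤ T := hT2.trans hTT2
  have hTpos : 0 < T := by linarith
  obtain ⟨hL2, hN1, hNle, hN2, hN3, hN4⟩ := hN T hTT2
  have hl0 := w.l0
  have hB0 := w.B0
  have hA := hk.A0
  have hA1 := hk.A1
  have hb : 0 < b := by linarith
  have hL0 : 0 < Real.log T := by linarith
  have f3 := hn k A hk T hTT4 b (lam * Real.log T) hb1 (by linarith) (by positivity)
  have f4 := hm k A hk ⌊T ^ μ2⌋₊ b (Real.log T) lam B ψ ψ' w hb1 (by linarith) hbX hN1
    (by linarith) hN4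
  have f5 := herr k A hk T U1 U2 hEF
  have hlogle : 2 * Real.log T ≤ T := by
    have h3 := Real.log_le_sub_one_of_pos (x := T / 4) (by positivity)
    rw [Real.log_div (by positivity) (by norm_num)] at h3
    have h4 : Real.log 4 ≤ 1.4 := by
      have : (4 : ℝ) = 2 ^ 2 := by norm_num
      rw [this, Real.log_pow]
      have := Real.log_two_lt_d9
      push_cast
      linarith
    linarith
  set L := Real.log T with hL
  set N := ⌊T ^ μ2⌋₊ with hNdef
  clear_value N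
  have f6 := Yk_mean hk w hψ0 N hN1 hL0 b T hTpos.le
  have hX : 0 ≤ lam * L := by positivity
  have hXL : lam * L ≤ L := by have := w.l1; nlinarith
  set mt := nk k / b * (L ^ 2 * (ψ 0 / 2 + ∫ α in (0 : ℝ)..lam, α * ψ α)) with hmt
  clear_value mt
  have cQ := Qs_cont (b := b) (L := L) hk w U1 U2
  have cN := En_cont hk N b L lam
  set G : ℝ → ℝ := fun t => ∫ u in (0 : ℝ)..(lam * L), ψ (u / L) * ‖Yk k N L b t u‖ ^ 2 with hG
  have cG : Continuous G := by
    apply intervalIntegral.continuous_parametric_intervalIntegral_of_continuous'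
    exact ((w.contL L).comp continuous_snd).mul ((Yk_cont2 hk N L b).norm.pow 2)
  have hG0 : ∀ t, 0 ≤ G t := fun t => intervalIntegral.integral_nonneg hX fun u hu =>
    mul_nonneg (hψ0 _ (div_nonneg hu.1 hL0.le) (by rw [div_le_iff₀ hL0]; exact hu.2))
      (sq_nonneg _)
  have f3' : ∫ t in T..(2 * T), En k N b L lam t ≤ K3 * A ^ 2 * T * (lam * L) := by
    have e : ∀ t, En k N b L lam t = ∫ u in (0 : ℝ)..(lam * L), ‖Dk k N b t (-u)‖ ^ 2 := by
      intro t
      unfold En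
      rfl
    simp_rw [e]
    exact f3
  set R : ℝ → ℝ := fun t => (1 + η) * G t + (B * (1 + 1 / η) * 2) * En k N b L lam t +
    B * (1 + 1 / η) * (lam * L * (C4 * A ^ 2)) with hR
  have hpt : ∀ t, T + L ≤ t → t ≤ 2 * T - L → Qs k ψ U1 U2 b L lam t ≤ R t := by
    intro t ht1 ht2
    refine (Qs_up (b := b) (U1 := U1) (U2 := U2) (t := t) (N := N) hk w hψ0 hη hX hL0
      (C := C4) (fun u hu0 hu1 => f5 t ht1 ht2 N hN2 b u hb (by
        rw [abs_of_nonneg hu0]; linarith))).trans (le_of_eq ?_)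
    simp only [hR, hG]
    ring
  have hR0 : ∀ t, 0 ≤ R t := by
    intro t
    have e1 := hG0 t
    have e2 : 0 ≤ En k N b L lam t := by
      unfold En
      exact intervalIntegral.integral_nonneg hX fun u _ => sq_nonneg _
    simp only [hR]
    positivity
  have cR : Continuous R := by
    simp only [hR]
    exact ((continuous_const.mul cG).add (continuous_const.mul cN)).add continuous_const
  have s1 : ∫ t in (T + L)..(2 * T - L), Qs k ψ U1 U2 b L lam t ≤ ∫ t in T..(2 * T), R t := by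
    refine le_trans ?_ (restrict_le cR hR0 hL0.le hlogle)
    refine intervalIntegral.integral_mono_on (by linarith)
      (cQ.intervalIntegrable _ _) (cR.intervalIntegrable _ _) fun t ht => hpt t ht.1 ht.2
  have i1 : IntervalIntegrable (fun t => (1 + η) * G t) volume T (2 * T) :=
    (continuous_const.mul cG).intervalIntegrable _ _
  have i2 : IntervalIntegrable (fun t => (B * (1 + 1 / η) * 2) * En k N b L lam t) volume
    T (2 * T) := (continuous_const.mul cN).intervalIntegrable _ _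
  have i4 : IntervalIntegrable (fun _ : ℝ => B * (1 + 1 / η) * (lam * L * (C4 * A ^ 2)))
    volume T (2 * T) := continuous_const.intervalIntegrable _ _
  have s2 : ∫ t in T..(2 * T), R t = (1 + η) * (∫ t in T..(2 * T), G t) +
      (B * (1 + 1 / η) * 2) * (∫ t in T..(2 * T), En k N b L lam t) +
      T * (B * (1 + 1 / η) * (lam * L * (C4 * A ^ 2))) := by
    have j1 : ∫ t in T..(2 * T), (1 + η) * G t = (1 + η) * ∫ t in T..(2 * T), G t :=
      intervalIntegral.integral_const_mul _ _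
    have j2 : ∫ t in T..(2 * T), (B * (1 + 1 / η) * 2) * En k N b L lam t =
        (B * (1 + 1 / η) * 2) * ∫ t in T..(2 * T), En k N b L lam t :=
      intervalIntegral.integral_const_mul _ _
    have j4 : ∫ _ in T..(2 * T), B * (1 + 1 / η) * (lam * L * (C4 * A ^ 2)) =
        T * (B * (1 + 1 / η) * (lam * L * (C4 * A ^ 2))) := by
      rw [intervalIntegral.integral_const, smul_eq_mul]
      ring
    simp only [hR]
    rw [intervalIntegral.integral_add (i1.add i2) i4, intervalIntegral.integral_add i1 i2, j1, j2,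
      j4]
  refine s1.trans ?_
  rw [s2]
  have hMn : Mn k N b ψ L lam ≤ mt + C * (B * A ^ 2) * (L + L ^ 2 / b ^ 2) := by
    have : Mn k N b ψ L lam = L ^ 2 * (∫ u in (0 : ℝ)..(lam * L), ψ (u / L) * kap k b u ^ 2) +
      diagW k N b (fun u => ψ (u / L)) 0 (lam * L) := by unfold Mn; rfl
    rw [this]
    linarith [(abs_le.1 f4).2]
  have hlN := Real.log_natCast_nonneg N
  have g1 : (1 + η) * (∫ t in T..(2 * T), G t) ≤ (1 + η) * ((T + 8 * N * (1 + Real.log N)) *
      (mt + (C + C4 + 2 * K3) * (B * A ^ 2) * (L + L ^ 2 / b ^ 2))) := by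
    have hf : (∫ t in T..(2 * T), G t) ≤ (T + 8 * N * (1 + Real.log N)) *
      (mt + (C + C4 + 2 * K3) * (B * A ^ 2) * (L + L ^ 2 / b ^ 2)) := by
      refine f6.trans ?_
      apply mul_le_mul_of_nonneg_left _ (by positivity)
      refine hMn.trans ?_
      have : C ≤ C + C4 + 2 * K3 := by linarith
      gcongr
    gcongr
  have g2 : (B * (1 + 1 / η) * 2) * (∫ t in T..(2 * T), En k N b L lam t) ≤
      2 * K3 * (1 + 1 / η) * B * A ^ 2 * (T * L) := by
    calc (B * (1 + 1 / η) * 2) * (∫ t in T..(2 * T), En k N b L lam t) ≤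
        (B * (1 + 1 / η) * 2) * (K3 * A ^ 2 * T * (lam * L)) := by gcongr
      _ ≤ (B * (1 + 1 / η) * 2) * (K3 * A ^ 2 * T * L) := by gcongr
      _ = _ := by ring
  have g3 : T * (B * (1 + 1 / η) * (lam * L * (C4 * A ^ 2))) ≤
      C4 * (1 + 1 / η) * B * A ^ 2 * (T * L) := by
    calc T * (B * (1 + 1 / η) * (lam * L * (C4 * A ^ 2))) ≤
        T * (B * (1 + 1 / η) * (L * (C4 * A ^ 2))) := by gcongr
      _ = _ := by ring
  have g4 : 0 ≤ C * (1 + 1 / η) * B * A ^ 2 * (T * L) := by positivity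
  have e : (C + C4 + 2 * K3) * (1 + 1 / η) * B * A ^ 2 * (T * L) =
    C * (1 + 1 / η) * B * A ^ 2 * (T * L) + C4 * (1 + 1 / η) * B * A ^ 2 * (T * L) +
    2 * K3 * (1 + 1 / η) * B * A ^ 2 * (T * L) := by ring
  rw [e]
  linarith

end Pool.Agent.Helper92.FM
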