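import Pool.Agent.Helper92.FM.Ker
import Pool.Agent.Helper92.FM.Ze
import Pool.Agent.Helper92.FM.Dg2
import Pool.Agent.Helper92.FM.Lo
import Pool.Agent.Helper92.FM.Lo2
import Pool.Agent.Helper92.FM.Up

set_option autoImplicit false

/-! The mean of the local pair sums of bandwidth less than `1`: final form. -/

open Complex Filter Topology Set MeasureTheory
open scoped ComplexConjugate

namespace Pool.Agent.Helper92.FM

open Pool.Agent.TH800.MS

lemma N_small (μ2 : ℝ) (h0 : 0 < μ2) (h2 : μ2 < 1) (η : ℝ) (hη : 0 < η) : ∃ T0 : ℝ, 10 ≤ T0 ∧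
    ∀ T : ℝ, T0 ≤ T → 8 * ((⌊T ^ μ2⌋₊ : ℕ) : ℝ) * (1 + Real.log ((⌊T ^ μ2⌋₊ : ℕ) : ℝ)) ≤ η * T := by
  have h3 : 0 < 1 - μ2 := by linarith
  have hlog := (isLittleO_log_rpow_atTop h3).bound (show (0 : ℝ) < η / 8 by positivity)
  obtain ⟨T1, hT1⟩ := hlog.exists_forall_of_atTop
  obtain ⟨T2, hT2, hN⟩ := Nfacts (μ2 / 2) μ2 (by positivity) (by linarith) h2
  refine ⟨max T1 T2, hT2.trans (le_max_right _ _), fun T hT => ?_⟩
  obtain ⟨hL2, hN1, hNle, -, -, hN4⟩ := hN T ((le_max_right _ _).trans hT)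
  have hT10 : 10 ≤ T := hT2.trans ((le_max_right _ _).trans hT)
  have hTpos : 0 < T := by linarith
  have h1 := hT1 T ((le_max_left _ _).trans hT)
  rw [Real.norm_of_nonneg (by linarith), Real.norm_of_nonneg (by positivity)] at h1
  set N := ⌊T ^ μ2⌋₊ with hNdef
  have hl := Real.log_natCast_nonneg N
  calc 8 * (N : ℝ) * (1 + Real.log N) ≤ 8 * T ^ μ2 * Real.log T := by gcongr; linarith
    _ ≤ 8 * T ^ μ2 * (η / 8 * T ^ (1 - μ2)) := by gcongr
    _ = η * (T ^ μ2 * T ^ (1 - μ2)) := by ring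
    _ = η * T := by
        rw [← Real.rpow_add hTpos]
        simp

/-- **the mean of the local pair sums** of bandwidth less than `1` -/
theorem up (C0 : ℝ) (hC0 : 0 < C0) (k : ℝ → ℝ) (A : ℝ) (hk : Ker k A) (ψ ψ' : ℝ → ℝ)
    (lam B : ℝ) (w : Wt ψ ψ' lam B) (hψ0 : ∀ α, 0 ≤ α → α ≤ lam → 0 ≤ ψ α) (hlam : lam < 1)
    (ε : ℝ) (hε : 0 < ε) :
    ∃ β0 : ℝ, 0 < β0 ∧ ∀ β : ℝ, 0 < β → β ≤ β0 → ∃ T0 : ℝ, 10 ≤ T0 ∧ ∀ T : ℝ, T0 ≤ T →
      ∀ U1 U2 : ℝ, EFP C0 T U1 U2 →
      ∫ t in (T + Real.log T)..(2 * T - Real.log T),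
        Qs k ψ U1 U2 (β * Real.log T) (Real.log T) lam t ≤
        T * (Real.log T / β) * (nk k * (ψ 0 / 2 + ∫ α in (0 : ℝ)..lam, α * ψ α) + ε) := by
  have hl0 := w.l0
  have hB0 := w.B0
  have hA := hk.A0
  set μ1 := (lam + (lam + 1) / 2) / 2 with hμ1
  set μ2 := (lam + 1) / 2 with hμ2
  have m1 : lam < μ1 := by rw [hμ1]; linarith
  have m2 : μ1 < μ2 := by rw [hμ1, hμ2]; linarith
  have m3 : μ2 < 1 := by rw [hμ2]; linarith
  obtain ⟨K, T1, hK, hT1, h⟩ := up_core C0 hC0 μ1 μ2 (by linarith) m2 m3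
  set m := nk k * (ψ 0 / 2 + ∫ α in (0 : ℝ)..lam, α * ψ α) with hm
  have hm0 : 0 ≤ m := by
    have h1 := nk_nonneg k
    have h2 : 0 ≤ ∫ α in (0 : ℝ)..lam, α * ψ α :=
      intervalIntegral.integral_nonneg hl0.le fun u hu => mul_nonneg hu.1 (hψ0 u hu.1 hu.2)
    have h3 := hψ0 0 le_rfl hl0.le
    rw [hm]
    positivity
  set D := K * (B * A ^ 2) + 1 with hD
  have hD1 : K * (B * A ^ 2) ≤ D := by rw [hD]; linarith
  have hD00 : 0 ≤ K * (B * A ^ 2) := by positivity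
  have hD0 : 0 < D := by rw [hD]; linarith
  set η := min 1 (ε / (12 * (m + 1))) with hη
  have hη0 : 0 < η := by rw [hη]; positivity
  have hη1 : η ≤ 1 := min_le_left _ _
  have hη2 : η ≤ ε / (12 * (m + 1)) := min_le_right _ _
  set β0 := min (min lam (μ1 - lam)) (min (ε / (16 * D)) (ε / (4 * D * (1 + 1 / η)))) with hβ0
  have hβ00 : 0 < β0 := by
    rw [hβ0]
    have : 0 < μ1 - lam := by linarith
    positivity
  refine ⟨β0, hβ00, fun β hβ hββ => ?_⟩
  have b1 : β ≤ lam := hββ.trans ((min_le_left _ _).trans (min_le_left _ _))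
  have b2 : β ≤ μ1 - lam := hββ.trans ((min_le_left _ _).trans (min_le_right _ _))
  have b3 : β ≤ ε / (16 * D) := hββ.trans ((min_le_right _ _).trans (min_le_left _ _))
  have b4 : β ≤ ε / (4 * D * (1 + 1 / η)) :=
    hββ.trans ((min_le_right _ _).trans (min_le_right _ _))
  have hev : ∀ᶠ T : ℝ in atTop, max (1 / β) (16 * D / (β * ε)) ≤ Real.log T :=
    Real.tendsto_log_atTop.eventually_ge_atTop _
  obtain ⟨T2, hT2⟩ := hev.exists_forall_of_atTop
  obtain ⟨T3, hT3, hN3⟩ := N_small μ2 (by linarith) m3 η hη0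
  refine ⟨max (max T1 T2) T3, hT1.trans ((le_max_left _ _).trans (le_max_left _ _)),
    fun T hT U1 U2 hE => ?_⟩
  have hTT1 : T1 ≤ T := ((le_max_left _ _).trans (le_max_left _ _)).trans hT
  have hTT2 : T2 ≤ T := ((le_max_right _ _).trans (le_max_left _ _)).trans hT
  have hTT3 : T3 ≤ T := (le_max_right _ _).trans hT
  have hT10 : 10 ≤ T := hT1.trans hTT1
  have hTpos : 0 < T := by linarith
  have hLb := hT2 T hTT2
  have hN := hN3 T hTT3
  have hL1 : 1 / β ≤ Real.log T := (le_max_left _ _).trans hLb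
  have hL2 : 16 * D / (β * ε) ≤ Real.log T := (le_max_right _ _).trans hLb
  have hLpos : 0 < Real.log T := Real.log_pos (by linarith)
  have h3 := h k A hk ψ ψ' lam B w hψ0 T hTT1 U1 U2 hE (β * Real.log T) η
    (by rw [div_le_iff₀ hβ] at hL1; linarith) (by gcongr) (by nlinarith) hη0
  set L := Real.log T with hL
  set N : ℝ := ((⌊T ^ μ2⌋₊ : ℕ) : ℝ) with hNdef
  clear_value N
  refine h3.trans ?_
  have e1 : nk k / (β * L) * (L ^ 2 * (ψ 0 / 2 + ∫ α in (0 : ℝ)..lam, α * ψ α)) = L / β * m := by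
    rw [hm]
    field_simp
  have e2 : K * (B * A ^ 2) * (L + L ^ 2 / (β * L) ^ 2) =
      L / β * (K * (B * A ^ 2) * (β + 1 / (β * L))) := by
    field_simp
  have e3 : K * (1 + 1 / η) * B * A ^ 2 * (T * L) =
      T * (L / β) * (K * (B * A ^ 2) * ((1 + 1 / η) * β)) := by
    field_simp
  rw [e1, e2, e3, ← mul_add]
  set y := K * (B * A ^ 2) * (β + 1 / (β * L)) with hy
  have hy0 : 0 ≤ y := by rw [hy]; positivity
  have hyb : y ≤ ε / 8 := by
    have g1 : D * β ≤ ε / 16 := by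
      rw [le_div_iff₀ (by positivity)] at b3
      linarith
    have g2 : D * (1 / (β * L)) ≤ ε / 16 := by
      rw [div_le_iff₀ (by positivity)] at hL2
      rw [mul_one_div, div_le_div_iff₀ (by positivity) (by norm_num)]
      linarith
    have g3 : y ≤ D * (β + 1 / (β * L)) := by rw [hy]; gcongr
    have g4 : D * (β + 1 / (β * L)) = D * β + D * (1 / (β * L)) := by ring
    linarith
  have hz : K * (B * A ^ 2) * ((1 + 1 / η) * β) ≤ ε / 4 := by
    have h1η : 0 < 1 + 1 / η := by positivity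
    rw [le_div_iff₀ (by positivity)] at b4
    have : K * (B * A ^ 2) * ((1 + 1 / η) * β) ≤ D * ((1 + 1 / η) * β) := by gcongr
    linarith
  have hηm : 3 * η * m ≤ ε / 4 := by
    rw [le_div_iff₀ (by positivity)] at hη2
    nlinarith
  have hηsq : η ^ 2 ≤ η := by nlinarith
  have hP : 0 < T * (L / β) := by positivity
  have hmy : 0 ≤ m + y := by linarith
  have s1 : (1 + η) * ((T + 8 * N * (1 + Real.log N)) * (L / β * (m + y))) ≤
      T * (L / β) * ((1 + 3 * η) * (m + y)) := by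
    have hLb0 : 0 ≤ L / β * (m + y) := by positivity
    calc (1 + η) * ((T + 8 * N * (1 + Real.log N)) * (L / β * (m + y))) ≤
        (1 + η) * ((T + η * T) * (L / β * (m + y))) := by gcongr
      _ = T * (L / β) * ((1 + 2 * η + η ^ 2) * (m + y)) := by ring
      _ ≤ _ := by
          apply mul_le_mul_of_nonneg_left _ hP.le
          apply mul_le_mul_of_nonneg_right _ hmy
          linarith
  have s2 : (1 + 3 * η) * (m + y) + K * (B * A ^ 2) * ((1 + 1 / η) * β) ≤ m + ε := by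
    have : (1 + 3 * η) * y ≤ 4 * y := by
      apply mul_le_mul_of_nonneg_right _ hy0
      linarith
    have e : (1 + 3 * η) * (m + y) = m + 3 * η * m + (1 + 3 * η) * y := by ring
    linarith
  calc _ ≤ T * (L / β) * ((1 + 3 * η) * (m + y)) +
        T * (L / β) * (K * (B * A ^ 2) * ((1 + 1 / η) * β)) := by linarith
    _ = T * (L / β) * ((1 + 3 * η) * (m + y) + K * (B * A ^ 2) * ((1 + 1 / η) * β)) := by ring
    _ ≤ _ := by gcongr

end Pool.Agent.Helper92.FM
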