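import Pool.Agent.Helper92.FM.Av2
import Pool.Agent.Helper92.FM.Lin
import Pool.Agent.Helper92.FM.Ker
import Pool.Agent.Helper92.FM.Ze
import Pool.Agent.Helper92.FM.Sd
import Pool.Agent.Helper92.FM.Wn1
import Pool.Agent.Helper92.FM.Wn3
import Pool.Agent.Helper92.FM.Wn4
import Pool.Agent.Helper92.FM.Dg2
import Pool.Agent.Helper92.FM.Ng
import Pool.Agent.Helper92.FM.Lo2
import Pool.Agent.Helper92.FM.Lo3
import Pool.Agent.Helper92.FM.Up2
import Pool.Agent.Helper92.FM.Lt1
import Pool.Agent.Helper92.FM.Lt2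
import Pool.Graph.R_seed8.H295R2.SI.Defs

set_option autoImplicit false

/-! The combination of the local inequality with the moments. -/

open Complex Filter Topology Set MeasureTheory
open scoped BigOperators ComplexConjugate

namespace Pool.Agent.Helper92.FM

open H370 (Zf good_zeta mult zz zz_re zz_im mem_Zf zset)
open H295SI (kapG Win KSq)
open Pool.Agent.TH800.MS

/-- the deterministic part of the pair sums -/
noncomputable def Cl (ψ : ℝ → ℝ) (h lam : ℝ) : ℝ :=
  2 / h * (ψ 0 / 2 + ∫ α in (0 : ℝ)..lam, α * ψ α)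

/-- the remaining part of the pair sums -/
noncomputable def Et (ψ : ℝ → ℝ) (h lam : ℝ) : ℝ := 2 / h * ∫ α in lam..h, α * ψ α

variable {w R ψ ψ' : ℝ → ℝ} {h lam B : ℝ}

attribute [local irreducible] fS

lemma X_Qs (hh : 0 < h) (hRψ : ∀ α, 0 ≤ α → α ≤ 1 → R α = ψ (h * α)) {L : ℝ} (hL : 0 < L)
    (k : ℝ → ℝ) (U1 U2 b t : ℝ) :
    2 * ∫ α in (0 : ℝ)..1, R α * ‖fS k U1 U2 b t (h * L * α)‖ ^ 2 =
      2 / (h * L) * Qs k ψ U1 U2 b L h t := by
  have hhL : 0 < h * L := by positivity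
  have h1 : ∫ α in (0 : ℝ)..1, R α * ‖fS k U1 U2 b t (h * L * α)‖ ^ 2 =
      ∫ α in (0 : ℝ)..1, (fun u => ψ (u / L) * ‖fS k U1 U2 b t u‖ ^ 2) (h * L * α) := by
    refine intervalIntegral.integral_congr fun α hα => ?_
    rw [Set.uIcc_of_le zero_le_one] at hα
    show R α * ‖fS k U1 U2 b t (h * L * α)‖ ^ 2 =
      ψ (h * L * α / L) * ‖fS k U1 U2 b t (h * L * α)‖ ^ 2
    rw [hRψ α hα.1 hα.2]
    congr 2
    field_simp
  have h2 := intervalIntegral.integral_comp_mul_left (a := 0) (b := 1)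
    (fun u : ℝ => ψ (u / L) * ‖fS k U1 U2 b t u‖ ^ 2) hhL.ne'
  rw [mul_zero, mul_one, smul_eq_mul] at h2
  rw [h1]
  refine (congrArg (fun x : ℝ => 2 * x) h2).trans ?_
  show 2 * ((h * L)⁻¹ * ∫ u in (0 : ℝ)..(h * L), ψ (u / L) * ‖fS k U1 U2 b t u‖ ^ 2) =
    2 / (h * L) * Qs k ψ U1 U2 b L h t
  unfold Qs
  ring

lemma Qr_nonneg (w' : Wt ψ ψ' h B) (hψ0 : ∀ α, 0 ≤ α → α ≤ h → 0 ≤ ψ α) (hlam : 0 < lam)
    (hlh : lam ≤ h) {k : ℝ → ℝ} {A : ℝ} (hk : Ker k A) {L : ℝ} (hL : 0 < L) (U1 U2 b t : ℝ) :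
    Qs k ψ U1 U2 b L lam t ≤ Qs k ψ U1 U2 b L h t := by
  unfold Qs
  have hc : Continuous fun u : ℝ => ψ (u / L) * ‖fS k U1 U2 b t u‖ ^ 2 := by
    have h1 := w'.cont
    have h2 : Continuous fun u : ℝ => fS k U1 U2 b t u :=
      (fS_cont2 hk U1 U2 b).comp (by fun_prop : Continuous fun u : ℝ => ((t, u) : ℝ × ℝ))
    exact (h1.comp (by fun_prop)).mul (h2.norm.pow 2)
  rw [← intervalIntegral.integral_add_adjacent_intervals (a := 0) (b := lam * L) (c := h * L)
    (hc.intervalIntegrable _ _) (hc.intervalIntegrable _ _)]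
  have h3 : 0 ≤ ∫ u in (lam * L)..(h * L), ψ (u / L) * ‖fS k U1 U2 b t u‖ ^ 2 := by
    apply intervalIntegral.integral_nonneg (by gcongr)
    intro u hu
    have h4 : 0 ≤ u / L := by
      have : 0 ≤ lam * L := by positivity
      have := this.trans hu.1
      positivity
    have h5 : u / L ≤ h := by
      rw [div_le_iff₀ hL]
      exact hu.2
    have := hψ0 _ h4 h5
    positivity
  linarith

attribute [local irreducible] Dk Qs Er vS Om

lemma comb3 {F P Q G : ℝ → ℝ} (hF : Continuous F) (hP : Continuous P) (hQ : Continuous Q)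
    (hG : Continuous G) (c a b : ℝ) :
    ∫ t in a..b, (2 * F t + c * (P t - Q t) + c * G t) =
      2 * (∫ t in a..b, F t) + c * ((∫ t in a..b, P t) - ∫ t in a..b, Q t) +
        c * ∫ t in a..b, G t := by
  have i1 : IntervalIntegrable (fun t => 2 * F t) volume a b :=
    (continuous_const.mul hF).intervalIntegrable _ _
  have i2 : IntervalIntegrable (fun t => c * (P t - Q t)) volume a b :=
    (continuous_const.mul (hP.sub hQ)).intervalIntegrable _ _
  have i3 : IntervalIntegrable (fun t => c * G t) volume a b :=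
    (continuous_const.mul hG).intervalIntegrable _ _
  have e1 := intervalIntegral.integral_add (i1.add i2) i3
  have e2 := intervalIntegral.integral_add i1 i2
  have e3 : ∫ t in a..b, 2 * F t = 2 * ∫ t in a..b, F t := intervalIntegral.integral_const_mul _ _
  have e4 : ∫ t in a..b, c * (P t - Q t) = c * ∫ t in a..b, (P t - Q t) :=
    intervalIntegral.integral_const_mul _ _
  have e5 : ∫ t in a..b, c * G t = c * ∫ t in a..b, G t := intervalIntegral.integral_const_mul _ _
  have e6 : ∫ t in a..b, (P t - Q t) = (∫ t in a..b, P t) - ∫ t in a..b, Q t :=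
    intervalIntegral.integral_sub (hP.intervalIntegrable _ _) (hQ.intervalIntegrable _ _)
  rw [← e3, ← e6, ← e4, ← e5]
  rw [← e2]
  exact e1

/-- the combination, for the windows of the kernel -/
theorem core_maj (C0 : ℝ) (hC0 : 0 < C0) (hw : Win w) (hR : CR R) (hK : KSq w R)
    (w' : Wt ψ ψ' h B) (wl : Wt ψ ψ' lam B) (hψ0 : ∀ α, 0 ≤ α → α ≤ h → 0 ≤ ψ α)
    (hRψ : ∀ α, 0 ≤ α → α ≤ 1 → R α = ψ (h * α)) (hh1 : h < 1) (hlam2 : lam < 1 / 2)
    (hlh : lam ≤ h) (hcl : 0 ≤ Cl ψ h lam) (ε : ℝ) (hε : 0 < ε) :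
    ∃ r0 : ℝ, 1 ≤ r0 ∧ ∀ r : ℝ, r0 ≤ r → ∃ β0 : ℝ, 0 < β0 ∧ ∀ β : ℝ, 0 < β → β ≤ β0 →
      ∃ T0 : ℝ, 10 ≤ T0 ∧ ∀ T : ℝ, T0 ≤ T → ∀ U1 U2 : ℝ, EFP C0 T U1 U2 →
      ∃ M : ℝ → ℝ, Integrable M ∧ (∀ t, 0 ≤ M t) ∧
        (∀ t, T + Real.log T ≤ t → t ≤ 2 * T - Real.log T →
          (2 - Cl ψ h lam) * (k1 (r ^ 2) 0 / β) -
            vS U1 U2 (β * Real.log T) (r ^ 2 - r) t ≤ M t) ∧
        ∫ t, M t ≤ Et ψ h lam * (k1 (r ^ 2) 0 / β) * T + ε * (r ^ 2 * (T / β)) := by
  have hh0 : 0 < h := w'.l0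
  have hlam0 : 0 < lam := wl.l0
  obtain ⟨K, hK0, hlin⟩ := lin_mean C0 hC0
  obtain ⟨r1, hr11, hEr⟩ := Er_mean h hh0.le hh1 (ε / 4) (by positivity)
  have hI := I0_pos
  refine ⟨max r1 (34 / I0), hr11.trans (le_max_left _ _), fun r hr => ?_⟩
  have hr1 : 1 ≤ r := hr11.trans ((le_max_left _ _).trans hr)
  have hr0 : 0 < r := by linarith
  have hrI : 34 / I0 / r ≤ 1 := by
    rw [div_le_one hr0]
    exact (le_max_right _ _).trans hr
  obtain ⟨β1, hβ1, hEr1⟩ := hEr r ((le_max_left _ _).trans hr)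
  set n : ℝ := r ^ 2 with hn
  have hn0 : 0 ≤ n := by positivity
  have hn1 : 1 ≤ n := by nlinarith
  have hrn : r ≤ n := by nlinarith
  have hk := ker1 hn0
  obtain ⟨hnk, -⟩ := k1_facts (n := n) hr0 rfl hrn hrI
  have hnk0 := nk_nonneg (k1 n)
  set A := A1 n with hA
  have hA0 := hk.A0
  set ε1 := ε * h / 24 with hε1
  have hε10 : 0 < ε1 := by positivity
  obtain ⟨β2, hβ2, hlow⟩ := low C0 hC0 (k1 n) A hk ψ ψ' lam B wl hlam2 ε1 hε10
  obtain ⟨β3, hβ3, hup⟩ := up C0 hC0 (k1 n) A hk ψ ψ' h B w' hψ0 hh1 ε1 hε10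
  refine ⟨min (min β1 β2) (min (min β3 (1 / 8)) (ε / (8 * (K * A ^ 2)))), by positivity,
    fun β hβ hβ0 => ?_⟩
  obtain ⟨T1, hT1, hEr2⟩ := hEr1 β hβ (hβ0.trans ((min_le_left _ _).trans (min_le_left _ _)))
  obtain ⟨T2, hT2, hlow2⟩ := hlow β hβ (hβ0.trans ((min_le_left _ _).trans (min_le_right _ _)))
  obtain ⟨T3, hT3, hup2⟩ := hup β hβ (hβ0.trans ((min_le_right _ _).trans
    ((min_le_left _ _).trans (min_le_left _ _))))
  obtain ⟨T4, hT4, hlin2⟩ := hlin (k1 n) A hk β hβ (hβ0.trans ((min_le_right _ _).trans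
    ((min_le_left _ _).trans (min_le_right _ _))))
  have hβ5 : β ≤ ε / (8 * (K * A ^ 2)) := hβ0.trans ((min_le_right _ _).trans (min_le_right _ _))
  have hβ5' : 2 * (K * A ^ 2) ≤ ε / 4 * (1 / β) := by
    rw [le_div_iff₀ (by positivity)] at hβ5
    rw [mul_one_div, le_div_iff₀ hβ]
    linarith
  set m : ℝ := k1 n 0 / β with hm
  set J : ℝ := ψ 0 / 2 + ∫ α in (0 : ℝ)..lam, α * ψ α with hJ
  set J' : ℝ := ψ 0 / 2 + ∫ α in (0 : ℝ)..h, α * ψ α with hJ'
  have hJJ : J' - J = ∫ α in lam..h, α * ψ α := by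
    have hc : Continuous fun α : ℝ => α * ψ α := continuous_id.mul w'.cont
    have := intervalIntegral.integral_add_adjacent_intervals (a := 0) (b := lam) (c := h)
      (hc.intervalIntegrable _ _) (hc.intervalIntegrable _ _) (μ := volume)
    rw [hJ', hJ, ← this]
    ring
  have hCl : Cl ψ h lam = 2 / h * J := rfl
  have hEt : Et ψ h lam = 2 / h * (J' - J) := by rw [hJJ]; rfl
  have hJ0 : 0 ≤ J := by
    rw [hCl] at hcl
    have : 0 < 2 / h := by positivity
    exact nonneg_of_mul_nonneg_right hcl this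
  have hEt0 : 0 ≤ Et ψ h lam := by
    unfold Et
    have : 0 ≤ ∫ α in lam..h, α * ψ α := by
      apply intervalIntegral.integral_nonneg hlh
      intro α hα
      have h1 : 0 ≤ α := hlam0.le.trans hα.1
      have := hψ0 α h1 hα.2
      positivity
    positivity
  have hev : ∀ᶠ T : ℝ in atTop, max 2 (16 * (2 / h * (nk (k1 n) * J)) / ε) * Real.log T ≤ T := by
    set c := max 2 (16 * (2 / h * (nk (k1 n) * J)) / ε) with hc
    have hc0 : 0 < c := lt_of_lt_of_le (by norm_num) (le_max_left _ _)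
    have := Real.isLittleO_log_id_atTop.bound (c := 1 / c) (by positivity)
    filter_upwards [this, eventually_ge_atTop (1 : ℝ)] with T h1 h2
    simp only [id, Real.norm_eq_abs] at h1
    rw [abs_of_nonneg (Real.log_nonneg h2), abs_of_nonneg (by linarith)] at h1
    calc c * Real.log T ≤ c * (1 / c * T) := by gcongr
      _ = T := by field_simp
  obtain ⟨T5, hT5⟩ := hev.exists_forall_of_atTop
  refine ⟨max (max (max T1 T2) (max T3 T4)) T5, hT1.trans ((le_max_left _ _).trans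
    ((le_max_left _ _).trans (le_max_left _ _))), fun T hT U1 U2 hE => ?_⟩
  have hTa : max (max T1 T2) (max T3 T4) ≤ T := (le_max_left _ _).trans hT
  have hTT5 := hT5 T ((le_max_right _ _).trans hT)
  have hT10 : 10 ≤ T := hE.hT
  have hTpos : 0 < T := by linarith
  have hU1 : 1 ≤ U1 := by linarith [hE.a1]
  set L := Real.log T with hL
  have hL0 : 0 < L := Real.log_pos (by linarith)
  have h2L : 2 * L ≤ T := le_trans (by gcongr; exact le_max_left _ _) hTT5
  have hcL : 16 * (2 / h * (nk (k1 n) * J)) / ε * L ≤ T :=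
    le_trans (by gcongr; exact le_max_right _ _) hTT5
  obtain ⟨M1, hM1i, hM10, hM1, hM1int⟩ := hEr2 T (((le_max_left _ _).trans (le_max_left _ _)).trans
    hTa) U1 U2 hE.a1 hE.a4
  have hlow3 := hlow2 T (((le_max_right _ _).trans (le_max_left _ _)).trans hTa) U1 U2 hE
  have hup3 := hup2 T (((le_max_left _ _).trans (le_max_right _ _)).trans hTa) U1 U2 hE
  have hlin3 := hlin2 T (((le_max_right _ _).trans (le_max_right _ _)).trans hTa) U1 U2 hE
  rw [← hL] at hlow3 hup3 hlin3 hM1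
  have hle : T + L ≤ 2 * T - L := by linarith
  -- the functions
  set Q1 : ℝ → ℝ := fun t => Qs (k1 n) ψ U1 U2 (β * L) L lam t with hQ1
  set Q2 : ℝ → ℝ := fun t => Qs (k1 n) ψ U1 U2 (β * L) L h t with hQ2
  have cQ1 : Continuous Q1 := Qs_cont hk wl U1 U2 (β * L) L
  have cQ2 : Continuous Q2 := Qs_cont hk w' U1 U2 (β * L) L
  have hQ12 : ∀ t, Q1 t ≤ Q2 t := fun t => Qr_nonneg w' hψ0 hlam0 hlh hk hL0 U1 U2 (β * L) t
  set F : ℝ → ℝ := fun t => |(fS (k1 n) U1 U2 (β * L) t 0).re - k1 n 0 / β| with hF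
  have cF : Continuous F := by
    have h1 : Continuous fun t : ℝ => fS (k1 n) U1 U2 (β * L) t 0 :=
      (fS_cont2 hk U1 U2 (β * L)).comp (by fun_prop : Continuous fun t : ℝ => ((t, 0) : ℝ × ℝ))
    exact ((Complex.continuous_re.comp h1).sub continuous_const).abs
  set G : ℝ → ℝ := fun t => |Q1 t - nk (k1 n) / β * (L * J)| with hG
  have cG : Continuous G := (cQ1.sub continuous_const).abs
  set N : ℝ → ℝ := fun t => 2 * F t + 2 / (h * L) * (Q2 t - Q1 t) + 2 / (h * L) * G t with hN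
  have cN : Continuous N :=
    ((continuous_const.mul cF).add (continuous_const.mul (cQ2.sub cQ1))).add
      (continuous_const.mul cG)
  have hN0 : ∀ t, 0 ≤ N t := by
    intro t
    have h1 := hQ12 t
    have h2 : 0 ≤ F t := abs_nonneg _
    have h3 : 0 ≤ G t := abs_nonneg _
    have h4 : 0 ≤ Q2 t - Q1 t := by linarith
    simp only [hN]
    positivity
  set S := Set.Ioc (T + L) (2 * T - L) with hS
  have hSi : IntegrableOn N (Set.Icc (T + L) (2 * T - L)) := cN.continuousOn.integrableOn_Icc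
  refine ⟨fun t => (Set.Icc (T + L) (2 * T - L)).indicator N t + M1 t,
    (hSi.integrable_indicator measurableSet_Icc).add hM1i, fun t => ?_, fun t ht1 ht2 => ?_, ?_⟩
  · have h1 : 0 ≤ (Set.Icc (T + L) (2 * T - L)).indicator N t :=
      Set.indicator_nonneg (fun t _ => hN0 t) t
    have := hM10 t
    positivity
  · have hmem : t ∈ Set.Icc (T + L) (2 * T - L) := ⟨ht1, ht2⟩
    show _ ≤ (Set.Icc (T + L) (2 * T - L)).indicator N t + M1 t
    rw [Set.indicator_of_mem hmem]
    have h1 := local_ineq (U2 := U2) (b := β * L) (ρ := n - r) (t := t) hw hR hK hn0 hU1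
      (Λ := h * L) (by positivity)
    have h2 := X_Qs hh0 hRψ hL0 (k1 n) U1 U2 (β * L) t
    rw [h2] at h1
    have h3 := hM1 t
    have h4 : -F t ≤ (fS (k1 n) U1 U2 (β * L) t 0).re - m := neg_abs_le _
    have h5 : Q1 t - nk (k1 n) / β * (L * J) ≤ G t := le_abs_self _
    have h6 : 2 / (h * L) * (Q1 t - nk (k1 n) / β * (L * J)) ≤ 2 / (h * L) * G t := by
      gcongr
    have h7 : 2 / (h * L) * (nk (k1 n) / β * (L * J)) = Cl ψ h lam * (nk (k1 n) / β) := by
      rw [hCl]
      field_simp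
    have h8 : Cl ψ h lam * (nk (k1 n) / β) ≤ Cl ψ h lam * m := by
      rw [hm]
      gcongr
    have h9 : 2 / (h * L) * Q2 t = 2 / (h * L) * (Q2 t - Q1 t) +
        2 / (h * L) * (Q1 t - nk (k1 n) / β * (L * J)) +
        2 / (h * L) * (nk (k1 n) / β * (L * J)) := by ring
    have h10 : Qs (k1 n) ψ U1 U2 (β * L) L h t = Q2 t := rfl
    rw [h10, h9, h7] at h1
    simp only [hN]
    linarith
  · have i1 : Integrable ((Set.Icc (T + L) (2 * T - L)).indicator N) :=
      hSi.integrable_indicator measurableSet_Icc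
    rw [integral_add i1 hM1i, integral_indicator measurableSet_Icc, integral_Icc_eq_integral_Ioc,
      ← intervalIntegral.integral_of_le hle]
    have e1 : ∫ t in (T + L)..(2 * T - L), N t =
        2 * (∫ t in (T + L)..(2 * T - L), F t) +
        2 / (h * L) * ((∫ t in (T + L)..(2 * T - L), Q2 t) -
          ∫ t in (T + L)..(2 * T - L), Q1 t) +
        2 / (h * L) * ∫ t in (T + L)..(2 * T - L), G t := by
      exact comb3 cF cQ2 cQ1 cG _ _ _
    -- lower bound for `∫ Q1`
    have e2 : (T - 2 * L) * (nk (k1 n) / β * (L * J)) - ε1 * (T * (L / β)) ≤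
        ∫ t in (T + L)..(2 * T - L), Q1 t := by
      have e3 : ∫ t in (T + L)..(2 * T - L), (nk (k1 n) / β * (L * J) - G t) ≤
          ∫ t in (T + L)..(2 * T - L), Q1 t := by
        apply intervalIntegral.integral_mono_on hle
          ((continuous_const.sub cG).intervalIntegrable _ _) (cQ1.intervalIntegrable _ _)
        intro t _
        have : -G t ≤ Q1 t - nk (k1 n) / β * (L * J) := neg_abs_le _
        show nk (k1 n) / β * (L * J) - G t ≤ Q1 t
        linarith
      rw [intervalIntegral.integral_sub (continuous_const.intervalIntegrable _ _)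
        (cG.intervalIntegrable _ _), intervalIntegral.integral_const, smul_eq_mul] at e3
      have e4 : 2 * T - L - (T + L) = T - 2 * L := by ring
      rw [e4] at e3
      linarith
    have hTβ : 0 < T / β := by positivity
    have b1 : 2 * (∫ t in (T + L)..(2 * T - L), F t) ≤ ε / 4 * (T / β) := by
      calc 2 * (∫ t in (T + L)..(2 * T - L), F t) ≤ 2 * (K * A ^ 2 * T) := by gcongr
        _ = 2 * (K * A ^ 2) * T := by ring
        _ ≤ ε / 4 * (1 / β) * T := by gcongr
        _ = _ := by ring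
    have b2 : 2 / (h * L) * ((∫ t in (T + L)..(2 * T - L), Q2 t) -
          ∫ t in (T + L)..(2 * T - L), Q1 t) ≤
        Et ψ h lam * m * T + (4 * ε1 / h + ε / 8) * (T / β) := by
      have c1 : (∫ t in (T + L)..(2 * T - L), Q2 t) - ∫ t in (T + L)..(2 * T - L), Q1 t ≤
          T * (L / β) * (nk (k1 n) * J' + ε1) -
            ((T - 2 * L) * (nk (k1 n) / β * (L * J)) - ε1 * (T * (L / β))) := by
        linarith
      have c2 : 2 / (h * L) * (T * (L / β) * (nk (k1 n) * J' + ε1) -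
            ((T - 2 * L) * (nk (k1 n) / β * (L * J)) - ε1 * (T * (L / β)))) =
          Et ψ h lam * (nk (k1 n) / β) * T + (4 * ε1 / h) * (T / β) +
            2 * L * (2 / h * (nk (k1 n) * J)) / β := by
        rw [hEt]
        field_simp
        ring
      have c3 : Et ψ h lam * (nk (k1 n) / β) * T ≤ Et ψ h lam * m * T := by
        rw [hm]
        gcongr
      have c4 : 2 * L * (2 / h * (nk (k1 n) * J)) / β ≤ ε / 8 * (T / β) := by
        have c5 : 2 * L * (2 / h * (nk (k1 n) * J)) ≤ ε / 8 * T := by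
          have c6 : 16 * (2 / h * (nk (k1 n) * J)) / ε * L =
              16 * (2 / h * (nk (k1 n) * J)) * L / ε := by ring
          rw [c6, div_le_iff₀ hε] at hcL
          linarith
        calc _ ≤ ε / 8 * T / β := by gcongr
          _ = _ := by ring
      calc _ ≤ 2 / (h * L) * (T * (L / β) * (nk (k1 n) * J' + ε1) -
            ((T - 2 * L) * (nk (k1 n) / β * (L * J)) - ε1 * (T * (L / β)))) := by gcongr
        _ ≤ _ := by
          rw [c2]
          linarith
    have b3 : 2 / (h * L) * ∫ t in (T + L)..(2 * T - L), G t ≤ 2 * ε1 / h * (T / β) := by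
      calc _ ≤ 2 / (h * L) * (ε1 * (T * (L / β))) := by gcongr
        _ = _ := by field_simp
    have b4 : ε / 4 * (T / β) + ((4 * ε1 / h + ε / 8) * (T / β)) + 2 * ε1 / h * (T / β) ≤
        3 / 4 * ε * (n * (T / β)) := by
      have d1 : 4 * ε1 / h = ε / 6 := by
        rw [hε1]
        field_simp
        norm_num
      have d2 : 2 * ε1 / h = ε / 12 := by
        rw [hε1]
        field_simp
        norm_num
      rw [d1, d2]
      have d3 : T / β ≤ n * (T / β) := by nlinarith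
      have d4 : 0 ≤ ε * (T / β) := by positivity
      calc _ = 5 / 8 * ε * (T / β) := by ring
        _ ≤ 3 / 4 * ε * (T / β) := by linarith
        _ ≤ _ := by gcongr
    rw [e1]
    linarith

end Pool.Agent.Helper92.FM
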