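import Pool.Agent.Helper92.FM.Mn1
import Pool.Agent.Helper92.FM.Ker
import Pool.Agent.Helper92.FM.Ze
import Pool.Agent.Helper92.FM.Wn1
import Pool.Agent.Helper92.FM.Wn3
import Pool.Agent.Helper92.FM.Wn4
import Pool.Agent.Helper92.FM.Dg2
import Pool.Agent.Helper92.FM.Lt1
import Pool.Agent.Helper92.FM.Lt2
import Pool.Graph.R_seed8.H370R2.Defs
import Pool.Graph.R_seed8.H370R2.Local
import Pool.Graph.R_seed8.H370R2.DirGood
import Pool.Graph.R_seed8.H370R2.PC1
import Pool.Graph.R_seed8.H295R2.SI.Defs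

set_option autoImplicit false

/-! The main inequality. -/

open Complex Filter Topology Set MeasureTheory
open scoped BigOperators ComplexConjugate

namespace Pool.Agent.Helper92.FM

open H370 (Zf good_zeta mult zz zz_re zz_im mem_Zf zset)
open H295SI (kapG Win KSq)
open Pool.Agent.TH800.MS

/-- the simple zeros on the critical line within distance `c` of height `t` -/
def Sc (c t : ℝ) : Set ℂ :=
  {s : ℂ | riemannZeta s = 0 ∧ s.re = 1 / 2 ∧ analyticOrderNatAt riemannZeta s = 1 ∧ |s.im - t| ≤ c}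

/-- their number -/
noncomputable def vc (c t : ℝ) : ℝ := ((Sc c t).ncard : ℝ)

lemma Sc_fin {c t : ℝ} (h : 2 ≤ t - c) : (Sc c t).Finite := by
  have h1 := H370.zset_finite good_zeta (t - c - 1) (t + c) (by linarith)
  refine h1.subset fun s hs => ?_
  obtain ⟨a1, a2, -, a4⟩ := hs
  rw [abs_le] at a4
  exact ⟨by rw [a2]; norm_num, by rw [a2]; norm_num, by linarith, by linarith, a1⟩

lemma vS_le {U1 U2 b ρ c t : ℝ} (hU : 1 ≤ U1) (hb : 0 < b) (hc : ρ ≤ c * b) (h : 2 ≤ t - c) :
    vS U1 U2 b ρ t ≤ vc c t := by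
  classical
  unfold vS vc
  have hfin := Sc_fin h
  rw [Nat.cast_le, ← Set.ncard_coe_finset]
  apply Set.ncard_le_ncard _ hfin
  intro s hs
  rw [Finset.mem_coe, Finset.mem_filter, mem_Zf good_zeta hU] at hs
  obtain ⟨a1, a2, a3, a4⟩ := hs
  refine ⟨a1.2.2.2.2, a2, a3, ?_⟩
  have := a4.trans hc
  exact le_of_mul_le_mul_right this hb

variable {w R ψ ψ' : ℝ → ℝ} {h lam B : ℝ}

/-- **the main inequality** -/
theorem main_maj (hw : Win w) (hR : CR R) (hK : KSq w R)
    (w' : Wt ψ ψ' h B) (wl : Wt ψ ψ' lam B) (hψ0 : ∀ α, 0 ≤ α → α ≤ h → 0 ≤ ψ α)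
    (hRψ : ∀ α, 0 ≤ α → α ≤ 1 → R α = ψ (h * α)) (hh1 : h < 1) (hlam2 : lam < 1 / 2)
    (hlh : lam ≤ h) (hcl : 0 ≤ Cl ψ h lam) (hcl2 : Cl ψ h lam ≤ 2) (ε : ℝ) (hε : 0 < ε) :
    ∃ l0 : ℝ, 0 < l0 ∧ ∀ l : ℝ, l0 ≤ l → ∃ T0 : ℝ, 10 ≤ T0 ∧ ∀ T : ℝ, T0 ≤ T →
      ∃ M : ℝ → ℝ, Integrable M ∧ (∀ t, 0 ≤ M t) ∧
        (∀ t, T + Real.log T ≤ t → t ≤ 2 * T - Real.log T →
          (2 - Cl ψ h lam) * l - vc (Real.pi * l / Real.log T) t ≤ M t) ∧
        ∫ t, M t ≤ (Et ψ h lam + ε) * (l * T) := by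
  obtain ⟨C0, Te, hC0, hTe, hef⟩ := ef_exists
  have hpi := Real.pi_pos
  obtain ⟨r0, hr01, hcore⟩ := core_maj C0 hC0 hw hR hK w' wl hψ0 hRψ hh1 hlam2 hlh hcl
    (ε / (4 * Real.pi)) (by positivity)
  have hI := I0_pos
  set a := 2 - Cl ψ h lam with ha
  have ha0 : 0 ≤ a := by linarith
  have ha2 : a ≤ 2 := by linarith
  -- choice of `r`
  obtain ⟨r, hr⟩ : ∃ r : ℝ, max (max r0 2) (max (34 / I0) (8 * (34 / I0) / ε)) ≤ r := ⟨_, le_rfl⟩
  have hr2 : 2 ≤ r := ((le_max_right _ _).trans (le_max_left _ _)).trans hr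
  have hr0 : 0 < r := by linarith
  have hrI : 34 / I0 / r ≤ 1 := by
    rw [div_le_one hr0]
    exact ((le_max_left _ _).trans (le_max_right _ _)).trans hr
  have hrε : 34 / I0 / r ≤ ε / 8 := by
    have : 8 * (34 / I0) / ε ≤ r := ((le_max_right _ _).trans (le_max_right _ _)).trans hr
    rw [div_le_iff₀ hε] at this
    rw [div_le_iff₀ hr0]
    linarith
  obtain ⟨β0, hβ0, hcore1⟩ := hcore r (((le_max_left _ _).trans (le_max_left _ _)).trans hr)
  set n : ℝ := r ^ 2 with hn
  have hrn : 2 * r ≤ n := by nlinarith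
  have hρ : 0 < n - r := by linarith
  obtain ⟨-, hk0⟩ := k1_facts (n := n) hr0 rfl (by linarith) hrI
  refine ⟨(n - r) / (Real.pi * β0), by positivity, fun l hl => ?_⟩
  have hl0 : 0 < l := lt_of_lt_of_le (by positivity) hl
  set β : ℝ := (n - r) / (Real.pi * l) with hβ
  have hβpos : 0 < β := by positivity
  have hββ : β ≤ β0 := by
    rw [hβ, div_le_iff₀ (by positivity)]
    rw [div_le_iff₀ (by positivity)] at hl
    linarith
  obtain ⟨T1, hT1, hcore2⟩ := hcore1 β hβpos hββ
  -- the numbers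
  set m : ℝ := k1 n 0 / β with hm
  have hρβ : (n - r) / Real.pi / β = l := by
    rw [hβ]
    field_simp
  have hml : (1 - ε / 4) * l ≤ m := by
    have e1 : (n - r) / Real.pi * (1 - 34 / I0 / r) ^ 2 / β ≤ m := by
      rw [hm]
      gcongr
    have e2 : (n - r) / Real.pi * (1 - 34 / I0 / r) ^ 2 / β = (1 - 34 / I0 / r) ^ 2 * l := by
      rw [← hρβ]
      ring
    have e3 : 1 - ε / 4 ≤ (1 - 34 / I0 / r) ^ 2 := by nlinarith [sq_nonneg (34 / I0 / r)]
    rw [e2] at e1
    exact (mul_le_mul_of_nonneg_right e3 hl0.le).trans e1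
  have hnl : n / β ≤ 2 * Real.pi * l := by
    rw [← hρβ]
    have : n ≤ 2 * (n - r) := by linarith
    calc n / β ≤ 2 * (n - r) / β := by gcongr
      _ = _ := by field_simp
  have hev : ∀ᶠ T : ℝ in atTop, max 1 (Real.pi * l) ≤ Real.log T :=
    Real.tendsto_log_atTop.eventually_ge_atTop _
  obtain ⟨T2, hT2⟩ := hev.exists_forall_of_atTop
  have hEt0 : 0 ≤ Et ψ h lam := by
    unfold Et
    have hh0 := w'.l0
    have : 0 ≤ ∫ α in lam..h, α * ψ α := by
      apply intervalIntegral.integral_nonneg hlh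
      intro α hα
      have h1 : 0 ≤ α := wl.l0.le.trans hα.1
      have := hψ0 α h1 hα.2
      positivity
    positivity
  refine ⟨max (max T1 T2) Te, hTe.trans (le_max_right _ _), fun T hT => ?_⟩
  have hTT1 : T1 ≤ T := ((le_max_left _ _).trans (le_max_left _ _)).trans hT
  have hLL := hT2 T (((le_max_right _ _).trans (le_max_left _ _)).trans hT)
  have hTTe : Te ≤ T := (le_max_right _ _).trans hT
  have hT10 : 10 ≤ T := hTe.trans hTTe
  have hTpos : 0 < T := by linarith
  obtain ⟨U1, U2, hE⟩ := hef T hTTe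
  have hU1 : 1 ≤ U1 := by linarith [hE.a1]
  obtain ⟨M0, hMi, hM0, hMle, hMint⟩ := hcore2 T hTT1 U1 U2 hE
  set L := Real.log T with hL
  have hL1 : 1 ≤ L := (le_max_left _ _).trans hLL
  have hL2 : Real.pi * l ≤ L := (le_max_right _ _).trans hLL
  have hL0 : 0 < L := by linarith
  have hL3 : L ≤ T := by
    have := Real.log_le_sub_one_of_pos hTpos
    linarith
  have hvS : ∀ t, T + L ≤ t → vS U1 U2 (β * L) (n - r) t ≤ vc (Real.pi * l / L) t := by
    intro t ht
    apply vS_le hU1 (by positivity)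
    · rw [hβ]
      apply le_of_eq
      field_simp
    · have : Real.pi * l / L ≤ 1 := by
        rw [div_le_one hL0]
        exact hL2
      linarith
  have hv0 : ∀ t, 0 ≤ vc (Real.pi * l / L) t := fun t => Nat.cast_nonneg _
  have hMint2 : ∫ t, M0 t ≤ Et ψ h lam * m * T + ε / 2 * (l * T) := by
    refine hMint.trans ?_
    have : ε / (4 * Real.pi) * (n * (T / β)) ≤ ε / 2 * (l * T) := by
      calc ε / (4 * Real.pi) * (n * (T / β)) = ε / (4 * Real.pi) * T * (n / β) := by ring
        _ ≤ ε / (4 * Real.pi) * T * (2 * Real.pi * l) := by gcongr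
        _ = _ := by
          field_simp
          norm_num
    linarith
  rcases le_or_gt l m with hlm | hlm
  · -- scaling
    have hm0 : 0 < m := lt_of_lt_of_le hl0 hlm
    set θ : ℝ := l / m with hθ
    have hθ0 : 0 ≤ θ := by positivity
    have hθ1 : θ ≤ 1 := (div_le_one hm0).2 hlm
    have hθm : θ * m = l := by
      rw [hθ]
      field_simp
    refine ⟨fun t => θ * M0 t, hMi.const_mul θ, fun t => mul_nonneg hθ0 (hM0 t),
      fun t ht1 ht2 => ?_, ?_⟩
    · have h1 := hMle t ht1 ht2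
      have h2 := hvS t ht1
      have h3 := hv0 t
      have h4 : θ * (a * m - vc (Real.pi * l / L) t) ≤ θ * M0 t := by
        apply mul_le_mul_of_nonneg_left _ hθ0
        linarith
      have h5 : θ * (a * m - vc (Real.pi * l / L) t) = a * l - θ * vc (Real.pi * l / L) t := by
        rw [← hθm]
        ring
      have h6 : θ * vc (Real.pi * l / L) t ≤ vc (Real.pi * l / L) t := by
        calc _ ≤ 1 * vc (Real.pi * l / L) t := by gcongr
          _ = _ := one_mul _
      show a * l - vc (Real.pi * l / L) t ≤ θ * M0 t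
      linarith
    · rw [integral_const_mul]
      have h7 : θ * (Et ψ h lam * m * T) = Et ψ h lam * (l * T) := by
        rw [← hθm]
        ring
      have h8 : θ * (ε / 2 * (l * T)) ≤ ε / 2 * (l * T) := by
        calc _ ≤ 1 * (ε / 2 * (l * T)) := by gcongr
          _ = _ := one_mul _
      calc θ * ∫ t, M0 t ≤ θ * (Et ψ h lam * m * T + ε / 2 * (l * T)) := by gcongr
        _ = θ * (Et ψ h lam * m * T) + θ * (ε / 2 * (l * T)) := by ring
        _ ≤ (Et ψ h lam + ε) * (l * T) := by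
          rw [h7]
          have : 0 ≤ ε * (l * T) := by positivity
          linarith
  · -- a small constant
    set c : ℝ := a * (l - m) with hc
    have hc0 : 0 ≤ c := mul_nonneg ha0 (by linarith)
    have hc1 : c ≤ ε / 2 * l := by
      have : l - m ≤ ε / 4 * l := by linarith
      have h2 : 0 ≤ l - m := by linarith
      calc c ≤ 2 * (ε / 4 * l) := by
            rw [hc]
            gcongr
        _ = _ := by ring
    have i1 : Integrable ((Set.Icc T (2 * T)).indicator (fun _ : ℝ => c)) := by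
      rw [integrable_indicator_iff measurableSet_Icc]
      exact integrableOn_const (by simp)
    have i2 : ∫ t, (Set.Icc T (2 * T)).indicator (fun _ : ℝ => c) t = T * c := by
      rw [integral_indicator measurableSet_Icc, setIntegral_const, smul_eq_mul,
        Real.volume_real_Icc]
      have : 2 * T - T = T := by ring
      rw [this, max_eq_left hTpos.le]
    refine ⟨fun t => (Set.Icc T (2 * T)).indicator (fun _ : ℝ => c) t + M0 t, i1.add hMi,
      fun t => ?_, fun t ht1 ht2 => ?_, ?_⟩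
    · have h1 : 0 ≤ (Set.Icc T (2 * T)).indicator (fun _ : ℝ => c) t :=
        Set.indicator_nonneg (fun _ _ => hc0) _
      have := hM0 t
      positivity
    · have hmem : t ∈ Set.Icc T (2 * T) := ⟨by linarith, by linarith⟩
      show a * l - vc (Real.pi * l / L) t ≤
        (Set.Icc T (2 * T)).indicator (fun _ : ℝ => c) t + M0 t
      rw [Set.indicator_of_mem hmem]
      have h1 := hMle t ht1 ht2
      have h2 := hvS t ht1
      have h3 : c = a * l - a * m := by
        rw [hc]
        ring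
      linarith
    · rw [integral_add i1 hMi, i2]
      have h1 : Et ψ h lam * m * T ≤ Et ψ h lam * l * T := by gcongr
      have h2 : T * c ≤ ε / 2 * (l * T) := by
        calc T * c ≤ T * (ε / 2 * l) := by gcongr
          _ = _ := by ring
      have h3 : (Et ψ h lam + ε) * (l * T) = Et ψ h lam * l * T + ε / 2 * (l * T) +
        ε / 2 * (l * T) := by ring
      rw [h3]
      linarith

end Pool.Agent.Helper92.FM
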