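import Pool.Agent.Helper92.FM.Mn2

set_option autoImplicit false

/-! The main inequality on `[0, T]`. -/

open Complex Filter Topology Set MeasureTheory
open scoped BigOperators ComplexConjugate

namespace Pool.Agent.Helper92.FM

open H370 (Zf good_zeta mult zz zz_re zz_im mem_Zf zset)
open H295SI (kapG Win KSq)

/-- the distribution inequality on dyadic intervals -/
def Good (a η : ℝ) : Prop := ∀ ε : ℝ, 0 < ε →
    ∃ l0 : ℝ, 0 < l0 ∧ ∀ l : ℝ, l0 ≤ l → ∃ T0 : ℝ, 10 ≤ T0 ∧ ∀ T : ℝ, T0 ≤ T →
      ∃ M : ℝ → ℝ, Integrable M ∧ (∀ t, 0 ≤ M t) ∧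
        (∀ t, T + Real.log T ≤ t → t ≤ 2 * T - Real.log T →
          a * l - vc (Real.pi * l / Real.log T) t ≤ M t) ∧
        ∫ t, M t ≤ (η + ε) * (l * T)

/-- the distribution inequality on `[ε T, T]` -/
def GoodF (a η : ℝ) : Prop := ∀ ε : ℝ, 0 < ε →
    ∃ l0 : ℝ, 0 < l0 ∧ ∀ l : ℝ, l0 ≤ l → ∃ T0 : ℝ, 10 ≤ T0 ∧ ∀ T : ℝ, T0 ≤ T →
      ∃ M : ℝ → ℝ, Integrable M ∧ (∀ t, 0 ≤ M t) ∧
        (∀ t, ε * T ≤ t → t ≤ T → a * l - vc (Real.pi * l / Real.log T) t ≤ M t) ∧
        ∫ t, M t ≤ (η + ε) * (l * T)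

lemma vc_mono {c c' t : ℝ} (h : c ≤ c') (h2 : 2 ≤ t - c') : vc c t ≤ vc c' t := by
  unfold vc
  rw [Nat.cast_le]
  apply Set.ncard_le_ncard _ (Sc_fin h2)
  intro s hs
  exact ⟨hs.1, hs.2.1, hs.2.2.1, hs.2.2.2.trans h⟩

lemma vc_nonneg (c t : ℝ) : 0 ≤ vc c t := Nat.cast_nonneg _

theorem good_full {a η : ℝ} (ha : 0 ≤ a) (hη : 0 ≤ η) (hG : Good a η) : GoodF a η := by
  intro ε hε
  obtain ⟨J, hJ⟩ := exists_pow_lt_of_lt_one hε (by norm_num : (1 / 2 : ℝ) < 1)
  set δ : ℝ := min (1 / 2) (ε / (4 * (a + 1))) with hδ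
  have hδ0 : 0 < δ := by positivity
  have hδ1 : δ ≤ 1 / 2 := min_le_left _ _
  have hδ2 : a * δ ≤ ε / 4 := by
    have h1 : δ ≤ ε / (4 * (a + 1)) := min_le_right _ _
    rw [le_div_iff₀ (by positivity)] at h1
    nlinarith
  obtain ⟨l1, hl1, hG1⟩ := hG (ε / 4) (by positivity)
  refine ⟨2 * l1, by positivity, fun l hl => ?_⟩
  have hl0 : 0 < l := by linarith
  set l' : ℝ := (1 - δ) * l with hl'
  have hll : l1 ≤ l' := by
    have : 1 / 2 * l ≤ (1 - δ) * l := by
      apply mul_le_mul_of_nonneg_right _ hl0.le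
      linarith
    rw [hl']
    linarith
  obtain ⟨T1, hT1, hG2⟩ := hG1 l' hll
  have h2J : (0 : ℝ) < 2 ^ J := by positivity
  -- large `T`
  have hev1 : ∀ᶠ T : ℝ in atTop, max (Real.pi * l + 1) (Real.log (2 ^ J) / δ) ≤ Real.log T :=
    Real.tendsto_log_atTop.eventually_ge_atTop _
  have hev2 : ∀ᶠ T : ℝ in atTop, (8 * (J * a + 1) / ε) * Real.log T ≤ T := by
    set c := 8 * (J * a + 1) / ε with hc
    have hc0 : 0 < c := by positivity
    have := Real.isLittleO_log_id_atTop.bound (c := 1 / c) (by positivity)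
    filter_upwards [this, eventually_ge_atTop (1 : ℝ)] with T h1 h2
    simp only [id, Real.norm_eq_abs] at h1
    rw [abs_of_nonneg (Real.log_nonneg h2), abs_of_nonneg (by linarith)] at h1
    calc c * Real.log T ≤ c * (1 / c * T) := by gcongr
      _ = T := by field_simp
  obtain ⟨T2, hT2⟩ := (hev1.and hev2).exists_forall_of_atTop
  refine ⟨max (max T2 10) (2 ^ J * (T1 + 10)), (le_max_right _ _).trans (le_max_left _ _),
    fun T hT => ?_⟩
  have hT10 : 10 ≤ T := ((le_max_right _ _).trans (le_max_left _ _)).trans hT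
  have hTpos : 0 < T := by linarith
  have hTJ : 2 ^ J * (T1 + 10) ≤ T := (le_max_right _ _).trans hT
  obtain ⟨hLL, hsm⟩ := hT2 T (((le_max_left _ _).trans (le_max_left _ _)).trans hT)
  set L := Real.log T with hL
  have hL0 : 0 < L := Real.log_pos (by linarith)
  have hL1 : Real.pi * l + 1 ≤ L := (le_max_left _ _).trans hLL
  have hL2 : Real.log (2 ^ J) ≤ δ * L := by
    have : Real.log (2 ^ J) / δ ≤ L := (le_max_right _ _).trans hLL
    rw [div_le_iff₀ hδ0] at this
    linarith
  have hpi := Real.pi_pos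
  -- the blocks
  set τ : ℕ → ℝ := fun j => T / 2 ^ (j + 1) with hτ
  have hτpos : ∀ j, 0 < τ j := fun j => by positivity
  have hτJ : ∀ j, j < J → T1 + 10 ≤ τ j := by
    intro j hj
    show T1 + 10 ≤ T / 2 ^ (j + 1)
    rw [le_div_iff₀ (by positivity)]
    have h1 : (2 : ℝ) ^ (j + 1) ≤ 2 ^ J := pow_le_pow_right₀ (by norm_num) (by omega)
    calc (T1 + 10) * 2 ^ (j + 1) ≤ (T1 + 10) * 2 ^ J := by
          apply mul_le_mul_of_nonneg_left h1
          linarith
      _ ≤ T := by linarith
  have hlogτ : ∀ j, j < J → (1 - δ) * L ≤ Real.log (τ j) ∧ Real.log (τ j) ≤ L := by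
    intro j hj
    have h1 : Real.log (τ j) = L - Real.log (2 ^ (j + 1)) := by
      show Real.log (T / 2 ^ (j + 1)) = _
      rw [Real.log_div (by positivity) (by positivity)]
    have h2 : Real.log (2 ^ (j + 1)) ≤ Real.log (2 ^ J) :=
      Real.log_le_log (by positivity) (pow_le_pow_right₀ (by norm_num) (by omega))
    have h3 : 0 ≤ Real.log ((2 : ℝ) ^ (j + 1)) :=
      Real.log_nonneg (one_le_pow₀ (by norm_num))
    rw [h1]
    constructor
    · linarith
    · linarith
  obtain ⟨M, hM⟩ : ∃ M : ℕ → ℝ → ℝ, ∀ j, j < J → Integrable (M j) ∧ (∀ t, 0 ≤ M j t) ∧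
        (∀ t, τ j + Real.log (τ j) ≤ t → t ≤ 2 * τ j - Real.log (τ j) →
          a * l' - vc (Real.pi * l' / Real.log (τ j)) t ≤ M j t) ∧
        ∫ t, M j t ≤ (η + ε / 4) * (l' * τ j) := by
    have h1 : ∀ j, ∃ M : ℝ → ℝ, j < J → Integrable M ∧ (∀ t, 0 ≤ M t) ∧
        (∀ t, τ j + Real.log (τ j) ≤ t → t ≤ 2 * τ j - Real.log (τ j) →
          a * l' - vc (Real.pi * l' / Real.log (τ j)) t ≤ M t) ∧
        ∫ t, M t ≤ (η + ε / 4) * (l' * τ j) := by
      intro j
      by_cases hj : j < J
      · obtain ⟨M, hM⟩ := hG2 (τ j) (by linarith [hτJ j hj])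
        exact ⟨M, fun _ => hM⟩
      · exact ⟨fun _ => 0, fun h => absurd h hj⟩
    choose M hM using h1
    exact ⟨M, hM⟩
  -- the boundary functions
  set Bd : ℕ → ℝ → ℝ := fun j t =>
    (Set.Icc (τ j) (τ j + L)).indicator (fun _ => a * l) t +
    (Set.Icc (2 * τ j - L) (2 * τ j)).indicator (fun _ => a * l) t with hBd
  have hal : 0 ≤ a * l := by positivity
  have hBd0 : ∀ j t, 0 ≤ Bd j t := fun j t =>
    add_nonneg (Set.indicator_nonneg (fun _ _ => hal) _) (Set.indicator_nonneg (fun _ _ => hal) _)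
  have hind : ∀ x y : ℝ, Integrable ((Set.Icc x y).indicator (fun _ : ℝ => a * l)) := by
    intro x y
    rw [integrable_indicator_iff measurableSet_Icc]
    exact integrableOn_const (by simp)
  have hindi : ∀ x y : ℝ, x ≤ y → ∫ t, (Set.Icc x y).indicator (fun _ : ℝ => a * l) t =
      (y - x) * (a * l) := by
    intro x y hxy
    rw [integral_indicator measurableSet_Icc, setIntegral_const, smul_eq_mul,
      Real.volume_real_Icc, max_eq_left (by linarith)]
  have hBdi : ∀ j, Integrable (Bd j) := fun j => (hind _ _).add (hind _ _)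
  have hBdint : ∀ j, ∫ t, Bd j t = 2 * L * (a * l) := by
    intro j
    have e1 : ∫ t, Bd j t = (∫ t, (Set.Icc (τ j) (τ j + L)).indicator (fun _ : ℝ => a * l) t) +
        ∫ t, (Set.Icc (2 * τ j - L) (2 * τ j)).indicator (fun _ : ℝ => a * l) t :=
      integral_add (hind _ _) (hind _ _)
    rw [e1, hindi _ _ (by linarith), hindi _ _ (by linarith)]
    ring
  -- the constant function
  have hcst0 : 0 ≤ a * δ * l := by positivity
  have hcsti : Integrable ((Set.Icc 0 T).indicator (fun _ : ℝ => a * δ * l)) := by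
    rw [integrable_indicator_iff measurableSet_Icc]
    exact integrableOn_const (by simp)
  have hcstint : ∫ t, (Set.Icc 0 T).indicator (fun _ : ℝ => a * δ * l) t = T * (a * δ * l) := by
    rw [integral_indicator measurableSet_Icc, setIntegral_const, smul_eq_mul,
      Real.volume_real_Icc, sub_zero, max_eq_left hTpos.le]
  have hsumi : Integrable (fun t => ∑ j ∈ Finset.range J, (M j t + Bd j t)) :=
    integrable_finsetSum _ fun j hj => (hM j (Finset.mem_range.1 hj)).1.add (hBdi j)
  refine ⟨fun t => (Set.Icc 0 T).indicator (fun _ : ℝ => a * δ * l) t +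
    ∑ j ∈ Finset.range J, (M j t + Bd j t), hcsti.add hsumi, fun t => ?_, fun t ht1 ht2 => ?_, ?_⟩
  · have h1 : 0 ≤ (Set.Icc 0 T).indicator (fun _ : ℝ => a * δ * l) t :=
      Set.indicator_nonneg (fun _ _ => hcst0) _
    have h2 : 0 ≤ ∑ j ∈ Finset.range J, (M j t + Bd j t) :=
      Finset.sum_nonneg fun j hj => add_nonneg ((hM j (Finset.mem_range.1 hj)).2.1 t) (hBd0 j t)
    positivity
  · -- the block containing `t`
    have htpos : 0 < t := lt_of_lt_of_le (by positivity) ht1
    have ht3 : T / 2 ^ J < t := by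
      have h1 : (1 / 2 : ℝ) ^ J * T < ε * T := by
        apply mul_lt_mul_of_pos_right hJ hTpos
      have h2 : (1 / 2 : ℝ) ^ J * T = T / 2 ^ J := by
        rw [one_div, inv_pow]
        ring
      linarith
    obtain ⟨j, hj, hj1, hj2⟩ : ∃ j, j < J ∧ τ j ≤ t ∧ t ≤ 2 * τ j := by
      by_contra hcon
      push Not at hcon
      have h1 : ∀ j, j ≤ J → t ≤ T / 2 ^ j := by
        intro j
        induction j with
        | zero => intro _; simpa using ht2
        | succ j ih =>
          intro hj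
          have h2 := ih (by omega)
          have h3 := hcon j (by omega)
          have h4 : t ≤ 2 * τ j := by
            refine h2.trans (le_of_eq ?_)
            show T / 2 ^ j = 2 * (T / 2 ^ (j + 1))
            rw [pow_succ]
            field_simp
          by_contra h5
          exact absurd h4 (not_le.2 (h3 (not_le.1 h5).le))
      exact absurd (h1 J le_rfl) (not_le.2 ht3)
    obtain ⟨m1, m2, m3, m4⟩ := hM j hj
    obtain ⟨g1, g2⟩ := hlogτ j hj
    have hτ10 := hτJ j hj
    have hterm : M j t + Bd j t ≤ ∑ j ∈ Finset.range J, (M j t + Bd j t) :=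
      Finset.single_le_sum (f := fun j => M j t + Bd j t)
        (fun i hi => add_nonneg ((hM i (Finset.mem_range.1 hi)).2.1 t) (hBd0 i t))
        (Finset.mem_range.2 hj)
    have hc : (Set.Icc 0 T).indicator (fun _ : ℝ => a * δ * l) t = a * δ * l :=
      Set.indicator_of_mem (show t ∈ Set.Icc 0 T from ⟨htpos.le, ht2⟩) _
    have hv0 := vc_nonneg (Real.pi * l / L) t
    have hm0 := m2 t
    show a * l - vc (Real.pi * l / L) t ≤ (Set.Icc 0 T).indicator (fun _ : ℝ => a * δ * l) t +
      ∑ j ∈ Finset.range J, (M j t + Bd j t)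
    rw [hc]
    by_cases hb1 : t ≤ τ j + L
    · have h1 : (Set.Icc (τ j) (τ j + L)).indicator (fun _ => a * l) t = a * l :=
        Set.indicator_of_mem (show t ∈ Set.Icc (τ j) (τ j + L) from ⟨hj1, hb1⟩) _
      have h2 : 0 ≤ (Set.Icc (2 * τ j - L) (2 * τ j)).indicator (fun _ => a * l) t :=
        Set.indicator_nonneg (fun _ _ => hal) _
      have h3 : a * l ≤ Bd j t := by
        simp only [hBd]
        rw [h1]
        linarith
      linarith
    · by_cases hb2 : 2 * τ j - L ≤ t
      · have h1 : (Set.Icc (2 * τ j - L) (2 * τ j)).indicator (fun _ => a * l) t = a * l :=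
          Set.indicator_of_mem (show t ∈ Set.Icc (2 * τ j - L) (2 * τ j) from ⟨hb2, hj2⟩) _
        have h2 : 0 ≤ (Set.Icc (τ j) (τ j + L)).indicator (fun _ => a * l) t :=
          Set.indicator_nonneg (fun _ _ => hal) _
        have h3 : a * l ≤ Bd j t := by
          simp only [hBd]
          rw [h1]
          linarith
        linarith
      · rw [not_le] at hb1 hb2
        have h1 := m3 t (by linarith) (by linarith)
        have hlogpos : 0 < Real.log (τ j) := Real.log_pos (by linarith)
        have h2 : Real.pi * l' / Real.log (τ j) ≤ Real.pi * l / L := by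
          rw [div_le_div_iff₀ hlogpos hL0, hl']
          calc Real.pi * ((1 - δ) * l) * L = Real.pi * l * ((1 - δ) * L) := by ring
            _ ≤ Real.pi * l * Real.log (τ j) := by gcongr
        have h3 : Real.pi * l / L ≤ 1 := by
          rw [div_le_one hL0]
          linarith
        have h4 := vc_mono h2 (by linarith : 2 ≤ t - Real.pi * l / L)
        have h5 := hBd0 j t
        have h6 : a * l' = a * l - a * δ * l := by
          rw [hl']
          ring
        linarith
  · have hi : ∀ j ∈ Finset.range J, Integrable (fun t => M j t + Bd j t) := fun j hj =>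
      (hM j (Finset.mem_range.1 hj)).1.add (hBdi j)
    rw [integral_add hcsti hsumi, hcstint, integral_finsetSum _ hi]
    have h1 : ∑ j ∈ Finset.range J, ∫ t, (M j t + Bd j t) ≤
        ∑ j ∈ Finset.range J, ((η + ε / 4) * (l * τ j) + 2 * L * (a * l)) := by
      refine Finset.sum_le_sum fun j hj => ?_
      obtain ⟨m1, m2, m3, m4⟩ := hM j (Finset.mem_range.1 hj)
      rw [integral_add m1 (hBdi j), hBdint]
      have h2 : (η + ε / 4) * (l' * τ j) ≤ (η + ε / 4) * (l * τ j) := by
        have h3 : l' ≤ l := by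
          rw [hl']
          nlinarith
        have h4 := (hτpos j).le
        gcongr
      linarith
    have h2 : ∑ j ∈ Finset.range J, τ j ≤ T := by
      have h3 : ∀ J : ℕ, ∑ j ∈ Finset.range J, τ j = T * (1 - (1 / 2) ^ J) := by
        intro J
        induction J with
        | zero => simp
        | succ J ih =>
          rw [Finset.sum_range_succ, ih]
          show T * (1 - (1 / 2) ^ J) + T / 2 ^ (J + 1) = T * (1 - (1 / 2) ^ (J + 1))
          rw [one_div, inv_pow, inv_pow, pow_succ]
          field_simp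
          ring
      rw [h3]
      have : (0 : ℝ) < (1 / 2) ^ J := by positivity
      nlinarith
    have h3 : ∑ j ∈ Finset.range J, ((η + ε / 4) * (l * τ j) + 2 * L * (a * l)) =
        (η + ε / 4) * l * (∑ j ∈ Finset.range J, τ j) + J * (2 * L * (a * l)) := by
      rw [Finset.sum_add_distrib, Finset.sum_const, Finset.card_range, nsmul_eq_mul,
        Finset.mul_sum]
      congr 1
      refine Finset.sum_congr rfl fun j _ => ?_
      ring
    have h4 : J * (2 * L * (a * l)) ≤ ε / 4 * (l * T) := by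
      have h5 : 8 * (J * a + 1) * L ≤ ε * T := by
        have : 8 * (J * a + 1) / ε * L = 8 * (J * a + 1) * L / ε := by ring
        rw [this, div_le_iff₀ hε] at hsm
        linarith
      have h6 : 8 * (J * a) * L ≤ ε * T := by
        have : 8 * (J * a) * L ≤ 8 * (J * a + 1) * L := by
          gcongr
          linarith
        linarith
      calc J * (2 * L * (a * l)) = (8 * (J * a) * L) * l / 4 := by ring
        _ ≤ (ε * T) * l / 4 := by gcongr
        _ = _ := by ring
    have h5 : T * (a * δ * l) ≤ ε / 4 * (l * T) := by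
      calc T * (a * δ * l) = (a * δ) * (l * T) := by ring
        _ ≤ _ := by gcongr
    have h6 : (η + ε / 4) * l * (∑ j ∈ Finset.range J, τ j) ≤ (η + ε / 4) * l * T := by gcongr
    have h7 : (η + ε) * (l * T) = (η + ε / 4) * l * T + 3 * (ε / 4 * (l * T)) := by ring
    have h8 : 0 ≤ ε / 4 * (l * T) := by positivity
    linarith

end Pool.Agent.Helper92.FM
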