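import Pool.Agent.Helper92.FM.Mn2
import Pool.Agent.Helper92.FM.Mn3
import Pool.Graph.R_seed8.TH800.MS.Kb
import Pool.Graph.R_pool_sql_team_seeded_1acbe0a2.Y24.Near
import Pool.Graph.R_seed8.TH800.MS.Dg

set_option autoImplicit false

/-! Pairs of simple critical zeros at every distance. -/

open Complex Filter Topology Set MeasureTheory
open scoped BigOperators ComplexConjugate

namespace Pool.Agent.Helper92.FM

open Pool.Agent.TH800.MS (kb kb_cont kb_nonneg kb_zero kb_int_le kb_comp)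

/-- simple critical zeros up to height `T` -/
def SZ (T : ℝ) : Set ℂ := {s : ℂ | riemannZeta s = 0 ∧ s.re = 1 / 2 ∧
  analyticOrderNatAt riemannZeta s = 1 ∧ 0 < s.im ∧ s.im ≤ T}

lemma SZ_fin (T : ℝ) : (SZ T).Finite := by
  refine (Pool.Agent.Y24.Near.Z_fin T).subset fun s hs => ?_
  obtain ⟨a1, a2, -, a4, a5⟩ := hs
  exact ⟨a1, by rw [a2]; norm_num, by rw [a2]; norm_num, a4, a5⟩

/-- indicator of an interval around `x` -/
noncomputable def nd (c x t : ℝ) : ℝ := (Set.Icc (x - c) (x + c)).indicator (fun _ => 1) t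

lemma nd_nonneg (c x t : ℝ) : 0 ≤ nd c x t := Set.indicator_nonneg (fun _ _ => zero_le_one) _

lemma nd_eq (c x t : ℝ) : nd c x t = if |x - t| ≤ c then 1 else 0 := by
  unfold nd
  rw [Set.indicator_apply]
  congr 1
  rw [abs_le, Set.mem_Icc, eq_iff_iff]
  constructor
  · rintro ⟨h1, h2⟩; constructor <;> linarith
  · rintro ⟨h1, h2⟩; constructor <;> linarith

lemma nd_mul (c x y τ t : ℝ) : nd c x t * nd c y (t + τ) =
    (Set.Icc (max (x - c) (y - τ - c)) (min (x + c) (y - τ + c))).indicator (fun _ => 1) t := by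
  unfold nd
  simp only [Set.indicator_apply, Set.mem_Icc, max_le_iff, le_min_iff]
  by_cases h1 : x - c ≤ t ∧ t ≤ x + c
  · by_cases h2 : y - c ≤ t + τ ∧ t + τ ≤ y + c
    · rw [if_pos h1, if_pos h2, if_pos ⟨⟨h1.1, by linarith [h2.1]⟩, h1.2, by linarith [h2.2]⟩,
        one_mul]
    · rw [if_pos h1, if_neg h2, if_neg, mul_zero]
      rintro ⟨⟨-, h3⟩, -, h4⟩
      exact h2 ⟨by linarith, by linarith⟩
  · rw [if_neg h1, zero_mul, if_neg]
    rintro ⟨⟨h3, -⟩, h4, -⟩
    exact h1 ⟨h3, h4⟩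

lemma nd_mul_int {c : ℝ} (hc : 0 < c) (x y τ : ℝ) : Integrable (fun t => nd c x t * nd c y (t + τ)) ∧
    ∫ t, nd c x t * nd c y (t + τ) ≤ (2 * c) ^ 2 * kb (2 * c) (y - x - τ) := by
  simp_rw [nd_mul]
  constructor
  · rw [integrable_indicator_iff measurableSet_Icc]
    exact integrableOn_const (by simp)
  · rw [integral_indicator measurableSet_Icc, setIntegral_const, smul_eq_mul, mul_one,
      Real.volume_real_Icc]
    have e : (2 * c) ^ 2 * kb (2 * c) (y - x - τ) = max 0 (2 * c - |y - x - τ|) := by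
      unfold kb
      have h2c : 0 < 2 * c := by positivity
      have e1 : (2 * c) ^ 2 * (1 / (2 * c) * max 0 (1 - |y - x - τ| / (2 * c))) =
          (2 * c) * max 0 (1 - |y - x - τ| / (2 * c)) := by
        field_simp
      rw [e1, mul_max_of_nonneg _ _ h2c.le, mul_zero, mul_sub, mul_one]
      congr 2
      field_simp
    rw [e, max_comm]
    apply max_le_max le_rfl
    rcases le_total 0 (y - x - τ) with h | h
    · rw [abs_of_nonneg h]
      have h1 := min_le_left (x + c) (y - τ + c)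
      have h2 := le_max_right (x - c) (y - τ - c)
      linarith
    · rw [abs_of_nonpos h]
      have h1 := min_le_right (x + c) (y - τ + c)
      have h2 := le_max_left (x - c) (y - τ - c)
      linarith

/-- the number of the pairs with scaled difference in `[α, β]` -/
noncomputable def PN (T α β : ℝ) : ℝ := (({p : ℂ × ℂ | p.1 ∈ SZ T ∧ p.2 ∈ SZ T ∧
  α ≤ (p.1.im - p.2.im) * Real.log T / (2 * Real.pi) ∧
  (p.1.im - p.2.im) * Real.log T / (2 * Real.pi) ≤ β} : Set (ℂ × ℂ)).ncard : ℝ)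

/-- the counting function as a sum -/
lemma vc_sum {T c t : ℝ} (h2 : t + c ≤ T) (hc : 2 ≤ t - c) :
    vc c t = ∑ s ∈ (SZ_fin T).toFinset, nd c s.im t := by
  classical
  have e : ∀ s : ℂ, nd c s.im t = if |s.im - t| ≤ c then 1 else 0 := fun s => nd_eq c s.im t
  simp_rw [e]
  rw [Finset.sum_boole]
  unfold vc
  congr 1
  rw [← Set.ncard_coe_finset]
  congr 1
  ext s
  simp only [Finset.coe_filter, Set.Finite.mem_toFinset, Set.mem_ofPred_eq]
  constructor
  · rintro ⟨a1, a2, a3, a4⟩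
    have a5 := abs_le.1 a4
    exact ⟨⟨a1, a2, a3, by linarith, by linarith⟩, a4⟩
  · rintro ⟨⟨a1, a2, a3, -, -⟩, a4⟩
    exact ⟨a1, a2, a3, a4⟩

lemma prod_low {x y A M M' : ℝ} (hx : 0 ≤ x) (hy : 0 ≤ y) (hA : 0 ≤ A)
    (h1 : A - x ≤ M) (h2 : A - y ≤ M') (hM : 0 ≤ M) (hM' : 0 ≤ M') :
    A ^ 2 - A * (M + M') ≤ x * y := by
  rcases le_or_gt A M with h3 | h3
  · have : A ^ 2 - A * (M + M') ≤ 0 := by nlinarith
    exact this.trans (mul_nonneg hx hy)
  · rcases le_or_gt A M' with h4 | h4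
    · have : A ^ 2 - A * (M + M') ≤ 0 := by nlinarith
      exact this.trans (mul_nonneg hx hy)
    · have h5 : (A - M) * (A - M') ≤ x * y := by
        apply mul_le_mul (by linarith) (by linarith) (by linarith) hx
      nlinarith [mul_nonneg hM hM']

theorem pairs_of_good {a η κ : ℝ} (hG : GoodF a η) (ha : 0 < a) (hη : 0 ≤ η) (hκ0 : 0 < κ)
    (hκ : κ < a * (a - 2 * η)) : ∃ l1 δ T0 : ℝ, 0 < l1 ∧ 0 < δ ∧ ∀ T : ℝ, T0 ≤ T → ∀ α β : ℝ,
      -(δ * (T * Real.log T)) ≤ α → β ≤ δ * (T * Real.log T) → l1 ≤ β - α →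
      κ * (β - α) * (T * Real.log T / (2 * Real.pi)) ≤ PN T α β := by
  have hpi := Real.pi_pos
  set κ1 : ℝ := (κ + a * (a - 2 * η)) / 2 with hκ1
  have hκκ1 : κ < κ1 := by linarith
  -- choice of `ε`
  set ε : ℝ := min (1 / 8) ((a * (a - 2 * η) - κ) / (2 * (4 * a ^ 2 + 2 * a))) with hε
  have hgap : 0 < a * (a - 2 * η) - κ := by linarith
  have hε0 : 0 < ε := by positivity
  have hε1 : ε ≤ 1 / 8 := min_le_left _ _
  have hε2 : κ1 ≤ a ^ 2 * (1 - 4 * ε) - 2 * a * (η + ε) := by
    have h1 : ε ≤ (a * (a - 2 * η) - κ) / (2 * (4 * a ^ 2 + 2 * a)) := min_le_right _ _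
    rw [le_div_iff₀ (by positivity)] at h1
    rw [hκ1]
    nlinarith
  obtain ⟨l, hl, hG1⟩ := hG ε hε0
  obtain ⟨T1, hT1, hG2⟩ := hG1 l le_rfl
  have hev : ∀ᶠ T : ℝ in atTop, max 1 (Real.pi * l) ≤ Real.log T :=
    Real.tendsto_log_atTop.eventually_ge_atTop _
  obtain ⟨T2, hT2⟩ := hev.exists_forall_of_atTop
  refine ⟨max (2 * l + 1) (2 * l * κ1 / (κ1 - κ)), ε / (2 * Real.pi),
    max (max T1 T2) (4 / ε), by positivity, by positivity, fun T hT α β hα hβ hl1 => ?_⟩
  have hTT1 : T1 ≤ T := ((le_max_left _ _).trans (le_max_left _ _)).trans hT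
  have hLL := hT2 T (((le_max_right _ _).trans (le_max_left _ _)).trans hT)
  have hTε : 4 ≤ ε * T := by
    have : 4 / ε ≤ T := (le_max_right _ _).trans hT
    rw [div_le_iff₀ hε0] at this
    linarith
  have hT10 : 10 ≤ T := hT1.trans hTT1
  have hTpos : 0 < T := by linarith
  set L := Real.log T with hL
  have hL1 : 1 ≤ L := (le_max_left _ _).trans hLL
  have hL2 : Real.pi * l ≤ L := (le_max_right _ _).trans hLL
  have hL0 : 0 < L := by linarith
  obtain ⟨M, hMi, hM0, hMle, hMint⟩ := hG2 T hTT1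
  rw [← hL] at hMle
  set c : ℝ := Real.pi * l / L with hc
  have hc0 : 0 < c := by positivity
  have hc1 : c ≤ 1 := by
    rw [hc, div_le_one hL0]
    exact hL2
  have hβα : 2 * l + 1 ≤ β - α := (le_max_left _ _).trans hl1
  have hβα2 : 2 * l * κ1 / (κ1 - κ) ≤ β - α := (le_max_right _ _).trans hl1
  -- the range of the shifts
  set τ1 : ℝ := 2 * Real.pi / L * α + 2 * c with hτ1
  set τ2 : ℝ := 2 * Real.pi / L * β - 2 * c with hτ2
  have hτlen : τ2 - τ1 = 2 * Real.pi / L * (β - α - 2 * l) := by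
    rw [hτ1, hτ2, hc]
    field_simp
    ring
  have hτ12 : τ1 ≤ τ2 := by
    have : 0 ≤ 2 * Real.pi / L * (β - α - 2 * l) := by
      apply mul_nonneg (by positivity)
      linarith
    linarith
  have hτlow : -(ε * T) ≤ τ1 := by
    have h1 : 2 * Real.pi / L * -(ε / (2 * Real.pi) * (T * L)) ≤ 2 * Real.pi / L * α := by gcongr
    have h2 : 2 * Real.pi / L * -(ε / (2 * Real.pi) * (T * L)) = -(ε * T) := by
      field_simp
    linarith
  have hτup : τ2 ≤ ε * T := by
    have h1 : 2 * Real.pi / L * β ≤ 2 * Real.pi / L * (ε / (2 * Real.pi) * (T * L)) := by gcongr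
    have h2 : 2 * Real.pi / L * (ε / (2 * Real.pi) * (T * L)) = ε * T := by
      field_simp
    linarith
  -- the lower bound for one shift
  set F := (SZ_fin T).toFinset with hF
  set V : ℝ → ℝ := fun t => ∑ s ∈ F, nd c s.im t with hV
  have hVv : ∀ t, ε * T ≤ t → t ≤ T - 1 → vc c t = V t := by
    intro t ht1 ht2
    exact vc_sum (by linarith) (by linarith)
  have hV0 : ∀ t, 0 ≤ V t := fun t => Finset.sum_nonneg fun s _ => nd_nonneg _ _ _
  have hVV : ∀ τ t, V t * V (t + τ) = ∑ s ∈ F, ∑ s' ∈ F, nd c s.im t * nd c s'.im (t + τ) := by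
    intro τ t
    simp only [hV]
    rw [Finset.sum_mul_sum]
  have hVVi : ∀ τ, Integrable fun t => V t * V (t + τ) := by
    intro τ
    simp_rw [hVV]
    exact integrable_finsetSum _ fun s _ => integrable_finsetSum _ fun s' _ =>
      (nd_mul_int hc0 _ _ τ).1
  have hVVint : ∀ τ, ∫ t, V t * V (t + τ) ≤ ∑ s ∈ F, ∑ s' ∈ F,
      (2 * c) ^ 2 * kb (2 * c) (s'.im - s.im - τ) := by
    intro τ
    simp_rw [hVV]
    rw [integral_finsetSum _ fun s _ => integrable_finsetSum _ fun s' _ =>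
      (nd_mul_int hc0 _ _ τ).1]
    refine Finset.sum_le_sum fun s _ => ?_
    rw [integral_finsetSum _ fun s' _ => (nd_mul_int hc0 _ _ τ).1]
    exact Finset.sum_le_sum fun s' _ => (nd_mul_int hc0 _ _ τ).2
  have hlow : ∀ τ ∈ Set.Icc τ1 τ2, κ1 * (l ^ 2 * T) ≤ ∫ t, V t * V (t + τ) := by
    intro τ hτ
    set S := Set.Icc (2 * (ε * T)) (T - 2 * (ε * T)) with hS
    have hS2 : 2 * (ε * T) ≤ T - 2 * (ε * T) := by nlinarith
    have hMτ : Integrable fun t => M (t + τ) := hMi.comp_add_right τ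
    have h1 : ∫ t in S, ((a * l) ^ 2 - (a * l) * (M t + M (t + τ))) ≤ ∫ t in S, V t * V (t + τ) := by
      apply setIntegral_mono_on
      · exact (integrableOn_const (by simp [hS])).sub ((hMi.add hMτ).const_mul (a * l)).integrableOn
      · exact (hVVi τ).integrableOn
      · exact measurableSet_Icc
      · intro t ht
        have ht1 := ht.1
        have ht2 := ht.2
        have hτ1' := hτ.1
        have hτ2' := hτ.2
        have m1 := hMle t (by linarith) (by linarith)
        have m2 := hMle (t + τ) (by linarith) (by linarith)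
        rw [hVv t (by linarith) (by linarith)] at m1
        rw [hVv (t + τ) (by linarith) (by linarith)] at m2
        exact prod_low (hV0 _) (hV0 _) (by positivity) m1 m2 (hM0 _) (hM0 _)
    have h2 : ∫ t in S, V t * V (t + τ) ≤ ∫ t, V t * V (t + τ) :=
      setIntegral_le_integral (hVVi τ) (Eventually.of_forall fun t => mul_nonneg (hV0 _) (hV0 _))
    have h3 : ∫ t in S, ((a * l) ^ 2 - (a * l) * (M t + M (t + τ))) =
        (T - 4 * (ε * T)) * (a * l) ^ 2 - (a * l) * ((∫ t in S, M t) + ∫ t in S, M (t + τ)) := by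
      have i1 : Integrable (fun _ : ℝ => (a * l) ^ 2) (volume.restrict S) :=
        integrableOn_const (by simp [hS])
      have i2 : Integrable (fun t => (a * l) * (M t + M (t + τ))) (volume.restrict S) :=
        ((hMi.add hMτ).const_mul (a * l)).integrableOn
      have e0 := integral_sub i1 i2
      have e1 : ∫ t in S, (M t + M (t + τ)) = (∫ t in S, M t) + ∫ t in S, M (t + τ) :=
        integral_add hMi.integrableOn hMτ.integrableOn
      have e2 : ∫ t in S, (a * l) * (M t + M (t + τ)) = (a * l) * ∫ t in S, (M t + M (t + τ)) :=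
        integral_const_mul _ _
      have e3 : ∫ _ in S, (a * l) ^ 2 = (T - 4 * (ε * T)) * (a * l) ^ 2 := by
        rw [setIntegral_const, smul_eq_mul, hS, Real.volume_real_Icc, max_eq_left (by linarith)]
        ring
      rw [e0, e2, e1, e3]
    have h4 : ∫ t in S, M t ≤ (η + ε) * (l * T) :=
      (setIntegral_le_integral hMi (Eventually.of_forall hM0)).trans hMint
    have h5 : ∫ t in S, M (t + τ) ≤ (η + ε) * (l * T) := by
      refine (setIntegral_le_integral hMτ (Eventually.of_forall fun t => hM0 _)).trans ?_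
      rw [integral_add_right_eq_self (fun t => M t) τ]
      exact hMint
    have h6 : (a * l) * ((∫ t in S, M t) + ∫ t in S, M (t + τ)) ≤
        (a * l) * ((η + ε) * (l * T) + (η + ε) * (l * T)) := by gcongr
    have h7 : κ1 * (l ^ 2 * T) ≤ (a ^ 2 * (1 - 4 * ε) - 2 * a * (η + ε)) * (l ^ 2 * T) := by
      gcongr
    have h8 : (a ^ 2 * (1 - 4 * ε) - 2 * a * (η + ε)) * (l ^ 2 * T) =
        (T - 4 * (ε * T)) * (a * l) ^ 2 -
          (a * l) * ((η + ε) * (l * T) + (η + ε) * (l * T)) := by ring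
    linarith
  -- integration over the shifts
  have hcont : ∀ x : ℝ, Continuous fun τ : ℝ => (2 * c) ^ 2 * kb (2 * c) (x - τ) := fun x =>
    continuous_const.mul (kb_comp (2 * c) x)
  have hint : (τ2 - τ1) * (κ1 * (l ^ 2 * T)) ≤ ∑ s ∈ F, ∑ s' ∈ F,
      ∫ τ in τ1..τ2, (2 * c) ^ 2 * kb (2 * c) (s'.im - s.im - τ) := by
    have h1 : ∫ τ in τ1..τ2, κ1 * (l ^ 2 * T) ≤ ∫ τ in τ1..τ2, ∑ s ∈ F, ∑ s' ∈ F,
        (2 * c) ^ 2 * kb (2 * c) (s'.im - s.im - τ) := by
      apply intervalIntegral.integral_mono_on hτ12 (by simp)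
      · apply Continuous.intervalIntegrable
        exact continuous_finsetSum _ fun s _ => continuous_finsetSum _ fun s' _ => hcont _
      · intro τ hτ
        exact (hlow τ hτ).trans (hVVint τ)
    rw [intervalIntegral.integral_const, smul_eq_mul] at h1
    refine h1.trans (le_of_eq ?_)
    rw [intervalIntegral.integral_finsetSum fun s _ => (continuous_finsetSum _ fun s' _ =>
      hcont _).intervalIntegrable _ _]
    refine Finset.sum_congr rfl fun s _ => ?_
    rw [intervalIntegral.integral_finsetSum fun s' _ => (hcont _).intervalIntegrable _ _]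
  -- the pairs
  classical
  set P : Finset (ℂ × ℂ) := (F ×ˢ F).filter (fun p =>
    α ≤ (p.1.im - p.2.im) * L / (2 * Real.pi) ∧ (p.1.im - p.2.im) * L / (2 * Real.pi) ≤ β) with hP
  have hterm : ∀ s s' : ℂ, ∫ τ in τ1..τ2, (2 * c) ^ 2 * kb (2 * c) (s'.im - s.im - τ) ≤
      if α ≤ (s'.im - s.im) * L / (2 * Real.pi) ∧ (s'.im - s.im) * L / (2 * Real.pi) ≤ β
        then (2 * c) ^ 2 else 0 := by
    intro s s'
    split_ifs with hcond
    · rw [intervalIntegral.integral_const_mul]
      have := kb_int_le (b := 2 * c) (by positivity) (s'.im - s.im) τ1 τ2 hτ12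
      calc _ ≤ (2 * c) ^ 2 * 1 := by gcongr
        _ = _ := mul_one _
    · apply le_of_eq
      rw [intervalIntegral.integral_congr (g := fun _ => (0 : ℝ))]
      · simp
      · intro τ hτ
        rw [Set.uIcc_of_le hτ12] at hτ
        show (2 * c) ^ 2 * kb (2 * c) (s'.im - s.im - τ) = 0
        rw [kb_zero (by positivity), mul_zero]
        by_contra hcon
        rw [not_le, abs_lt] at hcon
        apply hcond
        have h2π : 0 < 2 * Real.pi := by positivity
        constructor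
        · rw [le_div_iff₀ h2π]
          have h1 : 2 * Real.pi / L * α ≤ s'.im - s.im := by linarith [hτ.1]
          have h2 : 2 * Real.pi / L * α * L ≤ (s'.im - s.im) * L := by gcongr
          have h3 : 2 * Real.pi / L * α * L = α * (2 * Real.pi) := by field_simp
          linarith
        · rw [div_le_iff₀ h2π]
          have h1 : s'.im - s.im ≤ 2 * Real.pi / L * β := by linarith [hτ.2]
          have h2 : (s'.im - s.im) * L ≤ 2 * Real.pi / L * β * L := by gcongr
          have h3 : 2 * Real.pi / L * β * L = β * (2 * Real.pi) := by field_simp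
          linarith
  have hsum : ∑ s ∈ F, ∑ s' ∈ F, ∫ τ in τ1..τ2, (2 * c) ^ 2 * kb (2 * c) (s'.im - s.im - τ) ≤
      (2 * c) ^ 2 * (P.card : ℝ) := by
    have h1 : ∑ s ∈ F, ∑ s' ∈ F, ∫ τ in τ1..τ2, (2 * c) ^ 2 * kb (2 * c) (s'.im - s.im - τ) ≤
        ∑ s ∈ F, ∑ s' ∈ F, (if α ≤ (s'.im - s.im) * L / (2 * Real.pi) ∧
          (s'.im - s.im) * L / (2 * Real.pi) ≤ β then (2 * c) ^ 2 else 0) :=
      Finset.sum_le_sum fun s _ => Finset.sum_le_sum fun s' _ => hterm s s'
    refine h1.trans (le_of_eq ?_)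
    rw [Finset.sum_comm, ← Finset.sum_product', hP, ← Finset.sum_filter, Finset.sum_const,
      nsmul_eq_mul, mul_comm]
  have hPN : (P.card : ℝ) ≤ PN T α β := by
    unfold PN
    rw [Nat.cast_le, ← Set.ncard_coe_finset]
    apply Set.ncard_le_ncard
    · intro p hp
      rw [Finset.mem_coe, hP, Finset.mem_filter, Finset.mem_product, hF,
        Set.Finite.mem_toFinset, Set.Finite.mem_toFinset] at hp
      exact ⟨hp.1.1, hp.1.2, hp.2.1, hp.2.2⟩
    · exact ((SZ_fin T).prod (SZ_fin T)).subset fun p hp => ⟨hp.1, hp.2.1⟩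
  -- conclusion
  have hfin : (τ2 - τ1) * (κ1 * (l ^ 2 * T)) ≤ (2 * c) ^ 2 * PN T α β := by
    refine (hint.trans hsum).trans ?_
    gcongr
  rw [hτlen, hc] at hfin
  have e1 : 2 * Real.pi / L * (β - α - 2 * l) * (κ1 * (l ^ 2 * T)) =
      (2 * (Real.pi * l / L)) ^ 2 * ((β - α - 2 * l) * κ1 * (T * L / (2 * Real.pi))) := by
    field_simp
  rw [e1] at hfin
  have h1 : (β - α - 2 * l) * κ1 * (T * L / (2 * Real.pi)) ≤ PN T α β :=
    le_of_mul_le_mul_left hfin (by positivity)
  refine le_trans ?_ h1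
  apply mul_le_mul_of_nonneg_right _ (by positivity)
  have hgap2 : 0 < κ1 - κ := by linarith
  rw [div_le_iff₀ hgap2] at hβα2
  nlinarith

end Pool.Agent.Helper92.FM
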