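import Pool.Agent.Helper92.FM.Mn1
import Pool.Agent.Helper92.FM.Mn2
import Pool.Agent.Helper92.FM.Mn3
import Pool.Agent.Helper92.FM.Dg2
import Pool.Agent.Helper92.FM.Lt1
import Pool.Graph.R_seed8.TH299.SW.Win
import Pool.Graph.R_seed8.H295R2.SI.Defs

set_option autoImplicit false

/-! Windows with explicit self-convolution. -/

open Complex Filter Topology Set MeasureTheory
open scoped BigOperators ComplexConjugate

namespace Pool.Agent.Helper92.FM

open H295SI (kapG Win KSq)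

lemma wt_exists {ψ ψ' : ℝ → ℝ} {lam : ℝ} (h0 : 0 < lam) (h1 : lam ≤ 1)
    (hd : ∀ x, HasDerivAt ψ (ψ' x) x) (hc : Continuous ψ') : ∃ B, Wt ψ ψ' lam B := by
  have hψ : Continuous ψ := continuous_iff_continuousAt.2 fun x => (hd x).continuousAt
  obtain ⟨B1, hB1⟩ := (isCompact_Icc (a := (0 : ℝ)) (b := lam)).exists_bound_of_continuousOn
    hψ.continuousOn
  obtain ⟨B2, hB2⟩ := (isCompact_Icc (a := (0 : ℝ)) (b := lam)).exists_bound_of_continuousOn
    hc.continuousOn
  exact ⟨max B1 B2, h0, h1, hd, hc, fun α ha hb =>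
    ⟨(hB1 α ⟨ha, hb⟩).trans (le_max_left _ _), (hB2 α ⟨ha, hb⟩).trans (le_max_right _ _)⟩⟩

/-- the self-convolution -/
lemma conv_gen {w Rp : ℝ → ℝ} {P : ℝ → ℝ → ℝ} (hw : Continuous w)
    (hP : ∀ a x, HasDerivAt (P a) (w x * w (a - x)) x)
    (h1 : ∀ a, P a (1 / 2) - P a (a - 1 / 2) = Rp a)
    (h2 : ∀ a, P a (a + 1 / 2) - P a (-1 / 2) = Rp (-a)) (h3 : Rp 1 = 0) (a : ℝ) :
    ∫ x in (Set.Icc (-1 / 2 : ℝ) (1 / 2) ∩ Set.Icc (a - 1 / 2) (a + 1 / 2)), w x * w (a - x) =
      Rp (min |a| 1) := by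
  have hc : Continuous fun x => w x * w (a - x) := by fun_prop
  rcases le_total 0 a with ha | ha
  · rw [abs_of_nonneg ha]
    have e1 : Set.Icc (-1 / 2 : ℝ) (1 / 2) ∩ Set.Icc (a - 1 / 2) (a + 1 / 2) =
        Set.Icc (a - 1 / 2) (1 / 2) := by
      ext x
      simp only [Set.mem_inter_iff, Set.mem_Icc]
      constructor
      · rintro ⟨⟨b1, b2⟩, b3, b4⟩; exact ⟨b3, b2⟩
      · rintro ⟨b1, b2⟩; exact ⟨⟨by linarith, b2⟩, b1, by linarith⟩
    rw [e1]
    rcases le_or_gt a 1 with ha1 | ha1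
    · rw [min_eq_left ha1, integral_Icc_eq_integral_Ioc,
        ← intervalIntegral.integral_of_le (by linarith),
        intervalIntegral.integral_eq_sub_of_hasDerivAt (fun x _ => hP a x)
          (hc.intervalIntegrable _ _), h1]
    · rw [min_eq_right ha1.le, h3, Set.Icc_eq_empty (by linarith), Measure.restrict_empty,
        integral_zero_measure]
  · rw [abs_of_nonpos ha]
    have e1 : Set.Icc (-1 / 2 : ℝ) (1 / 2) ∩ Set.Icc (a - 1 / 2) (a + 1 / 2) =
        Set.Icc (-1 / 2) (a + 1 / 2) := by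
      ext x
      simp only [Set.mem_inter_iff, Set.mem_Icc]
      constructor
      · rintro ⟨⟨b1, b2⟩, b3, b4⟩; exact ⟨b1, b4⟩
      · rintro ⟨b1, b2⟩; exact ⟨⟨b1, by linarith⟩, by linarith, b2⟩
    rw [e1]
    rcases le_or_gt (-a) 1 with ha1 | ha1
    · rw [min_eq_left ha1, integral_Icc_eq_integral_Ioc,
        ← intervalIntegral.integral_of_le (by linarith),
        intervalIntegral.integral_eq_sub_of_hasDerivAt (fun x _ => hP a x)
          (hc.intervalIntegrable _ _), h2]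
    · rw [min_eq_right ha1.le, h3, Set.Icc_eq_empty (by linarith), Measure.restrict_empty,
        integral_zero_measure]

theorem good_gen {w Rp Rp' S : ℝ → ℝ} {P : ℝ → ℝ → ℝ} (hw : Win w)
    (hP : ∀ a x, HasDerivAt (P a) (w x * w (a - x)) x)
    (h1 : ∀ a, P a (1 / 2) - P a (a - 1 / 2) = Rp a)
    (h2 : ∀ a, P a (a + 1 / 2) - P a (-1 / 2) = Rp (-a)) (h3 : Rp 1 = 0)
    (hR' : ∀ x, HasDerivAt Rp (Rp' x) x) (hRc : Continuous Rp')
    (hS : ∀ x, HasDerivAt S (x * Rp x) x) (hS0 : S 0 = 0)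
    {h y : ℝ} (hh0 : 0 < h) (hh1 : h < 1) (hy0 : 0 < y) (hy1 : y ≤ 1) (hhy : h * y < 1 / 2)
    (hc : Rp 0 / h + 2 * h * S y ≤ 2) :
    Good (2 - (Rp 0 / h + 2 * h * S y)) (2 * h * (S 1 - S y)) ∧ 0 ≤ 2 * h * (S 1 - S y) := by
  have hconv := conv_gen hw.cont hP h1 h2 h3
  have hRpc : Continuous Rp := continuous_iff_continuousAt.2 fun x => (hR' x).continuousAt
  set R : ℝ → ℝ := fun a => Rp (min |a| 1) with hR
  have hCR : CR R := ⟨hRpc.comp (continuous_abs.min continuous_const), fun α => by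
    simp only [hR, abs_neg]⟩
  have hKS : KSq w R := TH299.SW.kap_sq_gen hw.cont hconv fun a ha => by
    simp only [hR]
    rw [min_eq_right (not_le.1 ha).le, h3]
  have hRnn : ∀ a, 0 ≤ R a := by
    intro a
    have := hconv a
    show 0 ≤ Rp (min |a| 1)
    rw [← this]
    apply setIntegral_nonneg (measurableSet_Icc.inter measurableSet_Icc)
    rintro x ⟨hx1, hx2⟩
    apply mul_nonneg (hw.nonneg x hx1.1 hx1.2)
    apply hw.nonneg
    · linarith [hx2.2]
    · linarith [hx2.1]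
  have hRpnn : ∀ a, 0 ≤ a → a ≤ 1 → 0 ≤ Rp a := by
    intro a ha hb
    have := hRnn a
    simp only [hR] at this
    rwa [abs_of_nonneg ha, min_eq_left hb] at this
  set ψ : ℝ → ℝ := fun x => Rp (x / h) with hψ
  have hψd : ∀ x, HasDerivAt ψ (Rp' (x / h) / h) x := by
    intro x
    have e1 : HasDerivAt (fun x : ℝ => x / h) (1 / h) x := (hasDerivAt_id x).div_const h
    have e2 := (hR' (x / h)).comp x e1
    refine e2.congr_deriv ?_
    ring
  have hψc : Continuous fun x => Rp' (x / h) / h := by fun_prop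
  obtain ⟨B, wB⟩ := wt_exists hh0 hh1.le hψd hψc
  have hy : 0 < h * y := by positivity
  have hyh : h * y ≤ h := by nlinarith
  have wB' : Wt ψ (fun x => Rp' (x / h) / h) (h * y) B :=
    ⟨hy, hyh.trans hh1.le, wB.der, wB.cont', fun α ha hb => wB.bd α ha (hb.trans hyh)⟩
  have hψ0 : ∀ α, 0 ≤ α → α ≤ h → 0 ≤ ψ α := by
    intro α ha hb
    apply hRpnn
    · positivity
    · rw [div_le_one hh0]
      exact hb
  have hRψ : ∀ α, 0 ≤ α → α ≤ 1 → R α = ψ (h * α) := by
    intro α ha hb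
    simp only [hR, hψ]
    rw [abs_of_nonneg ha, min_eq_left hb]
    congr 1
    field_simp
  have hint : ∀ a b : ℝ, ∫ α in a..b, α * ψ α = h ^ 2 * (S (b / h) - S (a / h)) := by
    intro a b
    have e1 : ∀ x ∈ Set.uIcc a b, HasDerivAt (fun α => h ^ 2 * S (α / h)) (x * ψ x) x := by
      intro x _
      have e2 : HasDerivAt (fun x : ℝ => x / h) (1 / h) x := (hasDerivAt_id x).div_const h
      have e3 := ((hS (x / h)).comp x e2).const_mul (h ^ 2)
      refine e3.congr_deriv ?_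
      simp only [hψ]
      field_simp
    rw [intervalIntegral.integral_eq_sub_of_hasDerivAt e1
      ((continuous_id.mul wB.cont).intervalIntegrable _ _)]
    ring
  have hCl : Cl ψ h (h * y) = Rp 0 / h + 2 * h * S y := by
    unfold Cl
    rw [hint]
    simp only [hψ]
    rw [zero_div, hS0]
    have : h * y / h = y := by field_simp
    rw [this]
    field_simp
    ring
  have hEt : Et ψ h (h * y) = 2 * h * (S 1 - S y) := by
    unfold Et
    rw [hint]
    have e1 : h * y / h = y := by field_simp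
    have e2 : h / h = 1 := by field_simp
    rw [e1, e2]
    field_simp
  have hCl0 : 0 ≤ Cl ψ h (h * y) := by
    unfold Cl
    have e1 : 0 ≤ ψ 0 := hψ0 0 le_rfl hh0.le
    have e2 : 0 ≤ ∫ α in (0 : ℝ)..(h * y), α * ψ α := by
      apply intervalIntegral.integral_nonneg hy.le
      intro α hα
      exact mul_nonneg hα.1 (hψ0 α hα.1 (hα.2.trans hyh))
    positivity
  have hEt0 : 0 ≤ Et ψ h (h * y) := by
    unfold Et
    have e2 : 0 ≤ ∫ α in (h * y)..h, α * ψ α := by
      apply intervalIntegral.integral_nonneg hyh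
      intro α hα
      exact mul_nonneg (hy.le.trans hα.1) (hψ0 α (hy.le.trans hα.1) hα.2)
    positivity
  rw [← hCl, ← hEt]
  refine ⟨fun ε hε => ?_, hEt0⟩
  exact main_maj hw hCR hKS wB wB' hψ0 hRψ hh1 hhy hyh hCl0 (by rw [hCl]; exact hc) ε hε

/-- the window for the pairs -/
theorem goodA : Good (8174 / 10000) (14543 / 100000) := by
  have hw : Win (fun x : ℝ => 10 / 9 - 4 / 3 * x ^ 2) := by
    refine ⟨by fun_prop, ?_, ?_, ?_⟩
    · intro x h1 h2
      show 0 ≤ 10 / 9 - 4 / 3 * x ^ 2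
      nlinarith
    · intro x
      show 10 / 9 - 4 / 3 * (-x) ^ 2 = 10 / 9 - 4 / 3 * x ^ 2
      ring
    · rw [intervalIntegral.integral_sub (by simp)
        (by apply Continuous.intervalIntegrable; fun_prop), intervalIntegral.integral_const_mul,
        integral_pow, intervalIntegral.integral_const, smul_eq_mul]
      norm_num
  obtain ⟨h1, h2⟩ := good_gen (w := fun x : ℝ => 10 / 9 - 4 / 3 * x ^ 2)
    (Rp := fun a => 409 / 405 - 49 / 81 * a - 4 / 3 * a ^ 2 + 80 / 81 * a ^ 3 - 8 / 135 * a ^ 5)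
    (Rp' := fun a => - 49 / 81 - 8 / 3 * a + 80 / 27 * a ^ 2 - 8 / 27 * a ^ 4)
    (S := fun x => 409 / 810 * x ^ 2 - 49 / 243 * x ^ 3 - 1 / 3 * x ^ 4 + 16 / 81 * x ^ 5 -
      8 / 945 * x ^ 7)
    (P := fun a x => 100 / 81 * x - 80 / 81 * x ^ 3 - 40 / 27 * a ^ 2 * x + 16 / 27 * a ^ 2 * x ^ 3 +
      40 / 27 * a * x ^ 2 - 8 / 9 * a * x ^ 4 + 16 / 45 * x ^ 5)
    (h := 9999 / 10000) (y := 1 / 2) hw
    (fun a x => by
      have hx := hasDerivAt_id x
      have := ((((((hx.const_mul (100 / 81)).sub ((hx.pow 3).const_mul (80 / 81))).sub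
        (hx.const_mul (40 / 27 * a ^ 2))).add ((hx.pow 3).const_mul (16 / 27 * a ^ 2))).add
        ((hx.pow 2).const_mul (40 / 27 * a))).sub ((hx.pow 4).const_mul (8 / 9 * a))).add
        ((hx.pow 5).const_mul (16 / 45))
      refine this.congr_deriv ?_
      simp only [id]
      norm_num
      ring)
    (fun a => by ring) (fun a => by ring) (by norm_num)
    (fun x => by
      have hx := hasDerivAt_id x
      have := (((((hasDerivAt_const x (409 / 405 : ℝ)).sub (hx.const_mul (49 / 81))).sub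
        ((hx.pow 2).const_mul (4 / 3))).add ((hx.pow 3).const_mul (80 / 81))).sub
        ((hx.pow 5).const_mul (8 / 135)))
      refine this.congr_deriv ?_
      simp only [id]
      norm_num
      ring)
    (by fun_prop)
    (fun x => by
      have hx := hasDerivAt_id x
      have := (((((hx.pow 2).const_mul (409 / 810)).sub ((hx.pow 3).const_mul (49 / 243))).sub
        ((hx.pow 4).const_mul (1 / 3))).add ((hx.pow 5).const_mul (16 / 81))).sub
        ((hx.pow 7).const_mul (8 / 945))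
      refine this.congr_deriv ?_
      simp only [id]
      norm_num
      ring)
    (by norm_num) (by norm_num) (by norm_num) (by norm_num) (by norm_num) (by norm_num)
    (by norm_num)
  intro ε hε
  obtain ⟨l0, hl0, hl⟩ := h1 ε hε
  refine ⟨l0, hl0, fun l hll => ?_⟩
  obtain ⟨T0, hT0, hT⟩ := hl l hll
  refine ⟨T0, hT0, fun T hTT => ?_⟩
  obtain ⟨M, m1, m2, m3, m4⟩ := hT T hTT
  have hlpos : 0 < l := lt_of_lt_of_le hl0 hll
  have hTpos : 0 < T := by linarith
  refine ⟨M, m1, m2, fun t ht1 ht2 => le_trans ?_ (m3 t ht1 ht2), m4.trans ?_⟩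
  · have : (8174 / 10000 : ℝ) * l ≤ (2 - ((409 / 405 - 49 / 81 * 0 - 4 / 3 * 0 ^ 2 +
        80 / 81 * 0 ^ 3 - 8 / 135 * 0 ^ 5) / (9999 / 10000) + 2 * (9999 / 10000) *
        (409 / 810 * (1 / 2) ^ 2 - 49 / 243 * (1 / 2) ^ 3 - 1 / 3 * (1 / 2) ^ 4 +
        16 / 81 * (1 / 2) ^ 5 - 8 / 945 * (1 / 2) ^ 7))) * l := by
      apply mul_le_mul_of_nonneg_right _ hlpos.le
      norm_num
    linarith
  · apply mul_le_mul_of_nonneg_right _ (by positivity)
    norm_num

/-- the window for the simultaneous short intervals -/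
theorem goodB : Good (1551 / 10000) (96 / 10000) := by
  have hw : Win (fun x : ℝ => 5 / 4 - 20 * x ^ 4) := by
    refine ⟨by fun_prop, ?_, ?_, ?_⟩
    · intro x h1 h2
      show 0 ≤ 5 / 4 - 20 * x ^ 4
      have h3 : x ^ 2 ≤ 1 / 4 := by nlinarith
      have h4 : 0 ≤ x ^ 2 := sq_nonneg x
      have h5 : x ^ 4 = x ^ 2 * x ^ 2 := by ring
      nlinarith
    · intro x
      show 5 / 4 - 20 * (-x) ^ 4 = 5 / 4 - 20 * x ^ 4
      ring
    · rw [intervalIntegral.integral_sub (by simp)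
        (by apply Continuous.intervalIntegrable; fun_prop), intervalIntegral.integral_const_mul,
        integral_pow, intervalIntegral.integral_const, smul_eq_mul]
      norm_num
  obtain ⟨h1, h2⟩ := good_gen (w := fun x : ℝ => 5 / 4 - 20 * x ^ 4)
    (Rp := fun a => 10 / 9 - 50 / 7 * a ^ 2 + 50 / 3 * a ^ 3 - 20 * a ^ 4 + 10 * a ^ 5 -
      40 / 63 * a ^ 9)
    (Rp' := fun a => - 100 / 7 * a + 50 * a ^ 2 - 80 * a ^ 3 + 50 * a ^ 4 - 40 / 7 * a ^ 8)
    (S := fun x => 5 / 9 * x ^ 2 - 25 / 14 * x ^ 4 + 10 / 3 * x ^ 5 - 10 / 3 * x ^ 6 +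
      10 / 7 * x ^ 7 - 40 / 693 * x ^ 11)
    (P := fun a x => 25 / 16 * x - 10 * x ^ 5 - 25 * a ^ 4 * x + 80 * a ^ 4 * x ^ 5 +
      50 * a ^ 3 * x ^ 2 - 800 / 3 * a ^ 3 * x ^ 6 - 50 * a ^ 2 * x ^ 3 +
      2400 / 7 * a ^ 2 * x ^ 7 + 25 * a * x ^ 4 - 200 * a * x ^ 8 + 400 / 9 * x ^ 9)
    (h := 3333 / 5000) (y := 3 / 4) hw
    (fun a x => by
      have hx := hasDerivAt_id x
      have := ((((((((((hx.const_mul (25 / 16)).sub ((hx.pow 5).const_mul 10)).sub
        (hx.const_mul (25 * a ^ 4))).add ((hx.pow 5).const_mul (80 * a ^ 4))).add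
        ((hx.pow 2).const_mul (50 * a ^ 3))).sub ((hx.pow 6).const_mul (800 / 3 * a ^ 3))).sub
        ((hx.pow 3).const_mul (50 * a ^ 2))).add ((hx.pow 7).const_mul (2400 / 7 * a ^ 2))).add
        ((hx.pow 4).const_mul (25 * a))).sub ((hx.pow 8).const_mul (200 * a))).add
        ((hx.pow 9).const_mul (400 / 9))
      refine this.congr_deriv ?_
      simp only [id]
      norm_num
      ring)
    (fun a => by ring) (fun a => by ring) (by norm_num)
    (fun x => by
      have hx := hasDerivAt_id x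
      have := ((((((hasDerivAt_const x (10 / 9 : ℝ)).sub ((hx.pow 2).const_mul (50 / 7))).add
        ((hx.pow 3).const_mul (50 / 3))).sub ((hx.pow 4).const_mul 20)).add
        ((hx.pow 5).const_mul 10)).sub ((hx.pow 9).const_mul (40 / 63)))
      refine this.congr_deriv ?_
      simp only [id]
      norm_num
      ring)
    (by fun_prop)
    (fun x => by
      have hx := hasDerivAt_id x
      have := ((((((hx.pow 2).const_mul (5 / 9)).sub ((hx.pow 4).const_mul (25 / 14))).add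
        ((hx.pow 5).const_mul (10 / 3))).sub ((hx.pow 6).const_mul (10 / 3))).add
        ((hx.pow 7).const_mul (10 / 7))).sub ((hx.pow 11).const_mul (40 / 693))
      refine this.congr_deriv ?_
      simp only [id]
      norm_num
      ring)
    (by norm_num) (by norm_num) (by norm_num) (by norm_num) (by norm_num) (by norm_num)
    (by norm_num)
  intro ε hε
  obtain ⟨l0, hl0, hl⟩ := h1 ε hε
  refine ⟨l0, hl0, fun l hll => ?_⟩
  obtain ⟨T0, hT0, hT⟩ := hl l hll
  refine ⟨T0, hT0, fun T hTT => ?_⟩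
  obtain ⟨M, m1, m2, m3, m4⟩ := hT T hTT
  have hlpos : 0 < l := lt_of_lt_of_le hl0 hll
  have hTpos : 0 < T := by linarith
  refine ⟨M, m1, m2, fun t ht1 ht2 => le_trans ?_ (m3 t ht1 ht2), m4.trans ?_⟩
  · apply sub_le_sub_right
    apply mul_le_mul_of_nonneg_right _ hlpos.le
    norm_num
  · apply mul_le_mul_of_nonneg_right _ (by positivity)
    norm_num

end Pool.Agent.Helper92.FM
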