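import Pool.Agent.Helper92.FM.Mn2
import Pool.Agent.Helper92.FM.Mn3
import Pool.Agent.Helper92.FM.Wd

set_option autoImplicit false

/-! Simultaneous short intervals. -/

open Complex Filter Topology Set MeasureTheory
open scoped BigOperators ComplexConjugate

namespace Pool.Agent.Helper92.FM

theorem bad_meas {a η p : ℝ} (hG : GoodF a η) (ha : 0 < a) (hp : η < p * a) :
    ∃ c T0 : ℝ, 0 < c ∧ 10 ≤ T0 ∧ ∀ T : ℝ, T0 ≤ T →
      volume {t : ℝ | 0 ≤ t ∧ t ≤ T ∧ Sc (c / Real.log T) t = ∅} ≤ ENNReal.ofReal (p * T) := by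
  have hpi := Real.pi_pos
  set ε : ℝ := (p * a - η) / (1 + a) with hε
  have hgap : 0 < p * a - η := by linarith
  have hε0 : 0 < ε := by positivity
  have hε1 : (η + ε) / a + ε ≤ p := by
    have h1 : (η + ε) / a + ε = (η + ε * (1 + a)) / a := by
      field_simp
      ring
    rw [h1, hε, div_mul_cancel₀ _ (by positivity)]
    apply le_of_eq
    field_simp
    ring
  obtain ⟨l, hl, hG1⟩ := hG ε hε0
  obtain ⟨T1, hT1, hG2⟩ := hG1 l le_rfl
  refine ⟨Real.pi * l, T1, by positivity, hT1, fun T hT => ?_⟩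
  obtain ⟨M, hMi, hM0, hMle, hMint⟩ := hG2 T hT
  have hTpos : 0 < T := by linarith
  have hal : 0 < a * l := by positivity
  have hsub : {t : ℝ | 0 ≤ t ∧ t ≤ T ∧ Sc (Real.pi * l / Real.log T) t = ∅} ⊆
      Set.Icc 0 (ε * T) ∪ {t | a * l ≤ M t} := by
    rintro t ⟨h0, h1, h2⟩
    rcases le_or_gt t (ε * T) with h3 | h3
    · left; exact ⟨h0, h3⟩
    · right
      have h4 := hMle t h3.le h1
      have h5 : vc (Real.pi * l / Real.log T) t = 0 := by
        unfold vc
        rw [h2]
        simp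
      rw [h5, sub_zero] at h4
      exact h4
  have hfin : volume {t | a * l ≤ M t} ≠ ⊤ := (hMi.measure_ge_lt_top hal).ne
  have hmark := mul_meas_ge_le_integral_of_nonneg (Eventually.of_forall hM0) hMi (a * l)
  have h1 : volume.real {t | a * l ≤ M t} ≤ (η + ε) / a * T := by
    have h2 : a * l * volume.real {t | a * l ≤ M t} ≤ a * l * ((η + ε) / a * T) := by
      refine (hmark.trans hMint).trans (le_of_eq ?_)
      field_simp
    exact le_of_mul_le_mul_left h2 hal
  have h2 : volume {t | a * l ≤ M t} ≤ ENNReal.ofReal ((η + ε) / a * T) := by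
    rw [← ENNReal.ofReal_toReal hfin]
    exact ENNReal.ofReal_le_ofReal h1
  have h3 : volume (Set.Icc (0 : ℝ) (ε * T)) = ENNReal.ofReal (ε * T) := by
    rw [Real.volume_Icc, sub_zero]
  have h4 : 0 ≤ (η + ε) / a * T := measureReal_nonneg.trans h1
  calc _ ≤ volume (Set.Icc 0 (ε * T) ∪ {t | a * l ≤ M t}) := measure_mono hsub
    _ ≤ volume (Set.Icc (0 : ℝ) (ε * T)) + volume {t | a * l ≤ M t} := measure_union_le _ _
    _ ≤ ENNReal.ofReal (ε * T) + ENNReal.ofReal ((η + ε) / a * T) := by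
        rw [h3]
        gcongr
    _ = ENNReal.ofReal (ε * T + (η + ε) / a * T) :=
        (ENNReal.ofReal_add (by positivity) h4).symm
    _ ≤ ENNReal.ofReal (p * T) := by
        apply ENNReal.ofReal_le_ofReal
        have : ((η + ε) / a + ε) * T ≤ p * T := by gcongr
        linarith

theorem sim_of_bad {k : ℕ} {p : ℝ} (hp0 : 0 ≤ p) (hp : k * p < 1)
    (hbad : ∃ c T0 : ℝ, 0 < c ∧ 10 ≤ T0 ∧ ∀ T : ℝ, T0 ≤ T →
      volume {t : ℝ | 0 ≤ t ∧ t ≤ T ∧ Sc (c / Real.log T) t = ∅} ≤ ENNReal.ofReal (p * T)) :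
    ∃ c δ T0 : ℝ, 0 < c ∧ 0 < δ ∧ ∀ T : ℝ, T0 ≤ T → ∀ h : Fin k → ℝ, (∀ j, |h j| ≤ δ * T) →
      ENNReal.ofReal (δ * T) ≤ volume {t : ℝ | 0 ≤ t ∧ t ≤ T ∧
        ∀ j, (Sc (c / Real.log T) (t + h j)).Nonempty} := by
  obtain ⟨c, T0, hc, hT0, hb⟩ := hbad
  set δ : ℝ := (1 - k * p) / (2 * k + 1) with hδ
  have hgap : 0 < 1 - k * p := by linarith
  have hδ0 : 0 < δ := by positivity
  have hδ1 : δ + k * (p + 2 * δ) = 1 := by
    rw [hδ]
    field_simp
    ring
  refine ⟨c, δ, T0, hc, hδ0, fun T hT h hh => ?_⟩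
  have hTpos : 0 < T := by linarith
  set G := {t : ℝ | 0 ≤ t ∧ t ≤ T ∧ ∀ j, (Sc (c / Real.log T) (t + h j)).Nonempty} with hG
  set Bd := {t : ℝ | 0 ≤ t ∧ t ≤ T ∧ Sc (c / Real.log T) t = ∅} with hBd
  set D : Fin k → Set ℝ := fun j => ((fun t => t + h j) ⁻¹' Bd) ∪
    (Set.Icc 0 (δ * T) ∪ Set.Icc (T - δ * T) T) with hD
  have hsub : Set.Icc 0 T ⊆ G ∪ ⋃ j, D j := by
    rintro t ⟨h0, h1⟩
    by_cases hg : t ∈ G
    · left; exact hg
    · right
      have h2 : ¬ ∀ j, (Sc (c / Real.log T) (t + h j)).Nonempty := fun h3 => hg ⟨h0, h1, h3⟩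
      push Not at h2
      obtain ⟨j, hj⟩ := h2
      rw [Set.mem_iUnion]
      refine ⟨j, ?_⟩
      have hhj := abs_le.1 (hh j)
      by_cases h3 : 0 ≤ t + h j ∧ t + h j ≤ T
      · left
        exact ⟨h3.1, h3.2, hj⟩
      · right
        by_cases h4 : 0 ≤ t + h j
        · right
          have h5 : T < t + h j := by
            by_contra h6
            exact h3 ⟨h4, not_lt.1 h6⟩
          exact ⟨by linarith, h1⟩
        · left
          exact ⟨h0, by linarith⟩
  have hDj : ∀ j, volume (D j) ≤ ENNReal.ofReal ((p + 2 * δ) * T) := by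
    intro j
    have h1 : volume ((fun t => t + h j) ⁻¹' Bd) = volume Bd := measure_preimage_add_right _ _ _
    have h2 : volume (Set.Icc (0 : ℝ) (δ * T)) = ENNReal.ofReal (δ * T) := by
      rw [Real.volume_Icc, sub_zero]
    have h3 : volume (Set.Icc (T - δ * T) T) = ENNReal.ofReal (δ * T) := by
      rw [Real.volume_Icc]
      congr 1
      ring
    calc volume (D j) ≤ volume ((fun t => t + h j) ⁻¹' Bd) +
          volume (Set.Icc 0 (δ * T) ∪ Set.Icc (T - δ * T) T) := measure_union_le _ _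
      _ ≤ ENNReal.ofReal (p * T) + (ENNReal.ofReal (δ * T) + ENNReal.ofReal (δ * T)) := by
          rw [h1]
          gcongr
          · exact hb T hT
          · refine (measure_union_le _ _).trans ?_
            rw [h2, h3]
      _ = ENNReal.ofReal ((p + 2 * δ) * T) := by
          rw [← ENNReal.ofReal_add (by positivity) (by positivity),
            ← ENNReal.ofReal_add (by positivity) (by positivity)]
          congr 1
          ring
  have h1 : ENNReal.ofReal T ≤ volume G + ENNReal.ofReal (k * ((p + 2 * δ) * T)) := by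
    have h2 : volume (Set.Icc (0 : ℝ) T) = ENNReal.ofReal T := by
      rw [Real.volume_Icc, sub_zero]
    calc ENNReal.ofReal T = volume (Set.Icc (0 : ℝ) T) := h2.symm
      _ ≤ volume (G ∪ ⋃ j, D j) := measure_mono hsub
      _ ≤ volume G + volume (⋃ j, D j) := measure_union_le _ _
      _ ≤ volume G + ∑ j : Fin k, volume (D j) := by
          gcongr
          exact measure_iUnion_fintype_le _ _
      _ ≤ volume G + ∑ _j : Fin k, ENNReal.ofReal ((p + 2 * δ) * T) := by
          gcongr with j _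
          exact hDj j
      _ = volume G + ENNReal.ofReal (k * ((p + 2 * δ) * T)) := by
          have e : ENNReal.ofReal (k * ((p + 2 * δ) * T)) =
              k * ENNReal.ofReal ((p + 2 * δ) * T) := by
            rw [ENNReal.ofReal_mul (Nat.cast_nonneg k), ENNReal.ofReal_natCast]
          rw [Finset.sum_const, Finset.card_univ, Fintype.card_fin, nsmul_eq_mul, e]
  have h2 : ENNReal.ofReal T = ENNReal.ofReal (δ * T) +
      ENNReal.ofReal (k * ((p + 2 * δ) * T)) := by
    rw [← ENNReal.ofReal_add (by positivity) (by positivity)]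
    congr 1
    calc T = (δ + k * (p + 2 * δ)) * T := by rw [hδ1, one_mul]
      _ = _ := by ring
  rw [h2] at h1
  exact (ENNReal.add_le_add_iff_right ENNReal.ofReal_ne_top).1 h1

theorem fullA : GoodF (8174 / 10000) (14543 / 100000) :=
  good_full (by norm_num) (by norm_num) goodA

theorem fullB : GoodF (1551 / 10000) (96 / 10000) :=
  good_full (by norm_num) (by norm_num) goodB

end Pool.Agent.Helper92.FM
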