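import Pool.Agent.Helper92.FM.Pr

set_option autoImplicit false

/-! Tuples of simple critical zeros at all distances. -/

open Complex Filter Topology Set MeasureTheory
open scoped BigOperators ComplexConjugate

namespace Pool.Agent.Helper92.FM

/-- product lower bound -/
lemma prod_low_fin {ι : Type*} (s : Finset ι) (y M : ι → ℝ) {A : ℝ} (hA : 0 < A)
    (hy : ∀ i ∈ s, 0 ≤ y i) (hM : ∀ i ∈ s, 0 ≤ M i) (h : ∀ i ∈ s, A - y i ≤ M i) :
    max 0 (1 - ∑ i ∈ s, M i / A) ≤ ∏ i ∈ s, (y i / A) := by
  classical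
  induction s using Finset.induction_on with
  | empty => simp
  | insert i s hi ih =>
    rw [Finset.sum_insert hi, Finset.prod_insert hi]
    have ih' := ih (fun j hj => hy j (Finset.mem_insert_of_mem hj))
      (fun j hj => hM j (Finset.mem_insert_of_mem hj))
      (fun j hj => h j (Finset.mem_insert_of_mem hj))
    have hyi := hy i (Finset.mem_insert_self _ _)
    have hMi := hM i (Finset.mem_insert_self _ _)
    have hi' := h i (Finset.mem_insert_self _ _)
    have hS : 0 ≤ ∑ j ∈ s, M j / A :=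
      Finset.sum_nonneg fun j hj => div_nonneg (hM j (Finset.mem_insert_of_mem hj)) hA.le
    set S := ∑ j ∈ s, M j / A with hSd
    set m := M i / A with hm
    have hm0 : 0 ≤ m := div_nonneg hMi hA.le
    have hP : 0 ≤ ∏ j ∈ s, (y j / A) := (le_max_left _ _).trans ih'
    have hyA : 1 - m ≤ y i / A := by
      rw [hm, sub_le_iff_le_add, ← add_div, le_div_iff₀ hA]
      linarith
    have hyA0 : 0 ≤ y i / A := div_nonneg hyi hA.le
    apply max_le (mul_nonneg hyA0 hP)
    rcases le_or_gt 1 m with h1 | h1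
    · have : 1 - (m + S) ≤ 0 := by linarith
      exact this.trans (mul_nonneg hyA0 hP)
    · rcases le_or_gt 1 S with h2 | h2
      · have : 1 - (m + S) ≤ 0 := by linarith
        exact this.trans (mul_nonneg hyA0 hP)
      · have h3 : 1 - S ≤ ∏ j ∈ s, (y j / A) := (le_max_right _ _).trans ih'
        have h4 : (1 - m) * (1 - S) ≤ y i / A * ∏ j ∈ s, (y j / A) :=
          mul_le_mul hyA h3 (by linarith) hyA0
        nlinarith [mul_nonneg hm0 hS]

/-- the same, without quotients -/
lemma prod_low_fin' {n : ℕ} (y M : Fin (n + 1) → ℝ) {A : ℝ} (hA : 0 < A)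
    (hy : ∀ i, 0 ≤ y i) (hM : ∀ i, 0 ≤ M i) (h : ∀ i, A - y i ≤ M i) :
    A ^ (n + 1) - A ^ n * ∑ i, M i ≤ ∏ i, y i := by
  have h1 := (le_max_right _ _).trans (prod_low_fin Finset.univ y M hA (fun i _ => hy i)
    (fun i _ => hM i) (fun i _ => h i))
  rw [Finset.prod_div_distrib, Finset.prod_const, Finset.card_univ, Fintype.card_fin,
    le_div_iff₀ (by positivity)] at h1
  refine le_trans (le_of_eq ?_) h1
  rw [← Finset.sum_div, pow_succ]
  field_simp

/-- half-open indicator -/
noncomputable def ndo (c x t : ℝ) : ℝ := (Set.Ico (x - c) (x + c)).indicator (fun _ => 1) t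

lemma ndo_nonneg (c x t : ℝ) : 0 ≤ ndo c x t := Set.indicator_nonneg (fun _ _ => zero_le_one) _

lemma ndo_le_one (c x t : ℝ) : ndo c x t ≤ 1 :=
  Set.indicator_le' (fun _ _ => le_rfl) (fun _ _ => zero_le_one) t

lemma ndo_meas (c x : ℝ) : Measurable (ndo c x) :=
  measurable_const.indicator measurableSet_Ico

lemma ndo_ae (c x : ℝ) : ∀ᵐ t : ℝ, ndo c x t = nd c x t := by
  have h : ∀ᵐ t : ℝ, t ≠ x + c := by
    simp [ae_iff, measure_singleton]
  filter_upwards [h] with t ht
  unfold ndo nd
  simp only [Set.indicator_apply, Set.mem_Ico, Set.mem_Icc]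
  congr 1
  rw [eq_iff_iff]
  exact ⟨fun h => ⟨h.1, h.2.le⟩, fun h => ⟨h.1, lt_of_le_of_ne h.2 ht⟩⟩

lemma ndo_int (c x : ℝ) (hc : 0 ≤ c) : Integrable (ndo c x) ∧ ∫ t, ndo c x t = 2 * c := by
  constructor
  · show Integrable ((Set.Ico (x - c) (x + c)).indicator (fun _ => (1 : ℝ)))
    rw [integrable_indicator_iff measurableSet_Ico]
    exact integrableOn_const (by simp)
  · show ∫ t, (Set.Ico (x - c) (x + c)).indicator (fun _ => (1 : ℝ)) t = _
    rw [integral_indicator measurableSet_Ico, setIntegral_const, smul_eq_mul, mul_one,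
      Real.volume_real_Ico, max_eq_left (by linarith)]
    ring

/-- disjoint shifted windows -/
lemma ndo_sum_le {c x t τ : ℝ} (hc : 0 < c) (N : ℕ) :
    ∑ m ∈ Finset.range N, ndo c x (t + (τ + 2 * c * m)) ≤
      if τ - c ≤ x - t ∧ x - t ≤ τ + 2 * c * N - c then 1 else 0 := by
  classical
  have e : ∀ m : ℕ, ndo c x (t + (τ + 2 * c * m)) =
      if x - c ≤ t + (τ + 2 * c * m) ∧ t + (τ + 2 * c * m) < x + c then 1 else 0 := by
    intro m
    unfold ndo
    rw [Set.indicator_apply]
    rfl
  simp_rw [e]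
  rw [Finset.sum_boole]
  set F := (Finset.range N).filter (fun m : ℕ =>
    x - c ≤ t + (τ + 2 * c * m) ∧ t + (τ + 2 * c * m) < x + c) with hF
  have hcard : F.card ≤ 1 := by
    rw [Finset.card_le_one]
    intro m hm m' hm'
    rw [hF, Finset.mem_filter] at hm hm'
    obtain ⟨-, a1, a2⟩ := hm
    obtain ⟨-, b1, b2⟩ := hm'
    have h1 : (2 * c) * (m : ℝ) < 2 * c * (m' + 1) := by linarith
    have h2 : (2 * c) * (m' : ℝ) < 2 * c * (m + 1) := by linarith
    have h3 : (m : ℝ) < m' + 1 := lt_of_mul_lt_mul_left h1 (by positivity)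
    have h4 : (m' : ℝ) < m + 1 := lt_of_mul_lt_mul_left h2 (by positivity)
    have h5 : m < m' + 1 := by exact_mod_cast h3
    have h6 : m' < m + 1 := by exact_mod_cast h4
    omega
  split_ifs with hcond
  · exact_mod_cast hcard
  · have : F = ∅ := by
      rw [Finset.eq_empty_iff_forall_notMem]
      intro m hm
      rw [hF, Finset.mem_filter, Finset.mem_range] at hm
      obtain ⟨hmN, a1, a2⟩ := hm
      apply hcond
      have h1 : (0 : ℝ) ≤ m := Nat.cast_nonneg m
      have h2 : (m : ℝ) + 1 ≤ N := by exact_mod_cast hmN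
      have h3 : 0 ≤ 2 * c * m := by positivity
      have h4 : 2 * c * (m + 1) ≤ 2 * c * N := by gcongr
      constructor <;> linarith
    rw [this]
    simp

/-- the number of the tuples of simple critical zeros with scaled differences in given
intervals -/
noncomputable def TN (n : ℕ) (T : ℝ) (α β : Fin n → ℝ) : ℝ :=
  (({p : Fin (n + 1) → ℂ | (∀ i, p i ∈ SZ T) ∧ ∀ j : Fin n,
    α j ≤ ((p j.succ).im - (p 0).im) * Real.log T / (2 * Real.pi) ∧
    ((p j.succ).im - (p 0).im) * Real.log T / (2 * Real.pi) ≤ β j} :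
      Set (Fin (n + 1) → ℂ)).ncard : ℝ)

lemma TN_fin (n : ℕ) (T : ℝ) (α β : Fin n → ℝ) :
    ({p : Fin (n + 1) → ℂ | (∀ i, p i ∈ SZ T) ∧ ∀ j : Fin n,
    α j ≤ ((p j.succ).im - (p 0).im) * Real.log T / (2 * Real.pi) ∧
    ((p j.succ).im - (p 0).im) * Real.log T / (2 * Real.pi) ≤ β j} :
      Set (Fin (n + 1) → ℂ)).Finite := by
  have h : (Set.univ.pi fun _ : Fin (n + 1) => SZ T).Finite :=
    Set.Finite.pi fun _ => SZ_fin T
  exact h.subset fun p hp i _ => hp.1 i

/-- the pointwise upper bound by the number of the tuples -/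
lemma point_up {n : ℕ} (F : Finset ℂ) {c L t : ℝ} (hc : 0 < c) (hL : 0 < L) (α β τ : Fin n → ℝ)
    (N : Fin n → ℕ) (hτ : ∀ j, τ j = 2 * Real.pi / L * α j + 2 * c)
    (hN : ∀ j, τ j + 2 * c * N j ≤ 2 * Real.pi / L * β j) (P : Finset (Fin (n + 1) → ℂ))
    (hP : ∀ p : Fin (n + 1) → ℂ, (∀ i, p i ∈ F) → (∀ j : Fin n,
      α j ≤ ((p j.succ).im - (p 0).im) * L / (2 * Real.pi) ∧
      ((p j.succ).im - (p 0).im) * L / (2 * Real.pi) ≤ β j) → p ∈ P) :
    (∑ s ∈ F, ndo c s.im t) *
      ∏ j, ∑ m ∈ Finset.range (N j), ∑ s ∈ F, ndo c s.im (t + (τ j + 2 * c * m)) ≤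
      ∑ p ∈ P, ndo c (p 0).im t := by
  classical
  have hpi := Real.pi_pos
  set χ : Fin n → ℂ → ℝ := fun j s => if τ j - c ≤ s.im - t ∧ s.im - t ≤ τ j + 2 * c * N j - c
    then 1 else 0 with hχ
  have hχ0 : ∀ j s, 0 ≤ χ j s := fun j s => by
    simp only [hχ]
    split_ifs <;> norm_num
  set g : Fin (n + 1) → ℂ → ℝ := Fin.cons (fun s => ndo c s.im t) χ with hg
  have hg0 : ∀ s, g 0 s = ndo c s.im t := fun s => rfl
  have hgs : ∀ j s, g (Fin.succ j) s = χ j s := fun j s => rfl
  have h1 : (∑ s ∈ F, ndo c s.im t) *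
      ∏ j, ∑ m ∈ Finset.range (N j), ∑ s ∈ F, ndo c s.im (t + (τ j + 2 * c * m)) ≤
      ∏ i, ∑ s ∈ F, g i s := by
    rw [Fin.prod_univ_succ]
    simp_rw [hg0, hgs]
    apply mul_le_mul_of_nonneg_left _ (Finset.sum_nonneg fun s _ => ndo_nonneg _ _ _)
    apply Finset.prod_le_prod
    · intro j _
      exact Finset.sum_nonneg fun m _ => Finset.sum_nonneg fun s _ => ndo_nonneg _ _ _
    · intro j _
      rw [Finset.sum_comm]
      exact Finset.sum_le_sum fun s _ => ndo_sum_le hc (N j)
  refine h1.trans ?_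
  rw [Finset.prod_univ_sum]
  have h2 : ∀ p ∈ Fintype.piFinset (fun _ : Fin (n + 1) => F), ∏ i, g i (p i) ≤
      if p ∈ P then ndo c (p 0).im t else 0 := by
    intro p hp
    rw [Fintype.mem_piFinset] at hp
    rw [Fin.prod_univ_succ]
    simp_rw [hg0, hgs]
    by_cases h0 : ndo c (p 0).im t = 0
    · rw [h0, zero_mul]
      split_ifs <;> rfl
    · by_cases h3 : ∀ j : Fin n, χ j (p j.succ) ≠ 0
      · have hpP : p ∈ P := by
          apply hP p hp
          intro j
          have h4 : τ j - c ≤ (p j.succ).im - t ∧ (p j.succ).im - t ≤ τ j + 2 * c * N j - c := by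
            by_contra hcon
            exact h3 j (by simp only [hχ]; rw [if_neg hcon])
          have h5 : (p 0).im - c ≤ t ∧ t < (p 0).im + c := by
            by_contra hcon
            apply h0
            unfold ndo
            rw [Set.indicator_of_notMem]
            exact hcon
          have h6 := hτ j
          have h7 := hN j
          have h2π : 0 < 2 * Real.pi := by positivity
          constructor
          · rw [le_div_iff₀ h2π]
            have h1 : 2 * Real.pi / L * α j ≤ (p j.succ).im - (p 0).im := by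
              linarith [h4.1, h5.1]
            have h2 : 2 * Real.pi / L * α j * L ≤ ((p j.succ).im - (p 0).im) * L := by gcongr
            have h3 : 2 * Real.pi / L * α j * L = α j * (2 * Real.pi) := by field_simp
            linarith
          · rw [div_le_iff₀ h2π]
            have h1 : (p j.succ).im - (p 0).im ≤ 2 * Real.pi / L * β j := by
              linarith [h4.2, h5.2]
            have h2 : ((p j.succ).im - (p 0).im) * L ≤ 2 * Real.pi / L * β j * L := by gcongr
            have h3 : 2 * Real.pi / L * β j * L = β j * (2 * Real.pi) := by field_simp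
            linarith
        rw [if_pos hpP]
        have h4 : ∏ j, χ j (p j.succ) ≤ 1 := by
          apply Finset.prod_le_one
          · intro j _; exact hχ0 _ _
          · intro j _
            simp only [hχ]
            split_ifs <;> norm_num
        have h5 := ndo_nonneg c (p 0).im t
        nlinarith
      · push Not at h3
        obtain ⟨j, hj⟩ := h3
        rw [Finset.prod_eq_zero (Finset.mem_univ j) hj, mul_zero]
        split_ifs
        · exact ndo_nonneg _ _ _
        · exact le_rfl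
  refine (Finset.sum_le_sum h2).trans ?_
  rw [← Finset.sum_filter]
  apply Finset.sum_le_sum_of_subset_of_nonneg
  · intro p hp
    exact (Finset.mem_filter.1 hp).2
  · intro p _ _
    exact ndo_nonneg _ _ _

end Pool.Agent.Helper92.FM
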