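import Pool.Agent.Helper92.FM.Mn2
import Pool.Agent.Helper92.FM.Mn3
import Pool.Agent.Helper92.FM.Pr
import Pool.Agent.Helper92.FM.Tu

set_option autoImplicit false

/-! Tuples of simple critical zeros at all distances: the count. -/

open Complex Filter Topology Set MeasureTheory
open scoped BigOperators ComplexConjugate

namespace Pool.Agent.Helper92.FM

/-- numbers of windows -/
lemma win_count {l x κr : ℝ} {n : ℕ} (hl : 0 < l) (hκ0 : 0 < κr) (hκ : κr < 1)
    (hx : 2 * l * (n + 1) / (1 - κr) ≤ x) :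
    ∃ N : ℕ, 0 < N ∧ l * ((N : ℝ) + 1) ≤ x ∧ (1 - (1 - κr) / (n + 1)) * x ≤ l * N := by
  have h1 : 0 < 1 - κr := by linarith
  have hn : (0 : ℝ) < n + 1 := by positivity
  rw [div_le_iff₀ h1] at hx
  have hx2 : 2 * l ≤ (1 - κr) / (n + 1) * x := by
    rw [div_mul_eq_mul_div, le_div_iff₀ hn]
    linarith
  have hx3 : 2 * l < x := by
    have h3 : (1 - κr) / (n + 1) < 1 := by
      rw [div_lt_one hn]
      have : (0 : ℝ) ≤ n := Nat.cast_nonneg n
      linarith
    have h0 : 0 < x := by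
      by_contra hcon
      rw [not_lt] at hcon
      have : (1 - κr) / (n + 1) * x ≤ 0 := mul_nonpos_of_nonneg_of_nonpos (by positivity) hcon
      linarith
    nlinarith
  have hfl := Nat.lt_floor_add_one (x / l)
  have hxl : 0 ≤ x / l := div_nonneg (by linarith) hl.le
  have hfl2 := Nat.floor_le (a := x / l) hxl
  set F := ⌊x / l⌋₊ with hF
  have hF2 : 2 ≤ F := by
    rw [hF, Nat.le_floor_iff hxl]
    rw [le_div_iff₀ hl]
    push_cast
    linarith
  refine ⟨F - 1, by omega, ?_, ?_⟩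
  · rw [Nat.cast_sub (by omega)]
    rw [le_div_iff₀ hl] at hfl2
    push_cast
    linarith
  · rw [Nat.cast_sub (by omega)]
    rw [div_lt_iff₀ hl] at hfl
    push_cast
    nlinarith

theorem tuples_of_good {a η κ : ℝ} {n : ℕ} (hG : GoodF a η) (ha : 0 < a)
    (hκ0 : 0 < κ) (hκ : κ < a ^ n * (a - (n + 1) * η)) :
    ∃ l1 δ T0 : ℝ, 0 < l1 ∧ 0 < δ ∧ ∀ T : ℝ, T0 ≤ T → ∀ α β : Fin n → ℝ,
      (∀ j, -(δ * (T * Real.log T)) ≤ α j) → (∀ j, β j ≤ δ * (T * Real.log T)) →
      (∀ j, l1 ≤ β j - α j) →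
      κ * (∏ j, (β j - α j)) * (T * Real.log T / (2 * Real.pi)) ≤ TN n T α β := by
  classical
  have hpi := Real.pi_pos
  have hn0 : (0 : ℝ) ≤ n := Nat.cast_nonneg n
  set κ1 : ℝ := (κ + a ^ n * (a - (n + 1) * η)) / 2 with hκ1
  have hκκ1 : κ < κ1 := by linarith
  have hκ10 : 0 < κ1 := hκ0.trans hκκ1
  have hgap : 0 < a ^ n * (a - (n + 1) * η) - κ := by linarith
  set D : ℝ := 4 * a ^ (n + 1) + (n + 1) * a ^ n with hD
  have hD0 : 0 < D := by positivity
  set ε : ℝ := min (1 / 8) ((a ^ n * (a - (n + 1) * η) - κ) / (2 * D)) with hε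
  have hε0 : 0 < ε := by positivity
  have hε1 : ε ≤ 1 / 8 := min_le_left _ _
  have hε2 : κ1 ≤ a ^ (n + 1) * (1 - 4 * ε) - (n + 1) * a ^ n * (η + ε) := by
    have h1 : ε ≤ (a ^ n * (a - (n + 1) * η) - κ) / (2 * D) := min_le_right _ _
    rw [le_div_iff₀ (by positivity)] at h1
    have h2 : a ^ (n + 1) * (1 - 4 * ε) - (n + 1) * a ^ n * (η + ε) =
        a ^ n * (a - (n + 1) * η) - ε * D := by
      rw [hD, pow_succ]; ring
    rw [h2, hκ1]
    linarith
  obtain ⟨l, hl, hG1⟩ := hG ε hε0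
  obtain ⟨T1, hT1, hG2⟩ := hG1 l le_rfl
  have hev : ∀ᶠ T : ℝ in atTop, max 1 (Real.pi * l) ≤ Real.log T :=
    Real.tendsto_log_atTop.eventually_ge_atTop _
  obtain ⟨T2, hT2⟩ := hev.exists_forall_of_atTop
  set κr : ℝ := κ / κ1 with hκr
  have hκr0 : 0 < κr := by positivity
  have hκr1 : κr < 1 := by rw [hκr, div_lt_one hκ10]; exact hκκ1
  have hκr2 : 0 < 1 - κr := by linarith
  refine ⟨2 * l * (n + 1) / (1 - κr), ε / (2 * Real.pi),
    max (max T1 T2) (4 / ε), by positivity, by positivity, fun T hT α β hα hβ hl1 => ?_⟩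
  have hTT1 : T1 ≤ T := ((le_max_left _ _).trans (le_max_left _ _)).trans hT
  have hLL := hT2 T (((le_max_right _ _).trans (le_max_left _ _)).trans hT)
  have hTε : 4 ≤ ε * T := by
    have : 4 / ε ≤ T := (le_max_right _ _).trans hT
    rw [div_le_iff₀ hε0] at this
    linarith
  have hT10 : 10 ≤ T := hT1.trans hTT1
  have hTpos : 0 < T := by linarith
  set L := Real.log T with hL
  have hL1 : 1 ≤ L := (le_max_left _ _).trans hLL
  have hL2 : Real.pi * l ≤ L := (le_max_right _ _).trans hLL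
  have hL0 : 0 < L := by linarith
  obtain ⟨M, hMi, hM0, hMle, hMint⟩ := hG2 T hTT1
  rw [← hL] at hMle
  set c : ℝ := Real.pi * l / L with hc
  have hc0 : 0 < c := by positivity
  have hc1 : c ≤ 1 := by
    rw [hc, div_le_one hL0]
    exact hL2
  have hcl : 2 * c = 2 * Real.pi / L * l := by rw [hc]; ring
  choose N hN0 hN1 hN2 using fun j => win_count (n := n) hl hκr0 hκr1 (hl1 j)
  -- the centres
  set τ : Fin n → ℝ := fun j => 2 * Real.pi / L * α j + 2 * c with hτ
  have hτN : ∀ j, τ j + 2 * c * N j ≤ 2 * Real.pi / L * β j := by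
    intro j
    show 2 * Real.pi / L * α j + 2 * c + 2 * c * N j ≤ 2 * Real.pi / L * β j
    have h1 : 2 * Real.pi / L * (l * ((N j : ℝ) + 1)) ≤ 2 * Real.pi / L * (β j - α j) :=
      mul_le_mul_of_nonneg_left (hN1 j) (by positivity)
    have h2 : 2 * Real.pi / L * α j + 2 * c + 2 * c * N j =
        2 * Real.pi / L * α j + 2 * Real.pi / L * (l * ((N j : ℝ) + 1)) := by
      rw [hcl]; ring
    rw [h2]
    linarith
  have hτlow : ∀ j, -(ε * T) ≤ τ j := by
    intro j
    have h1 : 2 * Real.pi / L * -(ε / (2 * Real.pi) * (T * L)) ≤ 2 * Real.pi / L * α j :=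
      mul_le_mul_of_nonneg_left (hα j) (by positivity)
    have h2 : 2 * Real.pi / L * -(ε / (2 * Real.pi) * (T * L)) = -(ε * T) := by
      field_simp
    show -(ε * T) ≤ 2 * Real.pi / L * α j + 2 * c
    linarith
  have hτup : ∀ j, τ j + 2 * c * N j ≤ ε * T := by
    intro j
    have h1 : 2 * Real.pi / L * β j ≤ 2 * Real.pi / L * (ε / (2 * Real.pi) * (T * L)) :=
      mul_le_mul_of_nonneg_left (hβ j) (by positivity)
    have h2 : 2 * Real.pi / L * (ε / (2 * Real.pi) * (T * L)) = ε * T := by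
      field_simp
    exact (hτN j).trans (by linarith)
  -- the counting function
  set F := (SZ_fin T).toFinset with hF
  set V : ℝ → ℝ := fun t => ∑ s ∈ F, ndo c s.im t with hV
  have hV0 : ∀ t, 0 ≤ V t := fun t => Finset.sum_nonneg fun s _ => ndo_nonneg _ _ _
  have hVae : ∀ᵐ t : ℝ, V t = ∑ s ∈ F, nd c s.im t := by
    have h1 : ∀ s ∈ F, ∀ᵐ t : ℝ, ndo c s.im t = nd c s.im t := fun s _ => ndo_ae c s.im
    have h2 : ∀ᵐ t : ℝ, ∀ s ∈ F, ndo c s.im t = nd c s.im t :=
      (Finset.eventually_all F).2 h1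
    filter_upwards [h2] with t ht
    exact Finset.sum_congr rfl ht
  have hVsh : ∀ σ : ℝ, ∀ᵐ t : ℝ, V (t + σ) = ∑ s ∈ F, nd c s.im (t + σ) := fun σ =>
    (measurePreserving_add_right volume σ).quasiMeasurePreserving.ae hVae
  have hVM : ∀ᵐ t : ℝ, ε * T ≤ t → t ≤ T - 1 → a * l - V t ≤ M t := by
    filter_upwards [hVae] with t ht h1 h2
    rw [ht, ← vc_sum (by linarith) (by linarith)]
    exact hMle t h1 (by linarith)
  have hVMs : ∀ σ : ℝ, ∀ᵐ t : ℝ, ε * T ≤ t + σ → t + σ ≤ T - 1 → a * l - V (t + σ) ≤ M (t + σ) :=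
    fun σ => (measurePreserving_add_right volume σ).quasiMeasurePreserving.ae hVM
  -- the averages over the windows
  set Y : Fin n → ℝ → ℝ := fun j t => (∑ m ∈ Finset.range (N j), V (t + (τ j + 2 * c * m))) / N j
    with hY
  set MY : Fin n → ℝ → ℝ := fun j t =>
    (∑ m ∈ Finset.range (N j), M (t + (τ j + 2 * c * m))) / N j with hMY
  set y : ℝ → Fin (n + 1) → ℝ := fun t => Fin.cons (V t) (fun j => Y j t) with hy
  set My : ℝ → Fin (n + 1) → ℝ := fun t => Fin.cons (M t) (fun j => MY j t) with hMy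
  have hy0 : ∀ t, y t 0 = V t := fun t => rfl
  have hyS : ∀ t j, y t (Fin.succ j) = Y j t := fun t j => rfl
  have hMy0 : ∀ t, My t 0 = M t := fun t => rfl
  have hMyS : ∀ t j, My t (Fin.succ j) = MY j t := fun t j => rfl
  have hYnn : ∀ j t, 0 ≤ Y j t := fun j t =>
    div_nonneg (Finset.sum_nonneg fun m _ => hV0 _) (Nat.cast_nonneg _)
  have hMYnn : ∀ j t, 0 ≤ MY j t := fun j t =>
    div_nonneg (Finset.sum_nonneg fun m _ => hM0 _) (Nat.cast_nonneg _)
  have hynn : ∀ t i, 0 ≤ y t i := by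
    intro t i
    refine Fin.cases ?_ (fun j => ?_) i
    · rw [hy0]; exact hV0 t
    · rw [hyS]; exact hYnn j t
  have hMynn : ∀ t i, 0 ≤ My t i := by
    intro t i
    refine Fin.cases ?_ (fun j => ?_) i
    · rw [hMy0]; exact hM0 t
    · rw [hMyS]; exact hMYnn j t
  set S := Set.Icc (2 * (ε * T)) (T - 2 * (ε * T)) with hS
  have hS2 : 2 * (ε * T) ≤ T - 2 * (ε * T) := by nlinarith
  have hineq : ∀ᵐ t : ℝ, t ∈ S → ∀ i, a * l - y t i ≤ My t i := by
    have h1 : ∀ᵐ t : ℝ, ∀ j : Fin n, ∀ m : ℕ, ε * T ≤ t + (τ j + 2 * c * m) →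
        t + (τ j + 2 * c * m) ≤ T - 1 →
        a * l - V (t + (τ j + 2 * c * m)) ≤ M (t + (τ j + 2 * c * m)) := by
      rw [ae_all_iff]
      intro j
      rw [ae_all_iff]
      intro m
      exact hVMs _
    filter_upwards [h1, hVM] with t ht1 ht2 htS i
    refine Fin.cases ?_ (fun j => ?_) i
    · rw [hy0, hMy0]
      exact ht2 (by linarith [htS.1]) (by linarith [htS.2])
    · rw [hyS, hMyS]
      have hNj : (0 : ℝ) < N j := by exact_mod_cast hN0 j
      simp only [hY, hMY]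
      rw [sub_le_iff_le_add, ← add_div, le_div_iff₀ hNj, ← Finset.sum_add_distrib]
      have h3 : (a * l) * (N j : ℝ) = ∑ m ∈ Finset.range (N j), a * l := by
        rw [Finset.sum_const, Finset.card_range, nsmul_eq_mul, mul_comm]
      rw [h3]
      refine Finset.sum_le_sum fun m hm => ?_
      have hmN : (m : ℝ) ≤ N j := by exact_mod_cast (Finset.mem_range.1 hm).le
      have h4 : 2 * c * m ≤ 2 * c * N j := by gcongr
      have h5 : 0 ≤ 2 * c * (m : ℝ) := by positivity
      have h6 := hτlow j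
      have h7 := hτup j
      have := ht1 j m (by linarith [htS.1]) (by linarith [htS.2])
      linarith
  -- the tuples
  set P : Finset (Fin (n + 1) → ℂ) := (TN_fin n T α β).toFinset with hP
  have hPcard : (P.card : ℝ) = TN n T α β := by
    unfold TN
    rw [Nat.cast_inj, hP, Set.ncard_eq_toFinset_card _ (TN_fin n T α β)]
  have hup : ∀ t, ∏ i, y t i ≤ (∑ p ∈ P, ndo c (p 0).im t) / ∏ j, (N j : ℝ) := by
    intro t
    rw [Fin.prod_univ_succ, hy0]
    simp_rw [hyS]
    have h1 : V t * ∏ j, Y j t = (V t * ∏ j, ∑ m ∈ Finset.range (N j), V (t + (τ j + 2 * c * m))) /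
        ∏ j, (N j : ℝ) := by
      simp only [hY]
      rw [Finset.prod_div_distrib, mul_div_assoc]
    rw [h1]
    apply div_le_div_of_nonneg_right _ (Finset.prod_nonneg fun j _ => Nat.cast_nonneg _)
    apply point_up F hc0 hL0 α β τ N (fun j => rfl) hτN P
    intro p hp1 hp2
    rw [hP, Set.Finite.mem_toFinset]
    exact ⟨fun i => (SZ_fin T).mem_toFinset.1 (hp1 i), hp2⟩
  -- integration
  have hMτ : ∀ σ : ℝ, Integrable fun t => M (t + σ) := fun σ => hMi.comp_add_right σ
  have hMYi : ∀ j, Integrable (MY j) := fun j =>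
    (integrable_finsetSum _ fun m _ => hMτ _).div_const _
  have hMYint : ∀ j, ∫ t, MY j t ≤ (η + ε) * (l * T) := by
    intro j
    have hNj : (0 : ℝ) < N j := by exact_mod_cast hN0 j
    simp only [hMY]
    rw [integral_div, integral_finsetSum _ fun m _ => hMτ _, div_le_iff₀ hNj]
    have h1 : ∀ m ∈ Finset.range (N j), ∫ t, M (t + (τ j + 2 * c * m)) ≤ (η + ε) * (l * T) := by
      intro m _
      rw [integral_add_right_eq_self (fun t => M t)]
      exact hMint
    refine (Finset.sum_le_sum h1).trans ?_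
    rw [Finset.sum_const, Finset.card_range, nsmul_eq_mul, mul_comm]
  have hMyi : Integrable fun t => ∑ i, My t i := by
    have h1 : (fun t => ∑ i, My t i) = fun t => M t + ∑ j, MY j t := by
      funext t
      rw [Fin.sum_univ_succ, hMy0]
      simp_rw [hMyS]
    rw [h1]
    exact hMi.add (integrable_finsetSum _ fun j _ => hMYi j)
  have hMyint : ∫ t, ∑ i, My t i ≤ (n + 1) * ((η + ε) * (l * T)) := by
    have h1 : (fun t => ∑ i, My t i) = fun t => M t + ∑ j, MY j t := by
      funext t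
      rw [Fin.sum_univ_succ, hMy0]
      simp_rw [hMyS]
    have h2 : ∫ t, ∑ i, My t i = (∫ t, M t) + ∑ j, ∫ t, MY j t := by
      rw [h1, integral_add hMi (integrable_finsetSum _ fun j _ => hMYi j),
        integral_finsetSum _ fun j _ => hMYi j]
    rw [h2]
    have h3 : ∑ j, ∫ t, MY j t ≤ ∑ _j : Fin n, (η + ε) * (l * T) :=
      Finset.sum_le_sum fun j _ => hMYint j
    rw [Finset.sum_const, Finset.card_univ, Fintype.card_fin, nsmul_eq_mul] at h3
    linarith
  have hal : 0 < a * l := by positivity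
  have hSN : 0 < ∏ j, (N j : ℝ) := Finset.prod_pos fun j _ => by exact_mod_cast hN0 j
  have hPi : Integrable fun t => (∑ p ∈ P, ndo c (p 0).im t) / ∏ j, (N j : ℝ) :=
    (integrable_finsetSum _ fun p _ => (ndo_int c (p 0).im hc0.le).1).div_const _
  have hPint : ∫ t, (∑ p ∈ P, ndo c (p 0).im t) / ∏ j, (N j : ℝ) =
      TN n T α β * (2 * c) / ∏ j, (N j : ℝ) := by
    rw [integral_div, integral_finsetSum _ fun p _ => (ndo_int c (p 0).im hc0.le).1]
    simp_rw [(ndo_int c _ hc0.le).2]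
    rw [Finset.sum_const, nsmul_eq_mul, hPcard]
  have hmain : ∫ t in S, ((a * l) ^ (n + 1) - (a * l) ^ n * ∑ i, My t i) ≤
      ∫ t in S, (∑ p ∈ P, ndo c (p 0).im t) / ∏ j, (N j : ℝ) := by
    apply setIntegral_mono_on_ae
    · exact (integrableOn_const (by simp [hS])).sub (hMyi.const_mul _).integrableOn
    · exact hPi.integrableOn
    · exact measurableSet_Icc
    · filter_upwards [hineq] with t ht htS
      exact (prod_low_fin' (y t) (My t) hal (hynn t) (hMynn t) (ht htS)).trans (hup t)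
  have hle1 : ∫ t in S, (∑ p ∈ P, ndo c (p 0).im t) / ∏ j, (N j : ℝ) ≤
      TN n T α β * (2 * c) / ∏ j, (N j : ℝ) := by
    rw [← hPint]
    apply setIntegral_le_integral hPi
    apply Eventually.of_forall
    intro t
    exact div_nonneg (Finset.sum_nonneg fun p _ => ndo_nonneg _ _ _) hSN.le
  have hle2 : (T - 4 * (ε * T)) * (a * l) ^ (n + 1) -
      (a * l) ^ n * ((n + 1) * ((η + ε) * (l * T))) ≤
      ∫ t in S, ((a * l) ^ (n + 1) - (a * l) ^ n * ∑ i, My t i) := by
    have i1 : Integrable (fun _ : ℝ => (a * l) ^ (n + 1)) (volume.restrict S) :=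
      integrableOn_const (by simp [hS])
    have i2 : Integrable (fun t => (a * l) ^ n * ∑ i, My t i) (volume.restrict S) :=
      (hMyi.const_mul _).integrableOn
    rw [integral_sub i1 i2]
    have e2 : ∫ t in S, (a * l) ^ n * ∑ i, My t i = (a * l) ^ n * ∫ t in S, ∑ i, My t i :=
      integral_const_mul _ _
    have e3 : ∫ _ in S, (a * l) ^ (n + 1) = (T - 4 * (ε * T)) * (a * l) ^ (n + 1) := by
      rw [setIntegral_const, smul_eq_mul, hS, Real.volume_real_Icc, max_eq_left (by linarith)]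
      ring
    rw [e2, e3]
    have h4 : ∫ t in S, ∑ i, My t i ≤ (n + 1) * ((η + ε) * (l * T)) :=
      (setIntegral_le_integral hMyi (Eventually.of_forall fun t =>
        Finset.sum_nonneg fun i _ => hMynn t i)).trans hMyint
    have h5 : (a * l) ^ n * ∫ t in S, ∑ i, My t i ≤
        (a * l) ^ n * ((n + 1) * ((η + ε) * (l * T))) :=
      mul_le_mul_of_nonneg_left h4 (by positivity)
    linarith
  have hfin : κ1 * (l ^ (n + 1) * T) * ∏ j, (N j : ℝ) ≤ TN n T α β * (2 * c) := by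
    rw [← le_div_iff₀ hSN]
    refine le_trans ?_ (hle2.trans (hmain.trans hle1))
    have h7 : κ1 * (l ^ (n + 1) * T) ≤
        (a ^ (n + 1) * (1 - 4 * ε) - (n + 1) * a ^ n * (η + ε)) * (l ^ (n + 1) * T) :=
      mul_le_mul_of_nonneg_right hε2 (by positivity)
    refine h7.trans (le_of_eq ?_)
    rw [mul_pow, mul_pow]
    ring
  -- conclusion
  have hprod : κr * ∏ j, (β j - α j) ≤ l ^ n * ∏ j, (N j : ℝ) := by
    have e1 : l ^ n * ∏ j, (N j : ℝ) = ∏ j, (l * (N j : ℝ)) := by
      rw [Finset.prod_mul_distrib, Finset.prod_const, Finset.card_univ, Fintype.card_fin]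
    have hr0 : 0 ≤ 1 - (1 - κr) / (n + 1) := by
      rw [sub_nonneg, div_le_one (by positivity)]
      linarith
    have hβα0 : ∀ j, 0 ≤ β j - α j := fun j => le_trans (by positivity) (hl1 j)
    have h1 : ∏ j, ((1 - (1 - κr) / (n + 1)) * (β j - α j)) ≤ ∏ j, (l * (N j : ℝ)) := by
      apply Finset.prod_le_prod
      · intro j _
        exact mul_nonneg hr0 (hβα0 j)
      · intro j _
        exact hN2 j
    rw [Finset.prod_mul_distrib, Finset.prod_const, Finset.card_univ, Fintype.card_fin] at h1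
    rw [e1]
    refine le_trans ?_ h1
    apply mul_le_mul_of_nonneg_right _ (Finset.prod_nonneg fun j _ => hβα0 j)
    have hb := one_add_mul_le_pow (a := -((1 - κr) / (n + 1))) (by linarith) n
    have h2 : κr ≤ 1 + n * -((1 - κr) / (n + 1)) := by
      have h3 : (n : ℝ) * ((1 - κr) / (n + 1)) ≤ 1 - κr := by
        rw [mul_div_assoc', div_le_iff₀ (by positivity)]
        nlinarith
      linarith
    have h4 : (1 : ℝ) + -((1 - κr) / (n + 1)) = 1 - (1 - κr) / (n + 1) := by ring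
    rw [h4] at hb
    exact h2.trans hb
  have e2 : κ1 * (l ^ (n + 1) * T) * ∏ j, (N j : ℝ) =
      κ1 * (l * T) * (l ^ n * ∏ j, (N j : ℝ)) := by rw [pow_succ]; ring
  rw [e2] at hfin
  have h8 : κ1 * (l * T) * (κr * ∏ j, (β j - α j)) ≤ TN n T α β * (2 * c) :=
    (mul_le_mul_of_nonneg_left hprod (by positivity)).trans hfin
  have e3 : κ1 * (l * T) * (κr * ∏ j, (β j - α j)) =
      (κ * (∏ j, (β j - α j)) * (T * L / (2 * Real.pi))) * (2 * c) := by
    rw [hκr, hc]
    field_simp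
  rw [e3] at h8
  exact le_of_mul_le_mul_right h8 (by positivity)

end Pool.Agent.Helper92.FM
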