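import Pool.Agent.Helper92.FM.Pr
import Pool.Agent.Helper92.FM.Tu

set_option autoImplicit false

/-! Tuples of distinct simple critical zeros: separated windows. -/

open Complex Filter Topology Set MeasureTheory
open scoped BigOperators ComplexConjugate

namespace Pool.Agent.Helper92.FM

/-- the condition on the tuples -/
def TC (n : ℕ) (L : ℝ) (α β : Fin n → ℝ) (p : Fin (n + 1) → ℂ) : Prop :=
  Function.Injective p ∧ ∀ j : Fin n,
    α j ≤ ((p j.succ).im - (p 0).im) * L / (2 * Real.pi) ∧
    ((p j.succ).im - (p 0).im) * L / (2 * Real.pi) ≤ β j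

/-- the number of the tuples of distinct simple critical zeros with scaled differences in given
intervals -/
noncomputable def TD (n : ℕ) (T : ℝ) (α β : Fin n → ℝ) : ℝ :=
  (({p : Fin (n + 1) → ℂ | (∀ i, p i ∈ SZ T) ∧ TC n (Real.log T) α β p} :
      Set (Fin (n + 1) → ℂ)).ncard : ℝ)

lemma TD_fin (n : ℕ) (T : ℝ) (α β : Fin n → ℝ) :
    ({p : Fin (n + 1) → ℂ | (∀ i, p i ∈ SZ T) ∧ TC n (Real.log T) α β p} :
      Set (Fin (n + 1) → ℂ)).Finite := by
  have h : (Set.univ.pi fun _ : Fin (n + 1) => SZ T).Finite :=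
    Set.Finite.pi fun _ => SZ_fin T
  exact h.subset fun p hp i _ => hp.1 i

/-- the shifts of the windows -/
noncomputable def sh {n : ℕ} (c : ℝ) (τ : Fin n → ℝ) (m : Fin n → ℕ) : Fin (n + 1) → ℝ :=
  Fin.cons 0 (fun j => τ j + 2 * c * m j)

lemma sh_zero {n : ℕ} (c : ℝ) (τ : Fin n → ℝ) (m : Fin n → ℕ) : sh c τ m 0 = 0 := rfl

lemma sh_succ {n : ℕ} (c : ℝ) (τ : Fin n → ℝ) (m : Fin n → ℕ) (j : Fin n) :
    sh c τ m j.succ = τ j + 2 * c * m j := rfl

/-- separated choices of the windows -/
noncomputable def Sep {n : ℕ} (c : ℝ) (τ : Fin n → ℝ) (N : Fin n → ℕ) : Finset (Fin n → ℕ) :=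
  open Classical in (Fintype.piFinset fun j => Finset.range (N j)).filter
    (fun m => ∀ i j : Fin (n + 1), i ≠ j → 2 * c ≤ |sh c τ m i - sh c τ m j|)

lemma ndo_ne_zero {c x t : ℝ} (h : ndo c x t ≠ 0) : x - c ≤ t ∧ t < x + c := by
  by_contra hcon
  apply h
  unfold ndo
  rw [Set.indicator_of_notMem]
  exact hcon

/-- the pointwise upper bound by the number of the tuples -/
lemma point_up' {n : ℕ} (F : Finset ℂ) {c L t : ℝ} (hc : 0 < c) (hL : 0 < L) (α β τ : Fin n → ℝ)
    (N : Fin n → ℕ) (hτ : ∀ j, τ j = 2 * Real.pi / L * α j + 2 * c)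
    (hN : ∀ j, τ j + 2 * c * N j ≤ 2 * Real.pi / L * β j) (P : Finset (Fin (n + 1) → ℂ))
    (hP : ∀ p : Fin (n + 1) → ℂ, (∀ i, p i ∈ F) → TC n L α β p → p ∈ P) :
    ∑ m ∈ Sep c τ N, ∏ i, ∑ s ∈ F, ndo c s.im (t + sh c τ m i) ≤
      ∑ p ∈ P, ndo c (p 0).im t := by
  classical
  have hpi := Real.pi_pos
  have h1 : ∑ m ∈ Sep c τ N, ∏ i, ∑ s ∈ F, ndo c s.im (t + sh c τ m i) =
      ∑ p ∈ Fintype.piFinset (fun _ : Fin (n + 1) => F), ∑ m ∈ Sep c τ N,
        ∏ i, ndo c (p i).im (t + sh c τ m i) := by
    rw [Finset.sum_comm]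
    refine Finset.sum_congr rfl fun m _ => ?_
    rw [Finset.prod_univ_sum]
  rw [h1]
  have h2 : ∀ p ∈ Fintype.piFinset (fun _ : Fin (n + 1) => F), ∑ m ∈ Sep c τ N,
        ∏ i, ndo c (p i).im (t + sh c τ m i) ≤ if p ∈ P then ndo c (p 0).im t else 0 := by
    intro p hp
    rw [Fintype.mem_piFinset] at hp
    by_cases hpP : p ∈ P
    · rw [if_pos hpP]
      have h3 : ∑ m ∈ Sep c τ N, ∏ i, ndo c (p i).im (t + sh c τ m i) ≤
          ∑ m ∈ Fintype.piFinset (fun j => Finset.range (N j)),
            ∏ i, ndo c (p i).im (t + sh c τ m i) := by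
        apply Finset.sum_le_sum_of_subset_of_nonneg (Finset.filter_subset _ _)
        intro m _ _
        exact Finset.prod_nonneg fun i _ => ndo_nonneg _ _ _
      refine h3.trans ?_
      have h4 : ∀ m : Fin n → ℕ, ∏ i, ndo c (p i).im (t + sh c τ m i) =
          ndo c (p 0).im t * ∏ j : Fin n, ndo c (p j.succ).im (t + (τ j + 2 * c * m j)) := by
        intro m
        rw [Fin.prod_univ_succ, sh_zero, add_zero]
        rfl
      simp_rw [h4]
      rw [← Finset.mul_sum]
      have h5 : ∑ m ∈ Fintype.piFinset (fun j => Finset.range (N j)),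
          ∏ j : Fin n, ndo c (p j.succ).im (t + (τ j + 2 * c * m j)) =
          ∏ j : Fin n, ∑ m ∈ Finset.range (N j), ndo c (p j.succ).im (t + (τ j + 2 * c * m)) := by
        rw [Finset.prod_univ_sum]
      rw [h5]
      have h6 : ∏ j : Fin n, ∑ m ∈ Finset.range (N j),
          ndo c (p j.succ).im (t + (τ j + 2 * c * m)) ≤ 1 := by
        apply Finset.prod_le_one
        · intro j _
          exact Finset.sum_nonneg fun m _ => ndo_nonneg _ _ _
        · intro j _
          refine (ndo_sum_le hc (N j)).trans ?_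
          split_ifs <;> norm_num
      have h7 := ndo_nonneg c (p 0).im t
      nlinarith
    · rw [if_neg hpP]
      apply le_of_eq
      apply Finset.sum_eq_zero
      intro m hm
      by_contra hne
      apply hpP
      rw [← ne_eq, Finset.prod_ne_zero_iff] at hne
      have hw : ∀ i, (p i).im - c ≤ t + sh c τ m i ∧ t + sh c τ m i < (p i).im + c := fun i =>
        ndo_ne_zero (hne i (Finset.mem_univ i))
      unfold Sep at hm
      rw [Finset.mem_filter, Fintype.mem_piFinset] at hm
      obtain ⟨hm1, hm2⟩ := hm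
      apply hP p hp
      constructor
      · intro i j hij
        by_contra hne'
        have h3 := hm2 i j hne'
        have h4 := hw i
        have h5 := hw j
        rw [← hij] at h5
        have h6 : |sh c τ m i - sh c τ m j| < 2 * c := by
          rw [abs_lt]
          constructor <;> linarith [h4.1, h4.2, h5.1, h5.2]
        linarith
      · intro j
        have h4 := hw j.succ
        rw [sh_succ] at h4
        have h5 := hw 0
        rw [sh_zero, add_zero] at h5
        have h6 := hτ j
        have h7 := hN j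
        have h8 : (m j : ℝ) + 1 ≤ N j := by
          have := Finset.mem_range.1 (hm1 j)
          exact_mod_cast this
        have h9 : 2 * c * ((m j : ℝ) + 1) ≤ 2 * c * N j := by gcongr
        have h10 : 0 ≤ 2 * c * (m j : ℝ) := by positivity
        have h2π : 0 < 2 * Real.pi := by positivity
        constructor
        · rw [le_div_iff₀ h2π]
          have h1 : 2 * Real.pi / L * α j ≤ (p j.succ).im - (p 0).im := by
            linarith [h4.1, h4.2, h5.1, h5.2]
          have h2 : 2 * Real.pi / L * α j * L ≤ ((p j.succ).im - (p 0).im) * L := by gcongr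
          have h3 : 2 * Real.pi / L * α j * L = α j * (2 * Real.pi) := by field_simp
          linarith
        · rw [div_le_iff₀ h2π]
          have h1 : (p j.succ).im - (p 0).im ≤ 2 * Real.pi / L * β j := by
            linarith [h4.1, h4.2, h5.1, h5.2]
          have h2 : ((p j.succ).im - (p 0).im) * L ≤ 2 * Real.pi / L * β j * L := by gcongr
          have h3 : 2 * Real.pi / L * β j * L = β j * (2 * Real.pi) := by field_simp
          linarith
  refine (Finset.sum_le_sum h2).trans ?_
  rw [← Finset.sum_filter]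
  apply Finset.sum_le_sum_of_subset_of_nonneg
  · intro p hp
    exact (Finset.mem_filter.1 hp).2
  · intro p _ _
    exact ndo_nonneg _ _ _

/-- few integers in a short interval -/
lemma card_near {c x : ℝ} (hc : 0 < c) (N : ℕ) :
    ((Finset.range N).filter (fun m : ℕ => |x + 2 * c * m| < 2 * c)).card ≤ 2 := by
  by_contra hcon
  rw [not_le] at hcon
  obtain ⟨a, ha, b, hb, d, hd, hab, had, hbd⟩ := Finset.two_lt_card.1 hcon
  rw [Finset.mem_filter, abs_lt] at ha hb hd
  have key : ∀ p q : ℕ, -(2 * c) < x + 2 * c * p → x + 2 * c * q < 2 * c → q ≤ p + 1 := by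
    intro p q h1 h2
    have h3 : (2 * c) * (q : ℝ) < 2 * c * (p + 2) := by linarith
    have h4 : (q : ℝ) < p + 2 := lt_of_mul_lt_mul_left h3 (by positivity)
    have h5 : q < p + 2 := by exact_mod_cast h4
    omega
  have k1 := key a b ha.2.1 hb.2.2
  have k2 := key b a hb.2.1 ha.2.2
  have k3 := key a d ha.2.1 hd.2.2
  have k4 := key d a hd.2.1 ha.2.2
  have k5 := key b d hb.2.1 hd.2.2
  have k6 := key d b hd.2.1 hb.2.2
  omega

/-- the bad choices for one pair of windows -/
lemma card_bad {n : ℕ} {c : ℝ} (hc : 0 < c) (N : Fin n → ℕ) (j : Fin n)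
    (f : (Fin n → ℕ) → ℝ) (hf : ∀ m k, f (Function.update m j k) = f m) :
    ((Fintype.piFinset fun j => Finset.range (N j)).filter
      (fun m => |f m + 2 * c * m j| < 2 * c)).card * N j ≤ 2 * ∏ j, N j := by
  classical
  set Bd := (Fintype.piFinset fun j => Finset.range (N j)).filter
      (fun m => |f m + 2 * c * m j| < 2 * c) with hBd
  have h1 : Bd.card ≤ 2 * (Bd.image (fun m => Function.update m j 0)).card := by
    apply Finset.card_le_mul_card_image
    intro b hb
    obtain ⟨b0, hb0, rfl⟩ := Finset.mem_image.1 hb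
    have h2 : (Bd.filter (fun m => Function.update m j 0 = Function.update b0 j 0)).card ≤
        ((Finset.range (N j)).filter (fun k : ℕ => |f b0 + 2 * c * k| < 2 * c)).card := by
      apply Finset.card_le_card_of_injOn (fun m => m j)
      · intro m hm
        rw [Finset.mem_coe, Finset.mem_filter, hBd, Finset.mem_filter, Fintype.mem_piFinset] at hm
        obtain ⟨⟨h3, h4⟩, h5⟩ := hm
        rw [Finset.mem_coe, Finset.mem_filter]
        refine ⟨h3 j, ?_⟩
        have h6 : f m = f b0 := by
          rw [← hf m 0, h5, hf]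
        rw [← h6]
        exact h4
      · intro m hm m' hm' hmm
        rw [Finset.mem_coe, Finset.mem_filter] at hm hm'
        have h3 : Function.update m j 0 = Function.update m' j 0 := hm.2.trans hm'.2.symm
        funext i
        by_cases hi : i = j
        · rw [hi]; exact hmm
        · have := congrFun h3 i
          rwa [Function.update_of_ne hi, Function.update_of_ne hi] at this
    exact h2.trans (card_near hc (N j))
  have h2 : (Bd.image (fun m => Function.update m j 0)).card * N j ≤ ∏ j, N j := by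
    have h3 : Bd.image (fun m => Function.update m j 0) ⊆
        Fintype.piFinset (Function.update (fun j => Finset.range (N j)) j {0}) := by
      intro b hb
      obtain ⟨b0, hb0, rfl⟩ := Finset.mem_image.1 hb
      rw [hBd, Finset.mem_filter, Fintype.mem_piFinset] at hb0
      rw [Fintype.mem_piFinset]
      intro i
      by_cases hi : i = j
      · rw [hi, Function.update_self, Function.update_self]
        exact Finset.mem_singleton_self 0
      · rw [Function.update_of_ne hi, Function.update_of_ne hi]
        exact hb0.1 i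
    have h4 := Finset.card_le_card h3
    rw [Fintype.card_piFinset] at h4
    have h5 : ∏ i, (Function.update (fun j => Finset.range (N j)) j {0} i).card =
        ∏ i ∈ Finset.univ.erase j, N i := by
      rw [← Finset.mul_prod_erase Finset.univ _ (Finset.mem_univ j)]
      rw [Function.update_self, Finset.card_singleton, one_mul]
      refine Finset.prod_congr rfl fun i hi => ?_
      rw [Function.update_of_ne (Finset.ne_of_mem_erase hi), Finset.card_range]
    rw [h5] at h4
    calc (Bd.image (fun m => Function.update m j 0)).card * N j ≤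
        (∏ i ∈ Finset.univ.erase j, N i) * N j := Nat.mul_le_mul_right _ h4
      _ = ∏ j, N j := by rw [mul_comm, Finset.mul_prod_erase Finset.univ _ (Finset.mem_univ j)]
  calc Bd.card * N j ≤ 2 * (Bd.image (fun m => Function.update m j 0)).card * N j :=
        Nat.mul_le_mul_right _ h1
    _ = 2 * ((Bd.image (fun m => Function.update m j 0)).card * N j) := by ring
    _ ≤ 2 * ∏ j, N j := Nat.mul_le_mul_left _ h2

/-- most choices are separated -/
lemma sep_card {n : ℕ} {c K : ℝ} (hc : 0 < c) (hK : 0 < K) (τ : Fin n → ℝ) (N : Fin n → ℕ)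
    (hN : ∀ j, K ≤ N j) :
    (1 - 2 * n * (n + 1) / K) * ∏ j, (N j : ℝ) ≤ ((Sep c τ N).card : ℝ) := by
  classical
  set Pi0 := Fintype.piFinset fun j => Finset.range (N j) with hPi0e
  set Bd : Fin n → Fin (n + 1) → Finset (Fin n → ℕ) := fun j i =>
    if i = j.succ then ∅ else Pi0.filter (fun m => |(τ j - sh c τ m i) + 2 * c * m j| < 2 * c)
    with hBd
  have hPic : (Pi0.card : ℝ) = ∏ j, (N j : ℝ) := by
    rw [hPi0e, Fintype.card_piFinset]
    push_cast
    exact Finset.prod_congr rfl fun j _ => by rw [Finset.card_range]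
  have hP0 : 0 ≤ ∏ j, (N j : ℝ) := Finset.prod_nonneg fun j _ => Nat.cast_nonneg _
  have hcard : ∀ j i, ((Bd j i).card : ℝ) ≤ 2 * (∏ j, (N j : ℝ)) / K := by
    intro j i
    simp only [hBd]
    split_ifs with hi
    · simp only [Finset.card_empty, Nat.cast_zero]
      positivity
    · have h1 := card_bad hc N j (fun m => τ j - sh c τ m i) (by
        intro m k
        congr 1
        revert hi
        refine Fin.cases ?_ (fun i' => ?_) i
        · intro _; rfl
        · intro hi
          rw [sh_succ, sh_succ, Function.update_of_ne]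
          intro h
          exact hi (by rw [h]))
      have h2 : (((Pi0.filter (fun m => |(τ j - sh c τ m i) + 2 * c * m j| < 2 * c)).card : ℝ)) *
          N j ≤ 2 * ∏ j, (N j : ℝ) := by exact_mod_cast h1
      rw [le_div_iff₀ hK]
      refine le_trans ?_ h2
      exact mul_le_mul_of_nonneg_left (hN j) (Nat.cast_nonneg _)
  have hsub : Pi0 ⊆ Sep c τ N ∪ (Finset.univ.biUnion fun j => Finset.univ.biUnion fun i => Bd j i) := by
    intro m hm
    rw [Finset.mem_union]
    by_cases h : ∀ i j : Fin (n + 1), i ≠ j → 2 * c ≤ |sh c τ m i - sh c τ m j|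
    · left
      unfold Sep
      rw [Finset.mem_filter]
      exact ⟨hm, h⟩
    · right
      push Not at h
      obtain ⟨i, j, hij, hlt⟩ := h
      rw [Finset.mem_biUnion]
      have key : ∀ (i : Fin (n + 1)) (j : Fin n), i ≠ j.succ →
          |sh c τ m i - sh c τ m j.succ| < 2 * c → m ∈ Bd j i := by
        intro i j hij hlt
        simp only [hBd]
        rw [if_neg hij, Finset.mem_filter]
        refine ⟨hm, ?_⟩
        have e : (τ j - sh c τ m i) + 2 * c * m j = -(sh c τ m i - sh c τ m j.succ) := by
          rw [sh_succ]; ring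
        rw [e, abs_neg]
        exact hlt
      rcases Fin.eq_zero_or_eq_succ j with hj | ⟨j', hj⟩
      · rcases Fin.eq_zero_or_eq_succ i with hi | ⟨i', hi⟩
        · exact absurd (hi.trans hj.symm) hij
        · refine ⟨i', Finset.mem_univ _, ?_⟩
          rw [Finset.mem_biUnion]
          refine ⟨j, Finset.mem_univ _, key j i' ?_ ?_⟩
          · rw [← hi]; exact hij.symm
          · rw [← hi, abs_sub_comm]; exact hlt
      · refine ⟨j', Finset.mem_univ _, ?_⟩
        rw [Finset.mem_biUnion]
        refine ⟨i, Finset.mem_univ _, key i j' ?_ ?_⟩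
        · rw [← hj]; exact hij
        · rw [← hj]; exact hlt
  have h1 : (Pi0.card : ℝ) ≤ (Sep c τ N).card + ∑ j : Fin n, ∑ i : Fin (n + 1), ((Bd j i).card : ℝ) := by
    have h2 := (Finset.card_le_card hsub).trans (Finset.card_union_le _ _)
    have h3 : (Finset.univ.biUnion fun j => Finset.univ.biUnion fun i => Bd j i).card ≤
        ∑ j : Fin n, ∑ i : Fin (n + 1), (Bd j i).card :=
      Finset.card_biUnion_le.trans (Finset.sum_le_sum fun j _ => Finset.card_biUnion_le)
    exact_mod_cast h2.trans (Nat.add_le_add_left h3 _)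
  have h2 : ∑ j : Fin n, ∑ i : Fin (n + 1), ((Bd j i).card : ℝ) ≤
      n * ((n + 1) * (2 * (∏ j, (N j : ℝ)) / K)) := by
    have h3 : ∑ j : Fin n, ∑ i : Fin (n + 1), ((Bd j i).card : ℝ) ≤
        ∑ _j : Fin n, ∑ _i : Fin (n + 1), 2 * (∏ j, (N j : ℝ)) / K :=
      Finset.sum_le_sum fun j _ => Finset.sum_le_sum fun i _ => hcard j i
    refine h3.trans (le_of_eq ?_)
    simp only [Finset.sum_const, Finset.card_univ, Fintype.card_fin, nsmul_eq_mul]
    push_cast
    ring
  rw [hPic] at h1
  have e : (1 - 2 * n * (n + 1) / K) * ∏ j, (N j : ℝ) =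
      ∏ j, (N j : ℝ) - n * ((n + 1) * (2 * (∏ j, (N j : ℝ)) / K)) := by
    field_simp
  rw [e]
  linarith

end Pool.Agent.Helper92.FM
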