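import Pool.Agent.Helper92.FM.Mn2
import Pool.Agent.Helper92.FM.Mn3
import Pool.Agent.Helper92.FM.Pr
import Pool.Agent.Helper92.FM.Tu
import Pool.Agent.Helper92.FM.Tu2
import Pool.Agent.Helper92.FM.Tu3

set_option autoImplicit false

/-! Tuples of distinct simple critical zeros at all distances. -/

open Complex Filter Topology Set MeasureTheory
open scoped BigOperators ComplexConjugate

namespace Pool.Agent.Helper92.FM

theorem tuples_distinct {a η κ : ℝ} {n : ℕ} (hG : GoodF a η) (ha : 0 < a)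
    (hκ0 : 0 < κ) (hκ : κ < a ^ n * (a - (n + 1) * η)) :
    ∃ l1 δ T0 : ℝ, 0 < l1 ∧ 0 < δ ∧ ∀ T : ℝ, T0 ≤ T → ∀ α β : Fin n → ℝ,
      (∀ j, -(δ * (T * Real.log T)) ≤ α j) → (∀ j, β j ≤ δ * (T * Real.log T)) →
      (∀ j, l1 ≤ β j - α j) →
      κ * (∏ j, (β j - α j)) * (T * Real.log T / (2 * Real.pi)) ≤ TD n T α β := by
  classical
  have hpi := Real.pi_pos
  have hn0 : (0 : ℝ) ≤ n := Nat.cast_nonneg n
  set κ1 : ℝ := (κ + a ^ n * (a - (n + 1) * η)) / 2 with hκ1
  have hκκ1 : κ < κ1 := by linarith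
  have hκ10 : 0 < κ1 := hκ0.trans hκκ1
  have hgap : 0 < a ^ n * (a - (n + 1) * η) - κ := by linarith
  set D : ℝ := 4 * a ^ (n + 1) + (n + 1) * a ^ n with hD
  have hD0 : 0 < D := by positivity
  set ε : ℝ := min (1 / 8) ((a ^ n * (a - (n + 1) * η) - κ) / (2 * D)) with hε
  have hε0 : 0 < ε := by positivity
  have hε1 : ε ≤ 1 / 8 := min_le_left _ _
  have hε2 : κ1 ≤ a ^ (n + 1) * (1 - 4 * ε) - (n + 1) * a ^ n * (η + ε) := by
    have h1 : ε ≤ (a ^ n * (a - (n + 1) * η) - κ) / (2 * D) := min_le_right _ _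
    rw [le_div_iff₀ (by positivity)] at h1
    have h2 : a ^ (n + 1) * (1 - 4 * ε) - (n + 1) * a ^ n * (η + ε) =
        a ^ n * (a - (n + 1) * η) - ε * D := by
      rw [hD, pow_succ]; ring
    rw [h2, hκ1]
    linarith
  obtain ⟨l, hl, hG1⟩ := hG ε hε0
  obtain ⟨T1, hT1, hG2⟩ := hG1 l le_rfl
  have hev : ∀ᶠ T : ℝ in atTop, max 1 (Real.pi * l) ≤ Real.log T :=
    Real.tendsto_log_atTop.eventually_ge_atTop _
  obtain ⟨T2, hT2⟩ := hev.exists_forall_of_atTop
  set κr : ℝ := κ / κ1 with hκr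
  have hκr0 : 0 < κr := by positivity
  have hκr1 : κr < 1 := by rw [hκr, div_lt_one hκ10]; exact hκκ1
  set θ : ℝ := (1 - κr) / 2 with hθ
  have hθ0 : 0 < θ := by rw [hθ]; linarith
  have hθ1 : θ < 1 / 2 := by rw [hθ]; linarith
  have hθκ : κr ≤ (1 - θ) * (1 - θ) := by
    have : κr = 1 - 2 * θ := by rw [hθ]; ring
    rw [this]
    nlinarith [sq_nonneg θ]
  set K : ℝ := 2 * n * (n + 1) / θ + 1 with hK
  have hK0 : 0 < K := by positivity
  have hKθ : 2 * n * (n + 1) / K ≤ θ := by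
    rw [div_le_iff₀ hK0, hK]
    have : 2 * n * (n + 1) / θ * θ = 2 * n * (n + 1) := by field_simp
    nlinarith
  refine ⟨max (2 * l * (n + 1) / (1 - (1 - θ))) (2 * l * K), ε / (2 * Real.pi),
    max (max T1 T2) (4 / ε), ?_, by positivity, fun T hT α β hα hβ hl1 => ?_⟩
  · exact lt_of_lt_of_le (by positivity) (le_max_right _ _)
  have hTT1 : T1 ≤ T := ((le_max_left _ _).trans (le_max_left _ _)).trans hT
  have hLL := hT2 T (((le_max_right _ _).trans (le_max_left _ _)).trans hT)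
  have hTε : 4 ≤ ε * T := by
    have : 4 / ε ≤ T := (le_max_right _ _).trans hT
    rw [div_le_iff₀ hε0] at this
    linarith
  have hT10 : 10 ≤ T := hT1.trans hTT1
  have hTpos : 0 < T := by linarith
  set L := Real.log T with hL
  have hL1 : 1 ≤ L := (le_max_left _ _).trans hLL
  have hL2 : Real.pi * l ≤ L := (le_max_right _ _).trans hLL
  have hL0 : 0 < L := by linarith
  obtain ⟨M, hMi, hM0, hMle, hMint⟩ := hG2 T hTT1
  rw [← hL] at hMle
  set c : ℝ := Real.pi * l / L with hc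
  have hc0 : 0 < c := by positivity
  have hc1 : c ≤ 1 := by
    rw [hc, div_le_one hL0]
    exact hL2
  have hcl : 2 * c = 2 * Real.pi / L * l := by rw [hc]; ring
  choose N hN0 hN1 hN2 using fun j => win_count (n := n) (κr := 1 - θ) hl (by linarith)
    (by linarith) ((le_max_left _ _).trans (hl1 j))
  have hβα0 : ∀ j, 0 ≤ β j - α j := fun j =>
    le_trans (by positivity) ((le_max_right _ _).trans (hl1 j))
  have hNK : ∀ j, K ≤ N j := by
    intro j
    have h1 : 2 * l * K ≤ β j - α j := (le_max_right _ _).trans (hl1 j)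
    have h2 := hN2 j
    have h3 : 1 / 2 ≤ 1 - (1 - (1 - θ)) / (n + 1) := by
      have h4 : (1 - (1 - θ)) / ((n : ℝ) + 1) ≤ 1 / 2 := by
        rw [div_le_div_iff₀ (by positivity) (by norm_num)]
        nlinarith
      linarith
    have h4 : 1 / 2 * (β j - α j) ≤ l * N j := by
      refine le_trans ?_ h2
      exact mul_le_mul_of_nonneg_right h3 (hβα0 j)
    have h5 : l * K ≤ l * N j := by linarith
    exact le_of_mul_le_mul_left h5 hl
  -- the centres
  set τ : Fin n → ℝ := fun j => 2 * Real.pi / L * α j + 2 * c with hτ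
  have hτN : ∀ j, τ j + 2 * c * N j ≤ 2 * Real.pi / L * β j := by
    intro j
    show 2 * Real.pi / L * α j + 2 * c + 2 * c * N j ≤ 2 * Real.pi / L * β j
    have h1 : 2 * Real.pi / L * (l * ((N j : ℝ) + 1)) ≤ 2 * Real.pi / L * (β j - α j) :=
      mul_le_mul_of_nonneg_left (hN1 j) (by positivity)
    have h2 : 2 * Real.pi / L * α j + 2 * c + 2 * c * N j =
        2 * Real.pi / L * α j + 2 * Real.pi / L * (l * ((N j : ℝ) + 1)) := by
      rw [hcl]; ring
    rw [h2]
    linarith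
  have hτlow : ∀ j, -(ε * T) ≤ τ j := by
    intro j
    have h1 : 2 * Real.pi / L * -(ε / (2 * Real.pi) * (T * L)) ≤ 2 * Real.pi / L * α j :=
      mul_le_mul_of_nonneg_left (hα j) (by positivity)
    have h2 : 2 * Real.pi / L * -(ε / (2 * Real.pi) * (T * L)) = -(ε * T) := by
      field_simp
    show -(ε * T) ≤ 2 * Real.pi / L * α j + 2 * c
    linarith
  have hτup : ∀ j, τ j + 2 * c * N j ≤ ε * T := by
    intro j
    have h1 : 2 * Real.pi / L * β j ≤ 2 * Real.pi / L * (ε / (2 * Real.pi) * (T * L)) :=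
      mul_le_mul_of_nonneg_left (hβ j) (by positivity)
    have h2 : 2 * Real.pi / L * (ε / (2 * Real.pi) * (T * L)) = ε * T := by
      field_simp
    exact (hτN j).trans (by linarith)
  -- the counting function
  set F := (SZ_fin T).toFinset with hF
  set V : ℝ → ℝ := fun t => ∑ s ∈ F, ndo c s.im t with hV
  have hV0 : ∀ t, 0 ≤ V t := fun t => Finset.sum_nonneg fun s _ => ndo_nonneg _ _ _
  have hVae : ∀ᵐ t : ℝ, V t = ∑ s ∈ F, nd c s.im t := by
    have h1 : ∀ s ∈ F, ∀ᵐ t : ℝ, ndo c s.im t = nd c s.im t := fun s _ => ndo_ae c s.im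
    have h2 : ∀ᵐ t : ℝ, ∀ s ∈ F, ndo c s.im t = nd c s.im t :=
      (Finset.eventually_all F).2 h1
    filter_upwards [h2] with t ht
    exact Finset.sum_congr rfl ht
  have hVM : ∀ᵐ t : ℝ, ε * T ≤ t → t ≤ T - 1 → a * l - V t ≤ M t := by
    filter_upwards [hVae] with t ht h1 h2
    rw [ht, ← vc_sum (by linarith) (by linarith)]
    exact hMle t h1 (by linarith)
  have hVMs : ∀ σ : ℝ, ∀ᵐ t : ℝ, ε * T ≤ t + σ → t + σ ≤ T - 1 → a * l - V (t + σ) ≤ M (t + σ) :=
    fun σ => (measurePreserving_add_right volume σ).quasiMeasurePreserving.ae hVM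
  set S := Set.Icc (2 * (ε * T)) (T - 2 * (ε * T)) with hS
  have hS2 : 2 * (ε * T) ≤ T - 2 * (ε * T) := by nlinarith
  set Q := Sep c τ N with hQ
  have hsh : ∀ m ∈ Q, ∀ i, -(ε * T) ≤ sh c τ m i ∧ sh c τ m i ≤ ε * T := by
    intro m hm i
    rw [hQ] at hm
    unfold Sep at hm
    rw [Finset.mem_filter, Fintype.mem_piFinset] at hm
    refine Fin.cases ?_ (fun j => ?_) i
    · rw [sh_zero]
      constructor <;> linarith
    · rw [sh_succ]
      have hmN : (m j : ℝ) ≤ N j := by exact_mod_cast (Finset.mem_range.1 (hm.1 j)).le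
      have h4 : 2 * c * m j ≤ 2 * c * N j := by gcongr
      have h5 : 0 ≤ 2 * c * (m j : ℝ) := by positivity
      have h6 := hτlow j
      have h7 := hτup j
      constructor <;> linarith
  have hineq : ∀ᵐ t : ℝ, t ∈ S → ∀ m ∈ Q, ∀ i,
      a * l - V (t + sh c τ m i) ≤ M (t + sh c τ m i) := by
    have h1 : ∀ᵐ t : ℝ, ∀ m ∈ Q, ∀ i, ε * T ≤ t + sh c τ m i → t + sh c τ m i ≤ T - 1 →
        a * l - V (t + sh c τ m i) ≤ M (t + sh c τ m i) := by
      rw [Finset.eventually_all Q]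
      intro m _
      rw [ae_all_iff]
      intro i
      exact hVMs _
    filter_upwards [h1] with t ht1 htS m hm i
    have h2 := hsh m hm i
    exact ht1 m hm i (by linarith [htS.1]) (by linarith [htS.2])
  -- the tuples
  set P : Finset (Fin (n + 1) → ℂ) := (TD_fin n T α β).toFinset with hP
  have hPcard : (P.card : ℝ) = TD n T α β := by
    unfold TD
    rw [Nat.cast_inj, hP, Set.ncard_eq_toFinset_card _ (TD_fin n T α β)]
  have hup : ∀ t, ∑ m ∈ Q, ∏ i, V (t + sh c τ m i) ≤ ∑ p ∈ P, ndo c (p 0).im t := by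
    intro t
    apply point_up' F hc0 hL0 α β τ N (fun j => rfl) hτN P
    intro p hp1 hp2
    rw [hP, Set.Finite.mem_toFinset]
    exact ⟨fun i => (SZ_fin T).mem_toFinset.1 (hp1 i), hp2⟩
  -- integration
  have hMτ : ∀ σ : ℝ, Integrable fun t => M (t + σ) := fun σ => hMi.comp_add_right σ
  have hMτint : ∀ σ : ℝ, ∫ t in S, M (t + σ) ≤ (η + ε) * (l * T) := by
    intro σ
    refine (setIntegral_le_integral (hMτ σ) (Eventually.of_forall fun t => hM0 _)).trans ?_
    rw [integral_add_right_eq_self (fun t => M t) σ]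
    exact hMint
  have hal : 0 < a * l := by positivity
  have hfi : ∀ m : Fin n → ℕ, Integrable (fun t => ∑ i, M (t + sh c τ m i)) := fun m =>
    integrable_finsetSum _ fun i _ => hMτ _
  have hgi : ∀ m : Fin n → ℕ, IntegrableOn (fun t => (a * l) ^ (n + 1) -
      (a * l) ^ n * ∑ i, M (t + sh c τ m i)) S := fun m =>
    (integrableOn_const (by simp [hS])).sub ((hfi m).const_mul _).integrableOn
  have hPi : Integrable fun t => ∑ p ∈ P, ndo c (p 0).im t :=
    integrable_finsetSum _ fun p _ => (ndo_int c (p 0).im hc0.le).1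
  have hPint : ∫ t, ∑ p ∈ P, ndo c (p 0).im t = TD n T α β * (2 * c) := by
    rw [integral_finsetSum _ fun p _ => (ndo_int c (p 0).im hc0.le).1]
    simp_rw [(ndo_int c _ hc0.le).2]
    rw [Finset.sum_const, nsmul_eq_mul, hPcard]
  have hmain : ∫ t in S, ∑ m ∈ Q, ((a * l) ^ (n + 1) - (a * l) ^ n * ∑ i, M (t + sh c τ m i)) ≤
      ∫ t in S, ∑ p ∈ P, ndo c (p 0).im t := by
    apply setIntegral_mono_on_ae
    · exact integrable_finsetSum _ fun m _ => hgi m
    · exact hPi.integrableOn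
    · exact measurableSet_Icc
    · filter_upwards [hineq] with t ht htS
      refine le_trans (Finset.sum_le_sum fun m hm => ?_) (hup t)
      exact prod_low_fin' _ _ hal (fun i => hV0 _) (fun i => hM0 _) (ht htS m hm)
  have hle1 : ∫ t in S, ∑ p ∈ P, ndo c (p 0).im t ≤ TD n T α β * (2 * c) := by
    rw [← hPint]
    apply setIntegral_le_integral hPi
    apply Eventually.of_forall
    intro t
    exact Finset.sum_nonneg fun p _ => ndo_nonneg _ _ _
  have hone : ∀ m : Fin n → ℕ, κ1 * (l ^ (n + 1) * T) ≤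
      ∫ t in S, ((a * l) ^ (n + 1) - (a * l) ^ n * ∑ i, M (t + sh c τ m i)) := by
    intro m
    have i1 : Integrable (fun _ : ℝ => (a * l) ^ (n + 1)) (volume.restrict S) :=
      integrableOn_const (by simp [hS])
    have i2 : Integrable (fun t => (a * l) ^ n * ∑ i, M (t + sh c τ m i)) (volume.restrict S) :=
      ((hfi m).const_mul _).integrableOn
    rw [integral_sub i1 i2]
    have e2 : ∫ t in S, (a * l) ^ n * ∑ i, M (t + sh c τ m i) =
        (a * l) ^ n * ∑ i, ∫ t in S, M (t + sh c τ m i) := by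
      rw [integral_const_mul, integral_finsetSum _ fun i _ => (hMτ _).integrableOn]
    have e3 : ∫ _ in S, (a * l) ^ (n + 1) = (T - 4 * (ε * T)) * (a * l) ^ (n + 1) := by
      rw [setIntegral_const, smul_eq_mul, hS, Real.volume_real_Icc, max_eq_left (by linarith)]
      ring
    rw [e2, e3]
    have h4 : ∑ i : Fin (n + 1), ∫ t in S, M (t + sh c τ m i) ≤ (n + 1) * ((η + ε) * (l * T)) := by
      refine (Finset.sum_le_sum fun i _ => hMτint _).trans (le_of_eq ?_)
      rw [Finset.sum_const, Finset.card_univ, Fintype.card_fin, nsmul_eq_mul]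
      push_cast
      ring
    have h5 : (a * l) ^ n * ∑ i : Fin (n + 1), ∫ t in S, M (t + sh c τ m i) ≤
        (a * l) ^ n * ((n + 1) * ((η + ε) * (l * T))) :=
      mul_le_mul_of_nonneg_left h4 (by positivity)
    have h7 : κ1 * (l ^ (n + 1) * T) ≤
        (a ^ (n + 1) * (1 - 4 * ε) - (n + 1) * a ^ n * (η + ε)) * (l ^ (n + 1) * T) :=
      mul_le_mul_of_nonneg_right hε2 (by positivity)
    have h8 : (a ^ (n + 1) * (1 - 4 * ε) - (n + 1) * a ^ n * (η + ε)) * (l ^ (n + 1) * T) =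
        (T - 4 * (ε * T)) * (a * l) ^ (n + 1) -
          (a * l) ^ n * ((n + 1) * ((η + ε) * (l * T))) := by
      rw [mul_pow, mul_pow]
      ring
    linarith
  have hfin : κ1 * (l ^ (n + 1) * T) * (Q.card : ℝ) ≤ TD n T α β * (2 * c) := by
    refine le_trans ?_ (hmain.trans hle1)
    rw [integral_finsetSum _ fun m _ => hgi m]
    have h1 : ∑ _m ∈ Q, κ1 * (l ^ (n + 1) * T) ≤ ∑ m ∈ Q,
        ∫ t in S, ((a * l) ^ (n + 1) - (a * l) ^ n * ∑ i, M (t + sh c τ m i)) :=
      Finset.sum_le_sum fun m _ => hone m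
    rw [Finset.sum_const, nsmul_eq_mul] at h1
    linarith
  -- conclusion
  have hQc : (1 - θ) * ∏ j, (N j : ℝ) ≤ (Q.card : ℝ) := by
    refine le_trans ?_ (sep_card hc0 hK0 τ N hNK)
    apply mul_le_mul_of_nonneg_right _ (Finset.prod_nonneg fun j _ => Nat.cast_nonneg _)
    linarith
  have hprod : (1 - θ) * ∏ j, (β j - α j) ≤ l ^ n * ∏ j, (N j : ℝ) := by
    have e1 : l ^ n * ∏ j, (N j : ℝ) = ∏ j, (l * (N j : ℝ)) := by
      rw [Finset.prod_mul_distrib, Finset.prod_const, Finset.card_univ, Fintype.card_fin]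
    have hr1 : (1 - (1 - θ)) / ((n : ℝ) + 1) ≤ 1 := by
      rw [div_le_one (by positivity)]
      linarith
    have hr0 : 0 ≤ 1 - (1 - (1 - θ)) / ((n : ℝ) + 1) := by linarith
    have h1 : ∏ j, ((1 - (1 - (1 - θ)) / ((n : ℝ) + 1)) * (β j - α j)) ≤
        ∏ j, (l * (N j : ℝ)) := by
      apply Finset.prod_le_prod
      · intro j _
        exact mul_nonneg hr0 (hβα0 j)
      · intro j _
        exact hN2 j
    rw [Finset.prod_mul_distrib, Finset.prod_const, Finset.card_univ, Fintype.card_fin] at h1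
    rw [e1]
    refine le_trans ?_ h1
    apply mul_le_mul_of_nonneg_right _ (Finset.prod_nonneg fun j _ => hβα0 j)
    have hb := one_add_mul_le_pow (a := -((1 - (1 - θ)) / ((n : ℝ) + 1))) (by linarith) n
    have h2 : 1 - θ ≤ 1 + n * -((1 - (1 - θ)) / ((n : ℝ) + 1)) := by
      have h3 : (n : ℝ) * ((1 - (1 - θ)) / ((n : ℝ) + 1)) ≤ θ := by
        rw [mul_div_assoc', div_le_iff₀ (by positivity)]
        nlinarith
      linarith
    have h4 : (1 : ℝ) + -((1 - (1 - θ)) / ((n : ℝ) + 1)) =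
        1 - (1 - (1 - θ)) / ((n : ℝ) + 1) := by ring
    rw [h4] at hb
    exact h2.trans hb
  have hP0 : 0 ≤ ∏ j, (β j - α j) := Finset.prod_nonneg fun j _ => hβα0 j
  have h9 : κr * ∏ j, (β j - α j) ≤ l ^ n * (Q.card : ℝ) := by
    have h1 : κr * ∏ j, (β j - α j) ≤ (1 - θ) * (1 - θ) * ∏ j, (β j - α j) :=
      mul_le_mul_of_nonneg_right hθκ hP0
    have h2 : (1 - θ) * ((1 - θ) * ∏ j, (β j - α j)) ≤ (1 - θ) * (l ^ n * ∏ j, (N j : ℝ)) :=
      mul_le_mul_of_nonneg_left hprod (by linarith)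
    have h3 : l ^ n * ((1 - θ) * ∏ j, (N j : ℝ)) ≤ l ^ n * (Q.card : ℝ) :=
      mul_le_mul_of_nonneg_left hQc (by positivity)
    linarith
  have e2 : κ1 * (l ^ (n + 1) * T) * (Q.card : ℝ) =
      κ1 * (l * T) * (l ^ n * (Q.card : ℝ)) := by rw [pow_succ]; ring
  rw [e2] at hfin
  have h8 : κ1 * (l * T) * (κr * ∏ j, (β j - α j)) ≤ TD n T α β * (2 * c) :=
    (mul_le_mul_of_nonneg_left h9 (by positivity)).trans hfin
  have e3 : κ1 * (l * T) * (κr * ∏ j, (β j - α j)) =
      (κ * (∏ j, (β j - α j)) * (T * L / (2 * Real.pi))) * (2 * c) := by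
    rw [hκr, hc]
    field_simp
  rw [e3] at h8
  exact le_of_mul_le_mul_right h8 (by positivity)

end Pool.Agent.Helper92.FM
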