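import Pool.Agent.Helper92.FM.Mn2
import Pool.Agent.Helper92.FM.Mn3
import Pool.Agent.Helper92.FM.Pr
import Pool.Agent.Helper92.FM.Tu
import Pool.Agent.Helper92.FM.Tu2
import Pool.Agent.Helper92.FM.Tu3

set_option autoImplicit false

/-! Tuples of distinct simple critical zeros, with repeated intervals. -/

open Complex Filter Topology Set MeasureTheory
open scoped BigOperators ComplexConjugate

namespace Pool.Agent.Helper92.FM

/-- products with repeated factors -/
lemma prod_rep {n r m : ℕ} (c : Fin n → Fin r)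
    (hc : ∀ j, (Finset.univ.filter (fun i => c i = j)).card ≤ m) (x : Fin r → ℝ)
    (hx0 : ∀ j, 0 ≤ x j) (hx1 : ∀ j, x j ≤ 1) : (∏ j, x j) ^ m ≤ ∏ i, x (c i) := by
  classical
  rw [← Finset.prod_fiberwise' Finset.univ c x]
  rw [← Finset.prod_pow]
  apply Finset.prod_le_prod
  · intro j _
    exact pow_nonneg (hx0 j) _
  · intro j _
    rw [Finset.prod_const]
    exact pow_le_pow_of_le_one (hx0 j) (hx1 j) (hc j)

/-- tangent line of `z ^ m` -/
lemma tangent {z z0 : ℝ} (hz : 0 ≤ z) (hz0 : 0 < z0) (m : ℕ) (hm : 1 ≤ m) :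
    z0 ^ m + m * z0 ^ (m - 1) * (z - z0) ≤ z ^ m := by
  have h1 : -2 ≤ (z - z0) / z0 := by
    rw [le_div_iff₀ hz0]
    linarith
  have h2 := one_add_mul_le_pow h1 m
  have h3 : 1 + (z - z0) / z0 = z / z0 := by field_simp; ring
  rw [h3, div_pow, le_div_iff₀ (by positivity)] at h2
  refine le_trans (le_of_eq ?_) h2
  obtain ⟨k, rfl⟩ : ∃ k, m = k + 1 := ⟨m - 1, by omega⟩
  rw [Nat.add_sub_cancel, pow_succ]
  field_simp

/-- the pointwise lower bound -/
lemma point_low {n r m : ℕ} (c : Fin n → Fin r)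
    (hc : ∀ j, (Finset.univ.filter (fun i => c i = j)).card ≤ m) (hm : 1 ≤ m)
    {cc A z0 θ : ℝ} (hA : 0 < A) (hz0 : 0 < z0) (τ : Fin r → ℝ)
    (N : Fin r → ℕ) (hN : ∀ j, 0 < N j) (V M : ℝ → ℝ) (hV : ∀ t, 0 ≤ V t) (hM : ∀ t, 0 ≤ M t)
    (t : ℝ) (h0 : A - V t ≤ M t)
    (hj : ∀ j, ∀ k < N j, A - V (t + (τ j + 2 * cc * k)) ≤ M (t + (τ j + 2 * cc * k)))
    (Q : Finset (Fin n → ℕ)) (hQs : Q ⊆ Fintype.piFinset fun i => Finset.range (N (c i)))
    (hQ : (1 - θ) * ∏ i, (N (c i) : ℝ) ≤ Q.card) :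
    (∏ i, (N (c i) : ℝ)) * A ^ (n + 1) * (z0 ^ m + m * z0 ^ (m - 1) *
      (1 - (M t + ∑ j, (∑ k ∈ Finset.range (N j), M (t + (τ j + 2 * cc * k))) / N j) / A - z0) - θ) ≤
    ∑ q ∈ Q, ∏ i, V (t + sh cc (fun i => τ (c i)) q i) := by
  classical
  set U : ℝ → ℝ := fun s => min (V s) A with hU
  have hU0 : ∀ s, 0 ≤ U s := fun s => le_min (hV s) hA.le
  have hUA : ∀ s, U s ≤ A := fun s => min_le_right _ _
  have hUV : ∀ s, U s ≤ V s := fun s => min_le_left _ _
  have hUM : ∀ s, A - V s ≤ M s → A - U s ≤ M s := by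
    intro s hs
    simp only [hU]
    rcases le_total (V s) A with h | h
    · rw [min_eq_left h]; exact hs
    · rw [min_eq_right h, sub_self]; exact hM s
  set Pi0 := Fintype.piFinset fun i => Finset.range (N (c i)) with hPi0
  have hPic : (Pi0.card : ℝ) = ∏ i, (N (c i) : ℝ) := by
    rw [hPi0, Fintype.card_piFinset]
    push_cast
    exact Finset.prod_congr rfl fun j _ => by rw [Finset.card_range]
  set NN := ∏ i, (N (c i) : ℝ) with hNN
  have hNN0 : 0 < NN := Finset.prod_pos fun i _ => by exact_mod_cast hN (c i)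
  -- replace `V` by `U`
  have h1 : ∑ q ∈ Q, ∏ i, U (t + sh cc (fun i => τ (c i)) q i) ≤
      ∑ q ∈ Q, ∏ i, V (t + sh cc (fun i => τ (c i)) q i) :=
    Finset.sum_le_sum fun q _ => Finset.prod_le_prod (fun i _ => hU0 _) (fun i _ => hUV _)
  refine le_trans ?_ h1
  -- all choices
  have hle : ∀ q : Fin n → ℕ, ∏ i, U (t + sh cc (fun i => τ (c i)) q i) ≤ A ^ (n + 1) := by
    intro q
    have := Finset.prod_le_prod (s := (Finset.univ : Finset (Fin (n + 1))))
      (f := fun i => U (t + sh cc (fun i => τ (c i)) q i)) (g := fun _ => A)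
      (fun i _ => hU0 _) (fun i _ => hUA _)
    rwa [Finset.prod_const, Finset.card_univ, Fintype.card_fin] at this
  have h2 : ∑ q ∈ Pi0, ∏ i, U (t + sh cc (fun i => τ (c i)) q i) ≤
      ∑ q ∈ Q, ∏ i, U (t + sh cc (fun i => τ (c i)) q i) + θ * NN * A ^ (n + 1) := by
    rw [← Finset.sum_sdiff hQs, add_comm]
    gcongr
    have h3 : ∑ q ∈ Pi0 \ Q, ∏ i, U (t + sh cc (fun i => τ (c i)) q i) ≤
        ∑ _q ∈ Pi0 \ Q, A ^ (n + 1) := Finset.sum_le_sum fun q _ => hle q
    rw [Finset.sum_const, nsmul_eq_mul] at h3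
    refine h3.trans ?_
    apply mul_le_mul_of_nonneg_right _ (by positivity)
    rw [Finset.cast_card_sdiff hQs, hPic]
    linarith
  have h4 : ∑ q ∈ Pi0, ∏ i, U (t + sh cc (fun i => τ (c i)) q i) =
      U t * ∏ i : Fin n, ∑ k ∈ Finset.range (N (c i)), U (t + (τ (c i) + 2 * cc * k)) := by
    rw [Finset.prod_univ_sum, Finset.mul_sum]
    refine Finset.sum_congr rfl fun q _ => ?_
    rw [Fin.prod_univ_succ, sh_zero, add_zero]
    rfl
  -- the averages
  set x : Fin r → ℝ := fun j =>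
    ((∑ k ∈ Finset.range (N j), U (t + (τ j + 2 * cc * k))) / N j) / A with hx
  have hNj : ∀ j, (0 : ℝ) < N j := fun j => by exact_mod_cast hN j
  have hx0 : ∀ j, 0 ≤ x j := fun j =>
    div_nonneg (div_nonneg (Finset.sum_nonneg fun k _ => hU0 _) (Nat.cast_nonneg _)) hA.le
  have hx1 : ∀ j, x j ≤ 1 := by
    intro j
    simp only [hx]
    rw [div_le_one hA, div_le_iff₀ (hNj j)]
    have := Finset.sum_le_sum (s := Finset.range (N j)) fun k _ => hUA (t + (τ j + 2 * cc * k))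
    rw [Finset.sum_const, Finset.card_range, nsmul_eq_mul] at this
    linarith
  have hu0 : 0 ≤ U t / A := div_nonneg (hU0 t) hA.le
  have hu1 : U t / A ≤ 1 := by rw [div_le_one hA]; exact hUA t
  have h5 : U t * ∏ i : Fin n, ∑ k ∈ Finset.range (N (c i)), U (t + (τ (c i) + 2 * cc * k)) =
      NN * A ^ (n + 1) * (U t / A * ∏ i, x (c i)) := by
    have e1 : ∀ i : Fin n, ∑ k ∈ Finset.range (N (c i)), U (t + (τ (c i) + 2 * cc * k)) =
        (N (c i) : ℝ) * A * x (c i) := by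
      intro i
      simp only [hx]
      have := (hNj (c i)).ne'
      field_simp
    simp_rw [e1]
    rw [Finset.prod_mul_distrib, Finset.prod_mul_distrib, Finset.prod_const, Finset.card_univ,
      Fintype.card_fin, pow_succ, hNN]
    field_simp
  have h6 : (U t / A * ∏ j, x j) ^ m ≤ U t / A * ∏ i, x (c i) := by
    rw [mul_pow]
    apply mul_le_mul _ (prod_rep c hc x hx0 hx1) (pow_nonneg (Finset.prod_nonneg fun j _ => hx0 j) _)
      hu0
    calc (U t / A) ^ m ≤ (U t / A) ^ 1 := pow_le_pow_of_le_one hu0 hu1 hm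
      _ = U t / A := pow_one _
  -- the lower bound of the product
  set y : Fin (r + 1) → ℝ := Fin.cons (U t) (fun j =>
    (∑ k ∈ Finset.range (N j), U (t + (τ j + 2 * cc * k))) / N j) with hy
  set My : Fin (r + 1) → ℝ := Fin.cons (M t) (fun j =>
    (∑ k ∈ Finset.range (N j), M (t + (τ j + 2 * cc * k))) / N j) with hMy
  have hynn : ∀ i, 0 ≤ y i := by
    intro i
    refine Fin.cases ?_ (fun j => ?_) i
    · exact hU0 t
    · exact div_nonneg (Finset.sum_nonneg fun k _ => hU0 _) (Nat.cast_nonneg _)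
  have hMynn : ∀ i, 0 ≤ My i := by
    intro i
    refine Fin.cases ?_ (fun j => ?_) i
    · exact hM t
    · exact div_nonneg (Finset.sum_nonneg fun k _ => hM _) (Nat.cast_nonneg _)
  have hyM : ∀ i, A - y i ≤ My i := by
    intro i
    refine Fin.cases ?_ (fun j => ?_) i
    · exact hUM t h0
    · show A - (∑ k ∈ Finset.range (N j), U (t + (τ j + 2 * cc * k))) / N j ≤
        (∑ k ∈ Finset.range (N j), M (t + (τ j + 2 * cc * k))) / N j
      rw [sub_le_iff_le_add, ← add_div, le_div_iff₀ (hNj j), ← Finset.sum_add_distrib]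
      have h3 : A * (N j : ℝ) = ∑ _k ∈ Finset.range (N j), A := by
        rw [Finset.sum_const, Finset.card_range, nsmul_eq_mul, mul_comm]
      rw [h3]
      refine Finset.sum_le_sum fun k hk => ?_
      have := hUM _ (hj j k (Finset.mem_range.1 hk))
      linarith
  have h7 := (le_max_right _ _).trans (prod_low_fin Finset.univ y My hA (fun i _ => hynn i)
    (fun i _ => hMynn i) (fun i _ => hyM i))
  rw [Fin.prod_univ_succ, Fin.sum_univ_succ] at h7
  have h8 : 1 - (M t + ∑ j, (∑ k ∈ Finset.range (N j), M (t + (τ j + 2 * cc * k))) / N j) / A ≤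
      U t / A * ∏ j, x j := by
    refine le_trans (le_of_eq ?_) h7
    show 1 - (M t + ∑ j, (∑ k ∈ Finset.range (N j), M (t + (τ j + 2 * cc * k))) / N j) / A =
      1 - (M t / A + ∑ j, ((∑ k ∈ Finset.range (N j), M (t + (τ j + 2 * cc * k))) / N j) / A)
    rw [add_div, Finset.sum_div]
  set D0 := (M t + ∑ j, (∑ k ∈ Finset.range (N j), M (t + (τ j + 2 * cc * k))) / N j) / A with hD0
  have h9 : z0 ^ m + m * z0 ^ (m - 1) * (1 - D0 - z0) ≤ U t / A * ∏ i, x (c i) := by
    refine le_trans ?_ h6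
    refine le_trans ?_ (tangent (mul_nonneg hu0 (Finset.prod_nonneg fun j _ => hx0 j)) hz0 m hm)
    gcongr
  have h10 : NN * A ^ (n + 1) * (z0 ^ m + m * z0 ^ (m - 1) * (1 - D0 - z0)) ≤
      NN * A ^ (n + 1) * (U t / A * ∏ i, x (c i)) :=
    mul_le_mul_of_nonneg_left h9 (by positivity)
  rw [← h5, ← h4] at h10
  have h11 := h10.trans h2
  linarith

lemma frac_le {n x : ℝ} (hn : 0 ≤ n) (hx : 0 ≤ x) : n * (x / (n + 1)) ≤ x := by
  rw [mul_div_assoc', div_le_iff₀ (by linarith)]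
  nlinarith

theorem tuples_multi {a η κ : ℝ} {n r m : ℕ} (c : Fin n → Fin r)
    (hc : ∀ j, (Finset.univ.filter (fun i => c i = j)).card ≤ m) (hm : 1 ≤ m)
    (hG : GoodF a η) (ha : 0 < a) (hη : 0 ≤ η) (hηa : (r + 1) * η < a)
    (hκ0 : 0 < κ) (hκ : κ < a ^ (n + 1) * (1 - (r + 1) * η / a) ^ m) :
    ∃ l1 δ T0 : ℝ, 0 < l1 ∧ 0 < δ ∧ ∀ T : ℝ, T0 ≤ T → ∀ α β : Fin r → ℝ,
      (∀ j, -(δ * (T * Real.log T)) ≤ α j) → (∀ j, β j ≤ δ * (T * Real.log T)) →
      (∀ j, l1 ≤ β j - α j) →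
      κ * (∏ i, (β (c i) - α (c i))) * (T * Real.log T / (2 * Real.pi)) ≤
        TD n T (fun i => α (c i)) (fun i => β (c i)) := by
  classical
  have hpi := Real.pi_pos
  have hn0 : (0 : ℝ) ≤ n := Nat.cast_nonneg n
  have hr0 : (0 : ℝ) ≤ r := Nat.cast_nonneg r
  have hm0 : (1 : ℝ) ≤ m := by exact_mod_cast hm
  set z0 : ℝ := 1 - (r + 1) * η / a with hz0d
  have hz0 : 0 < z0 := by
    rw [hz0d, sub_pos, div_lt_one ha]
    exact hηa
  have hz01 : z0 ≤ 1 := by
    have : 0 ≤ (r + 1) * η / a := by positivity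
    linarith
  set κ1 : ℝ := (κ + a ^ (n + 1) * z0 ^ m) / 2 with hκ1
  have hκκ1 : κ < κ1 := by linarith
  have hκ10 : 0 < κ1 := hκ0.trans hκκ1
  have han : 0 < a ^ (n + 1) := by positivity
  set g : ℝ := (a ^ (n + 1) * z0 ^ m - κ) / (2 * a ^ (n + 1)) with hg
  have hg0 : 0 < g := by
    have : 0 < a ^ (n + 1) * z0 ^ m - κ := by linarith
    positivity
  have hgκ : a ^ (n + 1) * (z0 ^ m - g) = κ1 := by
    rw [hg, hκ1]
    field_simp
    ring
  set θ : ℝ := g / 2 with hθ
  have hθ0 : 0 < θ := by positivity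
  set D : ℝ := 4 * (1 + m) + m * (r + 1) / a with hD
  have hD0 : 0 < D := by positivity
  set ε : ℝ := min (1 / 8) (g / (2 * D)) with hε
  have hε0 : 0 < ε := by positivity
  have hε1 : ε ≤ 1 / 8 := min_le_left _ _
  have hεD : ε * D ≤ g / 2 := by
    have h1 : ε ≤ g / (2 * D) := min_le_right _ _
    rw [le_div_iff₀ (by positivity)] at h1
    linarith
  -- the main constant
  set Zc : ℝ := z0 ^ m + m * z0 ^ (m - 1) * (1 - z0) - θ with hZc
  have hzm : z0 ^ (m - 1) ≤ 1 := pow_le_one₀ hz0.le hz01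
  have hzm0 : 0 ≤ z0 ^ (m - 1) := by positivity
  have hzmm : z0 ^ m ≤ 1 := pow_le_one₀ hz0.le hz01
  have hZle : Zc ≤ 1 + m := by
    have h1 : m * z0 ^ (m - 1) * (1 - z0) ≤ m * 1 * 1 := by
      apply mul_le_mul _ (by linarith) (by linarith) (by positivity)
      gcongr
    rw [hZc]
    linarith
  have hconst : κ1 ≤ a ^ (n + 1) * ((1 - 4 * ε) * Zc -
      m * z0 ^ (m - 1) * ((r + 1) * (η + ε) / a)) := by
    rw [← hgκ]
    apply mul_le_mul_of_nonneg_left _ han.le
    have h1 : m * z0 ^ (m - 1) * ((r + 1) * (η + ε) / a) =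
        m * z0 ^ (m - 1) * (1 - z0) + m * z0 ^ (m - 1) * ((r + 1) * ε / a) := by
      rw [hz0d]; ring
    have h2 : m * z0 ^ (m - 1) * ((r + 1) * ε / a) ≤ m * 1 * ((r + 1) * ε / a) := by gcongr
    have h3 : 4 * ε * Zc ≤ 4 * ε * (1 + m) := by gcongr
    have h4 : ε * D = 4 * ε * (1 + m) + m * 1 * ((r + 1) * ε / a) := by rw [hD]; ring
    have h5 : (1 - 4 * ε) * Zc = Zc - 4 * ε * Zc := by ring
    rw [h1, h5]
    have h6 : Zc = z0 ^ m + m * z0 ^ (m - 1) * (1 - z0) - θ := hZc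
    linarith
  obtain ⟨l, hl, hG1⟩ := hG ε hε0
  obtain ⟨T1, hT1, hG2⟩ := hG1 l le_rfl
  have hev : ∀ᶠ T : ℝ in atTop, max 1 (Real.pi * l) ≤ Real.log T :=
    Real.tendsto_log_atTop.eventually_ge_atTop _
  obtain ⟨T2, hT2⟩ := hev.exists_forall_of_atTop
  set κr : ℝ := (1 + κ / κ1) / 2 with hκr
  have hκκ : κ / κ1 < 1 := by rw [div_lt_one hκ10]; exact hκκ1
  have hκκ0 : 0 < κ / κ1 := by positivity
  have hκr0 : 1 / 2 < κr := by rw [hκr]; linarith
  have hκr1 : κr < 1 := by rw [hκr]; linarith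
  have hκr2 : 0 < 1 - κr := by linarith
  set K : ℝ := 2 * n * (n + 1) / θ + 1 with hK
  have hK0 : 0 < K := by positivity
  have hKθ : 2 * n * (n + 1) / K ≤ θ := by
    rw [div_le_iff₀ hK0, hK]
    have : 2 * n * (n + 1) / θ * θ = 2 * n * (n + 1) := by field_simp
    nlinarith
  refine ⟨max (2 * l * (n + 1) / (1 - κr)) (2 * l * K), ε / (2 * Real.pi),
    max (max T1 T2) (4 / ε), ?_, by positivity, fun T hT α β hα hβ hl1 => ?_⟩
  · exact lt_of_lt_of_le (by positivity) (le_max_right _ _)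
  have hTT1 : T1 ≤ T := ((le_max_left _ _).trans (le_max_left _ _)).trans hT
  have hLL := hT2 T (((le_max_right _ _).trans (le_max_left _ _)).trans hT)
  have hTε : 4 ≤ ε * T := by
    have : 4 / ε ≤ T := (le_max_right _ _).trans hT
    rw [div_le_iff₀ hε0] at this
    linarith
  have hT10 : 10 ≤ T := hT1.trans hTT1
  have hTpos : 0 < T := by linarith
  set L := Real.log T with hL
  have hL1 : 1 ≤ L := (le_max_left _ _).trans hLL
  have hL2 : Real.pi * l ≤ L := (le_max_right _ _).trans hLL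
  have hL0 : 0 < L := by linarith
  obtain ⟨M, hMi, hM0, hMle, hMint⟩ := hG2 T hTT1
  rw [← hL] at hMle
  set cc : ℝ := Real.pi * l / L with hcc
  have hc0 : 0 < cc := by positivity
  have hc1 : cc ≤ 1 := by
    rw [hcc, div_le_one hL0]
    exact hL2
  have hcl : 2 * cc = 2 * Real.pi / L * l := by rw [hcc]; ring
  choose N hN0 hN1 hN2 using fun j => win_count (n := n) (κr := κr) hl (by linarith)
    (by linarith) ((le_max_left _ _).trans (hl1 j))
  have hβα0 : ∀ j, 0 ≤ β j - α j := fun j =>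
    le_trans (by positivity) ((le_max_right _ _).trans (hl1 j))
  have hNK : ∀ j, K ≤ N j := by
    intro j
    have h1 : 2 * l * K ≤ β j - α j := (le_max_right _ _).trans (hl1 j)
    have h2 := hN2 j
    have h3 : 1 / 2 ≤ 1 - (1 - κr) / ((n : ℝ) + 1) := by
      have h4 : (1 - κr) / ((n : ℝ) + 1) ≤ 1 / 2 := by
        rw [div_le_div_iff₀ (by positivity) (by norm_num)]
        nlinarith
      linarith
    have h4 : 1 / 2 * (β j - α j) ≤ l * N j := by
      refine le_trans ?_ h2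
      exact mul_le_mul_of_nonneg_right h3 (hβα0 j)
    have h5 : l * K ≤ l * N j := by linarith
    exact le_of_mul_le_mul_left h5 hl
  -- the centres
  set τ : Fin r → ℝ := fun j => 2 * Real.pi / L * α j + 2 * cc with hτ
  have hτN : ∀ j, τ j + 2 * cc * N j ≤ 2 * Real.pi / L * β j := by
    intro j
    show 2 * Real.pi / L * α j + 2 * cc + 2 * cc * N j ≤ 2 * Real.pi / L * β j
    have h1 : 2 * Real.pi / L * (l * ((N j : ℝ) + 1)) ≤ 2 * Real.pi / L * (β j - α j) :=
      mul_le_mul_of_nonneg_left (hN1 j) (by positivity)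
    have h2 : 2 * Real.pi / L * α j + 2 * cc + 2 * cc * N j =
        2 * Real.pi / L * α j + 2 * Real.pi / L * (l * ((N j : ℝ) + 1)) := by
      rw [hcl]; ring
    rw [h2]
    linarith
  have hτlow : ∀ j, -(ε * T) ≤ τ j := by
    intro j
    have h1 : 2 * Real.pi / L * -(ε / (2 * Real.pi) * (T * L)) ≤ 2 * Real.pi / L * α j :=
      mul_le_mul_of_nonneg_left (hα j) (by positivity)
    have h2 : 2 * Real.pi / L * -(ε / (2 * Real.pi) * (T * L)) = -(ε * T) := by
      field_simp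
    show -(ε * T) ≤ 2 * Real.pi / L * α j + 2 * cc
    linarith
  have hτup : ∀ j, τ j + 2 * cc * N j ≤ ε * T := by
    intro j
    have h1 : 2 * Real.pi / L * β j ≤ 2 * Real.pi / L * (ε / (2 * Real.pi) * (T * L)) :=
      mul_le_mul_of_nonneg_left (hβ j) (by positivity)
    have h2 : 2 * Real.pi / L * (ε / (2 * Real.pi) * (T * L)) = ε * T := by
      field_simp
    exact (hτN j).trans (by linarith)
  -- the counting function
  set F := (SZ_fin T).toFinset with hF
  set V : ℝ → ℝ := fun t => ∑ s ∈ F, ndo cc s.im t with hV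
  have hV0 : ∀ t, 0 ≤ V t := fun t => Finset.sum_nonneg fun s _ => ndo_nonneg _ _ _
  have hVae : ∀ᵐ t : ℝ, V t = ∑ s ∈ F, nd cc s.im t := by
    have h1 : ∀ s ∈ F, ∀ᵐ t : ℝ, ndo cc s.im t = nd cc s.im t := fun s _ => ndo_ae cc s.im
    have h2 : ∀ᵐ t : ℝ, ∀ s ∈ F, ndo cc s.im t = nd cc s.im t :=
      (Finset.eventually_all F).2 h1
    filter_upwards [h2] with t ht
    exact Finset.sum_congr rfl ht
  have hVM : ∀ᵐ t : ℝ, ε * T ≤ t → t ≤ T - 1 → a * l - V t ≤ M t := by
    filter_upwards [hVae] with t ht h1 h2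
    rw [ht, ← vc_sum (by linarith) (by linarith)]
    exact hMle t h1 (by linarith)
  have hVMs : ∀ σ : ℝ, ∀ᵐ t : ℝ, ε * T ≤ t + σ → t + σ ≤ T - 1 → a * l - V (t + σ) ≤ M (t + σ) :=
    fun σ => (measurePreserving_add_right volume σ).quasiMeasurePreserving.ae hVM
  set S := Set.Icc (2 * (ε * T)) (T - 2 * (ε * T)) with hS
  have hS2 : 2 * (ε * T) ≤ T - 2 * (ε * T) := by nlinarith
  set Q := Sep cc (fun i => τ (c i)) (fun i => N (c i)) with hQ
  have hQs : Q ⊆ Fintype.piFinset fun i => Finset.range (N (c i)) := Finset.filter_subset _ _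
  have hQc : (1 - θ) * ∏ i, (N (c i) : ℝ) ≤ (Q.card : ℝ) := by
    refine le_trans ?_ (sep_card hc0 hK0 (fun i => τ (c i)) (fun i => N (c i)) fun i => hNK (c i))
    apply mul_le_mul_of_nonneg_right _ (Finset.prod_nonneg fun j _ => Nat.cast_nonneg _)
    linarith
  set MM : ℝ → ℝ := fun t => M t +
    ∑ j, (∑ k ∈ Finset.range (N j), M (t + (τ j + 2 * cc * k))) / N j with hMM
  have hal : 0 < a * l := by positivity
  have hineq : ∀ᵐ t : ℝ, t ∈ S → (∏ i, (N (c i) : ℝ)) * (a * l) ^ (n + 1) *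
      (z0 ^ m + m * z0 ^ (m - 1) * (1 - MM t / (a * l) - z0) - θ) ≤
      ∑ q ∈ Q, ∏ i, V (t + sh cc (fun i => τ (c i)) q i) := by
    have h1 : ∀ᵐ t : ℝ, ∀ j : Fin r, ∀ k : ℕ, ε * T ≤ t + (τ j + 2 * cc * k) →
        t + (τ j + 2 * cc * k) ≤ T - 1 →
        a * l - V (t + (τ j + 2 * cc * k)) ≤ M (t + (τ j + 2 * cc * k)) := by
      rw [ae_all_iff]
      intro j
      rw [ae_all_iff]
      intro k
      exact hVMs _
    filter_upwards [h1, hVM] with t ht1 ht2 htS
    apply point_low c hc hm hal hz0 τ N hN0 V M hV0 hM0 t _ _ Q hQs hQc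
    · exact ht2 (by linarith [htS.1]) (by linarith [htS.2])
    · intro j k hk
      have hmN : (k : ℝ) ≤ N j := by exact_mod_cast hk.le
      have h4 : 2 * cc * k ≤ 2 * cc * N j := by gcongr
      have h5 : 0 ≤ 2 * cc * (k : ℝ) := by positivity
      have h6 := hτlow j
      have h7 := hτup j
      exact ht1 j k (by linarith [htS.1]) (by linarith [htS.2])
  -- the tuples
  set P : Finset (Fin (n + 1) → ℂ) :=
    (TD_fin n T (fun i => α (c i)) (fun i => β (c i))).toFinset with hP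
  have hPcard : (P.card : ℝ) = TD n T (fun i => α (c i)) (fun i => β (c i)) := by
    unfold TD
    rw [Nat.cast_inj, hP, Set.ncard_eq_toFinset_card _
      (TD_fin n T (fun i => α (c i)) (fun i => β (c i)))]
  have hup : ∀ t, ∑ q ∈ Q, ∏ i, V (t + sh cc (fun i => τ (c i)) q i) ≤
      ∑ p ∈ P, ndo cc (p 0).im t := by
    intro t
    apply point_up' F hc0 hL0 (fun i => α (c i)) (fun i => β (c i)) (fun i => τ (c i))
      (fun i => N (c i)) (fun i => rfl) (fun i => hτN (c i)) P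
    intro p hp1 hp2
    rw [hP, Set.Finite.mem_toFinset]
    exact ⟨fun i => (SZ_fin T).mem_toFinset.1 (hp1 i), hp2⟩
  -- integration
  have hMτ : ∀ σ : ℝ, Integrable fun t => M (t + σ) := fun σ => hMi.comp_add_right σ
  have hMYi : ∀ j, Integrable (fun t =>
      (∑ k ∈ Finset.range (N j), M (t + (τ j + 2 * cc * k))) / N j) := fun j =>
    (integrable_finsetSum _ fun k _ => hMτ _).div_const _
  have hMYint : ∀ j, ∫ t, (∑ k ∈ Finset.range (N j), M (t + (τ j + 2 * cc * k))) / N j ≤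
      (η + ε) * (l * T) := by
    intro j
    have hNj : (0 : ℝ) < N j := by exact_mod_cast hN0 j
    rw [integral_div, integral_finsetSum _ fun k _ => hMτ _, div_le_iff₀ hNj]
    have h1 : ∀ k ∈ Finset.range (N j), ∫ t, M (t + (τ j + 2 * cc * k)) ≤ (η + ε) * (l * T) := by
      intro k _
      rw [integral_add_right_eq_self (fun t => M t)]
      exact hMint
    refine (Finset.sum_le_sum h1).trans ?_
    rw [Finset.sum_const, Finset.card_range, nsmul_eq_mul, mul_comm]
  have hMMi : Integrable MM := hMi.add (integrable_finsetSum _ fun j _ => hMYi j)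
  have hMM0 : ∀ t, 0 ≤ MM t := fun t => add_nonneg (hM0 t) (Finset.sum_nonneg fun j _ =>
    div_nonneg (Finset.sum_nonneg fun k _ => hM0 _) (Nat.cast_nonneg _))
  have hMMint : ∫ t, MM t ≤ (r + 1) * ((η + ε) * (l * T)) := by
    have h2 : ∫ t, MM t = (∫ t, M t) + ∑ j, ∫ t,
        (∑ k ∈ Finset.range (N j), M (t + (τ j + 2 * cc * k))) / N j := by
      simp only [hMM]
      rw [integral_add hMi (integrable_finsetSum _ fun j _ => hMYi j),
        integral_finsetSum _ fun j _ => hMYi j]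
    rw [h2]
    have h3 : ∑ j, ∫ t, (∑ k ∈ Finset.range (N j), M (t + (τ j + 2 * cc * k))) / N j ≤
        ∑ _j : Fin r, (η + ε) * (l * T) := Finset.sum_le_sum fun j _ => hMYint j
    rw [Finset.sum_const, Finset.card_univ, Fintype.card_fin, nsmul_eq_mul] at h3
    linarith
  set NN := ∏ i, (N (c i) : ℝ) with hNN
  have hNN0 : 0 < NN := Finset.prod_pos fun i _ => by exact_mod_cast hN0 (c i)
  have hPi : Integrable fun t => ∑ p ∈ P, ndo cc (p 0).im t :=
    integrable_finsetSum _ fun p _ => (ndo_int cc (p 0).im hc0.le).1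
  have hPint : ∫ t, ∑ p ∈ P, ndo cc (p 0).im t =
      TD n T (fun i => α (c i)) (fun i => β (c i)) * (2 * cc) := by
    rw [integral_finsetSum _ fun p _ => (ndo_int cc (p 0).im hc0.le).1]
    simp_rw [(ndo_int cc _ hc0.le).2]
    rw [Finset.sum_const, nsmul_eq_mul, hPcard]
  set X : ℝ := NN * (a * l) ^ (n + 1) with hX
  have hX0 : 0 < X := by positivity
  have hfun : ∀ t, X * (z0 ^ m + m * z0 ^ (m - 1) * (1 - MM t / (a * l) - z0) - θ) =
      X * Zc - X * (m * z0 ^ (m - 1)) / (a * l) * MM t := by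
    intro t
    rw [hZc]
    field_simp
    ring
  simp_rw [hfun] at hineq
  have i1 : Integrable (fun _ : ℝ => X * Zc) (volume.restrict S) :=
    integrableOn_const (by simp [hS])
  have i2 : Integrable (fun t => X * (m * z0 ^ (m - 1)) / (a * l) * MM t) (volume.restrict S) :=
    (hMMi.const_mul _).integrableOn
  have hmain : ∫ t in S, (X * Zc - X * (m * z0 ^ (m - 1)) / (a * l) * MM t) ≤
      ∫ t in S, ∑ p ∈ P, ndo cc (p 0).im t := by
    apply setIntegral_mono_on_ae
    · exact i1.sub i2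
    · exact hPi.integrableOn
    · exact measurableSet_Icc
    · filter_upwards [hineq] with t ht htS
      exact (ht htS).trans (hup t)
  have hle1 : ∫ t in S, ∑ p ∈ P, ndo cc (p 0).im t ≤
      TD n T (fun i => α (c i)) (fun i => β (c i)) * (2 * cc) := by
    rw [← hPint]
    apply setIntegral_le_integral hPi
    apply Eventually.of_forall
    intro t
    exact Finset.sum_nonneg fun p _ => ndo_nonneg _ _ _
  have hle2 : NN * (κ1 * (l ^ (n + 1) * T)) ≤
      ∫ t in S, (X * Zc - X * (m * z0 ^ (m - 1)) / (a * l) * MM t) := by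
    rw [integral_sub i1 i2]
    have e2 : ∫ t in S, X * (m * z0 ^ (m - 1)) / (a * l) * MM t =
        X * (m * z0 ^ (m - 1)) / (a * l) * ∫ t in S, MM t := integral_const_mul _ _
    have e3 : ∫ _ in S, X * Zc = (T - 4 * (ε * T)) * (X * Zc) := by
      rw [setIntegral_const, smul_eq_mul, hS, Real.volume_real_Icc, max_eq_left (by linarith)]
      ring
    rw [e2, e3]
    have h4 : ∫ t in S, MM t ≤ (r + 1) * ((η + ε) * (l * T)) :=
      (setIntegral_le_integral hMMi (Eventually.of_forall hMM0)).trans hMMint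
    have h5 : X * (m * z0 ^ (m - 1)) / (a * l) * ∫ t in S, MM t ≤
        X * (m * z0 ^ (m - 1)) / (a * l) * ((r + 1) * ((η + ε) * (l * T))) :=
      mul_le_mul_of_nonneg_left h4 (by positivity)
    have h7 : NN * (κ1 * (l ^ (n + 1) * T)) ≤ NN * ((a ^ (n + 1) * ((1 - 4 * ε) * Zc -
      m * z0 ^ (m - 1) * ((r + 1) * (η + ε) / a))) * (l ^ (n + 1) * T)) :=
      mul_le_mul_of_nonneg_left (mul_le_mul_of_nonneg_right hconst (by positivity)) hNN0.le
    have h8 : NN * ((a ^ (n + 1) * ((1 - 4 * ε) * Zc -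
      m * z0 ^ (m - 1) * ((r + 1) * (η + ε) / a))) * (l ^ (n + 1) * T)) =
        (T - 4 * (ε * T)) * (X * Zc) -
          X * (m * z0 ^ (m - 1)) / (a * l) * ((r + 1) * ((η + ε) * (l * T))) := by
      rw [hX, mul_pow]
      field_simp
    linarith
  have hfin : NN * (κ1 * (l ^ (n + 1) * T)) ≤
      TD n T (fun i => α (c i)) (fun i => β (c i)) * (2 * cc) := hle2.trans (hmain.trans hle1)
  -- conclusion
  have hprod : κr * ∏ i, (β (c i) - α (c i)) ≤ l ^ n * NN := by
    have e1 : l ^ n * NN = ∏ i, (l * (N (c i) : ℝ)) := by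
      rw [Finset.prod_mul_distrib, Finset.prod_const, Finset.card_univ, Fintype.card_fin]
    have hr1 : (1 - κr) / ((n : ℝ) + 1) ≤ 1 := by
      rw [div_le_one (by positivity)]
      linarith
    have hr0 : 0 ≤ 1 - (1 - κr) / ((n : ℝ) + 1) := by linarith
    have h1 : ∏ i, ((1 - (1 - κr) / ((n : ℝ) + 1)) * (β (c i) - α (c i))) ≤
        ∏ i, (l * (N (c i) : ℝ)) := by
      apply Finset.prod_le_prod
      · intro i _
        exact mul_nonneg hr0 (hβα0 (c i))
      · intro i _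
        exact hN2 (c i)
    rw [Finset.prod_mul_distrib, Finset.prod_const, Finset.card_univ, Fintype.card_fin] at h1
    rw [e1]
    refine le_trans ?_ h1
    apply mul_le_mul_of_nonneg_right _ (Finset.prod_nonneg fun i _ => hβα0 (c i))
    have hb := one_add_mul_le_pow (a := -((1 - κr) / ((n : ℝ) + 1))) (by linarith) n
    have h2 : κr ≤ 1 + n * -((1 - κr) / ((n : ℝ) + 1)) := by
      have h3 : (n : ℝ) * ((1 - κr) / ((n : ℝ) + 1)) ≤ 1 - κr :=
        frac_le (Nat.cast_nonneg n) hκr2.le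
      linarith
    have h4 : (1 : ℝ) + -((1 - κr) / ((n : ℝ) + 1)) = 1 - (1 - κr) / ((n : ℝ) + 1) := by ring
    rw [h4] at hb
    exact h2.trans hb
  have hP0 : 0 ≤ ∏ i, (β (c i) - α (c i)) := Finset.prod_nonneg fun i _ => hβα0 (c i)
  have hκκr : κ / κ1 ≤ κr := by rw [hκr]; linarith
  have h9 : κ / κ1 * ∏ i, (β (c i) - α (c i)) ≤ l ^ n * NN :=
    (mul_le_mul_of_nonneg_right hκκr hP0).trans hprod
  have e2 : NN * (κ1 * (l ^ (n + 1) * T)) = κ1 * (l * T) * (l ^ n * NN) := by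
    rw [pow_succ]; ring
  rw [e2] at hfin
  have h8 : κ1 * (l * T) * (κ / κ1 * ∏ i, (β (c i) - α (c i))) ≤
      TD n T (fun i => α (c i)) (fun i => β (c i)) * (2 * cc) :=
    (mul_le_mul_of_nonneg_left h9 (by positivity)).trans hfin
  have e3 : κ1 * (l * T) * (κ / κ1 * ∏ i, (β (c i) - α (c i))) =
      (κ * (∏ i, (β (c i) - α (c i))) * (T * L / (2 * Real.pi))) * (2 * cc) := by
    rw [hcc]
    field_simp
  rw [e3] at h8
  exact le_of_mul_le_mul_right h8 (by positivity)

end Pool.Agent.Helper92.FM
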